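import Pool.Agent.Helper83.GH.Defs
import Pool.Agent.Helper80.GH.Pow2Main

/-!
# GHA-INJ: decomposition from an injective map of cells

Proof. Fix a root and `exists_par`; the map (copy, vertex different from the root) → cell of the edge
to the parent is injective by `hcell`, both sides have `n * n` elements, so it is surjective; now
`Helper80.GH.decomposes_of_cells` with `A x = (x ∉ B)`.
-/

namespace Pool.Agent.Helper83.GH

open Finset Pool.Agent.Helper19.GH

theorem decomposes_of_inj {V : Type} [Fintype V] [DecidableEq V] (T : SimpleGraph V)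
    (hT : T.IsTree) (n : ℕ) (hn : Fintype.card V = n + 1) (B : Finset V)
    (hB : ∀ u w, T.Adj u w → (u ∈ B ↔ w ∉ B))
    {I R C : Type} [Fintype I] [Fintype R] [Fintype C] (hI : Fintype.card I = n)
    (hR : Fintype.card R = n) (hC : Fintype.card C = n) (row : I → V → R) (col : I → V → C)
    (hrow : ∀ k a a', a ∉ B → a' ∉ B → row k a = row k a' → a = a')
    (hcol : ∀ k v v', v ∈ B → v' ∈ B → col k v = col k v' → v = v')
    (hcell : ∀ k k' a a' v v', T.Adj a v → T.Adj a' v' → a ∉ B → a' ∉ B → row k a = row k' a' →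
      col k v = col k' v' → k = k' ∧ a = a' ∧ v = v') :
    Decomposes T (completeBipartiteGraph (Fin n) (Fin n)) := by
  classical
  have hne : Nonempty V := Fintype.card_pos_iff.1 (by omega)
  obtain ⟨r⟩ := hne
  obtain ⟨par, hpar, hedge⟩ := exists_par T hT r
  -- the cell of the edge to the parent
  let cell : I × {x : V // x ≠ r} → R × C := fun p =>
    if p.2.1 ∉ B then (row p.1 p.2.1, col p.1 (par p.2.1)) else (row p.1 (par p.2.1), col p.1 p.2.1)
  have hparB : ∀ x, x ≠ r → (x ∈ B ↔ par x ∉ B) := fun x hx => hB x (par x) (hpar x hx).1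
  have hinj : Function.Injective cell := by
    rintro ⟨k, x, hx⟩ ⟨k', x', hx'⟩ h
    simp only [cell] at h
    obtain ⟨h1, h1'⟩ := hpar x hx
    obtain ⟨h2, h2'⟩ := hpar x' hx'
    by_cases hxB : x ∈ B <;> by_cases hxB' : x' ∈ B
    · rw [if_neg (not_not.2 hxB), if_neg (not_not.2 hxB'), Prod.mk.injEq] at h
      obtain ⟨h3, -, h4⟩ := hcell k k' (par x) (par x') x x' h1.symm h2.symm
        ((hparB x hx).1 hxB) ((hparB x' hx').1 hxB') h.1 h.2
      subst h3 h4
      rfl
    · rw [if_neg (not_not.2 hxB), if_pos hxB', Prod.mk.injEq] at h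
      obtain ⟨-, h4, h5⟩ := hcell k k' (par x) x' x (par x') h1.symm h2
        ((hparB x hx).1 hxB) hxB' h.1 h.2
      rw [h4] at h1'
      rw [← h5] at h2'
      omega
    · rw [if_pos hxB, if_neg (not_not.2 hxB'), Prod.mk.injEq] at h
      obtain ⟨-, h4, h5⟩ := hcell k k' x (par x') (par x) x' h1 h2.symm
        hxB ((hparB x' hx').1 hxB') h.1 h.2
      rw [h5] at h1'
      rw [← h4] at h2'
      omega
    · rw [if_pos hxB, if_pos hxB', Prod.mk.injEq] at h
      obtain ⟨h3, h4, -⟩ := hcell k k' x x' (par x) (par x') h1 h2 hxB hxB' h.1 h.2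
      subst h3 h4
      rfl
  have hcard : Fintype.card (I × {x : V // x ≠ r}) = Fintype.card (R × C) := by
    rw [Fintype.card_prod, Fintype.card_prod, hI, hR, hC, Fintype.card_subtype_compl, hn]
    simp
  have hsurj : Function.Surjective cell :=
    ((Fintype.bijective_iff_injective_and_card cell).2 ⟨hinj, hcard⟩).2
  refine Pool.Agent.Helper80.GH.decomposes_of_cells T r par hn (fun x hx => (hpar x hx).1)
    (fun x => x ∉ B) (fun u w huw => ?_) hI hR hC row col hrow
    (fun k b b' hb hb' => hcol k b b' (not_not.1 hb) (not_not.1 hb')) (fun ρ c => ?_) hedge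
  · have := hB u w huw
    tauto
  · obtain ⟨⟨k, x, hx⟩, h⟩ := hsurj (ρ, c)
    simp only [cell] at h
    by_cases hxB : x ∈ B
    · rw [if_neg (not_not.2 hxB), Prod.mk.injEq] at h
      exact ⟨k, par x, x, (hpar x hx).1.symm, (hparB x hx).1 hxB, not_not.2 hxB, h.1, h.2⟩
    · rw [if_pos hxB, Prod.mk.injEq] at h
      have h2 : par x ∈ B := by
        by_contra h3
        exact hxB ((hparB x hx).2 h3)
      exact ⟨k, x, par x, (hpar x hx).1, hxB, not_not.2 h2, h.1, h.2⟩

end Pool.Agent.Helper83.GH
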