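import Pool.Agent.Helper62.GH.Onto

/-!
Project GH, block GLUE: an operator with all the expected symmetries is in the Lie algebra.
-/

set_option linter.unusedSectionVars false
set_option linter.unusedVariables false

open Matrix Module

namespace GH

open MH

variable {n : Type*} [Fintype n] [DecidableEq n] {m : Type*} [Fintype m] [DecidableEq m]
  {k : Type*} [Fintype k] [DecidableEq k]

variable {L : Submodule ℂ (Matrix n n ℂ)} {ι : Type*} [Fintype ι] [DecidableEq ι] {e : ι → Matrix n n ℂ} {r : ι → ℕ}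
  {w : ∀ i, Matrix n (Fin (r i)) ℂ} {v : ∀ i, Matrix (Fin (r i)) n ℂ}

/-! ### the derived algebra -/

private theorem gl_brk_le (br : ∀ x ∈ L, ∀ y ∈ L, x * y - y * x ∈ L) : brk L ≤ L := by
  unfold brk
  rw [Submodule.span_le]
  rintro z ⟨x, hx, y, hy, rfl⟩
  exact br x hx y hy

private theorem gl_sem_brk {T : Matrix n n ℂ} (hT : Sem L T) {y : Matrix n n ℂ} (hy : y ∈ brk L) :
    y * T = T * y := by
  unfold brk at hy
  induction hy using Submodule.span_induction with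
  | mem z hz =>
    obtain ⟨x, hx, y, hy, rfl⟩ := hz
    obtain ⟨a, ha⟩ := hT x hx
    obtain ⟨b, hb⟩ := hT y hy
    have h1 : x * T = T * x + a • T := by rw [← ha]; abel
    have h2 : y * T = T * y + b • T := by rw [← hb]; abel
    have h3 : x * y * T = T * x * y + a • (T * y) + b • (T * x) + (b * a) • T := by
      rw [mul_assoc, h2, mul_add, mul_smul_comm, ← mul_assoc, h1, add_mul, smul_mul_assoc, smul_add, smul_smul]
      abel
    have h4 : y * x * T = T * y * x + b • (T * x) + a • (T * y) + (b * a) • T := by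
      rw [mul_assoc, h1, mul_add, mul_smul_comm, ← mul_assoc, h2, add_mul, smul_mul_assoc, smul_add, smul_smul,
        mul_comm a b]
      abel
    rw [sub_mul, mul_sub, h3, h4, ← mul_assoc, ← mul_assoc]
    abel
  | zero => simp
  | add x y _ _ h1 h2 => rw [add_mul, mul_add, h1, h2]
  | smul c x _ h1 => rw [smul_mul_assoc, mul_smul_comm, h1]

/-! ### the blocks -/

private theorem gl_idem (D : FD L e r w v) (i : ι) : e i * e i = e i := by
  rw [← D.wv i]
  have h1 : w i * v i * (w i * v i) = w i * (v i * w i) * v i := by simp only [Matrix.mul_assoc]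
  rw [h1, D.vw i, Matrix.mul_one]

private theorem gl_v (D : FD L e r w v) (i : ι) : v i * e i = v i := by
  rw [← D.wv i, ← Matrix.mul_assoc, D.vw i, Matrix.one_mul]

private theorem gl_w (D : FD L e r w v) (i : ι) : e i * w i = w i := by
  rw [← D.wv i, Matrix.mul_assoc, D.vw i, Matrix.mul_one]

private theorem gl_vx (D : FD L e r w v) {i : ι} {x : Matrix n n ℂ} (hx : x * e i = e i * x) :
    v i * x = v i * x * w i * v i := by
  have h1 : v i * x * w i * v i = v i * (x * e i) := by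
    rw [← D.wv i]
    simp only [Matrix.mul_assoc]
  rw [h1, hx, ← Matrix.mul_assoc, gl_v D]

private theorem gl_xe (D : FD L e r w v) {i : ι} {x : Matrix n n ℂ} (hx : x * e i = e i * x) :
    x * e i = w i * (v i * x * w i) * v i := by
  have h1 : w i * (v i * x * w i) * v i = w i * v i * x * (w i * v i) := by
    simp only [Matrix.mul_assoc]
  rw [h1, D.wv, ← hx, mul_assoc, gl_idem D]

private theorem gl_trace (D : FD L e r w v) (i : ι) (x : Matrix n n ℂ) :
    (v i * x * w i).trace = (x * e i).trace := by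
  rw [Matrix.mul_assoc, Matrix.trace_mul_comm, Matrix.mul_assoc, D.wv]

private theorem gl_small (D : FD L e r w v) {i : ι} (hr : r i ≤ 1) {x : Matrix n n ℂ} (hx : x * e i = e i * x)
    (ht : (x * e i).trace = 0) : x * e i = 0 := by
  have hs : Subsingleton (Fin (r i)) := by
    constructor
    intro a b
    apply Fin.ext
    have h1 := a.is_lt
    have h2 := b.is_lt
    omega
  have h0 : v i * x * w i = 0 := by
    rw [← gl_trace D] at ht
    ext a b
    have hab : a = b := Subsingleton.elim a b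
    rw [← hab, Matrix.zero_apply, ← ht, Matrix.trace, Finset.sum_eq_single a]
    · rfl
    · intro c _ hc
      exact absurd (Subsingleton.elim c a) hc
    · intro hc
      exact absurd (Finset.mem_univ a) hc
  rw [gl_xe D hx, h0, Matrix.mul_zero, Matrix.zero_mul]

private theorem gl_sem_e (D : FD L e r w v) (i : ι) : Sem L (e i) := by
  intro x hx
  exact ⟨0, by rw [D.com i x hx, sub_self, zero_smul]⟩

private theorem gl_brk_trace (D : FD L e r w v) (i : ι) {y : Matrix n n ℂ} (hy : y ∈ brk L) :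
    (y * e i).trace = 0 := by
  unfold brk at hy
  induction hy using Submodule.span_induction with
  | mem z hz =>
    obtain ⟨x, hx, y, hy, rfl⟩ := hz
    rw [sub_mul, Matrix.trace_sub, mul_assoc, mul_assoc, D.com i x hx, ← mul_assoc y, Matrix.trace_mul_comm (y * e i),
      sub_self]
  | zero => simp
  | add x y _ _ h1 h2 => rw [add_mul, Matrix.trace_add, h1, h2, add_zero]
  | smul c x _ h1 => rw [smul_mul_assoc, Matrix.trace_smul, h1, smul_zero]

/-- the derived algebra of a block -/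
private theorem gl_cp (D : FD L e r w v) {i : ι} {x : Matrix (Fin (r i)) (Fin (r i)) ℂ}
    (hx : x ∈ brk (cpL (w i) (v i) (L ⊔ Submodule.span ℂ {1}))) : ∃ y ∈ brk L, x = v i * y * w i := by
  unfold brk at hx
  induction hx using Submodule.span_induction with
  | mem z hz =>
    obtain ⟨_, ⟨a, ha, rfl⟩, _, ⟨b, hb, rfl⟩, rfl⟩ := hz
    obtain ⟨l, hl, c', hc', rfl⟩ := Submodule.mem_sup.mp ha
    obtain ⟨c, rfl⟩ := Submodule.mem_span_singleton.mp hc'
    obtain ⟨l', hl', d', hd', rfl⟩ := Submodule.mem_sup.mp hb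
    obtain ⟨d, rfl⟩ := Submodule.mem_span_singleton.mp hd'
    refine ⟨l * l' - l' * l, Submodule.subset_span ⟨l, hl, l', hl', rfl⟩, ?_⟩
    have h1 : ∀ (l : Matrix n n ℂ) (c : ℂ), v i * (l + c • 1) * w i = v i * l * w i + c • 1 := by
      intro l c
      rw [Matrix.mul_add, Matrix.add_mul, Matrix.mul_smul, Matrix.mul_one, Matrix.smul_mul, D.vw]
    have h2 : ∀ l ∈ L, ∀ l' : Matrix n n ℂ, v i * l * w i * (v i * l' * w i) = v i * (l * l') * w i := by
      intro l hl l'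
      have h3 : v i * l * w i * (v i * l' * w i) = v i * (l * (w i * v i)) * (l' * w i) := by
        simp only [Matrix.mul_assoc]
      rw [h3, D.wv, D.com i l hl, ← Matrix.mul_assoc (v i), gl_v D]
      simp only [Matrix.mul_assoc]
    rw [h1, h1, add_mul, mul_add, mul_add, add_mul, mul_add, mul_add, h2 l hl, h2 l' hl', Matrix.mul_sub,
      Matrix.sub_mul]
    simp only [smul_mul_assoc, mul_smul_comm, one_mul, mul_one]
    module
  | zero => exact ⟨0, Submodule.zero_mem _, by simp⟩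
  | add x y _ _ h1 h2 =>
    obtain ⟨a, ha, rfl⟩ := h1
    obtain ⟨b, hb, rfl⟩ := h2
    exact ⟨a + b, Submodule.add_mem _ ha hb, by rw [Matrix.mul_add, Matrix.add_mul]⟩
  | smul c x _ h1 =>
    obtain ⟨a, ha, rfl⟩ := h1
    exact ⟨c • a, Submodule.smul_mem _ _ ha, by rw [Matrix.mul_smul, Matrix.smul_mul]⟩

/-- bilinear forms give semi-invariant operators -/
private theorem gl_form {Q Qi F : Matrix n n ℂ} (hQi : Q * Qi = 1) (hQi' : Qi * Q = 1)
    (hQ : ∀ x ∈ L, xᵀ * Q + Q * x = 0) (hF : ∀ x ∈ L, ∃ c : ℂ, xᵀ * F + F * x = c • F) : Sem L (Qi * F) := by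
  intro x hx
  obtain ⟨c, hc⟩ := hF x hx
  refine ⟨-c, ?_⟩
  have h1 : x * Qi = -(Qi * xᵀ) := by
    have h2 : Qi * (xᵀ * Q + Q * x) * Qi = 0 := by rw [hQ x hx, mul_zero, zero_mul]
    have h3 : Qi * (xᵀ * Q + Q * x) * Qi = Qi * xᵀ * (Q * Qi) + (Qi * Q) * x * Qi := by noncomm_ring
    rw [h3, hQi, hQi', mul_one, one_mul] at h2
    exact (neg_eq_of_add_eq_zero_right h2).symm
  have h4 : x * (Qi * F) - Qi * F * x = -(Qi * (xᵀ * F + F * x)) := by
    rw [← mul_assoc, h1]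
    noncomm_ring
  rw [h4, hc, mul_smul_comm, neg_smul]

/-- an operator that commutes with a form operator and is skew for `Q` is skew for the form -/
private theorem gl_skew {Q Qi F X : Matrix n n ℂ} (hQi : Q * Qi = 1) (hQi' : Qi * Q = 1)
    (hX : Xᵀ * Q + Q * X = 0) (hc : X * (Qi * F) = Qi * F * X) : Xᵀ * F + F * X = 0 := by
  have h1 : Xᵀ = -(Q * X * Qi) := by
    have h2 : (Xᵀ * Q + Q * X) * Qi = 0 := by rw [hX, zero_mul]
    have h3 : (Xᵀ * Q + Q * X) * Qi = Xᵀ * (Q * Qi) + Q * X * Qi := by noncomm_ring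
    rw [h3, hQi, mul_one] at h2
    exact eq_neg_of_add_eq_zero_left h2
  have h4 : Xᵀ * F + F * X = -(Q * (X * (Qi * F))) + F * X := by
    rw [h1]
    noncomm_ring
  have h5 : Q * (Qi * F * X) = (Q * Qi) * F * X := by noncomm_ring
  rw [h4, hc, h5, hQi, one_mul, neg_add_cancel]

/-- on a block the operator is in the derived algebra -/
private theorem gl_block (D : FD L e r w v) {Q Qi : Matrix n n ℂ} (hQi : Q * Qi = 1) (hQi' : Qi * Q = 1)
    (hQ : ∀ x ∈ L, xᵀ * Q + Q * x = 0) {X : Matrix n n ℂ} (h1 : ∀ T, Sem L T → X * T = T * X)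
    (h2 : Xᵀ * Q + Q * X = 0) {i : ι} (ht : (X * e i).trace = 0) (hr : 2 ≤ r i)
    (hty : TyF (cpL (w i) (v i) (L ⊔ Submodule.span ℂ {1}))) : ∃ y ∈ brk L, y * e i = X * e i := by
  have hXe : X * e i = e i * X := h1 _ (gl_sem_e D i)
  obtain ⟨x, hx⟩ : ∃ x, x = v i * X * w i := ⟨_, rfl⟩
  have hmem : x ∈ brk (cpL (w i) (v i) (L ⊔ Submodule.span ℂ {1})) := by
    rcases (brk_ty hty (by rwa [Fintype.card_fin])).2 with h3 | ⟨Q', -, -, h4, h5⟩
    · rw [h3, hx, gl_trace D, ht]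
    · rw [h5]
      have hF : ∀ l ∈ L, ∃ c : ℂ, lᵀ * ((v i)ᵀ * Q' * v i) + (v i)ᵀ * Q' * v i * l = c • ((v i)ᵀ * Q' * v i) := by
        intro l hl
        obtain ⟨c, hc⟩ := h4 (v i * l * w i) ⟨l, Submodule.mem_sup_left hl, rfl⟩
        refine ⟨c, ?_⟩
        have h6 := gl_vx D (D.com i l hl)
        have h7 : lᵀ * (v i)ᵀ = (v i)ᵀ * (v i * l * w i)ᵀ := by
          rw [← Matrix.transpose_mul, h6, Matrix.transpose_mul]
          rw [← h6]
        have h8 : lᵀ * ((v i)ᵀ * Q' * v i) = (v i)ᵀ * ((v i * l * w i)ᵀ * Q') * v i := by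
          have : lᵀ * ((v i)ᵀ * Q' * v i) = (lᵀ * (v i)ᵀ) * Q' * v i := by simp only [Matrix.mul_assoc]
          rw [this, h7]
          simp only [Matrix.mul_assoc]
        have h9 : (v i)ᵀ * Q' * v i * l = (v i)ᵀ * (Q' * (v i * l * w i)) * v i := by
          calc (v i)ᵀ * Q' * v i * l = (v i)ᵀ * Q' * (v i * l) := by simp only [Matrix.mul_assoc]
            _ = (v i)ᵀ * Q' * (v i * l * w i * v i) := by rw [← h6]
            _ = (v i)ᵀ * (Q' * (v i * l * w i)) * v i := by simp only [Matrix.mul_assoc]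
        rw [h8, h9, ← Matrix.add_mul, ← Matrix.mul_add, hc, Matrix.mul_smul, Matrix.smul_mul]
      have h6 := gl_skew hQi hQi' h2 (h1 _ (gl_form hQi hQi' hQ hF))
      have h7 : (w i)ᵀ * (Xᵀ * ((v i)ᵀ * Q' * v i) + (v i)ᵀ * Q' * v i * X) * w i = xᵀ * Q' + Q' * x := by
        rw [hx, Matrix.mul_add, Matrix.add_mul, Matrix.transpose_mul, Matrix.transpose_mul]
        have h8 : (w i)ᵀ * (Xᵀ * ((v i)ᵀ * Q' * v i)) * w i = (w i)ᵀ * (Xᵀ * (v i)ᵀ) * Q' * (v i * w i) := by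
          simp only [Matrix.mul_assoc]
        have h9 : (w i)ᵀ * ((v i)ᵀ * Q' * v i * X) * w i = ((w i)ᵀ * (v i)ᵀ) * Q' * (v i * X * w i) := by
          simp only [Matrix.mul_assoc]
        have h10 : (w i)ᵀ * (v i)ᵀ = 1 := by rw [← Matrix.transpose_mul, D.vw, Matrix.transpose_one]
        rw [h8, h9, h10, D.vw, Matrix.mul_one, Matrix.one_mul]
      rw [← h7, h6, Matrix.mul_zero, Matrix.zero_mul]
  obtain ⟨y, hy, hxy⟩ := gl_cp D hmem
  refine ⟨y, hy, ?_⟩
  rw [gl_xe D (gl_sem_brk (gl_sem_e D i) hy), ← hxy, hx, ← gl_xe D hXe]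

/-! ### the adjoint -/

/-- the adjoint for the Hermitian form given by `B` -/
private def gl_sg (B Bi x : Matrix n n ℂ) : Matrix n n ℂ := Bi * (B * x * Bi)ᴴ * B

private theorem gl_sg_mul {B Bi : Matrix n n ℂ} (hB : B * Bi = 1) (hB' : Bi * B = 1) (x y : Matrix n n ℂ) :
    gl_sg B Bi (x * y) = gl_sg B Bi y * gl_sg B Bi x := by
  unfold gl_sg
  have h1 : B * (x * y) * Bi = (B * x * Bi) * (B * y * Bi) := by
    have : (B * x * Bi) * (B * y * Bi) = B * x * (Bi * B) * y * Bi := by noncomm_ring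
    rw [this, hB', mul_one]
    noncomm_ring
  rw [h1, conjTranspose_mul]
  have h2 : Bi * (B * y * Bi)ᴴ * B * (Bi * (B * x * Bi)ᴴ * B) =
      Bi * (B * y * Bi)ᴴ * (B * Bi) * (B * x * Bi)ᴴ * B := by noncomm_ring
  rw [h2, hB, mul_one]
  noncomm_ring

private theorem gl_sg_sg {B Bi : Matrix n n ℂ} (hB : B * Bi = 1) (hB' : Bi * B = 1) (x : Matrix n n ℂ) :
    gl_sg B Bi (gl_sg B Bi x) = x := by
  unfold gl_sg
  have h1 : B * (Bi * (B * x * Bi)ᴴ * B) * Bi = (B * Bi) * (B * x * Bi)ᴴ * (B * Bi) := by noncomm_ring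
  rw [h1, hB, one_mul, mul_one, conjTranspose_conjTranspose]
  have h2 : Bi * (B * x * Bi) * B = (Bi * B) * x * (Bi * B) := by noncomm_ring
  rw [h2, hB', one_mul, mul_one]

private theorem gl_sg_sub (B Bi x y : Matrix n n ℂ) : gl_sg B Bi (x - y) = gl_sg B Bi x - gl_sg B Bi y := by
  unfold gl_sg
  rw [mul_sub, sub_mul, conjTranspose_sub, mul_sub, sub_mul]

private theorem gl_sg_smul (B Bi : Matrix n n ℂ) (c : ℂ) (x : Matrix n n ℂ) :
    gl_sg B Bi (c • x) = star c • gl_sg B Bi x := by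
  unfold gl_sg
  rw [mul_smul_comm, smul_mul_assoc, conjTranspose_smul, mul_smul_comm, smul_mul_assoc]

private theorem gl_sem_sg {B Bi : Matrix n n ℂ} (hB : B * Bi = 1) (hB' : Bi * B = 1)
    (hst : ∀ x ∈ L, Bi * (B * x * Bi)ᴴ * B ∈ L) {T : Matrix n n ℂ} (hT : Sem L T) : Sem L (gl_sg B Bi T) := by
  intro x hx
  obtain ⟨c, hc⟩ := hT (gl_sg B Bi x) (hst x hx)
  refine ⟨-star c, ?_⟩
  have h1 := congrArg (gl_sg B Bi) hc
  rw [gl_sg_sub, gl_sg_mul hB hB', gl_sg_mul hB hB', gl_sg_sg hB hB', gl_sg_smul] at h1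
  rw [neg_smul, ← h1]
  abel

open scoped ComplexOrder in
private theorem gl_tr {B Bi : Matrix n n ℂ} (hB : B * Bi = 1) (hB' : Bi * B = 1) {T : Matrix n n ℂ} (hT : T ≠ 0) :
    (T * gl_sg B Bi T).trace ≠ 0 := by
  have h1 : (T * gl_sg B Bi T).trace = ((B * T * Bi) * (B * T * Bi)ᴴ).trace := by
    unfold gl_sg
    have h2 : T * (Bi * (B * T * Bi)ᴴ * B) = (T * Bi * (B * T * Bi)ᴴ) * B := by noncomm_ring
    rw [h2, Matrix.trace_mul_comm]
    congr 1
    noncomm_ring
  rw [h1, ne_eq, Matrix.trace_mul_conjTranspose_self_eq_zero_iff]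
  intro h3
  apply hT
  have h4 : Bi * (B * T * Bi) * B = (Bi * B) * T * (Bi * B) := by noncomm_ring
  rw [h3, hB', one_mul, mul_one, mul_zero, zero_mul] at h4
  exact h4.symm

private theorem gl_com {T T' : Matrix n n ℂ} (hT : Sem L T) (hT' : Sem L T') (ht : (T * T').trace ≠ 0) {x : Matrix n n ℂ}
    (hx : x ∈ L) : T * T' * x = x * (T * T') := by
  obtain ⟨a, ha⟩ := hT x hx
  obtain ⟨b, hb⟩ := hT' x hx
  have h1 : x * (T * T') - T * T' * x = (a + b) • (T * T') := by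
    have h2 : x * (T * T') - T * T' * x = (x * T - T * x) * T' + T * (x * T' - T' * x) := by noncomm_ring
    rw [h2, ha, hb, smul_mul_assoc, mul_smul_comm, add_smul]
  have h3 : (x * (T * T') - T * T' * x).trace = 0 := by
    rw [Matrix.trace_sub, Matrix.trace_mul_comm, sub_self]
  rw [h1, Matrix.trace_smul, smul_eq_mul] at h3
  rcases mul_eq_zero.mp h3 with h4 | h4
  · rw [h4, zero_smul] at h1
    exact (sub_eq_zero.mp h1).symm
  · exact absurd h4 ht

/-- left inverses on a block from the adjoint -/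
private theorem gl_inv (D : FD L e r w v) {B Bi : Matrix n n ℂ} (hB : B * Bi = 1) (hB' : Bi * B = 1)
    (hst : ∀ x ∈ L, Bi * (B * x * Bi)ᴴ * B ∈ L) {T : Matrix n n ℂ} (hT : Sem L T) (j : ι) (hj : T * e j ≠ 0) :
    ∃ T', T' * (T * e j) = e j := by
  have hU : Sem L (T * e j) := by
    intro x hx
    obtain ⟨c, hc⟩ := hT x hx
    refine ⟨c, ?_⟩
    rw [mul_assoc T, ← D.com j x hx, ← mul_assoc, ← mul_assoc, ← sub_mul, hc, smul_mul_assoc]
  have hs := gl_sem_sg hB hB' hst hU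
  have ht : (gl_sg B Bi (T * e j) * (T * e j)).trace ≠ 0 := by
    rw [Matrix.trace_mul_comm]
    exact gl_tr hB hB' hj
  obtain ⟨c, hc⟩ := D.min j (gl_sg B Bi (T * e j) * (T * e j)) (fun x hx => gl_com hs hU ht hx)
  have h1 : gl_sg B Bi (T * e j) * (T * e j) * e j = gl_sg B Bi (T * e j) * (T * e j) := by
    rw [mul_assoc, mul_assoc T, gl_idem D]
  have hc0 : c ≠ 0 := by
    rintro rfl
    apply ht
    rw [zero_smul, mul_assoc, h1] at hc
    rw [← h1, Matrix.trace_mul_comm, hc, Matrix.trace_zero]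
  refine ⟨c⁻¹ • (e j * gl_sg B Bi (T * e j)), ?_⟩
  rw [smul_mul_assoc, mul_assoc, ← h1, ← mul_assoc, hc, smul_smul, inv_mul_cancel₀ hc0, one_smul]

/-- GLUE, without an adjoint: it is enough that semi-invariant operators have left inverses on the blocks -/
theorem FD.glue' (br : ∀ x ∈ L, ∀ y ∈ L, x * y - y * x ∈ L) (D : FD L e r w v)
    (hinv : ∀ T, Sem L T → ∀ j, T * e j ≠ 0 → ∃ T', T' * (T * e j) = e j) {Q : Matrix n n ℂ}
    (hQ : ∀ x ∈ L, xᵀ * Q + Q * x = 0) (hQd : IsUnit Q)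
    (hty : ∀ i, 2 ≤ r i → TyF (cpL (w i) (v i) (L ⊔ Submodule.span ℂ {1})))
    (hp : ∀ i j, i ≠ j → 2 ≤ r i → 2 ≤ r j → Prd L (e i) (e j) ∨ Prd L (e j) (e i) ∨ Lnk L (e i) (e j))
    {X : Matrix n n ℂ} (h1 : ∀ T, Sem L T → X * T = T * X) (h2 : Xᵀ * Q + Q * X = 0)
    (h3 : ∀ f : Matrix n n ℂ, (∀ x ∈ L, x * f = f * x) → f * f = f → (X * f).trace = 0) : X ∈ L := by
  classical
  obtain ⟨u, hu⟩ := hQd
  obtain ⟨Qi, hQi, hQi'⟩ : ∃ Qi : Matrix n n ℂ, Q * Qi = 1 ∧ Qi * Q = 1 :=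
    ⟨↑u⁻¹, by rw [← hu]; exact u.mul_inv, by rw [← hu]; exact u.inv_mul⟩
  have htr : ∀ i, (X * e i).trace = 0 := fun i => h3 _ (D.com i) (gl_idem D i)
  have hXe : ∀ i, X * e i = e i * X := fun i => h1 _ (gl_sem_e D i)
  -- the maximal set
  obtain ⟨R, hR, hmax⟩ := Finset.exists_max_image
    ((Finset.univ : Finset (Finset ι)).filter fun R => (∀ i ∈ R, 2 ≤ r i) ∧
      ∀ i ∈ R, ∀ j ∈ R, i ≠ j → Prd L (e i) (e j) ∨ Prd L (e j) (e i)) Finset.card
    ⟨∅, by simp⟩
  rw [Finset.mem_filter] at hR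
  obtain ⟨-, hR2, hRp⟩ := hR
  have hlink : ∀ j, j ∉ R → 2 ≤ r j → ∃ i ∈ R, Lnk L (e j) (e i) := by
    intro j hj hrj
    by_contra hcon
    push Not at hcon
    have h4 : ∀ i ∈ R, Prd L (e i) (e j) ∨ Prd L (e j) (e i) := by
      intro i hi
      have hij : j ≠ i := fun h => hj (h ▸ hi)
      rcases hp j i hij hrj (hR2 i hi) with h5 | h5 | h5
      · exact Or.inr h5
      · exact Or.inl h5
      · exact absurd h5 (hcon i hi)
    have h5 := hmax (insert j R) (by
      rw [Finset.mem_filter]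
      refine ⟨Finset.mem_univ _, ?_, ?_⟩
      · intro i hi
        rcases Finset.mem_insert.mp hi with h6 | h6
        · rw [h6]; exact hrj
        · exact hR2 i h6
      · intro a ha b hb hab
        rcases Finset.mem_insert.mp ha with h6 | h6 <;> rcases Finset.mem_insert.mp hb with h7 | h7
        · exact absurd (h6.trans h7.symm) hab
        · rw [h6]; exact (h4 b h7).symm
        · rw [h7]; exact h4 a h6
        · exact hRp a h6 b h7 hab)
    rw [Finset.card_insert_of_notMem hj] at h5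
    omega
  -- the element of the derived algebra
  have hex : ∀ i, ∃ x ∈ brk L, i ∈ R → x * e i = X * e i ∧ ∀ j ∈ R, j ≠ i → x * e j = 0 := by
    intro i
    by_cases hi : i ∈ R
    · obtain ⟨y, hy, hy'⟩ := gl_block D hQi hQi' hQ h1 h2 (htr i) (hR2 i hi) (hty i (hR2 i hi))
      obtain ⟨x, hx, hx', hx''⟩ := FD.onto br D hty R hR2 hRp hi hy
      exact ⟨x, hx, fun _ => ⟨hx'.trans hy', hx''⟩⟩
    · exact ⟨0, Submodule.zero_mem _, fun h => absurd h hi⟩
  choose f hf hf' using hex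
  have hY : ∑ i ∈ R, f i ∈ brk L := Submodule.sum_mem _ fun i _ => hf i
  have hYe : ∀ i ∈ R, (∑ i ∈ R, f i) * e i = X * e i := by
    intro i hi
    rw [Finset.sum_mul, Finset.sum_eq_single i, (hf' i hi).1]
    · intro j hj hji
      exact (hf' j hj).2 i hi (Ne.symm hji)
    · intro h; exact absurd hi h
  obtain ⟨Y, hYdef⟩ : ∃ Y, Y = ∑ i ∈ R, f i := ⟨_, rfl⟩
  rw [← hYdef] at hY hYe
  obtain ⟨Z, hZ⟩ : ∃ Z, Z = X - Y := ⟨_, rfl⟩
  have hZT : ∀ T, Sem L T → Z * T = T * Z := by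
    intro T hT
    rw [hZ, sub_mul, mul_sub, h1 T hT, gl_sem_brk hT hY]
  have hZe : ∀ i, Z * e i = e i * Z := fun i => hZT _ (gl_sem_e D i)
  have hZQ : Zᵀ * Q + Q * Z = 0 := by
    have h4 := hQ Y (gl_brk_le br hY)
    rw [hZ, Matrix.transpose_sub, sub_mul, mul_sub]
    have h5 : Xᵀ * Q - Yᵀ * Q + (Q * X - Q * Y) = (Xᵀ * Q + Q * X) - (Yᵀ * Q + Q * Y) := by abel
    rw [h5, h2, h4, sub_zero]
  have hZR : ∀ i ∈ R, Z * e i = 0 := by
    intro i hi
    rw [hZ, sub_mul, hYe i hi, sub_self]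
  have hZ0 : ∀ j, Z * e j = 0 := by
    intro j
    by_cases hj : j ∈ R
    · exact hZR j hj
    by_cases hr : r j ≤ 1
    · rw [hZ, sub_mul, gl_small D hr (hXe j) (htr j),
        gl_small D hr (gl_sem_brk (gl_sem_e D j) hY) (gl_brk_trace D j hY), sub_zero]
    obtain ⟨i, hi, hl⟩ := hlink j hj (by omega)
    have key : ∀ T, Sem L T → T ≠ 0 → T * e j = T → T * Z = 0 → Z * e j = 0 := by
      intro T hT hT0 hTe hTZ
      obtain ⟨T', hT'⟩ := hinv T hT j (by rw [hTe]; exact hT0)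
      rw [hTe] at hT'
      rw [hZe j, ← hT', mul_assoc, hTZ, mul_zero]
    rcases hl with ⟨T, hT0, hT1, hT2, hTs⟩ | ⟨F, hF0, hF1, hF2, hFs⟩
    · exact key T hTs hT0 hT2 (by rw [← hZT T hTs, ← hT1, ← mul_assoc, hZR i hi, zero_mul])
    · have hs := gl_form hQi hQi' hQ hFs
      have h5 := gl_skew hQi hQi' hZQ (hZT _ hs)
      have h4 : Zᵀ * F = 0 := by
        have h6 : Zᵀ * (e i)ᵀ = 0 := by
          rw [← Matrix.transpose_mul, ← hZe i, hZR i hi, Matrix.transpose_zero]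
        rw [← hF1, ← mul_assoc, h6, zero_mul]
      rw [h4, zero_add] at h5
      refine key (Qi * F) hs ?_ (by rw [mul_assoc, hF2]) (by rw [mul_assoc, h5, mul_zero])
      intro h7
      apply hF0
      have h8 : Q * (Qi * F) = F := by rw [← mul_assoc, hQi, one_mul]
      rw [← h8, h7, mul_zero]
  have hZz : Z = 0 := by
    calc Z = Z * ∑ i, e i := by rw [D.sum, mul_one]
      _ = 0 := by rw [Finset.mul_sum]; exact Finset.sum_eq_zero fun j _ => hZ0 j
  have hXY : X = Y := by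
    rw [hZ] at hZz
    exact sub_eq_zero.mp hZz
  rw [hXY]
  exact gl_brk_le br hY

/-- GLUE -/
theorem FD.glue (br : ∀ x ∈ L, ∀ y ∈ L, x * y - y * x ∈ L) (D : FD L e r w v) {B Bi Q : Matrix n n ℂ} (hB : B * Bi = 1)
    (hB' : Bi * B = 1) (hst : ∀ x ∈ L, Bi * (B * x * Bi)ᴴ * B ∈ L) (hQ : ∀ x ∈ L, xᵀ * Q + Q * x = 0) (hQd : IsUnit Q)
    (hty : ∀ i, 2 ≤ r i → TyF (cpL (w i) (v i) (L ⊔ Submodule.span ℂ {1})))
    (hp : ∀ i j, i ≠ j → 2 ≤ r i → 2 ≤ r j → Prd L (e i) (e j) ∨ Prd L (e j) (e i) ∨ Lnk L (e i) (e j))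
    {X : Matrix n n ℂ} (h1 : ∀ T, Sem L T → X * T = T * X) (h2 : Xᵀ * Q + Q * X = 0)
    (h3 : ∀ f : Matrix n n ℂ, (∀ x ∈ L, x * f = f * x) → f * f = f → (X * f).trace = 0) : X ∈ L :=
  FD.glue' br D (fun T hT j hj => gl_inv D hB hB' hst hT j hj) hQ hQd hty hp h1 h2 h3

end GH
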