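import Pool.Agent.Helper83.GH.Lift
import Pool.Agent.Helper83.GH.Inj

/-!
# GHA-C0: two types of copies without flexible leaves outside `B`

Proof. `n = M₁ w₁ + M₂ w₂`; copies and rows `ZMod (M₁ w₁) ⊕ ZMod (M₂ w₂)`, columns `Fin n`. For the type
`i`: labels `f` by `lift`, a bijection of `(Fin G × ZMod M) ⊕ U` with `Fin n` (`hcount`). Copy `k` of the
type `i`: `a ↦ k + f a` in the block `i`, `v ∈ B \ U` ↦ the column of `(g v, red k + o v)`, `u ∈ U` ↦
its own column. Cells: a cell of a column of `U` determines `u`, so `a`, so `k`; a cell of a column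
`(γ, p)` determines `g v = γ` and `F a - o v`, by `hinj` `(v, a)`, so `k`. `decomposes_of_inj`.
-/

namespace Pool.Agent.Helper83.GH

open Finset Pool.Agent.Helper19.GH

/-- One type of copies (helper48). -/
theorem couple0_type (V : Type) [Fintype V] [DecidableEq V] (T : SimpleGraph V) [DecidableRel T.Adj]
    (n : ℕ) (hn : Fintype.card V = n + 1) (hn0 : 0 < n) (B : Finset V)
    (hB : ∀ u w, T.Adj u w → (u ∈ B ↔ w ∉ B)) (M w : ℕ) [NeZero (M * w)]
    {G X : ℕ} {F : V → ZMod M} {g : V → ℕ} {o : V → ZMod M} {U : Finset V}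
    (h : IsK T B ∅ M G X F g o U)
    (hN : ∀ ρ, (univ.filter fun a : V => a ∉ B ∧ F a = ρ).card ≤ w) :
    ∃ (row : ZMod (M * w) → V → ZMod (M * w)) (col : ZMod (M * w) → V → Fin n),
      (∀ k a a', a ∉ B → a' ∉ B → row k a = row k a' → a = a') ∧
      (∀ k v v', v ∈ B → v' ∈ B → col k v = col k v' → v = v') ∧
      (∀ k k' a a' v v', T.Adj a v → T.Adj a' v' → a ∉ B → a' ∉ B → row k a = row k' a' →
        col k v = col k' v' → k = k' ∧ a = a' ∧ v = v') := by
  classical
  have hM : M ≠ 0 := fun h0 => NeZero.ne (M * w) (by rw [h0, Nat.zero_mul])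
  haveI : NeZero M := ⟨hM⟩
  obtain ⟨f, hf1, hf2⟩ := lift M w F (univ.filter fun a : V => a ∉ B) (by
    intro ρ
    rw [Finset.filter_filter]
    exact hN ρ)
  have hA : ∀ a, a ∉ B → a ∈ (univ.filter fun a : V => a ∉ B) := fun a ha =>
    Finset.mem_filter.mpr ⟨Finset.mem_univ _, ha⟩
  have hcard : Fintype.card ((Fin G × ZMod M) ⊕ U) = n := by
    rw [Fintype.card_sum, Fintype.card_prod, Fintype.card_fin, ZMod.card, Fintype.card_coe]
    have := h.hcount
    rw [Finset.card_empty] at this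
    omega
  let φ : ((Fin G × ZMod M) ⊕ U) ≃ Fin n := Fintype.equivFinOfCardEq hcard
  let row : ZMod (M * w) → V → ZMod (M * w) := fun k a => k + f a
  let col : ZMod (M * w) → V → Fin n := fun k v =>
    if hu : v ∈ U then φ (Sum.inr ⟨v, hu⟩) else
      if hg : g v < G then φ (Sum.inl (⟨g v, hg⟩, red M w k + o v)) else ⟨0, hn0⟩
  -- equality of two columns
  have key : ∀ k k' v v', v ∈ B → v' ∈ B → col k v = col k' v' →
      (v ∈ U ∧ v = v') ∨ (v ∉ U ∧ v' ∉ U ∧ g v = g v' ∧ red M w k + o v = red M w k' + o v') := by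
    intro k k' v v' hv hv' hcol
    by_cases hu : v ∈ U
    · left
      refine ⟨hu, ?_⟩
      by_cases hu' : v' ∈ U
      · simp only [col, dif_pos hu, dif_pos hu'] at hcol
        have h1 := φ.injective hcol
        have h2 := Sum.inr.inj h1
        exact congrArg Subtype.val h2
      · have hg' := h.hg v' hv' hu'
        simp only [col, dif_pos hu, dif_neg hu', dif_pos hg'] at hcol
        have h1 := φ.injective hcol
        exact absurd h1 (by simp)
    · right
      have hg := h.hg v hv hu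
      by_cases hu' : v' ∈ U
      · simp only [col, dif_neg hu, dif_pos hu', dif_pos hg] at hcol
        have h1 := φ.injective hcol
        exact absurd h1 (by simp)
      · have hg' := h.hg v' hv' hu'
        simp only [col, dif_neg hu, dif_neg hu', dif_pos hg, dif_pos hg'] at hcol
        have h1 := Sum.inl.inj (φ.injective hcol)
        have h2 := (Prod.mk.injEq _ _ _ _).mp h1
        refine ⟨hu, hu', ?_, h2.2⟩
        have h3 := congrArg Fin.val h2.1
        exact h3
  refine ⟨row, col, ?_, ?_, ?_⟩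
  · intro k a a' ha ha' hr
    exact hf2 (hA a ha) (hA a' ha') (add_left_cancel hr)
  · intro k v v' hv hv' hcol
    rcases key k k v v' hv hv' hcol with ⟨_, h1⟩ | ⟨h1, h2, h3, h4⟩
    · exact h1
    · exact h.hoff v hv h1 v' hv' h2 h3 (add_left_cancel h4)
  · intro k k' a a' v v' hav hav' ha ha' hr hcol
    have hv : v ∈ B := by
      by_contra hc
      exact ha ((hB a v hav).mpr hc)
    have hv' : v' ∈ B := by
      by_contra hc
      exact ha' ((hB a' v' hav').mpr hc)
    have hr' : k + f a = k' + f a' := hr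
    rcases key k k' v v' hv hv' hcol with ⟨h0, h1⟩ | ⟨h1, h2, h3, h4⟩
    · have hdeg := (h.hU v h0).2
      obtain ⟨b, _, hb⟩ := SimpleGraph.degree_eq_one_iff_existsUnique_adj.mp hdeg
      subst h1
      have h5 : a = a' := (hb a hav.symm).trans (hb a' hav'.symm).symm
      subst h5
      exact ⟨add_right_cancel hr', rfl, rfl⟩
    · have h5 : red M w k + F a = red M w k' + F a' := by
        have h6 := congrArg (red M w) hr'
        rw [map_add, map_add, hf1 a (hA a ha), hf1 a' (hA a' ha')] at h6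
        exact h6
      have h7 : F a - o v = F a' - o v' := by
        have h8 : (red M w k + F a) - (red M w k + o v) = (red M w k' + F a') - (red M w k' + o v') := by
          rw [h5, h4]
        rw [add_sub_add_left_eq_sub, add_sub_add_left_eq_sub] at h8
        exact h8
      obtain ⟨h9, h10⟩ := h.hinj v hv h1 v' hv' h2 a a' hav.symm (Finset.notMem_empty _) hav'.symm
        (Finset.notMem_empty _) h3 h7
      subst h9
      subst h10
      exact ⟨add_right_cancel hr', rfl, rfl⟩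

theorem couple0 (V : Type) [Fintype V] [DecidableEq V] (T : SimpleGraph V) [DecidableRel T.Adj]
    (hT : T.IsTree) (n : ℕ) (hn : Fintype.card V = n + 1) (B : Finset V)
    (hB : ∀ u w, T.Adj u w → (u ∈ B ↔ w ∉ B)) (M₁ w₁ M₂ w₂ : ℕ) (hm : M₁ * w₁ + M₂ * w₂ = n)
    [NeZero (M₁ * w₁)] [NeZero (M₂ * w₂)]
    {G₁ X₁ : ℕ} {F₁ : V → ZMod M₁} {g₁ : V → ℕ} {o₁ : V → ZMod M₁} {U₁ : Finset V}
    (h₁ : IsK T B ∅ M₁ G₁ X₁ F₁ g₁ o₁ U₁)
    {G₂ X₂ : ℕ} {F₂ : V → ZMod M₂} {g₂ : V → ℕ} {o₂ : V → ZMod M₂} {U₂ : Finset V}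
    (h₂ : IsK T B ∅ M₂ G₂ X₂ F₂ g₂ o₂ U₂)
    (hN₁ : ∀ ρ, (univ.filter fun a : V => a ∉ B ∧ F₁ a = ρ).card ≤ w₁)
    (hN₂ : ∀ ρ, (univ.filter fun a : V => a ∉ B ∧ F₂ a = ρ).card ≤ w₂) :
    Decomposes T (completeBipartiteGraph (Fin n) (Fin n)) := by
  classical
  have hn0 : 0 < n := by
    have := NeZero.pos (M₁ * w₁)
    omega
  obtain ⟨row₁, col₁, a₁, b₁, c₁⟩ := couple0_type V T n hn hn0 B hB M₁ w₁ h₁ hN₁
  obtain ⟨row₂, col₂, a₂, b₂, c₂⟩ := couple0_type V T n hn hn0 B hB M₂ w₂ h₂ hN₂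
  have hcard : Fintype.card (ZMod (M₁ * w₁) ⊕ ZMod (M₂ * w₂)) = n := by
    rw [Fintype.card_sum, ZMod.card, ZMod.card, hm]
  refine decomposes_of_inj T hT n hn B hB (I := ZMod (M₁ * w₁) ⊕ ZMod (M₂ * w₂))
    (R := ZMod (M₁ * w₁) ⊕ ZMod (M₂ * w₂)) (C := Fin n) hcard hcard (Fintype.card_fin n)
    (fun k a => Sum.elim (fun k => Sum.inl (row₁ k a)) (fun k => Sum.inr (row₂ k a)) k)
    (fun k v => Sum.elim (fun k => col₁ k v) (fun k => col₂ k v) k) ?_ ?_ ?_
  · rintro (k | k) a a' ha ha' hr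
    · exact a₁ k a a' ha ha' (Sum.inl.inj hr)
    · exact a₂ k a a' ha ha' (Sum.inr.inj hr)
  · rintro (k | k) v v' hv hv' hc
    · exact b₁ k v v' hv hv' hc
    · exact b₂ k v v' hv hv' hc
  · rintro (k | k) (k' | k') a a' v v' hav hav' ha ha' hr hc
    · obtain ⟨h1, h2, h3⟩ := c₁ k k' a a' v v' hav hav' ha ha' (Sum.inl.inj hr) hc
      exact ⟨by rw [h1], h2, h3⟩
    · simp at hr
    · simp at hr
    · obtain ⟨h1, h2, h3⟩ := c₂ k k' a a' v v' hav hav' ha ha' (Sum.inr.inj hr) hc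
      exact ⟨by rw [h1], h2, h3⟩

end Pool.Agent.Helper83.GH
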