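import Mathlib

/-!
# GHA-REG: a `q`-regular bipartite multigraph is the union of `q` perfect matchings

Proof. Induction on `q`. If `q > 0`, `|X| = |Y|` (both are `|E| / q`); Hall's condition for
`x`-vertices and their `y`-neighbours holds (a set `S` of `x`-vertices has `q |S|` edges, which end
in at least `|S|` `y`-vertices); Hall's marriage theorem
(`Finset.all_card_le_biUnion_card_iff_exists_injective`) gives an injection `X → Y` along edges, choose
an edge for every `x`-vertex: a perfect matching. Give it the last colour, remove it (subtype).
-/

namespace Pool.Agent.Helper83.GH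

open Finset

theorem card_fib67 {E X : Type} [Fintype E] [DecidableEq X] (x : E → X) (q : ℕ)
    (hx : ∀ v, (univ.filter fun e => x e = v).card = q) (s : Finset X) :
    (univ.filter fun e => x e ∈ s).card = s.card * q := by
  have h := Finset.card_eq_sum_card_fiberwise (f := x) (s := univ.filter fun e => x e ∈ s)
    (t := s) (by intro e he; simpa using he)
  rw [h]
  refine Finset.sum_const_nat fun v hv => ?_
  rw [← hx v]
  congr 1
  ext e
  simp only [mem_filter, mem_univ, true_and, and_iff_right_iff_imp]
  rintro rfl
  exact hv

/-- A perfect matching in a regular bipartite multigraph of positive degree. -/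
theorem exists_pm67 {E X Y : Type} [Fintype E] [Fintype X] [Fintype Y]
    [DecidableEq X] [DecidableEq Y] (x : E → X) (y : E → Y) (q : ℕ)
    (hx : ∀ v, (univ.filter fun e => x e = v).card = q + 1)
    (hy : ∀ v, (univ.filter fun e => y e = v).card = q + 1) :
    ∃ (m : X → E) (g : Y → X), (∀ v, x (m v) = v) ∧ (∀ w, y (m (g w)) = w) ∧
      ∀ v, g (y (m v)) = v := by
  have hall : ∀ s : Finset X, s.card ≤
      (s.biUnion fun v => (univ.filter fun e => x e = v).image y).card := by
    intro s
    have h1 := card_fib67 x (q + 1) hx s
    have h2 := card_fib67 y (q + 1) hy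
      (s.biUnion fun v => (univ.filter fun e => x e = v).image y)
    have h3 : (univ.filter fun e => x e ∈ s).card ≤ (univ.filter fun e => y e ∈
        (s.biUnion fun v => (univ.filter fun e => x e = v).image y)).card := by
      apply Finset.card_le_card
      intro e he
      simp only [mem_filter, mem_univ, true_and] at he
      simp only [mem_filter, mem_univ, true_and, mem_biUnion, mem_image]
      exact ⟨x e, he, e, rfl, rfl⟩
    rw [h1, h2] at h3
    exact Nat.le_of_mul_le_mul_right h3 (Nat.succ_pos q)
  obtain ⟨f, hf, hft⟩ := (Finset.all_card_le_biUnion_card_iff_exists_injective _).1 hall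
  have hXY : Fintype.card X = Fintype.card Y := by
    have h1 := card_fib67 x (q + 1) hx univ
    have h2 := card_fib67 y (q + 1) hy univ
    simp only [mem_univ, Finset.filter_true, Finset.card_univ] at h1 h2
    rw [h1] at h2
    exact Nat.eq_of_mul_eq_mul_right (Nat.succ_pos q) h2
  have hbij : Function.Bijective f := (Fintype.bijective_iff_injective_and_card f).2 ⟨hf, hXY⟩
  have hm : ∀ v, ∃ e, x e = v ∧ y e = f v := by
    intro v
    have := hft v
    simp only [mem_image, mem_filter, mem_univ, true_and] at this
    exact this
  choose m hm1 hm2 using hm
  refine ⟨m, (Equiv.ofBijective f hbij).symm, hm1, ?_, ?_⟩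
  · intro w
    rw [hm2]
    exact (Equiv.ofBijective f hbij).apply_symm_apply w
  · intro v
    rw [hm2]
    exact (Equiv.ofBijective f hbij).symm_apply_apply v

theorem regular_coloring {E X Y : Type} [Fintype E] [Fintype X] [Fintype Y] [DecidableEq E]
    [DecidableEq X] [DecidableEq Y] (x : E → X) (y : E → Y) (q : ℕ)
    (hx : ∀ v, (univ.filter fun e => x e = v).card = q)
    (hy : ∀ v, (univ.filter fun e => y e = v).card = q) :
    ∃ c : E → Fin q, (∀ e e', x e = x e' → c e = c e' → e = e') ∧
      ∀ e e', y e = y e' → c e = c e' → e = e' := by
  induction q generalizing E with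
  | zero =>
    have hE : IsEmpty E := by
      constructor
      intro e
      have h := hx (x e)
      rw [Finset.card_eq_zero] at h
      have : e ∈ (univ.filter fun e' => x e' = x e) := by simp
      rw [h] at this
      simp at this
    exact ⟨fun e => hE.elim e, fun e => hE.elim e, fun e => hE.elim e⟩
  | succ q ih =>
    obtain ⟨m, g, hm, hg, hg'⟩ := exists_pm67 x y q hx hy
    have hcx : ∀ v, (univ.filter fun e : {e : E // e ≠ m (x e)} => x e.1 = v).card = q := by
      intro v
      have h1 : ((univ.filter fun e : {e : E // e ≠ m (x e)} => x e.1 = v).map
          (Function.Embedding.subtype _)) = (univ.filter fun e => x e = v).erase (m v) := by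
        ext e
        simp only [mem_map, mem_filter, mem_univ, true_and, Function.Embedding.subtype_apply,
          Subtype.exists, mem_erase]
        constructor
        · rintro ⟨a, ha, hv, rfl⟩
          refine ⟨?_, hv⟩
          rw [hv] at ha
          exact ha
        · rintro ⟨h, hv⟩
          refine ⟨e, ?_, hv, rfl⟩
          rw [hv]
          exact h
      have h2 := congrArg Finset.card h1
      rw [Finset.card_map, Finset.card_erase_of_mem (by simp [hm v]), hx v] at h2
      simpa using h2
    have hcy : ∀ w, (univ.filter fun e : {e : E // e ≠ m (x e)} => y e.1 = w).card = q := by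
      intro w
      have h1 : ((univ.filter fun e : {e : E // e ≠ m (x e)} => y e.1 = w).map
          (Function.Embedding.subtype _)) = (univ.filter fun e => y e = w).erase (m (g w)) := by
        ext e
        simp only [mem_map, mem_filter, mem_univ, true_and, Function.Embedding.subtype_apply,
          Subtype.exists, mem_erase]
        constructor
        · rintro ⟨a, ha, hv, rfl⟩
          refine ⟨?_, hv⟩
          rintro hh
          apply ha
          have : x a = g w := by rw [hh, hm]
          rw [this]
          exact hh
        · rintro ⟨h, hv⟩
          refine ⟨e, ?_, hv, rfl⟩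
          intro hh
          apply h
          have h3 : y (m (x e)) = w := by rw [← hh]; exact hv
          have h4 : g w = x e := by rw [← h3, hg']
          rw [h4]
          exact hh
      have h2 := congrArg Finset.card h1
      rw [Finset.card_map, Finset.card_erase_of_mem (by simp [hg w]), hy w] at h2
      simpa using h2
    obtain ⟨c, hc1, hc2⟩ := ih (E := {e : E // e ≠ m (x e)}) (fun e => x e.1) (fun e => y e.1)
      hcx hcy
    refine ⟨fun e => if h : e ≠ m (x e) then (c ⟨e, h⟩).castSucc else Fin.last q, ?_, ?_⟩
    · intro e e' hxe hce
      by_cases h : e ≠ m (x e) <;> by_cases h' : e' ≠ m (x e')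
      · simp only [dif_pos h, dif_pos h'] at hce
        have := hc1 ⟨e, h⟩ ⟨e', h'⟩ hxe (Fin.castSucc_injective _ hce)
        exact congrArg Subtype.val this
      · simp only [dif_pos h, dif_neg h'] at hce
        exact absurd hce (Fin.castSucc_lt_last _).ne
      · simp only [dif_neg h, dif_pos h'] at hce
        exact absurd hce.symm (Fin.castSucc_lt_last _).ne
      · simp only [ne_eq, not_not] at h h'
        rw [h, h', hxe]
    · intro e e' hye hce
      by_cases h : e ≠ m (x e) <;> by_cases h' : e' ≠ m (x e')
      · simp only [dif_pos h, dif_pos h'] at hce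
        have := hc2 ⟨e, h⟩ ⟨e', h'⟩ hye (Fin.castSucc_injective _ hce)
        exact congrArg Subtype.val this
      · simp only [dif_pos h, dif_neg h'] at hce
        exact absurd hce (Fin.castSucc_lt_last _).ne
      · simp only [dif_neg h, dif_pos h'] at hce
        exact absurd hce.symm (Fin.castSucc_lt_last _).ne
      · simp only [ne_eq, not_not] at h h'
        have h1 : x e = g (y e) := by
          conv_rhs => rw [h]
          exact (hg' _).symm
        have h2 : x e' = g (y e') := by
          conv_rhs => rw [h']
          exact (hg' _).symm
        rw [h, h', h1, h2, hye]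

end Pool.Agent.Helper83.GH
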