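import Pool.Agent.Helper83.GH.Inj
import Pool.Agent.Helper83.GH.Reg

/-!
# GHC-ASM: adding the removed leaves in extra columns

In the copy `k` the leaves `Rm k` (always `z` of them) are left out; the rest is placed in `N` columns by
`row`, `col`, and no cell is used twice. The cells of the remaining `z` columns are filled by the
leaves left out: the pairs (copy, left out leaf) are the edges of a bipartite multigraph between the
copies and the rows (row of the neighbour `nl u` of the leaf), regular of degree `z` by `hRm` and `h4`; by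
`regular_coloring` its edges have a proper colouring `χ` with `z` colours = the new columns.

Proof. Take `E = Σ k : I, {u // u ∈ Rm k}` (or the subtype of `I × V`), `x = copy`, `y = row k (nl u)`,
`regular_coloring x y z`. Then `decomposes_of_inj` with `C = Fin N ⊕ Fin z`,
`col' k v = if v ∈ Rm k then Sum.inr (χ (k, v)) else Sum.inl (col k v)`, same `row`.
Columns of a copy are different: `h2`, properness at the copies. Cells: edges `(a, v)`, `(a', v')`: both
not left out: `h3`; both left out: `a = nl v`, `a' = nl v'` (a leaf has one neighbour), same row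
and same colour, properness at the rows gives the same element of `E`; mixed: `inl ≠ inr`.
-/

namespace Pool.Agent.Helper83.GH

open Finset Pool.Agent.Helper19.GH

theorem assemble {V : Type} [Fintype V] [DecidableEq V] (T : SimpleGraph V) [DecidableRel T.Adj]
    (hT : T.IsTree) (n : ℕ) (hn : Fintype.card V = n + 1) (B : Finset V)
    (hB : ∀ u w, T.Adj u w → (u ∈ B ↔ w ∉ B))
    {I Rw : Type} [Fintype I] [DecidableEq I] [Fintype Rw] [DecidableEq Rw]
    (hI : Fintype.card I = n) (hRw : Fintype.card Rw = n) (N z : ℕ) (hNz : N + z = n)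
    (Rm : I → Finset V) (hRm : ∀ k, (Rm k).card = z) (nl : V → V)
    (hRl : ∀ k, ∀ u ∈ Rm k, u ∈ B ∧ T.degree u = 1 ∧ T.Adj u (nl u))
    (row : I → V → Rw) (col : I → V → Fin N)
    (h1 : ∀ k a a', a ∉ B → a' ∉ B → row k a = row k a' → a = a')
    (h2 : ∀ k v v', v ∈ B → v ∉ Rm k → v' ∈ B → v' ∉ Rm k → col k v = col k v' → v = v')
    (h3 : ∀ k k' a a' v v', T.Adj a v → T.Adj a' v' → a ∉ B → a' ∉ B → v ∉ Rm k → v' ∉ Rm k' →
      row k a = row k' a' → col k v = col k' v' → k = k' ∧ a = a' ∧ v = v')
    (h4 : ∀ ρ, ((univ ×ˢ univ).filter fun p : I × V => p.2 ∈ Rm p.1 ∧ row p.1 (nl p.2) = ρ).card =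
      z) :
    Decomposes T (completeBipartiteGraph (Fin n) (Fin n)) := by
  classical
  let x : {p : I × V // p.2 ∈ Rm p.1} → I := fun e => e.1.1
  let y : {p : I × V // p.2 ∈ Rm p.1} → Rw := fun e => row e.1.1 (nl e.1.2)
  have hx : ∀ k, (univ.filter fun e => x e = k).card = z := by
    intro k
    rw [← hRm k]
    refine Finset.card_bij (fun e _ => e.1.2) ?_ ?_ ?_
    · rintro ⟨⟨k', v⟩, hv⟩ he
      simp only [x, mem_filter, mem_univ, true_and] at he
      subst he
      exact hv
    · rintro ⟨⟨k₁, v₁⟩, hv₁⟩ he₁ ⟨⟨k₂, v₂⟩, hv₂⟩ he₂ h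
      simp only [x, mem_filter, mem_univ, true_and] at he₁ he₂ h
      subst he₁ he₂ h
      rfl
    · intro v hv
      exact ⟨⟨(k, v), hv⟩, by simp [x], rfl⟩
  have hy : ∀ ρ, (univ.filter fun e => y e = ρ).card = z := by
    intro ρ
    rw [← h4 ρ]
    refine Finset.card_bij (fun e _ => e.1) ?_ ?_ ?_
    · rintro ⟨⟨k', v⟩, hv⟩ he
      simp only [y, mem_filter, mem_univ, true_and] at he
      simp only [mem_filter, mem_product, mem_univ, true_and]
      exact ⟨hv, he⟩
    · rintro e₁ _ e₂ _ h
      exact Subtype.ext h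
    · rintro p hp
      simp only [mem_filter, mem_product, mem_univ, true_and] at hp
      exact ⟨⟨p, hp.1⟩, by simpa [y] using hp.2, rfl⟩
  obtain ⟨χ, hχ1, hχ2⟩ := regular_coloring x y z hx hy
  have huniq : ∀ v a b, T.degree v = 1 → T.Adj v a → T.Adj v b → a = b := by
    intro v a b hd ha hb
    exact (SimpleGraph.degree_eq_one_iff_existsUnique_adj.1 hd).unique ha hb
  let col' : I → V → Fin N ⊕ Fin z := fun k v =>
    if h : v ∈ Rm k then Sum.inr (χ ⟨(k, v), h⟩) else Sum.inl (col k v)
  have hin : ∀ k v (h : v ∈ Rm k), col' k v = Sum.inr (χ ⟨(k, v), h⟩) := fun k v h => dif_pos h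
  have hout : ∀ k v, v ∉ Rm k → col' k v = Sum.inl (col k v) := fun k v h => dif_neg h
  refine decomposes_of_inj T hT n hn B hB (C := Fin N ⊕ Fin z) hI hRw
    (by rw [Fintype.card_sum, Fintype.card_fin, Fintype.card_fin]; exact hNz) row col' h1 ?_ ?_
  · intro k v v' hv hv' h
    by_cases hm : v ∈ Rm k <;> by_cases hm' : v' ∈ Rm k
    · rw [hin k v hm, hin k v' hm'] at h
      have h5 := hχ1 ⟨(k, v), hm⟩ ⟨(k, v'), hm'⟩ rfl (Sum.inr_injective h)
      exact congrArg (fun e => e.1.2) h5
    · rw [hin k v hm, hout k v' hm'] at h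
      exact absurd h Sum.inr_ne_inl
    · rw [hout k v hm, hin k v' hm'] at h
      exact absurd h Sum.inl_ne_inr
    · rw [hout k v hm, hout k v' hm'] at h
      exact h2 k v v' hv hm hv' hm' (Sum.inl_injective h)
  · intro k k' a a' v v' hav hav' ha ha' hrow hcol
    by_cases hm : v ∈ Rm k <;> by_cases hm' : v' ∈ Rm k'
    · rw [hin k v hm, hin k' v' hm'] at hcol
      obtain ⟨-, hd, hnl⟩ := hRl k v hm
      obtain ⟨-, hd', hnl'⟩ := hRl k' v' hm'
      have h5 : a = nl v := huniq v a (nl v) hd hav.symm hnl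
      have h6 : a' = nl v' := huniq v' a' (nl v') hd' hav'.symm hnl'
      have h7 := hχ2 ⟨(k, v), hm⟩ ⟨(k', v'), hm'⟩ (by
        simp only [y]
        rw [← h5, ← h6]
        exact hrow) (Sum.inr_injective hcol)
      have h8 : k = k' := congrArg (fun e => e.1.1) h7
      have h9 : v = v' := congrArg (fun e => e.1.2) h7
      exact ⟨h8, by rw [h5, h6, h9], h9⟩
    · rw [hin k v hm, hout k' v' hm'] at hcol
      exact absurd hcol Sum.inr_ne_inl
    · rw [hout k v hm, hin k' v' hm'] at hcol
      exact absurd hcol Sum.inl_ne_inr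
    · rw [hout k v hm, hout k' v' hm'] at hcol
      exact h3 k k' a a' v v' hav hav' ha ha' hm hm' hrow (Sum.inl_injective hcol)

end Pool.Agent.Helper83.GH
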