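import Pool.Agent.Helper83.GH.Lift

/-!
# GHC-CNT: rows of the neighbours of the removed leaves

`Rr` are the removed leaves, `nl u` their neighbours; those in `P` are attached to the flexible vertices
`Y` (one to each), the others to vertices outside `Y`.

Proof. First count: `row k (nl u) = inl ρ` means `¬ (nl u ∈ Y ∧ Out)` and `k + f (nl u) = ρ`. For
`u ∈ Rr`, `u ∉ P` this is exactly one `k`; for `u ∈ P` with `nl u ≠ y₀` it never holds; for the `u ∈ P`
with `nl u = y₀` it is `k = ρ - f y₀`, `red k ∉ S`. Second count: bijection `(k, u) ↦ (k, nl u)`.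
-/

namespace Pool.Agent.Helper83.GH

open Finset

theorem row_count {V V' R' : Type} [DecidableEq V] [DecidableEq V'] [DecidableEq R']
    (M w : ℕ) [NeZero (M * w)] (Rr P : Finset V) (nl : V → V') (Y : Finset V') (hP : P ⊆ Rr)
    (hPn : ∀ u ∈ P, nl u ∈ Y) (hPi : ∀ u ∈ P, ∀ u' ∈ P, nl u = nl u' → u = u')
    (hPs : ∀ y ∈ Y, ∃ u ∈ P, nl u = y) (hPc : ∀ u ∈ Rr, u ∉ P → nl u ∉ Y)
    (y₀ : V') (hy₀ : y₀ ∈ Y) (S : Finset (ZMod M)) (F : V' → ZMod M) (f : V' → ZMod (M * w))
    (hf : red M w (f y₀) = F y₀) (ψ : ZMod (M * w) → V' → R')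
    (row : ZMod (M * w) → V' → ZMod (M * w) ⊕ R')
    (hrow : ∀ k a, row k a = if a ∈ Y ∧ Out y₀ S (red M w k) a then Sum.inr (ψ k a)
      else Sum.inl (k + f a)) :
    (∀ ρ, ((univ ×ˢ Rr).filter fun p : ZMod (M * w) × V => row p.1 (nl p.2) = Sum.inl ρ).card +
      P.card = Rr.card + if red M w ρ - F y₀ ∈ S then 0 else 1) ∧
    ∀ ρ', ((univ ×ˢ Rr).filter fun p : ZMod (M * w) × V => row p.1 (nl p.2) = Sum.inr ρ').card =
      ((univ ×ˢ Y).filter fun p : ZMod (M * w) × V' => Out y₀ S (red M w p.1) p.2 ∧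
        ψ p.1 p.2 = ρ').card := by
  classical
  constructor
  · intro ρ
    have h1 : ((univ ×ˢ Rr).filter
        fun p : ZMod (M * w) × V => row p.1 (nl p.2) = Sum.inl ρ).card =
        ∑ u ∈ Rr, (univ.filter fun k : ZMod (M * w) => row k (nl u) = Sum.inl ρ).card := by
      rw [card_filter, sum_product_right]
      exact sum_congr rfl fun u _ => by rw [card_filter]
    have h2 : ∀ u ∈ Rr \ P,
        (univ.filter fun k : ZMod (M * w) => row k (nl u) = Sum.inl ρ).card = 1 := by
      intro u hu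
      rw [mem_sdiff] at hu
      have h3 := hPc u hu.1 hu.2
      rw [card_eq_one]
      refine ⟨ρ - f (nl u), ?_⟩
      ext k
      rw [mem_filter, mem_singleton, hrow, if_neg (fun h => h3 h.1), Sum.inl.injEq]
      constructor
      · rintro ⟨_, h⟩
        rw [← h]
        ring
      · rintro rfl
        exact ⟨mem_univ _, by ring⟩
    obtain ⟨u₀, hu₀, hu₀y⟩ := hPs y₀ hy₀
    have h4 : ∀ u ∈ P, u ≠ u₀ →
        (univ.filter fun k : ZMod (M * w) => row k (nl u) = Sum.inl ρ).card = 0 := by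
      intro u hu hne
      rw [card_eq_zero, filter_eq_empty_iff]
      intro k _
      have h5 : nl u ≠ y₀ := fun h => hne (hPi u hu u₀ hu₀ (h.trans hu₀y.symm))
      rw [hrow, if_pos ⟨hPn u hu, Or.inl h5⟩]
      exact Sum.inr_ne_inl
    have h6 : (univ.filter fun k : ZMod (M * w) => row k (nl u₀) = Sum.inl ρ).card =
        if red M w ρ - F y₀ ∈ S then 0 else 1 := by
      rw [hu₀y]
      have h7 : ∀ k, row k y₀ = Sum.inl ρ ↔ k = ρ - f y₀ ∧ red M w ρ - F y₀ ∉ S := by
        intro k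
        rw [hrow]
        constructor
        · intro h
          split_ifs at h with h8
          rw [Sum.inl.injEq] at h
          have h9 : k = ρ - f y₀ := by
            rw [← h]
            ring
          refine ⟨h9, fun h10 => h8 ⟨hy₀, Or.inr ?_⟩⟩
          rw [h9, map_sub, hf]
          exact h10
        · rintro ⟨rfl, h⟩
          rw [if_neg, Sum.inl.injEq]
          · ring
          · rintro ⟨_, h8 | h8⟩
            · exact h8 rfl
            · rw [map_sub, hf] at h8
              exact h h8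
      split_ifs with h8
      · rw [card_eq_zero, filter_eq_empty_iff]
        intro k _ h9
        exact ((h7 k).1 h9).2 h8
      · rw [card_eq_one]
        refine ⟨ρ - f y₀, ?_⟩
        ext k
        rw [mem_filter, mem_singleton, h7]
        exact ⟨fun h => h.2.1, fun h => ⟨mem_univ _, h, h8⟩⟩
    rw [h1, ← sum_sdiff hP, sum_congr rfl h2, sum_const, smul_eq_mul, mul_one,
      sum_eq_single_of_mem u₀ hu₀ (fun u hu hne => h4 u hu hne), h6, card_sdiff_of_subset hP]
    have h10 := card_le_card hP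
    omega
  · intro ρ'
    have h1 : ∀ k a, row k a = Sum.inr ρ' ↔ a ∈ Y ∧ Out y₀ S (red M w k) a ∧ ψ k a = ρ' := by
      intro k a
      rw [hrow]
      split_ifs with h
      · rw [Sum.inr.injEq]
        exact ⟨fun h2 => ⟨h.1, h.2, h2⟩, fun h2 => h2.2.2⟩
      · exact ⟨fun h2 => by simp at h2, fun h2 => absurd ⟨h2.1, h2.2.1⟩ h⟩
    refine card_bij (fun p _ => (p.1, nl p.2)) ?_ ?_ ?_
    · rintro ⟨k, u⟩ hp
      rw [mem_filter, mem_product] at hp ⊢
      have h2 := (h1 k (nl u)).1 hp.2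
      exact ⟨⟨mem_univ _, h2.1⟩, h2.2⟩
    · rintro ⟨k, u⟩ hp ⟨k', u'⟩ hp' h
      rw [mem_filter, mem_product] at hp hp'
      rw [Prod.mk.injEq] at h
      have h2 := (h1 k (nl u)).1 hp.2
      have h2' := (h1 k' (nl u')).1 hp'.2
      have hu : u ∈ P := by
        by_contra hu
        exact hPc u hp.1.2 hu h2.1
      have hu' : u' ∈ P := by
        by_contra hu'
        exact hPc u' hp'.1.2 hu' h2'.1
      rw [Prod.mk.injEq]
      exact ⟨h.1, hPi u hu u' hu' h.2⟩
    · rintro ⟨k, y⟩ hp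
      rw [mem_filter, mem_product] at hp
      obtain ⟨u, hu, huy⟩ := hPs y hp.1.2
      refine ⟨(k, u), ?_, by rw [← huy]⟩
      rw [mem_filter, mem_product]
      refine ⟨⟨mem_univ _, hP hu⟩, ?_⟩
      change row k (nl u) = Sum.inr ρ'
      rw [h1, huy]
      exact ⟨hp.1.2, hp.2.1, hp.2.2⟩

end Pool.Agent.Helper83.GH
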