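import Pool.Agent.Helper83.GH.Reg

/-!
# GHA-EQ: equitable edge colourings of bipartite multigraphs with prescribed sizes

Proof. Let `q = |Γ|`. (The case `q = 0` is trivial: `E` is empty.)
(0) If all fibres of `x`, `y` have at most `q` elements and `|E| = q s`, then there is a proper
`c : E → Fin q` with all classes of size `s`. Here `s ≤ |X|`, `s ≤ |Y|`. Regularise: new
vertices `X' = X ⊕ Fin (|Y| - s)`, `Y' = Y ⊕ Fin (|X| - s)`, new edges: `q - deg v` edges from
each `v ∈ X` to the new vertices of `Y'` (together `q (|X| - s)`, so that each new vertex gets `q`;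
take a bijection of the sigma type `Σ v, Fin (q - deg v)` with `Fin (|X| - s) × Fin q`), and in
the same way for `Y`. Apply `regular_coloring`. A colour has one edge at each vertex of `X'`, at
each of the `|X| - s` new vertices of `Y'` one new edge, which uses a vertex of `X`; so exactly
`|X| - (|X| - s) = s` edges of `E` have this colour.
(1) In general add a star: one new vertex in `X` with `q - |S|` edges to different new vertices in
`Y`; now there are `q (a + 1)` edges, (0) gives classes of size `a + 1`, the new edges have different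
colours, so exactly `|S|` colours have `a + 1` edges of `E` and the others `a`. Permute the colours.
-/

namespace Pool.Agent.Helper83.GH

open Finset

/-- A proper colouring with `q` colours of a `q`-regular side: each colour once at each vertex. -/
theorem one53 {E X : Type} [Fintype E] [DecidableEq X] (x : E → X) (q : ℕ)
    (hx : ∀ v, (univ.filter fun e => x e = v).card = q) (c : E → Fin q)
    (hc : ∀ e e', x e = x e' → c e = c e' → e = e') (v : X) (γ : Fin q) :
    (univ.filter fun e => x e = v ∧ c e = γ).card = 1 := by
  classical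
  rw [Finset.card_eq_one]
  have h1 : Function.Bijective (fun e : {e : E // x e = v} => c e.1) := by
    rw [Fintype.bijective_iff_injective_and_card]
    refine ⟨fun e e' h => Subtype.ext (hc _ _ (e.2.trans e'.2.symm) h), ?_⟩
    rw [Fintype.card_fin, Fintype.card_subtype]
    exact hx v
  obtain ⟨⟨e, he⟩, h2⟩ := h1.2 γ
  refine ⟨e, ?_⟩
  ext e'
  simp only [mem_filter, mem_univ, true_and, mem_singleton]
  constructor
  · rintro ⟨h3, h4⟩
    exact hc _ _ (h3.trans he.symm) (h4.trans h2.symm)
  · rintro rfl
    exact ⟨he, h2⟩

theorem sum_fib53 {E X : Type} [Fintype E] [Fintype X] [DecidableEq X] (x : E → X) :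
    ∑ v, (univ.filter fun e => x e = v).card = Fintype.card E := by
  rw [← Finset.card_univ (α := E)]
  exact (Finset.card_eq_sum_card_fiberwise (f := x) (s := univ) (t := univ)
    (fun e _ => by simp)).symm

/-- The case of classes of equal size. -/
theorem balanced53 {E X Y : Type} [Fintype E] [Fintype X] [Fintype Y]
    [DecidableEq E] [DecidableEq X] [DecidableEq Y] (x : E → X) (y : E → Y) (q s : ℕ)
    (hx : ∀ v, (univ.filter fun e => x e = v).card ≤ q)
    (hy : ∀ v, (univ.filter fun e => y e = v).card ≤ q)
    (hE : Fintype.card E = q * s) :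
    ∃ c : E → Fin q, (∀ e e', x e = x e' → c e = c e' → e = e') ∧
      (∀ e e', y e = y e' → c e = c e' → e = e') ∧
      ∀ γ, (univ.filter fun e => c e = γ).card = s := by
  classical
  rcases Nat.eq_zero_or_pos q with hq | hq
  · subst hq
    have hemp : IsEmpty E := by
      rw [← Fintype.card_eq_zero_iff, hE, Nat.zero_mul]
    exact ⟨fun e => hemp.elim e, fun e => hemp.elim e, fun e => hemp.elim e,
      fun γ => γ.elim0⟩
  have hbound : ∀ {Z : Type} [Fintype Z] [DecidableEq Z] (z : E → Z),
      (∀ v, (univ.filter fun e => z e = v).card ≤ q) → s ≤ Fintype.card Z := by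
    intro Z _ _ z hz
    have h1 := sum_fib53 z
    have h2 : ∑ v, (univ.filter fun e => z e = v).card ≤ ∑ _v : Z, q :=
      Finset.sum_le_sum fun v _ => hz v
    rw [h1, hE, Finset.sum_const, Finset.card_univ, smul_eq_mul, Nat.mul_comm] at h2
    exact Nat.le_of_mul_le_mul_right h2 hq
  have hsum : ∀ {Z : Type} [Fintype Z] [DecidableEq Z] (z : E → Z),
      (∀ v, (univ.filter fun e => z e = v).card ≤ q) →
      Fintype.card (Σ v : Z, Fin (q - (univ.filter fun e => z e = v).card)) =
        (Fintype.card Z - s) * q := by
    intro Z _ _ z hz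
    rw [Fintype.card_sigma]
    simp only [Fintype.card_fin]
    have h1 := sum_fib53 z
    have h2 : ∑ v, (q - (univ.filter fun e => z e = v).card) +
        ∑ v, (univ.filter fun e => z e = v).card = Fintype.card Z * q := by
      rw [← Finset.sum_add_distrib]
      rw [Finset.sum_congr rfl fun v _ => Nat.sub_add_cancel (hz v)]
      rw [Finset.sum_const, Finset.card_univ, smul_eq_mul]
    rw [h1, hE, Nat.mul_comm q s] at h2
    rw [Nat.sub_mul]
    omega
  have hsX := hbound x hx
  have hsY := hbound y hy
  obtain ⟨φ⟩ : Nonempty ((Σ v : X, Fin (q - (univ.filter fun e => x e = v).card)) ≃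
      Fin (Fintype.card X - s) × Fin q) := by
    rw [← Fintype.card_eq, hsum x hx, Fintype.card_prod, Fintype.card_fin, Fintype.card_fin]
  obtain ⟨ψ⟩ : Nonempty ((Σ v : Y, Fin (q - (univ.filter fun e => y e = v).card)) ≃
      Fin (Fintype.card Y - s) × Fin q) := by
    rw [← Fintype.card_eq, hsum y hy, Fintype.card_prod, Fintype.card_fin, Fintype.card_fin]
  let NX := Σ v : X, Fin (q - (univ.filter fun e => x e = v).card)
  let NY := Σ v : Y, Fin (q - (univ.filter fun e => y e = v).card)
  let x' : E ⊕ (NX ⊕ NY) → X ⊕ Fin (Fintype.card Y - s) :=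
    Sum.elim (fun e => Sum.inl (x e)) (Sum.elim (fun n => Sum.inl n.1) (fun n => Sum.inr (ψ n).1))
  let y' : E ⊕ (NX ⊕ NY) → Y ⊕ Fin (Fintype.card X - s) :=
    Sum.elim (fun e => Sum.inl (y e)) (Sum.elim (fun n => Sum.inr (φ n).1) (fun n => Sum.inl n.1))
  -- general counting lemmas
  have hfibS : ∀ {Z : Type} [Fintype Z] [DecidableEq Z] (d : Z → ℕ) (v : Z),
      (univ.filter fun n : (Σ v : Z, Fin (d v)) => n.1 = v).card = d v := by
    intro Z _ _ d v
    have h1 : (univ.filter fun n : (Σ v : Z, Fin (d v)) => n.1 = v) =
        (univ : Finset (Fin (d v))).map ⟨fun i => ⟨v, i⟩, fun i j hij => by simpa using hij⟩ := by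
      ext ⟨w, i⟩
      simp only [mem_filter, mem_univ, true_and, mem_map, Function.Embedding.coeFn_mk]
      constructor
      · rintro rfl
        exact ⟨i, rfl⟩
      · rintro ⟨j, hj⟩
        exact (congrArg Sigma.fst hj).symm
    rw [h1, Finset.card_map, Finset.card_univ, Fintype.card_fin]
  have hfibP : ∀ {N : Type} [Fintype N] (m : ℕ) (θ : N ≃ Fin m × Fin q) (j : Fin m),
      (univ.filter fun n : N => (θ n).1 = j).card = q := by
    intro N _ m θ j
    have h0 : Function.Injective fun i : Fin q => θ.symm (j, i) := by
      intro i i' hii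
      have h2 := θ.symm.injective hii
      exact congrArg Prod.snd h2
    have h1 : (univ.filter fun n : N => (θ n).1 = j) =
        (univ : Finset (Fin q)).image fun i => θ.symm (j, i) := by
      ext n
      rw [mem_filter, mem_image]
      constructor
      · rintro ⟨-, h3⟩
        exact ⟨(θ n).2, mem_univ _, by rw [← h3]; exact θ.symm_apply_apply n⟩
      · rintro ⟨i, -, hi⟩
        refine ⟨mem_univ _, ?_⟩
        rw [← hi, θ.apply_symm_apply]
    rw [h1, Finset.card_image_of_injective _ h0, Finset.card_univ, Fintype.card_fin]
  have hcount3 : ∀ (P : E ⊕ (NX ⊕ NY) → Prop) [DecidablePred P],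
      (univ.filter P).card = (univ.filter fun e => P (Sum.inl e)).card +
        ((univ.filter fun n => P (Sum.inr (Sum.inl n))).card +
          (univ.filter fun n => P (Sum.inr (Sum.inr n))).card) := by
    intro P _
    rw [Finset.card_filter, Fintype.sum_sum_type, Fintype.sum_sum_type, Finset.card_filter,
      Finset.card_filter, Finset.card_filter]
  have hx' : ∀ v, (univ.filter fun e => x' e = v).card = q := by
    intro v
    rw [hcount3]
    rcases v with v | j
    · simp only [x', Sum.elim_inl, Sum.elim_inr, Sum.inl.injEq, reduceCtorEq, Finset.filter_false,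
        Finset.card_empty, Nat.add_zero]
      rw [hfibS]
      exact Nat.add_sub_cancel' (hx v)
    · simp only [x', Sum.elim_inl, Sum.elim_inr, Sum.inr.injEq, reduceCtorEq, Finset.filter_false,
        Finset.card_empty, Nat.zero_add]
      exact hfibP _ ψ j
  have hy' : ∀ v, (univ.filter fun e => y' e = v).card = q := by
    intro v
    rw [hcount3]
    rcases v with v | j
    · simp only [y', Sum.elim_inl, Sum.elim_inr, Sum.inl.injEq, reduceCtorEq, Finset.filter_false,
        Finset.card_empty, Nat.zero_add]
      rw [hfibS]
      exact Nat.add_sub_cancel' (hy v)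
    · simp only [y', Sum.elim_inl, Sum.elim_inr, Sum.inr.injEq, reduceCtorEq, Finset.filter_false,
        Finset.card_empty, Nat.zero_add, Nat.add_zero]
      exact hfibP _ φ j
  obtain ⟨c, hcx, hcy⟩ := regular_coloring x' y' q hx' hy'
  refine ⟨fun e => c (Sum.inl e), ?_, ?_, ?_⟩
  · intro e e' h1 h2
    have := hcx (Sum.inl e) (Sum.inl e') (by simp [x', h1]) h2
    exact Sum.inl_injective this
  · intro e e' h1 h2
    have := hcy (Sum.inl e) (Sum.inl e') (by simp [y', h1]) h2
    exact Sum.inl_injective this
  · intro γ
    have h1 := fun v => one53 x' q hx' c hcx v γ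
    have h2 := fun v => one53 y' q hy' c hcy v γ
    -- `a + b = |X|`
    have hab : (univ.filter fun e => c (Sum.inl e) = γ).card +
        (univ.filter fun n => c (Sum.inr (Sum.inl n)) = γ).card = Fintype.card X := by
      have h3 : ∑ v : X, (univ.filter fun e => x' e = Sum.inl v ∧ c e = γ).card =
          Fintype.card X := by
        rw [Finset.sum_congr rfl fun v _ => h1 (Sum.inl v)]
        simp
      rw [← h3]
      simp only [hcount3]
      simp only [x', Sum.elim_inl, Sum.elim_inr, Sum.inl.injEq, reduceCtorEq, false_and,
        Finset.filter_false, Finset.card_empty, Nat.add_zero]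
      rw [Finset.sum_add_distrib]
      congr 1
      · rw [Finset.card_eq_sum_card_fiberwise (f := x) (t := univ) (fun e _ => by simp)]
        refine Finset.sum_congr rfl fun v _ => ?_
        congr 1
        ext e
        simp only [mem_filter, mem_univ, true_and]
        exact and_comm
      · rw [Finset.card_eq_sum_card_fiberwise (f := fun n : NX => n.1) (t := univ)
          (fun e _ => by simp)]
        refine Finset.sum_congr rfl fun v _ => ?_
        congr 1
        ext e
        simp only [mem_filter, mem_univ, true_and]
        exact and_comm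
    have hb : (univ.filter fun n => c (Sum.inr (Sum.inl n)) = γ).card = Fintype.card X - s := by
      have h3 : ∑ j : Fin (Fintype.card X - s),
          (univ.filter fun e => y' e = Sum.inr j ∧ c e = γ).card = Fintype.card X - s := by
        rw [Finset.sum_congr rfl fun v _ => h2 (Sum.inr v)]
        simp
      rw [← h3]
      simp only [hcount3]
      simp only [y', Sum.elim_inl, Sum.elim_inr, Sum.inr.injEq, reduceCtorEq, false_and,
        Finset.filter_false, Finset.card_empty, Nat.add_zero, Nat.zero_add]
      rw [Finset.card_eq_sum_card_fiberwise (f := fun n : NX => (φ n).1) (t := univ)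
          (fun e _ => by simp)]
      refine Finset.sum_congr rfl fun v _ => ?_
      congr 1
      ext e
      simp only [mem_filter, mem_univ, true_and]
      exact and_comm
    rw [hb] at hab
    have h4 : (univ.filter fun e => c (Sum.inl e) = γ).card = s := by omega
    exact h4

theorem equitable_coloring {E X Y Γ : Type} [Fintype E] [Fintype X] [Fintype Y] [Fintype Γ]
    [DecidableEq E] [DecidableEq X] [DecidableEq Y] [DecidableEq Γ] (x : E → X) (y : E → Y)
    (a : ℕ) (S : Finset Γ)
    (hx : ∀ v, (univ.filter fun e => x e = v).card ≤ Fintype.card Γ)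
    (hy : ∀ v, (univ.filter fun e => y e = v).card ≤ Fintype.card Γ)
    (hE : Fintype.card E = Fintype.card Γ * a + S.card) :
    ∃ c : E → Γ, (∀ e e', x e = x e' → c e = c e' → e = e') ∧
      (∀ e e', y e = y e' → c e = c e' → e = e') ∧
      ∀ γ, (univ.filter fun e => c e = γ).card = if γ ∈ S then a + 1 else a := by
  classical
  set q := Fintype.card Γ with hq
  have hS : S.card ≤ q := Finset.card_le_univ S
  let m := q - S.card
  let x1 : E ⊕ Fin m → X ⊕ Unit := Sum.elim (fun e => Sum.inl (x e)) (fun _ => Sum.inr ())
  let y1 : E ⊕ Fin m → Y ⊕ Fin m := Sum.elim (fun e => Sum.inl (y e)) (fun i => Sum.inr i)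
  have hcount2 : ∀ (P : E ⊕ Fin m → Prop) [DecidablePred P],
      (univ.filter P).card = (univ.filter fun e => P (Sum.inl e)).card +
        (univ.filter fun n => P (Sum.inr n)).card := by
    intro P _
    rw [Finset.card_filter, Fintype.sum_sum_type, Finset.card_filter, Finset.card_filter]
  have hx1 : ∀ v, (univ.filter fun e => x1 e = v).card ≤ q := by
    intro v
    rw [hcount2]
    rcases v with v | j
    · simp only [x1, Sum.elim_inl, Sum.elim_inr, Sum.inl.injEq, reduceCtorEq, Finset.filter_false,
        Finset.card_empty, Nat.add_zero]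
      exact hx v
    · simp only [x1, Sum.elim_inl, Sum.elim_inr, reduceCtorEq, Finset.filter_false,
        Finset.card_empty, Nat.zero_add]
      refine (Finset.card_le_univ _).trans ?_
      rw [Fintype.card_fin]
      exact Nat.sub_le _ _
  have hy1 : ∀ v, (univ.filter fun e => y1 e = v).card ≤ q := by
    intro v
    rw [hcount2]
    rcases v with v | j
    · simp only [y1, Sum.elim_inl, Sum.elim_inr, Sum.inl.injEq, reduceCtorEq, Finset.filter_false,
        Finset.card_empty, Nat.add_zero]
      exact hy v
    · simp only [y1, Sum.elim_inl, Sum.elim_inr, Sum.inr.injEq, reduceCtorEq, Finset.filter_false,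
        Finset.card_empty, Nat.zero_add]
      have h1 : (univ.filter fun n : Fin m => n = j) = {j} := by
        ext n; simp
      rw [h1, Finset.card_singleton]
      have h2 : 0 < m := Nat.pos_of_ne_zero fun h0 => by
        have := j.2
        omega
      exact h2.trans_le (Nat.sub_le _ _)
  have hE1 : Fintype.card (E ⊕ Fin m) = q * (a + 1) := by
    rw [Fintype.card_sum, Fintype.card_fin, hE, Nat.mul_add, Nat.mul_one]
    show q * a + S.card + (q - S.card) = _
    omega
  obtain ⟨c, hcx, hcy, hcl⟩ := balanced53 x1 y1 q (a + 1) hx1 hy1 hE1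
  -- colours of the new edges
  let D : Finset (Fin q) := univ.image fun i : Fin m => c (Sum.inr i)
  have hinj : Function.Injective fun i : Fin m => c (Sum.inr i) := by
    intro i j hij
    have := hcx (Sum.inr i) (Sum.inr j) (by simp [x1]) hij
    exact Sum.inr_injective this
  have hD : D.card = m := by
    rw [Finset.card_image_of_injective _ hinj, Finset.card_univ, Fintype.card_fin]
  have hcE : ∀ γ, (univ.filter fun e => c (Sum.inl e) = γ).card = if γ ∈ D then a else a + 1 := by
    intro γ
    have h1 := hcl γ
    rw [hcount2] at h1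
    by_cases hγ : γ ∈ D
    · rw [if_pos hγ]
      obtain ⟨i, -, hi⟩ := Finset.mem_image.1 hγ
      have h2 : (univ.filter fun n : Fin m => c (Sum.inr n) = γ) = {i} := by
        ext n
        simp only [mem_filter, mem_univ, true_and, mem_singleton]
        constructor
        · intro h3
          exact hinj (h3.trans hi.symm)
        · rintro rfl
          exact hi
      rw [h2, Finset.card_singleton] at h1
      omega
    · rw [if_neg hγ]
      have h2 : (univ.filter fun n : Fin m => c (Sum.inr n) = γ) = ∅ := by
        ext n
        simp only [mem_filter, mem_univ, true_and, Finset.notMem_empty, iff_false]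
        intro h3
        exact hγ (Finset.mem_image.2 ⟨n, mem_univ _, h3⟩)
      rw [h2, Finset.card_empty] at h1
      omega
  -- permute the colours
  obtain ⟨e0⟩ : Nonempty (Fin q ≃ Γ) := by
    rw [← Fintype.card_eq, Fintype.card_fin]
  have hcard : Fintype.card {γ : Γ // e0.symm γ ∉ D} = Fintype.card {γ : Γ // γ ∈ S} := by
    rw [Fintype.card_coe, Fintype.card_subtype]
    have h1 : (univ.filter fun γ : Γ => e0.symm γ ∉ D) = Dᶜ.map e0.toEmbedding := by
      ext γ
      simp only [mem_filter, mem_univ, true_and, mem_map, mem_compl, Equiv.coe_toEmbedding]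
      constructor
      · intro h2
        exact ⟨e0.symm γ, h2, by simp⟩
      · rintro ⟨δ, h2, rfl⟩
        simpa using h2
    rw [h1, Finset.card_map, Finset.card_compl, hD, Fintype.card_fin]
    show q - (q - S.card) = S.card
    omega
  let σ : {γ : Γ // e0.symm γ ∉ D} ≃ {γ : Γ // γ ∈ S} := Fintype.equivOfCardEq hcard
  let π : Equiv.Perm Γ := σ.extendSubtype
  have hπ : ∀ γ, π (e0 γ) ∈ S ↔ γ ∉ D := by
    intro γ
    constructor
    · intro h1 h2
      exact Equiv.extendSubtype_not_mem σ (e0 γ) (by simpa using h2) h1
    · intro h1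
      exact Equiv.extendSubtype_mem σ (e0 γ) (by simpa using h1)
  refine ⟨fun e => π (e0 (c (Sum.inl e))), ?_, ?_, ?_⟩
  · intro e e' h1 h2
    have h3 := e0.injective (π.injective h2)
    have := hcx (Sum.inl e) (Sum.inl e') (by simp [x1, h1]) h3
    exact Sum.inl_injective this
  · intro e e' h1 h2
    have h3 := e0.injective (π.injective h2)
    have := hcy (Sum.inl e) (Sum.inl e') (by simp [y1, h1]) h3
    exact Sum.inl_injective this
  · intro γ
    obtain ⟨δ, rfl⟩ : ∃ δ, π (e0 δ) = γ := ⟨e0.symm (π.symm γ), by simp⟩
    have h1 : (univ.filter fun e => π (e0 (c (Sum.inl e))) = π (e0 δ)) =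
        univ.filter fun e => c (Sum.inl e) = δ := by
      ext e
      simp only [mem_filter, mem_univ, true_and]
      exact ⟨fun h => e0.injective (π.injective h), fun h => by rw [h]⟩
    rw [h1, hcE]
    by_cases h2 : δ ∈ D
    · rw [if_pos h2, if_neg]
      intro h3
      exact (hπ δ).1 h3 h2
    · rw [if_neg h2, if_pos ((hπ δ).2 h2)]

end Pool.Agent.Helper83.GH
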