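import Pool.Agent.Helper83.GH.Lift
import Pool.Agent.Helper83.GH.Eq

/-!
# GHA-EXC: the rows of the flexible leaves outside their own block

Proof. Apply `equitable_coloring` to the edges `E = {(k, y) : y ∈ Y, Out y₀ S (red k) y}`, first
endpoint the copy `k`, second endpoint the column `(g (nb y), red k + o (nb y))` (take
`Fin G × ZMod M` or restrict to the finite set of values), colours `R`.
`|E| = (M w)(|Y| - 1) + w |S|` (`card_red_mem`). A copy has at most `|Y| ≤ |R|` edges. A column
`(γ, p)` has for each `y ∈ Y` with `g (nb y) = γ` at most `w` edges (`card_red`), together at most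
`w M / 2 ≤ |R|` by `hxg`.
-/

namespace Pool.Agent.Helper83.GH

open Finset

variable {V : Type} [Fintype V] [DecidableEq V]

theorem excess {T : SimpleGraph V} [DecidableRel T.Adj] {B Y : Finset V} {M G Gx : ℕ}
    {F : V → ZMod M} {g : V → ℕ} {o : V → ZMod M} {U : Finset V}
    (hK : IsK T B Y M G Gx F g o U) (w : ℕ) [NeZero (M * w)] (y₀ : V) (hy₀ : y₀ ∈ Y) (nb : V → V)
    (hnb : ∀ y ∈ Y, T.Adj (nb y) y) (S : Finset (ZMod M)) {R : Type} [Fintype R] [DecidableEq R]
    (SR : Finset R) (a : ℕ)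
    (hcount : M * w * (Y.card - 1) + w * S.card = Fintype.card R * a + SR.card)
    (hR1 : Y.card ≤ Fintype.card R) (hR2 : M * w ≤ 2 * Fintype.card R) :
    ∃ ψ : ZMod (M * w) → V → R,
      (∀ k, ∀ y ∈ Y, ∀ y' ∈ Y, Out y₀ S (red M w k) y → Out y₀ S (red M w k) y' →
        ψ k y = ψ k y' → y = y') ∧
      (∀ k k', ∀ y ∈ Y, ∀ y' ∈ Y, Out y₀ S (red M w k) y → Out y₀ S (red M w k') y' →
        g (nb y) = g (nb y') → red M w k + o (nb y) = red M w k' + o (nb y') → ψ k y = ψ k' y' →
        k = k' ∧ y = y') ∧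
      ∀ ρ, ((univ ×ˢ Y).filter fun p : ZMod (M * w) × V => Out y₀ S (red M w p.1) p.2 ∧
        ψ p.1 p.2 = ρ).card = if ρ ∈ SR then a + 1 else a := by
  classical
  have hMw : M * w ≠ 0 := NeZero.ne (M * w)
  have hM : M ≠ 0 := fun h => hMw (by rw [h, Nat.zero_mul])
  have : NeZero M := ⟨hM⟩
  have hYpos : 0 < Y.card := Finset.card_pos.mpr ⟨y₀, hy₀⟩
  have : Nonempty R := Fintype.card_pos_iff.mp (lt_of_lt_of_le hYpos hR1)
  let P : ZMod (M * w) × V → Prop := fun p => p.2 ∈ Y ∧ Out y₀ S (red M w p.1) p.2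
  let E := {p : ZMod (M * w) × V // P p}
  have hgb : ∀ y ∈ Y, g (nb y) < Gx := fun y hy => hK.hexc y hy (nb y) (hnb y hy)
  let x : E → ZMod (M * w) := fun e => e.1.1
  let yy : E → Fin Gx × ZMod M :=
    fun e => (⟨g (nb e.1.2), hgb _ e.2.1⟩, red M w e.1.1 + o (nb e.1.2))
  have hx : ∀ v, (univ.filter fun e => x e = v).card ≤ Fintype.card R := by
    intro v
    refine le_trans ?_ hR1
    refine Finset.card_le_card_of_injOn (fun e => e.1.2) (fun e he => e.2.1) ?_
    intro e he e' he' hee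
    have h1 : x e = v := (Finset.mem_filter.mp he).2
    have h2 : x e' = v := (Finset.mem_filter.mp he').2
    apply Subtype.ext
    exact Prod.ext (h1.trans h2.symm) hee
  have hy : ∀ v, (univ.filter fun e => yy e = v).card ≤ Fintype.card R := by
    rintro ⟨γ, p⟩
    have hb : (univ.filter fun e => yy e = (γ, p)).card ≤
        ((Y.filter fun y => ∃ b, T.Adj b y ∧ g b = γ).sigma
          fun y => univ.filter fun k : ZMod (M * w) => red M w k = p - o (nb y)).card := by
      refine Finset.card_le_card_of_injOn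
        (fun e => (⟨e.1.2, e.1.1⟩ : Σ _ : V, ZMod (M * w))) ?_ ?_
      · intro e he
        have h1 : yy e = (γ, p) := (Finset.mem_filter.mp he).2
        have h2 : g (nb e.1.2) = γ := congrArg (fun t => (t.1 : ℕ)) h1
        have h3 : red M w e.1.1 + o (nb e.1.2) = p := congrArg (fun t => t.2) h1
        refine Finset.mem_coe.mpr (Finset.mem_sigma.mpr ⟨?_, ?_⟩)
        · exact Finset.mem_filter.mpr ⟨e.2.1, nb e.1.2, hnb _ e.2.1, h2⟩
        · exact Finset.mem_filter.mpr ⟨Finset.mem_univ _, eq_sub_of_add_eq h3⟩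
      · intro e he e' he' hee
        have h1 : e.1.2 = e'.1.2 := congrArg (fun t : (Σ _ : V, ZMod (M * w)) => t.1) hee
        have h2 : e.1.1 = e'.1.1 := congrArg (fun t : (Σ _ : V, ZMod (M * w)) => t.2) hee
        exact Subtype.ext (Prod.ext h2 h1)
    rw [Finset.card_sigma] at hb
    simp only [card_red, Finset.sum_const, smul_eq_mul] at hb
    have h4 := hK.hxg γ
    have h5 : 2 * ((Y.filter fun y => ∃ b, T.Adj b y ∧ g b = γ).card * w) ≤ M * w := by
      calc 2 * ((Y.filter fun y => ∃ b, T.Adj b y ∧ g b = γ).card * w)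
          = (2 * (Y.filter fun y => ∃ b, T.Adj b y ∧ g b = γ).card) * w := by ring
        _ ≤ M * w := Nat.mul_le_mul_right w (by convert h4)
    omega
  have hfil : ∀ Q : ZMod (M * w) × V → Prop, ∀ _ : DecidablePred Q,
      (univ.filter fun e : E => Q e.1).card =
      ((univ ×ˢ Y).filter fun p : ZMod (M * w) × V => Out y₀ S (red M w p.1) p.2 ∧ Q p).card := by
    intro Q _
    refine Finset.card_bij (fun e _ => e.1) ?_ ?_ ?_
    · intro e he
      have h1 := (Finset.mem_filter.mp he).2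
      exact Finset.mem_filter.mpr ⟨Finset.mem_product.mpr ⟨Finset.mem_univ _, e.2.1⟩, e.2.2, h1⟩
    · intro e _ e' _ h
      exact Subtype.ext h
    · intro p hp
      obtain ⟨h1, h2, h3⟩ := Finset.mem_filter.mp hp
      exact ⟨⟨p, (Finset.mem_product.mp h1).2, h2⟩,
        Finset.mem_filter.mpr ⟨Finset.mem_univ _, h3⟩, rfl⟩
  have hE : Fintype.card E = Fintype.card R * a + SR.card := by
    rw [← hcount]
    have h1 : Fintype.card E =
        ((univ ×ˢ Y).filter fun p : ZMod (M * w) × V => Out y₀ S (red M w p.1) p.2).card := by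
      have := hfil (fun _ => True) (fun _ => inferInstance)
      simp only [Finset.filter_true, and_true, Finset.card_univ] at this
      exact this
    rw [h1]
    have h2 : ((univ ×ˢ Y).filter fun p : ZMod (M * w) × V => Out y₀ S (red M w p.1) p.2) =
        ((univ : Finset (ZMod (M * w))) ×ˢ (Y.erase y₀)) ∪
        ((univ.filter fun k : ZMod (M * w) => red M w k ∈ S) ×ˢ {y₀}) := by
      ext ⟨k, v⟩
      simp only [Finset.mem_filter, Finset.mem_product, Finset.mem_univ, true_and,
        Finset.mem_union, Finset.mem_erase, Finset.mem_singleton, Out]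
      constructor
      · rintro ⟨h3, h4⟩
        by_cases h5 : v = y₀
        · right
          exact ⟨h4.resolve_left (fun h => h h5), h5⟩
        · left
          exact ⟨h5, h3⟩
      · rintro (⟨h3, h4⟩ | ⟨h3, h4⟩)
        · exact ⟨h4, Or.inl h3⟩
        · exact ⟨h4 ▸ hy₀, Or.inr h3⟩
    rw [h2, Finset.card_union_of_disjoint, Finset.card_product, Finset.card_product,
      card_red_mem, Finset.card_singleton, Finset.card_erase_of_mem hy₀, Finset.card_univ,
      ZMod.card, Nat.mul_one]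
    rw [Finset.disjoint_left]
    rintro ⟨k, v⟩ h3 h4
    simp only [Finset.mem_product, Finset.mem_univ, true_and, Finset.mem_erase,
      Finset.mem_singleton] at h3 h4
    exact h3.1 h4.2
  obtain ⟨c, hc1, hc2, hc3⟩ := equitable_coloring x yy a SR hx hy hE
  let ψ : ZMod (M * w) → V → R := fun k y => if h : P (k, y) then c ⟨(k, y), h⟩ else
    Classical.arbitrary R
  have hψ : ∀ (e : E), ψ e.1.1 e.1.2 = c e := by
    rintro ⟨⟨k, y⟩, h⟩
    exact dif_pos h
  refine ⟨ψ, ?_, ?_, ?_⟩
  · intro k y hy y' hy' h1 h2 h3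
    have e1 := hψ ⟨(k, y), hy, h1⟩
    have e2 := hψ ⟨(k, y'), hy', h2⟩
    have h4 := hc1 ⟨(k, y), hy, h1⟩ ⟨(k, y'), hy', h2⟩ rfl (e1.symm.trans (h3.trans e2))
    exact congrArg (fun e : E => e.1.2) h4
  · intro k k' y hy y' hy' h1 h2 hg ho h3
    have e1 := hψ ⟨(k, y), hy, h1⟩
    have e2 := hψ ⟨(k', y'), hy', h2⟩
    have h4 := hc2 ⟨(k, y), hy, h1⟩ ⟨(k', y'), hy', h2⟩ (Prod.ext (Fin.ext hg) ho)
      (e1.symm.trans (h3.trans e2))
    exact ⟨congrArg (fun e : E => e.1.1) h4, congrArg (fun e : E => e.1.2) h4⟩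
  · intro ρ
    rw [← hc3 ρ, ← hfil (fun p => ψ p.1 p.2 = ρ) (fun _ => inferInstance)]
    congr 1
    ext e
    simp only [Finset.mem_filter, Finset.mem_univ, true_and]
    rw [hψ e]

end Pool.Agent.Helper83.GH
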