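import Pool.Agent.Helper83.GH.Half
import Pool.Agent.Helper83.GH.Exc
import Pool.Agent.Helper83.GH.Inj

/-!
# GHA-C: two types of copies with flexible leaves in both classes
-/

namespace Pool.Agent.Helper83.GH

open Finset Pool.Agent.Helper19.GH

/-- Columns counted from the left. -/
def iotaL (n M : ℕ) [NeZero n] (γ : ℕ) (p : ZMod M) : Fin n := Fin.ofNat n (γ * M + p.val)

/-- Columns counted from the right. -/
def iotaR (n M : ℕ) [NeZero n] (γ : ℕ) (p : ZMod M) : Fin n :=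
  Fin.ofNat n (n - 1 - (γ * M + p.val))

lemma idx_lt {M G γ : ℕ} [NeZero M] (h : γ < G) (p : ZMod M) : γ * M + p.val < G * M := by
  have h1 := ZMod.val_lt p
  have h2 : (γ + 1) * M ≤ G * M := Nat.mul_le_mul_right M h
  rw [add_mul, one_mul] at h2
  omega

lemma idx_inj {M γ γ' : ℕ} [NeZero M] {p p' : ZMod M} (h : γ * M + p.val = γ' * M + p'.val) :
    γ = γ' ∧ p = p' := by
  have h1 := ZMod.val_lt p
  have h2 := ZMod.val_lt p'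
  have h3 : γ = γ' := by
    have e1 : (γ * M + p.val) / M = γ := by
      rw [mul_comm, Nat.mul_add_div (Nat.pos_of_ne_zero (NeZero.ne M)), Nat.div_eq_of_lt h1,
        add_zero]
    have e2 : (γ' * M + p'.val) / M = γ' := by
      rw [mul_comm, Nat.mul_add_div (Nat.pos_of_ne_zero (NeZero.ne M)), Nat.div_eq_of_lt h2,
        add_zero]
    rw [← e1, ← e2, h]
  subst h3
  exact ⟨rfl, ZMod.val_injective M (by omega)⟩

lemma iotaL_val {n M G γ : ℕ} [NeZero n] [NeZero M] (hG : G * M ≤ n) (h : γ < G) (p : ZMod M) :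
    (iotaL n M γ p).val = γ * M + p.val := by
  have h1 := idx_lt h p
  rw [iotaL, Fin.val_ofNat, Nat.mod_eq_of_lt (by omega)]

lemma iotaR_val {n M G γ : ℕ} [NeZero n] [NeZero M] (hG : G * M ≤ n) (h : γ < G) (p : ZMod M) :
    (iotaR n M γ p).val = n - 1 - (γ * M + p.val) := by
  have h1 := idx_lt h p
  rw [iotaR, Fin.val_ofNat, Nat.mod_eq_of_lt (by omega)]

lemma iotaL_inj {n M G : ℕ} [NeZero n] [NeZero M] (hG : G * M ≤ n) :
    ∀ γ < G, ∀ γ' < G, ∀ p p' : ZMod M, iotaL n M γ p = iotaL n M γ' p' → γ = γ' ∧ p = p' := by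
  intro γ hγ γ' hγ' p p' h
  have h1 := congrArg Fin.val h
  rw [iotaL_val hG hγ, iotaL_val hG hγ'] at h1
  exact idx_inj h1

lemma iotaR_inj {n M G : ℕ} [NeZero n] [NeZero M] (hG : G * M ≤ n) :
    ∀ γ < G, ∀ γ' < G, ∀ p p' : ZMod M, iotaR n M γ p = iotaR n M γ' p' → γ = γ' ∧ p = p' := by
  intro γ hγ γ' hγ' p p' h
  have h1 := congrArg Fin.val h
  rw [iotaR_val hG hγ, iotaR_val hG hγ'] at h1
  have h2 := idx_lt hγ p
  have h3 := idx_lt hγ' p'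
  exact idx_inj (by omega)

lemma iota_ne {n M₁ M₂ G X : ℕ} [NeZero n] [NeZero M₁] [NeZero M₂] (h : G * M₁ + X * M₂ ≤ n)
    {γ γ' : ℕ} (hγ : γ < G) (hγ' : γ' < X) (p : ZMod M₁) (p' : ZMod M₂) :
    iotaL n M₁ γ p ≠ iotaR n M₂ γ' p' := by
  intro h1
  have h2 := congrArg Fin.val h1
  rw [iotaL_val (G := G) (by omega) hγ, iotaR_val (G := X) (by omega) hγ'] at h2
  have h3 := idx_lt hγ p
  have h4 := idx_lt hγ' p'
  omega

lemma exists_nb {V : Type} [Fintype V] [DecidableEq V] (T : SimpleGraph V) [DecidableRel T.Adj]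
    (Y : Finset V) (hY : ∀ y ∈ Y, T.degree y = 1) :
    ∃ nb : V → V, ∀ y ∈ Y, T.Adj (nb y) y := by
  have h : ∀ y, ∃ b, y ∈ Y → T.Adj b y := by
    intro y
    by_cases hy : y ∈ Y
    · have h1 : 0 < (T.neighborFinset y).card := by
        rw [SimpleGraph.card_neighborFinset_eq_degree, hY y hy]
        exact one_pos
      obtain ⟨b, hb⟩ := card_pos.1 h1
      rw [SimpleGraph.mem_neighborFinset] at hb
      exact ⟨b, fun _ => hb.symm⟩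
    · exact ⟨y, fun h => absurd h hy⟩
  choose nb hnb using h
  exact ⟨nb, hnb⟩

lemma exists_lift {V : Type} [Fintype V] [DecidableEq V] (B Y : Finset V) (M w : ℕ)
    [NeZero (M * w)] (F : V → ZMod M) (y₀ : V)
    (hN : ∀ ρ, (univ.filter fun a : V => a ∉ B ∧ a ∉ Y ∧ F a = ρ).card < w) :
    ∃ f : V → ZMod (M * w), (∀ a, a ∉ B → (a ∉ Y ∨ a = y₀) → red M w (f a) = F a) ∧
      ∀ a a', a ∉ B → (a ∉ Y ∨ a = y₀) → a' ∉ B → (a' ∉ Y ∨ a' = y₀) → f a = f a' → a = a' := by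
  obtain ⟨f, hf1, hf2⟩ := lift M w F (univ.filter fun a : V => a ∉ B ∧ (a ∉ Y ∨ a = y₀)) (by
    intro ρ
    have h1 : ((univ.filter fun a : V => a ∉ B ∧ (a ∉ Y ∨ a = y₀)).filter fun a => F a = ρ) ⊆
        insert y₀ (univ.filter fun a : V => a ∉ B ∧ a ∉ Y ∧ F a = ρ) := by
      intro a ha
      rw [mem_filter, mem_filter] at ha
      rw [mem_insert, mem_filter]
      rcases ha.1.2.2 with h | h
      · exact Or.inr ⟨mem_univ _, ha.1.2.1, h, ha.2⟩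
      · exact Or.inl h
    have h2 := card_le_card h1
    have h3 := card_insert_le y₀ (univ.filter fun a : V => a ∉ B ∧ a ∉ Y ∧ F a = ρ)
    have h4 := hN ρ
    omega)
  refine ⟨f, ?_, ?_⟩
  · intro a ha ha'
    exact hf1 a (by rw [mem_filter]; exact ⟨mem_univ _, ha, ha'⟩)
  · intro a a' h1 h2 h3 h4 h5
    exact hf2 (by rw [mem_coe, mem_filter]; exact ⟨mem_univ _, h1, h2⟩)
      (by rw [mem_coe, mem_filter]; exact ⟨mem_univ _, h3, h4⟩) h5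

lemma card_special (M w : ℕ) [NeZero (M * w)] (S : Finset (ZMod M)) (s : ZMod M) :
    (univ.filter fun k : ZMod (M * w) => red M w k - s ∈ S).card = w * S.card := by
  have h1 : (univ.filter fun k : ZMod (M * w) => red M w k - s ∈ S) =
      univ.filter fun k : ZMod (M * w) => red M w k ∈ S.image (fun x => x + s) := by
    ext k
    rw [mem_filter, mem_filter, mem_image]
    constructor
    · rintro ⟨h1, h2⟩
      exact ⟨h1, _, h2, by ring⟩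
    · rintro ⟨h1, x, h2, h3⟩
      refine ⟨h1, ?_⟩
      rw [← h3, add_sub_cancel_right]
      exact h2
  rw [h1, card_red_mem, card_image_of_injective _ (add_left_injective s)]

/-- The columns used by the flexible leaves of the other type in the row `ρ`. -/
lemma exists_H {V : Type} [Fintype V] [DecidableEq V] {T : SimpleGraph V} [DecidableRel T.Adj]
    {B Y : Finset V} {M G X : ℕ} {F : V → ZMod M} {g : V → ℕ} {o : V → ZMod M} {U : Finset V}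
    (hK : IsK T B Y M G X F g o U) (w : ℕ) [NeZero (M * w)] (y₀ : V) (nb : V → V)
    (hnb : ∀ y ∈ Y, T.Adj (nb y) y) (S : Finset (ZMod M)) {R C : Type} [Fintype R] [DecidableEq R]
    [DecidableEq C] (SR : Finset R) (a : ℕ) (ψ : ZMod (M * w) → V → R)
    (hψ2 : ∀ k k', ∀ y ∈ Y, ∀ y' ∈ Y, Out y₀ S (red M w k) y → Out y₀ S (red M w k') y' →
        g (nb y) = g (nb y') → red M w k + o (nb y) = red M w k' + o (nb y') → ψ k y = ψ k' y' →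
        k = k' ∧ y = y')
    (hψ3 : ∀ ρ, ((univ ×ˢ Y).filter fun p : ZMod (M * w) × V => Out y₀ S (red M w p.1) p.2 ∧
        ψ p.1 p.2 = ρ).card = if ρ ∈ SR then a + 1 else a)
    (ι : ℕ → ZMod M → C) (hι : ∀ γ < X, ∀ γ' < X, ∀ p p', ι γ p = ι γ' p' → γ = γ' ∧ p = p') :
    ∃ H : R → Finset C, (∀ ρ, (H ρ).card = if ρ ∈ SR then a + 1 else a) ∧
      (∀ ρ, ∀ c ∈ H ρ, ∃ γ < X, ∃ p, c = ι γ p) ∧
      ∀ k y ρ, y ∈ Y → Out y₀ S (red M w k) y → ψ k y = ρ →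
        ι (g (nb y)) (red M w k + o (nb y)) ∈ H ρ := by
  refine ⟨fun ρ => ((univ ×ˢ Y).filter fun p : ZMod (M * w) × V => Out y₀ S (red M w p.1) p.2 ∧
        ψ p.1 p.2 = ρ).image fun p => ι (g (nb p.2)) (red M w p.1 + o (nb p.2)), ?_, ?_, ?_⟩
  · intro ρ
    rw [card_image_of_injOn, hψ3]
    rintro ⟨k, y⟩ h ⟨k', y'⟩ h' he
    rw [mem_coe, mem_filter, mem_product] at h h'
    have h1 := hι _ (hK.hexc y h.1.2 _ (hnb y h.1.2)) _ (hK.hexc y' h'.1.2 _ (hnb y' h'.1.2)) _ _ he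
    have h2 := hψ2 k k' y h.1.2 y' h'.1.2 h.2.1 h'.2.1 h1.1 h1.2 (h.2.2.trans h'.2.2.symm)
    rw [h2.1, h2.2]
  · intro ρ c hc
    rw [mem_image] at hc
    obtain ⟨⟨k, y⟩, h, rfl⟩ := hc
    rw [mem_filter, mem_product] at h
    exact ⟨_, hK.hexc y h.1.2 _ (hnb y h.1.2), _, rfl⟩
  · intro k y ρ hy ho hψ
    rw [mem_image]
    refine ⟨(k, y), ?_, rfl⟩
    rw [mem_filter, mem_product]
    exact ⟨⟨mem_univ _, hy⟩, ho, hψ⟩

theorem couple (V : Type) [Fintype V] [DecidableEq V] (T : SimpleGraph V) [DecidableRel T.Adj]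
    (hT : T.IsTree) (n : ℕ) (hn : Fintype.card V = n + 1) (B : Finset V)
    (hB : ∀ u w, T.Adj u w → (u ∈ B ↔ w ∉ B)) (M₁ w₁ M₂ w₂ : ℕ) (hm : M₁ * w₁ + M₂ * w₂ = n)
    [NeZero M₁] [NeZero M₂] [NeZero (M₁ * w₁)] [NeZero (M₂ * w₂)]
    {Y₁ : Finset V} {G₁ X₁ : ℕ} {F₁ : V → ZMod M₁} {g₁ : V → ℕ} {o₁ : V → ZMod M₁}
    {U₁ : Finset V} (h₁ : IsK T B Y₁ M₁ G₁ X₁ F₁ g₁ o₁ U₁)
    {Y₂ : Finset V} {G₂ X₂ : ℕ} {F₂ : V → ZMod M₂} {g₂ : V → ℕ} {o₂ : V → ZMod M₂}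
    {U₂ : Finset V} (h₂ : IsK T B Y₂ M₂ G₂ X₂ F₂ g₂ o₂ U₂)
    (hN₁ : ∀ ρ, (univ.filter fun a : V => a ∉ B ∧ a ∉ Y₁ ∧ F₁ a = ρ).card < w₁)
    (hN₂ : ∀ ρ, (univ.filter fun a : V => a ∉ B ∧ a ∉ Y₂ ∧ F₂ a = ρ).card < w₂)
    (hY₁ : Y₁.Nonempty) (hY₂ : Y₂.Nonempty) (j₁ j₂ : ℕ) (hj₁ : j₁ ≤ M₁) (hj₂ : j₂ ≤ M₂)
    (hbal : M₁ * w₁ * (Y₁.card - 1) + w₁ * j₁ = M₂ * w₂ * (Y₂.card - 1) + w₂ * j₂)
    (hfit₁ : G₁ * M₁ + X₂ * M₂ ≤ n) (hfit₂ : G₂ * M₂ + X₁ * M₁ ≤ n)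
    (hc₁ : Y₁.card ≤ M₂ * w₂) (hc₂ : Y₂.card ≤ M₁ * w₁)
    (hm₁ : M₁ * w₁ ≤ 2 * (M₂ * w₂)) (hm₂ : M₂ * w₂ ≤ 2 * (M₁ * w₁)) :
    Decomposes T (completeBipartiteGraph (Fin n) (Fin n)) := by
  have hn0 : NeZero n := ⟨by
    have := NeZero.ne (M₁ * w₁)
    omega⟩
  obtain ⟨y₁, hy₁⟩ := hY₁
  obtain ⟨y₂, hy₂⟩ := hY₂
  have hp₁ : 1 ≤ Y₁.card := card_pos.2 ⟨y₁, hy₁⟩
  have hp₂ : 1 ≤ Y₂.card := card_pos.2 ⟨y₂, hy₂⟩
  obtain ⟨nb₁, hnb₁⟩ := exists_nb T Y₁ fun y hy => (h₁.hY y hy).2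
  obtain ⟨nb₂, hnb₂⟩ := exists_nb T Y₂ fun y hy => (h₂.hY y hy).2
  obtain ⟨S₁, -, hS₁⟩ := exists_subset_card_eq (s := (univ : Finset (ZMod M₁))) (n := j₁)
    (by rw [card_univ, ZMod.card]; exact hj₁)
  obtain ⟨S₂, -, hS₂⟩ := exists_subset_card_eq (s := (univ : Finset (ZMod M₂))) (n := j₂)
    (by rw [card_univ, ZMod.card]; exact hj₂)
  obtain ⟨f₁, hf₁, hfi₁⟩ := exists_lift B Y₁ M₁ w₁ F₁ y₁ hN₁
  obtain ⟨f₂, hf₂, hfi₂⟩ := exists_lift B Y₂ M₂ w₂ F₂ y₂ hN₂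
  obtain ⟨ψ₁, hψ₁1, hψ₁2, hψ₁3⟩ := excess h₁ w₁ y₁ hy₁ nb₁ hnb₁ S₁
    (univ.filter fun k : ZMod (M₂ * w₂) => red M₂ w₂ k - F₂ y₂ ∈ S₂) (Y₂.card - 1)
    (by rw [card_special, ZMod.card, hS₁, hS₂]; exact hbal) (by rw [ZMod.card]; exact hc₁)
    (by rw [ZMod.card]; exact hm₁)
  obtain ⟨ψ₂, hψ₂1, hψ₂2, hψ₂3⟩ := excess h₂ w₂ y₂ hy₂ nb₂ hnb₂ S₂
    (univ.filter fun k : ZMod (M₁ * w₁) => red M₁ w₁ k - F₁ y₁ ∈ S₁) (Y₁.card - 1)
    (by rw [card_special, ZMod.card, hS₁, hS₂]; exact hbal.symm) (by rw [ZMod.card]; exact hc₂)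
    (by rw [ZMod.card]; exact hm₂)
  have hG₁ : G₁ * M₁ ≤ n := by omega
  have hG₂ : G₂ * M₂ ≤ n := by omega
  have hL₁ := iotaL_inj (n := n) hG₁
  have hR₂ := iotaR_inj (n := n) hG₂
  obtain ⟨H₁, hH₁1, hH₁2, hH₁3⟩ := exists_H h₂ w₂ y₂ nb₂ hnb₂ S₂ _ _ ψ₂ hψ₂2 hψ₂3 (iotaR n M₂)
    (fun γ hγ γ' hγ' => hR₂ γ (hγ.trans_le h₂.hGx) γ' (hγ'.trans_le h₂.hGx))
  obtain ⟨H₂, hH₂1, hH₂2, hH₂3⟩ := exists_H h₁ w₁ y₁ nb₁ hnb₁ S₁ _ _ ψ₁ hψ₁2 hψ₁3 (iotaL n M₁)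
    (fun γ hγ γ' hγ' => hL₁ γ (hγ.trans_le h₁.hGx) γ' (hγ'.trans_le h₁.hGx))
  obtain ⟨row₁, col₁, p₁1, p₁2, p₁3, p₁4, p₁5⟩ := half hB h₁ w₁ y₁ hy₁ nb₁ hnb₁ S₁ f₁ hf₁ hfi₁ ψ₁
    hψ₁1 hψ₁2 (C := Fin n) (by
      rw [Fintype.card_fin]
      have := h₁.hcount
      omega) (iotaL n M₁) hL₁ H₁ (by
      intro ρ c hc γ hγ p h
      obtain ⟨γ', hγ', p', rfl⟩ := hH₁2 ρ c hc
      exact iota_ne hfit₁ hγ hγ' p p' h) (by
      intro ρ
      rw [hH₁1]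
      simp only [mem_filter, mem_univ, true_and]
      rw [Nat.sub_add_cancel hp₁])
  obtain ⟨row₂, col₂, p₂1, p₂2, p₂3, p₂4, p₂5⟩ := half hB h₂ w₂ y₂ hy₂ nb₂ hnb₂ S₂ f₂ hf₂ hfi₂ ψ₂
    hψ₂1 hψ₂2 (C := Fin n) (by
      rw [Fintype.card_fin]
      have := h₂.hcount
      omega) (iotaR n M₂) hR₂ H₂ (by
      intro ρ c hc γ hγ p h
      obtain ⟨γ', hγ', p', rfl⟩ := hH₂2 ρ c hc
      exact iota_ne (by omega : X₁ * M₁ + G₂ * M₂ ≤ n) hγ' hγ p' p h.symm) (by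
      intro ρ
      rw [hH₂1]
      simp only [mem_filter, mem_univ, true_and]
      rw [Nat.sub_add_cancel hp₂])
  have key : ∀ k k' a a' v v', T.Adj a v → T.Adj a' v' → a ∉ B → a' ∉ B →
      row₁ k a = (row₂ k' a').swap → col₁ k v = col₂ k' v' → False := by
    intro k k' a a' v v' hav hav' ha ha' hr hc
    rcases h : row₁ k a with ρ | ρ
    · rw [h] at hr
      have h' : row₂ k' a' = Sum.inr ρ := by
        rw [← Sum.swap_swap (row₂ k' a'), ← hr]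
        rfl
      obtain ⟨e1, e2, e3, e4, e5⟩ := p₂5 k' a' v' ρ ha' hav' h'
      apply p₁4 k a v ρ ha hav h
      rw [hc, e5]
      exact hH₁3 k' a' ρ e1 e2 e3
    · rw [h] at hr
      have h' : row₂ k' a' = Sum.inl ρ := by
        rw [← Sum.swap_swap (row₂ k' a'), ← hr]
        rfl
      obtain ⟨e1, e2, e3, e4, e5⟩ := p₁5 k a v ρ ha hav h
      apply p₂4 k' a' v' ρ ha' hav' h'
      rw [← hc, e5]
      exact hH₂3 k a ρ e1 e2 e3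
  refine decomposes_of_inj T hT n hn B hB (I := ZMod (M₁ * w₁) ⊕ ZMod (M₂ * w₂))
    (R := ZMod (M₁ * w₁) ⊕ ZMod (M₂ * w₂)) (C := Fin n)
    (by rw [Fintype.card_sum, ZMod.card, ZMod.card, hm])
    (by rw [Fintype.card_sum, ZMod.card, ZMod.card, hm]) (Fintype.card_fin n)
    (fun k a => Sum.elim (fun k => row₁ k a) (fun k => (row₂ k a).swap) k)
    (fun k v => Sum.elim (fun k => col₁ k v) (fun k => col₂ k v) k) ?_ ?_ ?_
  · rintro (k | k) a a' ha ha' h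
    · exact p₁1 k a a' ha ha' h
    · simp only [Sum.elim_inr] at h
      have h1 := congrArg Sum.swap h
      rw [Sum.swap_swap, Sum.swap_swap] at h1
      exact p₂1 k a a' ha ha' h1
  · rintro (k | k) v v' hv hv' h
    · exact p₁2 k v v' hv hv' h
    · exact p₂2 k v v' hv hv' h
  · rintro (k | k) (k' | k') a a' v v' hav hav' ha ha' hr hc
    · obtain ⟨e1, e2, e3⟩ := p₁3 k k' a a' v v' hav hav' ha ha' hr hc
      exact ⟨by rw [e1], e2, e3⟩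
    · exact (key k k' a a' v v' hav hav' ha ha' hr hc).elim
    · exact (key k' k a' a v' v hav' hav ha' ha hr.symm hc.symm).elim
    · simp only [Sum.elim_inr] at hr
      have h1 := congrArg Sum.swap hr
      rw [Sum.swap_swap, Sum.swap_swap] at h1
      obtain ⟨e1, e2, e3⟩ := p₂3 k k' a a' v v' hav hav' ha ha' h1 hc
      exact ⟨by rw [e1], e2, e3⟩

end Pool.Agent.Helper83.GH
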