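import Pool.Agent.Helper83.GH.Defs

/-!
# GHC-REM: a tree without some leaves of one class

Proof. `rem_isTree`: acyclic since it embeds in `T`; connected: a path of `T` between two vertices
outside `R` has no vertex of degree 1 in its interior, so it avoids `R`. Nonempty: if `R` is not
empty, the neighbour of a leaf in `R` is not in `B`, so it is not in `R`.
-/

namespace Pool.Agent.Helper83.GH

open Finset

variable {V : Type} [Fintype V] [DecidableEq V]

/-- The tree without the leaves in `R`. -/
abbrev rem (T : SimpleGraph V) (R : Finset V) : SimpleGraph {v : V // v ∉ R} :=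
  T.comap Subtype.val

theorem rem_isTree (T : SimpleGraph V) [DecidableRel T.Adj] (hT : T.IsTree) (B : Finset V)
    (hB : ∀ u w, T.Adj u w → (u ∈ B ↔ w ∉ B)) (R : Finset V)
    (hR : ∀ u ∈ R, u ∈ B ∧ T.degree u = 1) : (rem T R).IsTree := by
  have hne : Nonempty {v : V // v ∉ R} := by
    obtain ⟨v⟩ := hT.connected.nonempty
    by_cases hv : v ∈ R
    · obtain ⟨hvB, hvd⟩ := hR v hv
      rw [SimpleGraph.degree_eq_one_iff_existsUnique_adj] at hvd
      obtain ⟨a, ha, -⟩ := hvd
      exact ⟨⟨a, fun h => (hB v a ha).1 hvB (hR a h).1⟩⟩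
    · exact ⟨⟨v, hv⟩⟩
  have hconn : (rem T R).Preconnected := by
    intro x y
    have key : ∀ u v (_ : T.Walk u v),
        ((∃ h : u ∉ R, (rem T R).Reachable x ⟨u, h⟩) ∨
          (u ∈ R ∧ ∃ a, ∃ h : a ∉ R, T.Adj u a ∧ (rem T R).Reachable x ⟨a, h⟩)) →
        ((∃ h : v ∉ R, (rem T R).Reachable x ⟨v, h⟩) ∨
          (v ∈ R ∧ ∃ a, ∃ h : a ∉ R, T.Adj v a ∧ (rem T R).Reachable x ⟨a, h⟩)) := by
      intro u v p
      induction p with
      | nil => exact id
      | @cons u v w hadj _ ih =>
        intro h
        apply ih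
        rcases h with ⟨hu, hr⟩ | ⟨hu, a, ha, hua, hr⟩
        · by_cases hv : v ∈ R
          · exact Or.inr ⟨hv, u, hu, hadj.symm, hr⟩
          · left
            refine ⟨hv, hr.trans ?_⟩
            apply SimpleGraph.Adj.reachable
            exact hadj
        · have hd := (hR u hu).2
          rw [SimpleGraph.degree_eq_one_iff_existsUnique_adj] at hd
          have := hd.unique hadj hua
          subst this
          exact Or.inl ⟨ha, hr⟩
    obtain ⟨p⟩ := hT.connected.preconnected x.1 y.1
    rcases key x.1 y.1 p (Or.inl ⟨x.2, SimpleGraph.Reachable.refl _⟩) with ⟨h, hr⟩ | ⟨h, -⟩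
    · exact hr
    · exact (y.2 h).elim
  refine ⟨⟨hconn⟩, ?_⟩
  exact hT.isAcyclic.comap ⟨Subtype.val, fun h => h⟩ Subtype.val_injective

theorem rem_degree (T : SimpleGraph V) [DecidableRel T.Adj] (R : Finset V) (v : {v : V // v ∉ R}) :
    (rem T R).degree v + (R.filter fun u => T.Adj v.1 u).card = T.degree v.1 := by
  rw [← SimpleGraph.card_neighborFinset_eq_degree, ← SimpleGraph.card_neighborFinset_eq_degree,
    ← card_filter_add_card_filter_not (s := T.neighborFinset v.1) (fun u => u ∈ R), add_comm]
  congr 1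
  · congr 1
    ext u
    simp only [mem_filter, SimpleGraph.mem_neighborFinset]
    tauto
  · rw [← card_image_of_injective _ Subtype.val_injective]
    congr 1
    ext u
    simp only [mem_filter, SimpleGraph.mem_neighborFinset, mem_image, Subtype.exists,
      SimpleGraph.comap_adj]
    constructor
    · rintro ⟨a, ha, h, rfl⟩
      exact ⟨h, ha⟩
    · rintro ⟨h, ha⟩
      exact ⟨u, ha, h, rfl⟩

theorem rem_card (R : Finset V) : Fintype.card {v : V // v ∉ R} + R.card = Fintype.card V := by
  rw [Fintype.card_subtype]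
  have h : (univ.filter fun v => v ∉ R) = Rᶜ := by
    ext v
    simp
  rw [h, card_compl]
  have := card_le_univ R
  omega

end Pool.Agent.Helper83.GH
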