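import Pool.Agent.Helper83.GH.Half2
import Pool.Agent.Helper83.GH.Couple
import Pool.Agent.Helper83.GH.Assemble
import Pool.Agent.Helper83.GH.TreeRem
import Pool.Agent.Helper83.GH.Count2

/-!
# GHC-C: two types of copies, flexible vertices of degree 2
-/

namespace Pool.Agent.Helper83.GH

open Finset Pool.Agent.Helper19.GH

lemma card_split {I₁ I₂ V : Type} [Fintype I₁] [Fintype I₂] [Fintype V] [DecidableEq V]
    [DecidableEq I₁] [DecidableEq I₂] (R₁ R₂ : Finset V) (P : I₁ ⊕ I₂ → V → Prop)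
    [∀ k v, Decidable (P k v)] :
    ((univ ×ˢ univ).filter fun p : (I₁ ⊕ I₂) × V =>
      p.2 ∈ Sum.elim (fun _ => R₁) (fun _ => R₂) p.1 ∧ P p.1 p.2).card =
    ((univ ×ˢ R₁).filter fun p : I₁ × V => P (Sum.inl p.1) p.2).card +
      ((univ ×ˢ R₂).filter fun p : I₂ × V => P (Sum.inr p.1) p.2).card := by
  have h : ((univ ×ˢ univ).filter fun p : (I₁ ⊕ I₂) × V =>
      p.2 ∈ Sum.elim (fun _ => R₁) (fun _ => R₂) p.1 ∧ P p.1 p.2) =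
      ((univ ×ˢ R₁).filter fun p : I₁ × V => P (Sum.inl p.1) p.2).image
        (fun p => ((Sum.inl p.1 : I₁ ⊕ I₂), p.2)) ∪
      ((univ ×ˢ R₂).filter fun p : I₂ × V => P (Sum.inr p.1) p.2).image
        (fun p => ((Sum.inr p.1 : I₁ ⊕ I₂), p.2)) := by
    ext ⟨k, v⟩
    simp only [mem_filter, mem_product, mem_univ, true_and, mem_union, mem_image, Prod.mk.injEq,
      Prod.exists]
    rcases k with k | k
    · simp only [Sum.elim_inl, Sum.inl.injEq, reduceCtorEq, false_and, and_false, exists_false,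
        or_false]
      constructor
      · rintro ⟨h1, h2⟩
        exact ⟨k, v, ⟨h1, h2⟩, rfl, rfl⟩
      · rintro ⟨k', v', ⟨h1, h2⟩, rfl, rfl⟩
        exact ⟨h1, h2⟩
    · simp only [Sum.elim_inr, Sum.inr.injEq, reduceCtorEq, false_and, and_false, exists_false,
        false_or]
      constructor
      · rintro ⟨h1, h2⟩
        exact ⟨k, v, ⟨h1, h2⟩, rfl, rfl⟩
      · rintro ⟨k', v', ⟨h1, h2⟩, rfl, rfl⟩
        exact ⟨h1, h2⟩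
  rw [h, card_union_of_disjoint, card_image_of_injective, card_image_of_injective]
  · rintro ⟨a, b⟩ ⟨a', b'⟩ hab
    simp only [Prod.mk.injEq, Sum.inr.injEq] at hab
    rw [hab.1, hab.2]
  · rintro ⟨a, b⟩ ⟨a', b'⟩ hab
    simp only [Prod.mk.injEq, Sum.inl.injEq] at hab
    rw [hab.1, hab.2]
  · rw [disjoint_left]
    intro x hx hx'
    rw [mem_image] at hx hx'
    obtain ⟨p, -, hp⟩ := hx
    obtain ⟨q, -, hq⟩ := hx'
    rw [← hp] at hq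
    simp only [Prod.mk.injEq, reduceCtorEq, false_and] at hq

theorem couple2 (V : Type) [Fintype V] [DecidableEq V] (T : SimpleGraph V) [DecidableRel T.Adj]
    (hT : T.IsTree) (n : ℕ) (hn : Fintype.card V = n + 1) (B : Finset V)
    (hB : ∀ u w, T.Adj u w → (u ∈ B ↔ w ∉ B)) (M₁ w₁ M₂ w₂ : ℕ) (hm : M₁ * w₁ + M₂ * w₂ = n)
    [NeZero M₁] [NeZero M₂] [NeZero (M₁ * w₁)] [NeZero (M₂ * w₂)]
    (R₁ R₂ P₂ : Finset V) (z N : ℕ) (hNz : N + z = n) (hR₁c : R₁.card = z) (hR₂c : R₂.card = z)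
    (nl : V → V) (hR₁ : ∀ u ∈ R₁, u ∈ B ∧ T.degree u = 1 ∧ T.Adj u (nl u))
    (hR₂ : ∀ u ∈ R₂, u ∈ B ∧ T.degree u = 1 ∧ T.Adj u (nl u)) (hP₂ : P₂ ⊆ R₂)
    {Y₁ : Finset {v : V // v ∉ R₁}} {G₁ X₁ : ℕ} {F₁ : {v : V // v ∉ R₁} → ZMod M₁}
    {g₁ : {v : V // v ∉ R₁} → ℕ} {o₁ : {v : V // v ∉ R₁} → ZMod M₁}
    {U₁ : Finset {v : V // v ∉ R₁}}
    (h₁ : IsK (rem T R₁) (B.subtype fun v => v ∉ R₁) Y₁ M₁ G₁ X₁ F₁ g₁ o₁ U₁)
    {Y₂ : Finset {v : V // v ∉ R₂}} {G₂ X₂ : ℕ} {F₂ : {v : V // v ∉ R₂} → ZMod M₂}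
    {g₂ : {v : V // v ∉ R₂} → ℕ} {o₂ : {v : V // v ∉ R₂} → ZMod M₂}
    {U₂ : Finset {v : V // v ∉ R₂}}
    (h₂ : IsK (rem T R₂) (B.subtype fun v => v ∉ R₂) Y₂ M₂ G₂ X₂ F₂ g₂ o₂ U₂)
    (hY₁m : ∀ y, y ∈ Y₁ ↔ ∃ u ∈ R₁, nl u = y.1)
    (hY₁i : ∀ u ∈ R₁, ∀ u' ∈ R₁, nl u = nl u' → u = u')
    (hY₂m : ∀ y, y ∈ Y₂ ↔ ∃ u ∈ P₂, nl u = y.1)
    (hY₂i : ∀ u ∈ P₂, ∀ u' ∈ R₂, nl u = nl u' → u = u')
    (hY₁c : Y₁.card = z) (hY₂c : P₂.card = Y₂.card)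
    (hN₁ : ∀ ρ, (univ.filter fun a : {v : V // v ∉ R₁} =>
      a ∉ B.subtype (fun v => v ∉ R₁) ∧ a ∉ Y₁ ∧ F₁ a = ρ).card < w₁)
    (hN₂ : ∀ ρ, (univ.filter fun a : {v : V // v ∉ R₂} =>
      a ∉ B.subtype (fun v => v ∉ R₂) ∧ a ∉ Y₂ ∧ F₂ a = ρ).card < w₂)
    (hY₁ : Y₁.Nonempty) (hY₂ : Y₂.Nonempty) (j₂ : ℕ) (hj₂ : j₂ ≤ M₂)
    (hbal : M₁ * w₁ * (Y₁.card - 1) + w₁ * M₁ = M₂ * w₂ * (Y₂.card - 1) + w₂ * j₂)
    (hfit₁ : G₁ * M₁ + X₂ * M₂ ≤ N) (hfit₂ : G₂ * M₂ + X₁ * M₁ ≤ N)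
    (hc₁ : Y₁.card ≤ M₂ * w₂) (hc₂ : Y₂.card ≤ M₁ * w₁)
    (hm₁ : M₁ * w₁ ≤ 2 * (M₂ * w₂)) (hm₂ : M₂ * w₂ ≤ 2 * (M₁ * w₁)) :
    Decomposes T (completeBipartiteGraph (Fin n) (Fin n)) := by
  classical
  have hcV₁ := rem_card R₁
  have hcV₂ := rem_card R₂
  have hk₁ := h₁.hcount
  have hk₂ := h₂.hcount
  obtain ⟨y₁, hy₁⟩ := hY₁
  obtain ⟨y₂, hy₂⟩ := hY₂
  have hp₁ : 1 ≤ Y₁.card := card_pos.2 ⟨y₁, hy₁⟩
  have hp₂ : 1 ≤ Y₂.card := card_pos.2 ⟨y₂, hy₂⟩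
  have hN0 : NeZero N := ⟨by omega⟩
  -- the maps to the subtypes
  have hRB₁ : ∀ a, a ∉ B → a ∉ R₁ := fun a ha h => ha (hR₁ a h).1
  have hRB₂ : ∀ a, a ∉ B → a ∉ R₂ := fun a ha h => ha (hR₂ a h).1
  let e₁ : V → {v : V // v ∉ R₁} := fun a => if h : a ∉ R₁ then ⟨a, h⟩ else y₁
  let e₂ : V → {v : V // v ∉ R₂} := fun a => if h : a ∉ R₂ then ⟨a, h⟩ else y₂
  have he₁ : ∀ a, a ∉ R₁ → (e₁ a).1 = a := fun a h => by simp only [e₁, dif_pos h]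
  have he₂ : ∀ a, a ∉ R₂ → (e₂ a).1 = a := fun a h => by simp only [e₂, dif_pos h]
  have hnlB₁ : ∀ u ∈ R₁, nl u ∉ B := fun u hu => (hB _ _ (hR₁ u hu).2.2).1 (hR₁ u hu).1
  have hnlB₂ : ∀ u ∈ R₂, nl u ∉ B := fun u hu => (hB _ _ (hR₂ u hu).2.2).1 (hR₂ u hu).1
  have hen₁ : ∀ u ∈ R₁, (e₁ (nl u)).1 = nl u := fun u hu => he₁ _ (hRB₁ _ (hnlB₁ u hu))
  have hen₂ : ∀ u ∈ R₂, (e₂ (nl u)).1 = nl u := fun u hu => he₂ _ (hRB₂ _ (hnlB₂ u hu))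
  have hBi₁ : ∀ u w, (rem T R₁).Adj u w → (u ∈ B.subtype (fun v => v ∉ R₁) ↔
      w ∉ B.subtype (fun v => v ∉ R₁)) := by
    intro u w h
    rw [mem_subtype, mem_subtype]
    exact hB _ _ h
  have hBi₂ : ∀ u w, (rem T R₂).Adj u w → (u ∈ B.subtype (fun v => v ∉ R₂) ↔
      w ∉ B.subtype (fun v => v ∉ R₂)) := by
    intro u w h
    rw [mem_subtype, mem_subtype]
    exact hB _ _ h
  obtain ⟨nb₁, hnb₁⟩ := exists_nb (rem T R₁) Y₁ fun y hy => (h₁.hY y hy).2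
  obtain ⟨nb₂, hnb₂⟩ := exists_nb (rem T R₂) Y₂ fun y hy => (h₂.hY y hy).2
  obtain ⟨S₂, -, hS₂⟩ := exists_subset_card_eq (s := (univ : Finset (ZMod M₂))) (n := j₂)
    (by rw [card_univ, ZMod.card]; exact hj₂)
  have hS₁ : (univ : Finset (ZMod M₁)).card = M₁ := by rw [card_univ, ZMod.card]
  obtain ⟨f₁, hf₁, hfi₁⟩ := exists_lift (B.subtype fun v => v ∉ R₁) Y₁ M₁ w₁ F₁ y₁ hN₁
  obtain ⟨f₂, hf₂, hfi₂⟩ := exists_lift (B.subtype fun v => v ∉ R₂) Y₂ M₂ w₂ F₂ y₂ hN₂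
  obtain ⟨ψ₁, hψ₁1, hψ₁2, hψ₁3⟩ := excess h₁ w₁ y₁ hy₁ nb₁ hnb₁ univ
    (univ.filter fun k : ZMod (M₂ * w₂) => red M₂ w₂ k - F₂ y₂ ∈ S₂) (Y₂.card - 1)
    (by rw [card_special, ZMod.card, hS₁, hS₂]; exact hbal) (by rw [ZMod.card]; exact hc₁)
    (by rw [ZMod.card]; exact hm₁)
  obtain ⟨ψ₂, hψ₂1, hψ₂2, hψ₂3⟩ := excess h₂ w₂ y₂ hy₂ nb₂ hnb₂ S₂
    (univ.filter fun k : ZMod (M₁ * w₁) => red M₁ w₁ k - F₁ y₁ ∈ (univ : Finset (ZMod M₁)))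
    (Y₁.card - 1)
    (by rw [card_special, ZMod.card, hS₁, hS₂]; exact hbal.symm) (by rw [ZMod.card]; exact hc₂)
    (by rw [ZMod.card]; exact hm₂)
  have hG₁ : G₁ * M₁ ≤ N := by omega
  have hG₂ : G₂ * M₂ ≤ N := by omega
  have hL₁ := iotaL_inj (n := N) hG₁
  have hR₂' := iotaR_inj (n := N) hG₂
  obtain ⟨H₁, hH₁1, hH₁2, hH₁3⟩ := exists_H h₂ w₂ y₂ nb₂ hnb₂ S₂ _ _ ψ₂ hψ₂2 hψ₂3 (iotaR N M₂)
    (fun γ hγ γ' hγ' => hR₂' γ (hγ.trans_le h₂.hGx) γ' (hγ'.trans_le h₂.hGx))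
  obtain ⟨H₂, hH₂1, hH₂2, hH₂3⟩ := exists_H h₁ w₁ y₁ nb₁ hnb₁ univ _ _ ψ₁ hψ₁2 hψ₁3
    (iotaL N M₁) (fun γ hγ γ' hγ' => hL₁ γ (hγ.trans_le h₁.hGx) γ' (hγ'.trans_le h₁.hGx))
  obtain ⟨row₁, col₁, p₁1, p₁2, p₁3, p₁4, p₁5, p₁6⟩ := half2 hBi₁ h₁ w₁ y₁ hy₁ nb₁ hnb₁ univ f₁
    hf₁ hfi₁ ψ₁ hψ₁1 hψ₁2 (C := Fin N) (by
      rw [Fintype.card_fin]
      omega) (iotaL N M₁) hL₁ H₁ (by
      intro ρ c hc γ hγ p h
      obtain ⟨γ', hγ', p', rfl⟩ := hH₁2 ρ c hc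
      exact iota_ne hfit₁ hγ hγ' p p' h) (by
      intro ρ
      rw [hH₁1]
      simp only [mem_filter, mem_univ, true_and, if_true]
      rw [Nat.sub_add_cancel hp₁])
  obtain ⟨row₂, col₂, p₂1, p₂2, p₂3, p₂4, p₂5, p₂6⟩ := half2 hBi₂ h₂ w₂ y₂ hy₂ nb₂ hnb₂ S₂ f₂ hf₂
    hfi₂ ψ₂ hψ₂1 hψ₂2 (C := Fin N) (by
      rw [Fintype.card_fin]
      omega) (iotaR N M₂) hR₂' H₂ (by
      intro ρ c hc γ hγ p h
      obtain ⟨γ', hγ', p', rfl⟩ := hH₂2 ρ c hc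
      exact iota_ne (by omega : X₁ * M₁ + G₂ * M₂ ≤ N) hγ' hγ p' p h.symm) (by
      intro ρ
      rw [hH₂1]
      simp only [mem_filter, mem_univ, true_and]
      rw [Nat.sub_add_cancel hp₂])
  have key : ∀ k k' a a' v v', (rem T R₁).Adj a v → (rem T R₂).Adj a' v' →
      a ∉ B.subtype (fun v => v ∉ R₁) → a' ∉ B.subtype (fun v => v ∉ R₂) →
      row₁ k a = (row₂ k' a').swap → col₁ k v = col₂ k' v' → False := by
    intro k k' a a' v v' hav hav' ha ha' hr hc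
    rcases h : row₁ k a with ρ | ρ
    · rw [h] at hr
      have h' : row₂ k' a' = Sum.inr ρ := by
        rw [← Sum.swap_swap (row₂ k' a'), ← hr]
        rfl
      obtain ⟨e1, e2, e3, e4, e5⟩ := p₂5 k' a' v' ρ ha' hav' h'
      apply p₁4 k a v ρ ha hav h
      rw [hc, e5]
      exact hH₁3 k' a' ρ e1 e2 e3
    · rw [h] at hr
      have h' : row₂ k' a' = Sum.inl ρ := by
        rw [← Sum.swap_swap (row₂ k' a'), ← hr]
        rfl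
      obtain ⟨e1, e2, e3, e4, e5⟩ := p₁5 k a v ρ ha hav h
      apply p₂4 k' a' v' ρ ha' hav' h'
      rw [← hc, e5]
      exact hH₂3 k a ρ e1 e2 e3
  -- the numbers of the removed leaves in the rows
  obtain ⟨c₁1, c₁2⟩ := row_count M₁ w₁ R₁ R₁ (fun u => e₁ (nl u)) Y₁ (Subset.refl _)
    (fun u hu => (hY₁m _).2 ⟨u, hu, (hen₁ u hu).symm⟩)
    (fun u hu u' hu' h => hY₁i u hu u' hu' (by rw [← hen₁ u hu, ← hen₁ u' hu', h]))
    (fun y hy => by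
      obtain ⟨u, hu, h⟩ := (hY₁m y).1 hy
      exact ⟨u, hu, Subtype.ext (by rw [hen₁ u hu, h])⟩)
    (fun u hu hu' => absurd hu hu') y₁ hy₁ univ F₁ f₁ (hf₁ y₁ (h₁.hY y₁ hy₁).1 (Or.inr rfl)) ψ₁
    row₁ p₁6
  obtain ⟨c₂1, c₂2⟩ := row_count M₂ w₂ R₂ P₂ (fun u => e₂ (nl u)) Y₂ hP₂
    (fun u hu => (hY₂m _).2 ⟨u, hu, (hen₂ u (hP₂ hu)).symm⟩)
    (fun u hu u' hu' h => hY₂i u hu u' (hP₂ hu') (by
      rw [← hen₂ u (hP₂ hu), ← hen₂ u' (hP₂ hu'), h]))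
    (fun y hy => by
      obtain ⟨u, hu, h⟩ := (hY₂m y).1 hy
      exact ⟨u, hu, Subtype.ext (by rw [hen₂ u (hP₂ hu), h])⟩)
    (fun u hu hu' hY => by
      obtain ⟨u', hu'', h⟩ := (hY₂m _).1 hY
      rw [hen₂ u hu] at h
      exact hu' (by rw [← hY₂i u' hu'' u hu h]; exact hu'')) y₂ hy₂ S₂ F₂ f₂
    (hf₂ y₂ (h₂.hY y₂ hy₂).1 (Or.inr rfl)) ψ₂ row₂ p₂6
  have hmem₁ : ∀ a, a ∉ B → e₁ a ∉ B.subtype (fun v => v ∉ R₁) := by
    intro a ha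
    rw [mem_subtype, he₁ a (hRB₁ a ha)]
    exact ha
  have hmem₂ : ∀ a, a ∉ B → e₂ a ∉ B.subtype (fun v => v ∉ R₂) := by
    intro a ha
    rw [mem_subtype, he₂ a (hRB₂ a ha)]
    exact ha
  have hadj₁ : ∀ a v, T.Adj a v → a ∉ R₁ → v ∉ R₁ → (rem T R₁).Adj (e₁ a) (e₁ v) := by
    intro a v h ha hv
    rw [SimpleGraph.comap_adj, he₁ a ha, he₁ v hv]
    exact h
  have hadj₂ : ∀ a v, T.Adj a v → a ∉ R₂ → v ∉ R₂ → (rem T R₂).Adj (e₂ a) (e₂ v) := by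
    intro a v h ha hv
    rw [SimpleGraph.comap_adj, he₂ a ha, he₂ v hv]
    exact h
  have hi₁ : ∀ a a', a ∉ R₁ → a' ∉ R₁ → e₁ a = e₁ a' → a = a' := by
    intro a a' ha ha' h
    rw [← he₁ a ha, ← he₁ a' ha', h]
  have hi₂ : ∀ a a', a ∉ R₂ → a' ∉ R₂ → e₂ a = e₂ a' → a = a' := by
    intro a a' ha ha' h
    rw [← he₂ a ha, ← he₂ a' ha', h]
  refine assemble T hT n hn B hB (I := ZMod (M₁ * w₁) ⊕ ZMod (M₂ * w₂))
    (Rw := ZMod (M₁ * w₁) ⊕ ZMod (M₂ * w₂))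
    (by rw [Fintype.card_sum, ZMod.card, ZMod.card, hm])
    (by rw [Fintype.card_sum, ZMod.card, ZMod.card, hm]) N z hNz
    (fun k => Sum.elim (fun _ => R₁) (fun _ => R₂) k) ?_ nl ?_
    (fun k a => Sum.elim (fun k => row₁ k (e₁ a)) (fun k => (row₂ k (e₂ a)).swap) k)
    (fun k v => Sum.elim (fun k => col₁ k (e₁ v)) (fun k => col₂ k (e₂ v)) k) ?_ ?_ ?_ ?_
  · rintro (k | k)
    · exact hR₁c
    · exact hR₂c
  · rintro (k | k) u hu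
    · exact hR₁ u hu
    · exact hR₂ u hu
  · rintro (k | k) a a' ha ha' h
    · exact hi₁ a a' (hRB₁ a ha) (hRB₁ a' ha') (p₁1 k _ _ (hmem₁ a ha) (hmem₁ a' ha') h)
    · simp only [Sum.elim_inr] at h
      have h1 := congrArg Sum.swap h
      rw [Sum.swap_swap, Sum.swap_swap] at h1
      exact hi₂ a a' (hRB₂ a ha) (hRB₂ a' ha') (p₂1 k _ _ (hmem₂ a ha) (hmem₂ a' ha') h1)
  · rintro (k | k) v v' hv hvR hv' hvR' h
    · simp only [Sum.elim_inl] at h hvR hvR'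
      refine hi₁ v v' hvR hvR' (p₁2 k _ _ ?_ ?_ h)
      · rw [mem_subtype, he₁ v hvR]
        exact hv
      · rw [mem_subtype, he₁ v' hvR']
        exact hv'
    · simp only [Sum.elim_inr] at h hvR hvR'
      refine hi₂ v v' hvR hvR' (p₂2 k _ _ ?_ ?_ h)
      · rw [mem_subtype, he₂ v hvR]
        exact hv
      · rw [mem_subtype, he₂ v' hvR']
        exact hv'
  · rintro (k | k) (k' | k') a a' v v' hav hav' ha ha' hv hv' hr hc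
    · simp only [Sum.elim_inl] at hv hv' hr hc
      obtain ⟨e1, e2, e3⟩ := p₁3 k k' _ _ _ _ (hadj₁ a v hav (hRB₁ a ha) hv)
        (hadj₁ a' v' hav' (hRB₁ a' ha') hv') (hmem₁ a ha) (hmem₁ a' ha') hr hc
      exact ⟨by rw [e1], hi₁ a a' (hRB₁ a ha) (hRB₁ a' ha') e2, hi₁ v v' hv hv' e3⟩
    · simp only [Sum.elim_inl, Sum.elim_inr] at hv hv' hr hc
      exact (key k k' _ _ _ _ (hadj₁ a v hav (hRB₁ a ha) hv) (hadj₂ a' v' hav' (hRB₂ a' ha') hv')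
        (hmem₁ a ha) (hmem₂ a' ha') hr hc).elim
    · simp only [Sum.elim_inl, Sum.elim_inr] at hv hv' hr hc
      exact (key k' k _ _ _ _ (hadj₁ a' v' hav' (hRB₁ a' ha') hv') (hadj₂ a v hav (hRB₂ a ha) hv)
        (hmem₁ a' ha') (hmem₂ a ha) hr.symm hc.symm).elim
    · simp only [Sum.elim_inr] at hv hv' hr hc
      have h1 := congrArg Sum.swap hr
      rw [Sum.swap_swap, Sum.swap_swap] at h1
      obtain ⟨e1, e2, e3⟩ := p₂3 k k' _ _ _ _ (hadj₂ a v hav (hRB₂ a ha) hv)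
        (hadj₂ a' v' hav' (hRB₂ a' ha') hv') (hmem₂ a ha) (hmem₂ a' ha') h1 hc
      exact ⟨by rw [e1], hi₂ a a' (hRB₂ a ha) (hRB₂ a' ha') e2, hi₂ v v' hv hv' e3⟩
  · have hsw : ∀ (x : ZMod (M₂ * w₂) ⊕ ZMod (M₁ * w₁)) (y : ZMod (M₁ * w₁) ⊕ ZMod (M₂ * w₂)),
        x.swap = y ↔ x = y.swap := by
      intro x y
      constructor
      · intro h
        rw [← h, Sum.swap_swap]
      · intro h
        rw [h, Sum.swap_swap]
    rintro (ρ | ρ)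
    · rw [card_split R₁ R₂ (fun k u => Sum.elim (fun k => row₁ k (e₁ (nl u)))
        (fun k => (row₂ k (e₂ (nl u))).swap) k = Sum.inl ρ)]
      have a1 := c₁1 ρ
      have a2 := c₂2 ρ
      have a3 := hψ₂3 ρ
      simp only [mem_filter, mem_univ, true_and, if_true] at a1 a3
      calc _ = ((univ ×ˢ R₁).filter fun p : ZMod (M₁ * w₁) × V =>
            row₁ p.1 (e₁ (nl p.2)) = Sum.inl ρ).card +
          ((univ ×ˢ R₂).filter fun p : ZMod (M₂ * w₂) × V =>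
            row₂ p.1 (e₂ (nl p.2)) = Sum.inr ρ).card := by
            refine congrArg₂ (· + ·) (congrArg card ?_) (congrArg card ?_)
            · ext p
              rw [mem_filter, mem_filter]
              simp only [Sum.elim_inl]
            · ext p
              rw [mem_filter, mem_filter]
              simp only [Sum.elim_inr, hsw, Sum.swap_inl]
        _ = z := by
            rw [a2, a3]
            omega
    · rw [card_split R₁ R₂ (fun k u => Sum.elim (fun k => row₁ k (e₁ (nl u)))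
        (fun k => (row₂ k (e₂ (nl u))).swap) k = Sum.inr ρ)]
      have a1 := c₂1 ρ
      have a2 := c₁2 ρ
      have a3 := hψ₁3 ρ
      simp only [mem_filter, mem_univ, true_and] at a1 a3
      have hle := card_le_card hP₂
      calc _ = ((univ ×ˢ R₁).filter fun p : ZMod (M₁ * w₁) × V =>
            row₁ p.1 (e₁ (nl p.2)) = Sum.inr ρ).card +
          ((univ ×ˢ R₂).filter fun p : ZMod (M₂ * w₂) × V =>
            row₂ p.1 (e₂ (nl p.2)) = Sum.inl ρ).card := by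
            refine congrArg₂ (· + ·) (congrArg card ?_) (congrArg card ?_)
            · ext p
              rw [mem_filter, mem_filter]
              simp only [Sum.elim_inl]
            · ext p
              rw [mem_filter, mem_filter]
              simp only [Sum.elim_inr, hsw, Sum.swap_inr]
        _ = z := by
            rw [a2, a3]
            by_cases hS : red M₂ w₂ ρ - F₂ y₂ ∈ S₂
            · simp only [if_pos hS] at a1 ⊢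
              omega
            · simp only [if_neg hS] at a1 ⊢
              omega

end Pool.Agent.Helper83.GH
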