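import Pool.Agent.Helper83.GH.Num1

/-!
# GHA-NUM: the choice of the parameters
-/

namespace Pool.Agent.Helper83.GH

lemma exists_cube (y : ℝ) (hy : 0 ≤ y) : ∃ X : ℕ, (X : ℝ) ^ 3 ≤ y ∧ y < ((X : ℝ) + 1) ^ 3 := by
  classical
  have hex : ∃ Z : ℕ, y < (Z : ℝ) ^ 3 := by
    obtain ⟨Z, hZ⟩ := exists_nat_gt y
    refine ⟨Z + 1, ?_⟩
    push_cast
    have hZ0 : (0 : ℝ) ≤ Z := Nat.cast_nonneg Z
    nlinarith [mul_nonneg hZ0 hZ0, mul_nonneg (mul_nonneg hZ0 hZ0) hZ0]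
  have h1 := Nat.find_spec hex
  have h2 : Nat.find hex ≠ 0 := by
    intro h
    rw [h] at h1
    norm_num at h1
    linarith
  obtain ⟨X, hX⟩ := Nat.exists_eq_succ_of_ne_zero h2
  refine ⟨X, ?_, ?_⟩
  · have := Nat.find_min hex (m := X) (by omega)
    exact not_lt.1 this
  · rw [hX] at h1
    push_cast at h1
    exact h1

lemma exists_crt (M₁ M₂ n a : ℕ) (hco : Nat.Coprime M₁ M₂) (h₁ : 0 < M₁) (h₂ : 0 < M₂) :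
    ∃ m, a ≤ m ∧ m < a + M₁ * M₂ ∧ M₁ ∣ m ∧ m ≡ n [MOD M₂] := by
  obtain ⟨k, hk1, hk2⟩ := Nat.chineseRemainder hco 0 n
  have hP : 0 < M₁ * M₂ := Nat.mul_pos h₁ h₂
  have hmod : a + (k + (M₁ * M₂ - 1) * a) % (M₁ * M₂) ≡ k [MOD M₁ * M₂] := by
    have e1 : a + (k + (M₁ * M₂ - 1) * a) % (M₁ * M₂) ≡ a + (k + (M₁ * M₂ - 1) * a)
        [MOD M₁ * M₂] := (Nat.ModEq.refl a).add (Nat.mod_modEq _ _)
    have e2 : a + (k + (M₁ * M₂ - 1) * a) = k + M₁ * M₂ * a := by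
      obtain ⟨P, hPe⟩ := Nat.exists_eq_succ_of_ne_zero hP.ne'
      rw [hPe]
      simp only [Nat.succ_sub_one, Nat.succ_mul]
      ring
    rw [e2] at e1
    refine e1.trans ?_
    have : k + M₁ * M₂ * a ≡ k + 0 [MOD M₁ * M₂] :=
      (Nat.ModEq.refl k).add ((Nat.modEq_zero_iff_dvd).2 (Dvd.intro a rfl))
    simpa using this
  refine ⟨a + (k + (M₁ * M₂ - 1) * a) % (M₁ * M₂), Nat.le_add_right _ _,
    Nat.add_lt_add_left (Nat.mod_lt _ hP) a, ?_, ?_⟩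
  · exact (Nat.modEq_zero_iff_dvd).1 ((hmod.of_mul_right M₂).trans hk1)
  · exact (hmod.of_mul_left M₁).trans hk2

theorem num (ε : ℝ) (hε : 0 < ε) (hε1 : ε ≤ 1) (K : ℕ) : ∃ c : ℝ, 0 < c ∧ ∀ n Δ : ℕ, 1 ≤ Δ →
    (Δ : ℝ) ^ 3 ≤ c * n → ∃ M₁ w₁ M₂ w₂ x₁ x₂ j₂ : ℕ,
      NumType ε K n Δ M₁ w₁ x₁ M₂ x₂ ∧ NumType ε K n Δ M₂ w₂ x₂ M₁ x₁ ∧
      M₁ * w₁ + M₂ * w₂ = n ∧ 1 ≤ x₁ ∧ 1 ≤ x₂ ∧ j₂ ≤ M₂ ∧
      M₁ * w₁ * (x₁ - 1) = M₂ * w₂ * (x₂ - 1) + w₂ * j₂ ∧ x₁ ≤ M₂ * w₂ ∧ x₂ ≤ M₁ * w₁ ∧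
      M₁ * w₁ ≤ 2 * (M₂ * w₂) ∧ M₂ * w₂ ≤ 2 * (M₁ * w₁) ∧ 2 ≤ n ∧ 0 < w₁ ∧ 0 < w₂ := by
  have hK0 : (0 : ℝ) ≤ K := Nat.cast_nonneg K
  set τ : ℝ := ε / (100 * (K + 1)) with hτdef
  have hτ : τ * (100 * (K + 1)) = ε := by
    rw [hτdef]
    field_simp
  have hτ0 : 0 < τ := by positivity
  have hτ1 : τ ≤ 1 / 100 := by
    have : 0 ≤ τ * K := by positivity
    have h2 : τ * K * 100 + τ * 100 = ε := by
      rw [← hτ]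
      ring
    linarith
  have hc'0 : 0 < τ ^ 2 * ε / 100000 := by positivity
  refine ⟨τ ^ 2 * ε / 100000 * (τ / 100) ^ 3 / 8, by positivity, ?_⟩
  intro n Δ hΔ hΔ3
  have hn0 : (0 : ℝ) ≤ n := Nat.cast_nonneg n
  have hΔ1 : (1 : ℝ) ≤ Δ := by exact_mod_cast hΔ
  obtain ⟨X, hX3, hX3'⟩ := exists_cube (τ ^ 2 * ε / 100000 * n) (by positivity)
  have hX0 : (0 : ℝ) ≤ X := Nat.cast_nonneg X
  have hη : (τ / 100) ^ 3 ≤ 1 := pow_le_one₀ (by positivity) (by linarith)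
  have hXne : X ≠ 0 := by
    intro h
    rw [h] at hX3'
    norm_num at hX3'
    have h1 : (1 : ℝ) ≤ (Δ : ℝ) ^ 3 := one_le_pow₀ hΔ1
    have h2 : τ ^ 2 * ε / 100000 * (τ / 100) ^ 3 / 8 * n =
        (τ / 100) ^ 3 * (τ ^ 2 * ε / 100000 * n) / 8 := by ring
    have h3 : (τ / 100) ^ 3 * (τ ^ 2 * ε / 100000 * n) ≤ 1 * (τ ^ 2 * ε / 100000 * n) :=
      mul_le_mul_of_nonneg_right hη (by positivity)
    linarith
  have hX1 : (1 : ℝ) ≤ X := by exact_mod_cast Nat.one_le_iff_ne_zero.2 hXne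
  have hΔX : (Δ : ℝ) ≤ τ / 100 * X := by
    by_contra h
    push Not at h
    have h1 : (τ / 100 * X) ^ 3 < (Δ : ℝ) ^ 3 := pow_lt_pow_left₀ h (by positivity) (by norm_num)
    have h2 : ((X : ℝ) + 1) ^ 3 ≤ 8 * X ^ 3 := by
      have : ((X : ℝ) + 1) ^ 3 ≤ (2 * X) ^ 3 := pow_le_pow_left₀ (by positivity) (by linarith) 3
      calc ((X : ℝ) + 1) ^ 3 ≤ (2 * X) ^ 3 := this
        _ = 8 * X ^ 3 := by ring
    have h3 : τ ^ 2 * ε / 100000 * (τ / 100) ^ 3 / 8 * n =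
        (τ / 100) ^ 3 * (τ ^ 2 * ε / 100000 * n) / 8 := by ring
    have h4 : (τ / 100) ^ 3 * (τ ^ 2 * ε / 100000 * n) ≤ (τ / 100) ^ 3 * (8 * X ^ 3) :=
      mul_le_mul_of_nonneg_left (hX3'.le.trans h2) (by positivity)
    have h5 : (τ / 100 * X) ^ 3 = (τ / 100) ^ 3 * X ^ 3 := by ring
    rw [h5] at h1
    linarith
  have hX100 : 100 ≤ τ * X := by linarith
  have hX10 : (10000 : ℝ) ≤ X := by nlinarith
  have hX2 : (X : ℝ) ^ 2 ≤ n / 1000 := by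
    have h1 : (1 : ℝ) * X ^ 2 ≤ X * X ^ 2 := mul_le_mul_of_nonneg_right hX1 (by positivity)
    have h2 : (X : ℝ) * X ^ 2 = X ^ 3 := by ring
    have h3 : τ ^ 2 * ε / 100000 ≤ 1 / 1000 := by
      have h4 : τ ^ 2 ≤ 1 := by nlinarith
      have h5 : τ ^ 2 * ε ≤ 1 := by nlinarith
      linarith
    have h6 := mul_le_mul_of_nonneg_right h3 hn0
    linarith
  have hXX : (X : ℝ) ≤ (X : ℝ) ^ 2 / 10000 := by nlinarith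
  obtain ⟨M₁, hM₁, hM₁1, hM₁2⟩ := Nat.exists_prime_lt_and_le_two_mul X hXne
  obtain ⟨M₂, hM₂, hM₂1, hM₂2⟩ := Nat.exists_prime_lt_and_le_two_mul (2 * X) (by omega)
  have hco : Nat.Coprime M₁ M₂ := (Nat.coprime_primes hM₁ hM₂).2 (by omega)
  obtain ⟨m₁, hm1, hm2, hm3, hm4⟩ := exists_crt M₁ M₂ n ((n + 1) / 2) hco hM₁.pos hM₂.pos
  have hMM : (M₁ * M₂ : ℝ) ≤ 8 * (X : ℝ) ^ 2 := by
    have e1 : (M₁ : ℝ) ≤ 2 * X := by exact_mod_cast hM₁2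
    have e2 : (M₂ : ℝ) ≤ 4 * X := by
      have : (M₂ : ℝ) ≤ 2 * (2 * X) := by exact_mod_cast hM₂2
      linarith
    calc (M₁ * M₂ : ℝ) ≤ 2 * X * (4 * X) := mul_le_mul e1 e2 (by positivity) (by positivity)
      _ = _ := by ring
  have hm1r : (n : ℝ) / 2 ≤ m₁ := by
    have : n ≤ 2 * m₁ := by omega
    have : (n : ℝ) ≤ 2 * m₁ := by exact_mod_cast this
    linarith
  have hm2r : (m₁ : ℝ) ≤ n / 2 + 1 / 2 + 8 * X ^ 2 := by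
    have : 2 * m₁ ≤ n + 1 + 2 * (M₁ * M₂) := by omega
    have : (2 * m₁ : ℝ) ≤ n + 1 + 2 * (M₁ * M₂) := by exact_mod_cast this
    linarith
  have hX28 : (10 : ℝ) ^ 8 ≤ (X : ℝ) ^ 2 := by nlinarith
  have hn10 : (10 : ℝ) ^ 11 ≤ n := by linarith
  have hmn : m₁ ≤ n := by
    have : (m₁ : ℝ) ≤ n := by linarith
    exact_mod_cast this
  obtain ⟨w₁, hw₁⟩ := hm3
  have hdiv : M₂ ∣ n - m₁ := (Nat.modEq_iff_dvd' hmn).1 hm4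
  obtain ⟨w₂, hw₂⟩ := hdiv
  have hsum : M₁ * w₁ + M₂ * w₂ = n := by
    rw [← hw₁, ← hw₂]
    omega
  have hsumr : (M₁ * w₁ : ℝ) + M₂ * w₂ = n := by exact_mod_cast hsum
  have hm₁r : (M₁ * w₁ : ℝ) = m₁ := by exact_mod_cast hw₁.symm
  set t := ⌊τ * M₂⌋₊ with ht
  have hM₂X : (2 * X : ℝ) ≤ M₂ := by exact_mod_cast hM₂1.le
  have hM₂pos : (0 : ℝ) < M₂ := by linarith
  have ht1 : (t : ℝ) ≤ τ * M₂ := Nat.floor_le (by positivity)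
  have hτM₂ : 200 ≤ τ * M₂ := by
    have := mul_le_mul_of_nonneg_left hM₂X hτ0.le
    linarith
  have ht2 : 99 / 100 * (τ * M₂) ≤ (t : ℝ) := by
    have := Nat.lt_floor_add_one (τ * M₂)
    linarith
  have ht0 : (0 : ℝ) ≤ t := Nat.cast_nonneg t
  have hτn : 2 ^ 10 ≤ τ * n := by
    have h1 : (X : ℝ) * 1000 ≤ n := by linarith
    have h2 := mul_le_mul_of_nonneg_left h1 hτ0.le
    linarith
  have hm₂ : 3 / 8 * (n : ℝ) ≤ M₂ * w₂ := by linarith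
  have hm₂' : (M₂ * w₂ : ℝ) ≤ n / 2 := by linarith
  have hm₁ : (M₁ * w₁ : ℝ) ≤ 5 / 8 * n := by linarith
  -- the numbers of the flexible leaves
  have hx₁a : τ * n / 6 ≤ ((w₂ * t + 1 : ℕ) : ℝ) := by
    push_cast
    have h1 : (w₂ : ℝ) * (99 / 100 * (τ * M₂)) ≤ w₂ * t :=
      mul_le_mul_of_nonneg_left ht2 (Nat.cast_nonneg _)
    have h2 : (w₂ : ℝ) * (99 / 100 * (τ * M₂)) = 99 / 100 * (τ * (M₂ * w₂)) := by ring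
    have h3 := mul_le_mul_of_nonneg_left hm₂ hτ0.le
    linarith
  have hx₁b : ((w₂ * t + 1 : ℕ) : ℝ) ≤ τ * n := by
    push_cast
    have h1 : (w₂ : ℝ) * t ≤ w₂ * (τ * M₂) := mul_le_mul_of_nonneg_left ht1 (Nat.cast_nonneg _)
    have h2 : (w₂ : ℝ) * (τ * M₂) = τ * (M₂ * w₂) := by ring
    have h3 := mul_le_mul_of_nonneg_left hm₂' hτ0.le
    linarith
  have hqr : ((M₁ * w₁ * t : ℕ) : ℝ) = M₁ * w₁ * t := by push_cast; ring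
  have hq1 : ((M₁ * w₁ * t / M₂ : ℕ) : ℝ) * M₂ ≤ M₁ * w₁ * t := by
    rw [← hqr]
    exact_mod_cast Nat.div_mul_le_self (M₁ * w₁ * t) M₂
  have hq2 : (M₁ * w₁ * t : ℝ) ≤ (((M₁ * w₁ * t / M₂ : ℕ) : ℝ) + 1) * M₂ := by
    rw [← hqr]
    have : M₁ * w₁ * t ≤ (M₁ * w₁ * t / M₂ + 1) * M₂ := by
      have e1 := Nat.div_add_mod (M₁ * w₁ * t) M₂
      have e2 := Nat.mod_lt (M₁ * w₁ * t) hM₂.pos
      calc M₁ * w₁ * t = M₂ * (M₁ * w₁ * t / M₂) + M₁ * w₁ * t % M₂ := e1.symm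
        _ ≤ M₂ * (M₁ * w₁ * t / M₂) + M₂ := Nat.add_le_add_left e2.le _
        _ = _ := by ring
    exact_mod_cast this
  have hx₂a : τ * n / 6 ≤ ((M₁ * w₁ * t / M₂ + 1 : ℕ) : ℝ) := by
    have h1 : (M₁ * w₁ : ℝ) * (99 / 100 * (τ * M₂)) ≤ M₁ * w₁ * t :=
      mul_le_mul_of_nonneg_left ht2 (by positivity)
    have h2 : 99 / 100 * τ * (M₁ * w₁ : ℝ) * M₂ ≤ (((M₁ * w₁ * t / M₂ : ℕ) : ℝ) + 1) * M₂ := by
      linarith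
    have h3 : 99 / 100 * τ * (M₁ * w₁ : ℝ) ≤ ((M₁ * w₁ * t / M₂ : ℕ) : ℝ) + 1 :=
      le_of_mul_le_mul_right h2 hM₂pos
    have h4 : τ * (n / 2) ≤ τ * (M₁ * w₁ : ℝ) :=
      mul_le_mul_of_nonneg_left (by rw [hm₁r]; exact hm1r) hτ0.le
    push_cast at h3 ⊢
    linarith
  have hx₂b : ((M₁ * w₁ * t / M₂ + 1 : ℕ) : ℝ) ≤ τ * n := by
    have h1 : (M₁ * w₁ * t : ℝ) ≤ M₁ * w₁ * (τ * M₂) :=
      mul_le_mul_of_nonneg_left ht1 (by positivity)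
    have h2 : ((M₁ * w₁ * t / M₂ : ℕ) : ℝ) * M₂ ≤ τ * (M₁ * w₁ : ℝ) * M₂ := by linarith
    have h3 : ((M₁ * w₁ * t / M₂ : ℕ) : ℝ) ≤ τ * (M₁ * w₁ : ℝ) := le_of_mul_le_mul_right h2 hM₂pos
    have h4 : τ * (M₁ * w₁ : ℝ) ≤ τ * (5 / 8 * n) := mul_le_mul_of_nonneg_left hm₁ hτ0.le
    push_cast at h3 ⊢
    linarith
  have hτn1 : τ * n ≤ 1 / 100 * n := mul_le_mul_of_nonneg_right hτ1 hn0
  refine ⟨M₁, w₁, M₂, w₂, w₂ * t + 1, M₁ * w₁ * t / M₂ + 1, M₁ * w₁ * t % M₂, ?_, ?_, hsum,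
    Nat.le_add_left _ _, Nat.le_add_left _ _, (Nat.mod_lt _ hM₂.pos).le, ?_, ?_, ?_, ?_, ?_, ?_,
    ?_, ?_⟩
  · refine num_type ε τ _ _ hε hε1 K hτ rfl rfl n Δ M₁ w₁ _ M₂ _ X hΔ hM₁ hM₁1 (by omega)
      (by omega) hΔX hX3 ?_ hx₁a hx₁b hx₂b
    rw [hm₁r]
    have : (0 : ℝ) ≤ X ^ 2 := by positivity
    linarith
  · refine num_type ε τ _ _ hε hε1 K hτ rfl rfl n Δ M₂ w₂ _ M₁ _ X hΔ hM₂ (by omega) (by omega)
      (by omega) hΔX hX3 ?_ hx₂a hx₂b hx₁b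
    linarith
  · simp only [Nat.add_sub_cancel]
    have e1 := Nat.div_add_mod (M₁ * w₁ * t) M₂
    calc M₁ * w₁ * (w₂ * t) = w₂ * (M₁ * w₁ * t) := by ring
      _ = w₂ * (M₂ * (M₁ * w₁ * t / M₂) + M₁ * w₁ * t % M₂) := by rw [e1]
      _ = _ := by ring
  · have : ((w₂ * t + 1 : ℕ) : ℝ) ≤ M₂ * w₂ := by linarith
    exact_mod_cast this
  · have : ((M₁ * w₁ * t / M₂ + 1 : ℕ) : ℝ) ≤ M₁ * w₁ := by
      rw [hm₁r]
      linarith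
    exact_mod_cast this
  · have : (M₁ * w₁ : ℝ) ≤ 2 * (M₂ * w₂) := by linarith
    exact_mod_cast this
  · have : (M₂ * w₂ : ℝ) ≤ 2 * (M₁ * w₁) := by
      rw [hm₁r]
      linarith
    exact_mod_cast this
  · have : (2 : ℝ) ≤ n := by linarith
    exact_mod_cast this
  · rcases Nat.eq_zero_or_pos w₁ with h | h
    · exfalso
      rw [h] at hm₁r
      simp only [CharP.cast_eq_zero, mul_zero] at hm₁r
      linarith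
    · exact h
  · rcases Nat.eq_zero_or_pos w₂ with h | h
    · exfalso
      rw [h] at hm₂
      simp only [CharP.cast_eq_zero, mul_zero] at hm₂
      linarith
    · exact h

end Pool.Agent.Helper83.GH
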