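import Pool.Agent.Helper83.GH.Num21
import Pool.Agent.Helper83.GH.Num

/-!
# GHC-NUM: the choice of the parameters, second version
-/

namespace Pool.Agent.Helper83.GH

theorem num2 (ε : ℝ) (hε : 0 < ε) (hε1 : ε ≤ 1) (K : ℕ) : ∃ c θ : ℝ, 0 < c ∧ 0 < θ ∧
    ∀ n Δ : ℕ, 1 ≤ Δ → (Δ : ℝ) ^ 3 ≤ c * n → ∃ M₁ w₁ M₂ w₂ x₁ x₂ j₂ : ℕ,
      NumType2 ε θ K n Δ M₁ w₁ x₁ M₂ x₂ ∧ NumType2 ε θ K n Δ M₂ w₂ x₂ M₁ x₁ ∧
      M₁ * w₁ + M₂ * w₂ = n ∧ 1 ≤ x₁ ∧ 1 ≤ x₂ ∧ x₂ ≤ x₁ ∧ j₂ ≤ M₂ ∧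
      M₁ * w₁ * x₁ = M₂ * w₂ * (x₂ - 1) + w₂ * j₂ ∧ x₁ ≤ M₂ * w₂ ∧ x₂ ≤ M₁ * w₁ ∧
      M₁ * w₁ ≤ 2 * (M₂ * w₂) ∧ M₂ * w₂ ≤ 2 * (M₁ * w₁) ∧ 10 ≤ n ∧ 0 < w₁ ∧ 0 < w₂ ∧
      (12 * x₁ : ℝ) ≤ ε * n := by
  have hK0 : (0 : ℝ) ≤ K := Nat.cast_nonneg K
  set τ : ℝ := ε / (100 * (K + 1)) with hτdef
  have hτ : τ * (100 * (K + 1)) = ε := by
    rw [hτdef]
    field_simp
  have hτ0 : 0 < τ := by positivity
  have hτε : 100 * τ ≤ ε := by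
    have : 0 ≤ τ * K := by positivity
    have h2 : τ * K * 100 + τ * 100 = ε := by
      rw [← hτ]
      ring
    linarith
  have hτ1 : τ ≤ 1 / 100 := by linarith
  have hc'0 : 0 < τ ^ 2 * ε / 100000 := by positivity
  refine ⟨τ ^ 2 * ε / 100000 * (τ / 100) ^ 3 / 8, τ / 50, by positivity, by positivity, ?_⟩
  intro n Δ hΔ hΔ3
  have hn0 : (0 : ℝ) ≤ n := Nat.cast_nonneg n
  have hΔ1 : (1 : ℝ) ≤ Δ := by exact_mod_cast hΔ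
  obtain ⟨X, hX3, hX3'⟩ := exists_cube (τ ^ 2 * ε / 100000 * n) (by positivity)
  have hX0 : (0 : ℝ) ≤ X := Nat.cast_nonneg X
  have hη : (τ / 100) ^ 3 ≤ 1 := pow_le_one₀ (by positivity) (by linarith)
  have hXne : X ≠ 0 := by
    intro h
    rw [h] at hX3'
    norm_num at hX3'
    have h1 : (1 : ℝ) ≤ (Δ : ℝ) ^ 3 := one_le_pow₀ hΔ1
    have h2 : τ ^ 2 * ε / 100000 * (τ / 100) ^ 3 / 8 * n =
        (τ / 100) ^ 3 * (τ ^ 2 * ε / 100000 * n) / 8 := by ring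
    have h3 : (τ / 100) ^ 3 * (τ ^ 2 * ε / 100000 * n) ≤ 1 * (τ ^ 2 * ε / 100000 * n) :=
      mul_le_mul_of_nonneg_right hη (by positivity)
    linarith
  have hX1 : (1 : ℝ) ≤ X := by exact_mod_cast Nat.one_le_iff_ne_zero.2 hXne
  have hΔX : (Δ : ℝ) ≤ τ / 100 * X := by
    by_contra h
    push Not at h
    have h1 : (τ / 100 * X) ^ 3 < (Δ : ℝ) ^ 3 := pow_lt_pow_left₀ h (by positivity) (by norm_num)
    have h2 : ((X : ℝ) + 1) ^ 3 ≤ 8 * X ^ 3 := by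
      have : ((X : ℝ) + 1) ^ 3 ≤ (2 * X) ^ 3 := pow_le_pow_left₀ (by positivity) (by linarith) 3
      calc ((X : ℝ) + 1) ^ 3 ≤ (2 * X) ^ 3 := this
        _ = 8 * X ^ 3 := by ring
    have h3 : τ ^ 2 * ε / 100000 * (τ / 100) ^ 3 / 8 * n =
        (τ / 100) ^ 3 * (τ ^ 2 * ε / 100000 * n) / 8 := by ring
    have h4 : (τ / 100) ^ 3 * (τ ^ 2 * ε / 100000 * n) ≤ (τ / 100) ^ 3 * (8 * X ^ 3) :=
      mul_le_mul_of_nonneg_left (hX3'.le.trans h2) (by positivity)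
    have h5 : (τ / 100 * X) ^ 3 = (τ / 100) ^ 3 * X ^ 3 := by ring
    rw [h5] at h1
    linarith
  have hX100 : 100 ≤ τ * X := by linarith
  have hX10 : (10000 : ℝ) ≤ X := by nlinarith
  have hX2 : (X : ℝ) ^ 2 ≤ n / 1000 := by
    have h1 : (1 : ℝ) * X ^ 2 ≤ X * X ^ 2 := mul_le_mul_of_nonneg_right hX1 (by positivity)
    have h2 : (X : ℝ) * X ^ 2 = X ^ 3 := by ring
    have h3 : τ ^ 2 * ε / 100000 ≤ 1 / 1000 := by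
      have h4 : τ ^ 2 ≤ 1 := by nlinarith
      have h5 : τ ^ 2 * ε ≤ 1 := by nlinarith
      linarith
    have h6 := mul_le_mul_of_nonneg_right h3 hn0
    linarith
  have hXX : (X : ℝ) ≤ (X : ℝ) ^ 2 / 10000 := by nlinarith
  obtain ⟨M₁, hM₁, hM₁1, hM₁2⟩ := Nat.exists_prime_lt_and_le_two_mul X hXne
  obtain ⟨M₂, hM₂, hM₂1, hM₂2⟩ := Nat.exists_prime_lt_and_le_two_mul (2 * X) (by omega)
  have hco : Nat.Coprime M₁ M₂ := (Nat.coprime_primes hM₁ hM₂).2 (by omega)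
  have hM₂4 : (M₂ : ℝ) ≤ 4 * X := by
    have : (M₂ : ℝ) ≤ 2 * (2 * X) := by exact_mod_cast hM₂2
    linarith
  have hMM : (M₁ * M₂ : ℝ) ≤ 8 * (X : ℝ) ^ 2 := by
    have e1 : (M₁ : ℝ) ≤ 2 * X := by exact_mod_cast hM₁2
    calc (M₁ * M₂ : ℝ) ≤ 2 * X * (4 * X) := mul_le_mul e1 hM₂4 (by positivity) (by positivity)
      _ = _ := by ring
  have hX28 : (10 : ℝ) ^ 8 ≤ (X : ℝ) ^ 2 := by nlinarith
  have hn10 : (10 : ℝ) ^ 11 ≤ n := by linarith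
  have hnM : M₂ + 2 * (M₁ * M₂) ≤ n := by
    have : (M₂ + 2 * (M₁ * M₂) : ℝ) ≤ n := by linarith
    exact_mod_cast this
  obtain ⟨m₁, hm1, hm2, hm3, hm4⟩ := exists_crt M₁ M₂ n ((n - M₂) / 2 - M₁ * M₂) hco hM₁.pos
    hM₂.pos
  have hm2' : 2 * m₁ + M₂ ≤ n := by omega
  have hm1r : (n : ℝ) / 2 - 9 * X ^ 2 ≤ m₁ := by
    have : n ≤ 2 * m₁ + M₂ + 2 * (M₁ * M₂) + 2 := by omega
    have : (n : ℝ) ≤ 2 * m₁ + M₂ + 2 * (M₁ * M₂) + 2 := by exact_mod_cast this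
    linarith
  have hm2r : (m₁ : ℝ) ≤ n / 2 := by
    have : (2 * m₁ + M₂ : ℝ) ≤ n := by exact_mod_cast hm2'
    have : (0 : ℝ) ≤ M₂ := Nat.cast_nonneg _
    linarith
  have hmn : m₁ ≤ n := by omega
  obtain ⟨w₁, hw₁⟩ := hm3
  have hdiv : M₂ ∣ n - m₁ := (Nat.modEq_iff_dvd' hmn).1 hm4
  obtain ⟨w₂, hw₂⟩ := hdiv
  have hsum : M₁ * w₁ + M₂ * w₂ = n := by
    rw [← hw₁, ← hw₂]
    omega
  have hsumr : (M₁ * w₁ : ℝ) + M₂ * w₂ = n := by exact_mod_cast hsum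
  have hm₁r : (M₁ * w₁ : ℝ) = m₁ := by exact_mod_cast hw₁.symm
  set t := ⌊τ * M₂⌋₊ with ht
  have hM₂X : (2 * X : ℝ) ≤ M₂ := by exact_mod_cast hM₂1.le
  have hM₂pos : (0 : ℝ) < M₂ := by linarith
  have ht1 : (t : ℝ) ≤ τ * M₂ := Nat.floor_le (by positivity)
  have hτM₂ : 200 ≤ τ * M₂ := by
    have := mul_le_mul_of_nonneg_left hM₂X hτ0.le
    linarith
  have ht2 : 99 / 100 * (τ * M₂) ≤ (t : ℝ) := by
    have := Nat.lt_floor_add_one (τ * M₂)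
    linarith
  have ht0 : (0 : ℝ) ≤ t := Nat.cast_nonneg t
  have ht3 : 1 ≤ t := by
    have : (1 : ℝ) ≤ t := by linarith
    exact_mod_cast this
  have hτn : 2 ^ 10 ≤ τ * n := by
    have h1 : (X : ℝ) * 1000 ≤ n := by linarith
    have h2 := mul_le_mul_of_nonneg_left h1 hτ0.le
    linarith
  have hm₂ : (n : ℝ) / 2 ≤ M₂ * w₂ := by linarith
  have hm₂' : (M₂ * w₂ : ℝ) ≤ 5 / 8 * n := by linarith
  have hm₁ : 3 / 8 * (n : ℝ) ≤ M₁ * w₁ := by linarith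
  have hm₁' : (M₁ * w₁ : ℝ) ≤ n / 2 := by linarith
  -- the numbers of the flexible vertices
  have hx₁a : τ * n / 6 ≤ ((w₂ * t : ℕ) : ℝ) := by
    push_cast
    have h1 : (w₂ : ℝ) * (99 / 100 * (τ * M₂)) ≤ w₂ * t :=
      mul_le_mul_of_nonneg_left ht2 (Nat.cast_nonneg _)
    have h2 : (w₂ : ℝ) * (99 / 100 * (τ * M₂)) = 99 / 100 * (τ * (M₂ * w₂)) := by ring
    have h3 := mul_le_mul_of_nonneg_left hm₂ hτ0.le
    linarith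
  have hx₁b : ((w₂ * t : ℕ) : ℝ) ≤ τ * n := by
    push_cast
    have h1 : (w₂ : ℝ) * t ≤ w₂ * (τ * M₂) := mul_le_mul_of_nonneg_left ht1 (Nat.cast_nonneg _)
    have h2 : (w₂ : ℝ) * (τ * M₂) = τ * (M₂ * w₂) := by ring
    have h3 := mul_le_mul_of_nonneg_left hm₂' hτ0.le
    linarith
  have hqr : ((M₁ * w₁ * t : ℕ) : ℝ) = M₁ * w₁ * t := by push_cast; ring
  have hq1 : ((M₁ * w₁ * t / M₂ : ℕ) : ℝ) * M₂ ≤ M₁ * w₁ * t := by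
    rw [← hqr]
    exact_mod_cast Nat.div_mul_le_self (M₁ * w₁ * t) M₂
  have hq2 : (M₁ * w₁ * t : ℝ) ≤ (((M₁ * w₁ * t / M₂ : ℕ) : ℝ) + 1) * M₂ := by
    rw [← hqr]
    have : M₁ * w₁ * t ≤ (M₁ * w₁ * t / M₂ + 1) * M₂ := by
      have e1 := Nat.div_add_mod (M₁ * w₁ * t) M₂
      have e2 := Nat.mod_lt (M₁ * w₁ * t) hM₂.pos
      calc M₁ * w₁ * t = M₂ * (M₁ * w₁ * t / M₂) + M₁ * w₁ * t % M₂ := e1.symm
        _ ≤ M₂ * (M₁ * w₁ * t / M₂) + M₂ := Nat.add_le_add_left e2.le _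
        _ = _ := by ring
    exact_mod_cast this
  have hx₂a : τ * n / 6 ≤ ((M₁ * w₁ * t / M₂ + 1 : ℕ) : ℝ) := by
    have h1 : (M₁ * w₁ : ℝ) * (99 / 100 * (τ * M₂)) ≤ M₁ * w₁ * t :=
      mul_le_mul_of_nonneg_left ht2 (by positivity)
    have h2 : 99 / 100 * τ * (M₁ * w₁ : ℝ) * M₂ ≤ (((M₁ * w₁ * t / M₂ : ℕ) : ℝ) + 1) * M₂ := by
      linarith
    have h3 : 99 / 100 * τ * (M₁ * w₁ : ℝ) ≤ ((M₁ * w₁ * t / M₂ : ℕ) : ℝ) + 1 :=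
      le_of_mul_le_mul_right h2 hM₂pos
    have h4 : τ * (3 / 8 * n) ≤ τ * (M₁ * w₁ : ℝ) := mul_le_mul_of_nonneg_left hm₁ hτ0.le
    push_cast at h3 ⊢
    linarith
  have hx₂b : ((M₁ * w₁ * t / M₂ + 1 : ℕ) : ℝ) ≤ τ * n := by
    have h1 : (M₁ * w₁ * t : ℝ) ≤ M₁ * w₁ * (τ * M₂) :=
      mul_le_mul_of_nonneg_left ht1 (by positivity)
    have h2 : ((M₁ * w₁ * t / M₂ : ℕ) : ℝ) * M₂ ≤ τ * (M₁ * w₁ : ℝ) * M₂ := by linarith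
    have h3 : ((M₁ * w₁ * t / M₂ : ℕ) : ℝ) ≤ τ * (M₁ * w₁ : ℝ) := le_of_mul_le_mul_right h2 hM₂pos
    have h4 : τ * (M₁ * w₁ : ℝ) ≤ τ * (n / 2) := mul_le_mul_of_nonneg_left hm₁' hτ0.le
    push_cast at h3 ⊢
    linarith
  have hτn1 : τ * n ≤ 1 / 100 * n := mul_le_mul_of_nonneg_right hτ1 hn0
  refine ⟨M₁, w₁, M₂, w₂, w₂ * t, M₁ * w₁ * t / M₂ + 1, M₁ * w₁ * t % M₂, ?_, ?_, hsum,
    ?_, Nat.le_add_left _ _, ?_, (Nat.mod_lt _ hM₂.pos).le, ?_, ?_, ?_, ?_, ?_, ?_, ?_, ?_, ?_⟩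
  · refine num_type2 ε τ _ _ hε hε1 K hτ rfl rfl n Δ M₁ w₁ _ M₂ _ X hΔ hM₁ hM₁1 (by omega)
      (by omega) hΔX hX3 ?_ hx₁a hx₁b hx₂b
    rw [hm₁r]
    exact hm1r
  · refine num_type2 ε τ _ _ hε hε1 K hτ rfl rfl n Δ M₂ w₂ _ M₁ _ X hΔ hM₂ (by omega) (by omega)
      (by omega) hΔX hX3 ?_ hx₂a hx₂b hx₁b
    have : (0 : ℝ) ≤ X ^ 2 := by positivity
    linarith
  · have : (0 : ℝ) < ((w₂ * t : ℕ) : ℝ) := by linarith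
    have : 0 < w₂ * t := by exact_mod_cast this
    omega
  · apply Nat.le_of_mul_le_mul_right (c := M₂) _ hM₂.pos
    have e1 : M₁ * w₁ * t / M₂ * M₂ ≤ M₁ * w₁ * t := Nat.div_mul_le_self _ _
    have e2 : M₁ * w₁ + M₂ ≤ M₂ * w₂ := by omega
    have e3 := Nat.mul_le_mul_right t e2
    have e4 : M₂ * 1 ≤ M₂ * t := Nat.mul_le_mul_left M₂ ht3
    calc (M₁ * w₁ * t / M₂ + 1) * M₂ = M₁ * w₁ * t / M₂ * M₂ + M₂ * 1 := by ring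
      _ ≤ M₁ * w₁ * t + M₂ * t := Nat.add_le_add e1 e4
      _ = (M₁ * w₁ + M₂) * t := by ring
      _ ≤ M₂ * w₂ * t := e3
      _ = w₂ * t * M₂ := by ring
  · simp only [Nat.add_sub_cancel]
    have e1 := Nat.div_add_mod (M₁ * w₁ * t) M₂
    calc M₁ * w₁ * (w₂ * t) = w₂ * (M₁ * w₁ * t) := by ring
      _ = w₂ * (M₂ * (M₁ * w₁ * t / M₂) + M₁ * w₁ * t % M₂) := by rw [e1]
      _ = _ := by ring
  · have : ((w₂ * t : ℕ) : ℝ) ≤ M₂ * w₂ := by linarith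
    exact_mod_cast this
  · have : ((M₁ * w₁ * t / M₂ + 1 : ℕ) : ℝ) ≤ M₁ * w₁ := by linarith
    exact_mod_cast this
  · have : (M₁ * w₁ : ℝ) ≤ 2 * (M₂ * w₂) := by linarith
    exact_mod_cast this
  · have : (M₂ * w₂ : ℝ) ≤ 2 * (M₁ * w₁) := by linarith
    exact_mod_cast this
  · have : (10 : ℝ) ≤ n := by linarith
    exact_mod_cast this
  · rcases Nat.eq_zero_or_pos w₁ with h | h
    · exfalso
      rw [h] at hm₁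
      simp only [CharP.cast_eq_zero, mul_zero] at hm₁
      linarith
    · exact h
  · rcases Nat.eq_zero_or_pos w₂ with h | h
    · exfalso
      rw [h] at hm₂
      simp only [CharP.cast_eq_zero, mul_zero] at hm₂
      linarith
    · exact h
  · have h1 := mul_le_mul_of_nonneg_right hτε hn0
    linarith

end Pool.Agent.Helper83.GH
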