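import Pool.Agent.Helper83.GH.Type2
import Pool.Agent.Helper83.GH.Couple2
import Pool.Agent.Helper83.GH.Num2

/-!
# Theorem A': trees with many vertices of degree 2 with a leaf neighbour
-/

namespace Pool.Agent.Helper83.GH

open Finset Pool.Agent.Helper19.GH

lemma exists_isW (V : Type) [Fintype V] [DecidableEq V] (T : SimpleGraph V) [DecidableRel T.Adj]
    (hT : T.IsTree) (n : ℕ) (hn : Fintype.card V = n + 1) (hn3 : 3 ≤ n) (B : Finset V) :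
    ∃ nb l nl : V → V, IsW T B (univ.filter fun a => a ∉ B ∧ T.degree a = 2 ∧
      ∃ u ∈ B, T.Adj a u ∧ T.degree u = 1) nb l nl := by
  classical
  have h1 : ∀ a ∈ (univ.filter fun a => a ∉ B ∧ T.degree a = 2 ∧
      ∃ u ∈ B, T.Adj a u ∧ T.degree u = 1), ∃ u, T.Adj a u ∧ T.degree u = 1 := by
    intro a ha
    obtain ⟨-, -, -, u, -, h1, h2⟩ := mem_filter.1 ha
    exact ⟨u, h1, h2⟩
  choose! l hl1 hl2 using h1
  have h2 : ∀ a ∈ (univ.filter fun a => a ∉ B ∧ T.degree a = 2 ∧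
      ∃ u ∈ B, T.Adj a u ∧ T.degree u = 1), ∃ b, T.Adj a b ∧ b ≠ l a ∧ 2 ≤ T.degree b ∧
        ∀ v, T.Adj a v → v = b ∨ v = l a := fun a ha =>
    other_nb V T hT n hn hn3 a (l a) (mem_filter.1 ha).2.2.1 (hl1 a ha) (hl2 a ha)
  choose! nb hnb1 hnb2 hnb3 hnb4 using h2
  refine ⟨nb, l, fun u => if h : ∃ a ∈ (univ.filter fun a => a ∉ B ∧ T.degree a = 2 ∧
      ∃ u ∈ B, T.Adj a u ∧ T.degree u = 1), l a = u then h.choose else u, ?_⟩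
  constructor
  · intro a ha
    exact (mem_filter.1 ha).2.1
  · intro a ha
    exact (mem_filter.1 ha).2.2.1
  · exact hl1
  · exact hl2
  · exact hnb1
  · exact hnb3
  · exact hnb4
  · intro a ha
    have h : ∃ a' ∈ (univ.filter fun a => a ∉ B ∧ T.degree a = 2 ∧
      ∃ u ∈ B, T.Adj a u ∧ T.degree u = 1), l a' = l a := ⟨a, ha, rfl⟩
    simp only [dif_pos h]
    obtain ⟨h3, h4⟩ := h.choose_spec
    have h5 := hl2 a ha
    rw [SimpleGraph.degree_eq_one_iff_existsUnique_adj] at h5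
    have h6 := hl1 _ h3
    rw [h4] at h6
    exact h5.unique h6.symm (hl1 a ha).symm

theorem mainA2 (ε : ℝ) (hε : 0 < ε) : ∃ c θ : ℝ, 0 < c ∧ 0 < θ ∧
    ∀ (V : Type) [Fintype V] [DecidableEq V] (T : SimpleGraph V) [DecidableRel T.Adj] (n Δ : ℕ)
    (B : Finset V), T.IsTree → Fintype.card V = n + 1 → (∀ u w, T.Adj u w → (u ∈ B ↔ w ∉ B)) →
    (2 * (n + 1 - B.card : ℕ) : ℝ) ≤ n + 1 + θ * n → (∀ b ∈ B, T.degree b ≤ Δ) → 1 ≤ Δ →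
    (Δ : ℝ) ^ 3 ≤ c * n → ε * n ≤ (univ.filter fun a => a ∉ B ∧ T.degree a = 2 ∧
      ∃ u ∈ B, T.Adj a u ∧ T.degree u = 1).card →
    Decomposes T (completeBipartiteGraph (Fin n) (Fin n)) := by
  have hε' : 0 < min ε 1 := lt_min hε one_pos
  obtain ⟨K, hK⟩ := exists_nat_ge (2 / min ε 1)
  obtain ⟨c, θ, hc, hθ, hnum⟩ := num2 (min ε 1 / 2) (by positivity)
    (by linarith [min_le_right ε 1]) K
  refine ⟨c, θ, hc, hθ, ?_⟩
  intro V _ _ T _ n Δ B hT hn hB hA hdeg hΔ hΔ3 hWc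
  obtain ⟨M₁, w₁, M₂, w₂, x₁, x₂, j₂, hp₁, hp₂, hm, hx₁, hx₂, hx₂₁, hj₂, hbal, hc₁, hc₂, hm₁, hm₂,
    hn10, hw₁, hw₂, hz⟩ := hnum n Δ hΔ hΔ3
  obtain ⟨nb, l, nl, hW⟩ := exists_isW V T hT n hn (by omega) B
  have hle : min ε 1 * n ≤ ε * n := mul_le_mul_of_nonneg_right (min_le_left _ _) (by positivity)
  have hKα : 2 * n ≤ K * (univ.filter fun a => a ∉ B ∧ T.degree a = 2 ∧
      ∃ u ∈ B, T.Adj a u ∧ T.degree u = 1).card := by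
    have h1 : (2 / min ε 1) * (min ε 1 * n) ≤
        K * ((univ.filter fun a => a ∉ B ∧ T.degree a = 2 ∧
      ∃ u ∈ B, T.Adj a u ∧ T.degree u = 1).card : ℝ) :=
      mul_le_mul hK (hle.trans hWc) (by positivity) (by positivity)
    have h2 : (2 / min ε 1) * (min ε 1 * n) = 2 * (n : ℝ) := by
      field_simp
    rw [h2] at h1
    exact_mod_cast h1
  have hWc' : 2 * (min ε 1 / 2) * n ≤ (univ.filter fun a => a ∉ B ∧ T.degree a = 2 ∧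
      ∃ u ∈ B, T.Adj a u ∧ T.degree u = 1).card := by
    refine le_trans (le_of_eq ?_) (hle.trans hWc)
    ring
  have hε1 : min ε 1 / 2 ≤ 1 := by linarith [min_le_right ε 1]
  obtain ⟨R₁, P₁, Y₁, L₁, κ₁, G₁, X₁, F₁, g₁, o₁, U₁, a1, a2, a3, a4, a5, a6, a7, a8, a9, a10, a11,
    a12, a13⟩ := type_exists2 V T hT n hn hn10 B hB (min ε 1 / 2) θ hε1 K Δ M₁ w₁ x₁ M₂ x₂ x₁ hp₁ hA
    hΔ hdeg _ nb l nl hW hWc' hKα le_rfl hz
  obtain ⟨R₂, P₂, Y₂, L₂, κ₂, G₂, X₂, F₂, g₂, o₂, U₂, b1, b2, b3, b4, b5, b6, b7, b8, b9, b10, b11,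
    b12, b13⟩ := type_exists2 V T hT n hn hn10 B hB (min ε 1 / 2) θ hε1 K Δ M₂ w₂ x₂ M₁ x₁ x₁ hp₂ hA
    hΔ hdeg _ nb l nl hW hWc' hKα hx₂₁ hz
  have hM₁ := hp₁.hM.pos
  have hM₂ := hp₂.hM.pos
  have : NeZero M₁ := ⟨hM₁.ne'⟩
  have : NeZero M₂ := ⟨hM₂.ne'⟩
  have : NeZero (M₁ * w₁) := ⟨(Nat.mul_pos hM₁ hw₁).ne'⟩
  have : NeZero (M₂ * w₂) := ⟨(Nat.mul_pos hM₂ hw₂).ne'⟩
  have hP₁ := a4 rfl
  subst hP₁
  have c1 := a9.hcount
  have c2 := b9.hcount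
  have hr1 := rem_card P₁
  have hr2 := rem_card R₂
  have hzn : x₁ ≤ n := by
    have h1 : (12 * x₁ : ℝ) ≤ n := by
      have : (min ε 1 / 2) * (n : ℝ) ≤ 1 * n := mul_le_mul_of_nonneg_right hε1 (by positivity)
      linarith
    have h2 : 12 * x₁ ≤ n := by exact_mod_cast h1
    omega
  refine couple2 V T hT n hn B hB M₁ w₁ M₂ w₂ hm P₁ R₂ P₂ x₁ (n - x₁) (by omega) a1 b1 nl a6 b6 b2
    a9 b9 a8 a7 b8 (fun u hu u' hu' => b7 u (b2 hu) u' hu') a5 (by omega) a10 b10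
    (card_pos.1 (by omega)) (card_pos.1 (by omega)) j₂ hj₂ ?_ ?_ ?_ (by omega) (by omega) hm₁ hm₂
  · rw [a5, b5, ← hbal]
    obtain ⟨x, rfl⟩ : ∃ x, x₁ = x + 1 := ⟨x₁ - 1, by omega⟩
    rw [Nat.add_sub_cancel]
    ring
  · omega
  · omega

end Pool.Agent.Helper83.GH
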