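import Mathlib

/-!
# GHA-HO and GHA-FILL: filling groups with leaves

`hall_offsets`. Hall's theorem for `X` and the elements `ω ∉ O` with `x + ω ∈ P`. Let `p` be the size
of the complement of `P`, `S ⊆ X` nonempty. If `|S| > p`: every `ω ∉ O` has a neighbour in `S` (the `x`
with `x + ω ∉ P` are at most `p`), so `|N(S)| = M - |O| ≥ |X|`. If `|S| ≤ p`: one `x ∈ S` has at least
`M - |O| - p ≥ p` neighbours.

`fill`. Treat the `i` one after the other (induction over a finset of `i`). Let `Λ'` be the set of the
leaves not used so far, `P` the set of the `ρ` with at least `M` elements `u ∈ Λ'`, `π u = ρ`,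
`p = |Pᶜ|`. Then `4 p ≤ M`: otherwise `|Λ'| ≤ p M + (M - p) β ≤ M ^ 2 + (3 / 4) M β` (consider
`β ≥ M` and `β < M`), against `hneed`. So `hall_offsets` applies to `X i`, `O i`, `P`; for `x ∈ X i`
choose a leaf `u` with `π u = x + ω x`, different leaves for different `x` (there are at least `M ≥
|X i|` leaves for each residue of `P`); `π u - x = ω x`.
-/

namespace Pool.Agent.Helper83.GH

open Finset

theorem hall_offsets {M : ℕ} [NeZero M] (X O P : Finset (ZMod M)) (h1 : X.card + O.card ≤ M)
    (h2 : O.card + 2 * (univ \ P).card ≤ M) :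
    ∃ ω : ZMod M → ZMod M, (∀ x ∈ X, ω x ∉ O ∧ x + ω x ∈ P) ∧ Set.InjOn ω X := by
  classical
  have hM : (univ : Finset (ZMod M)).card = M := by
    rw [Finset.card_univ, ZMod.card]
  have hO : (univ \ O).card + O.card = M := by
    rw [Finset.card_sdiff_add_card_eq_card (Finset.subset_univ O), hM]
  let t : {x // x ∈ X} → Finset (ZMod M) := fun x => univ.filter fun w => w ∉ O ∧ (x : ZMod M) + w ∈ P
  have hall : ∀ s : Finset {x // x ∈ X}, s.card ≤ (s.biUnion t).card := by
    intro s
    rcases s.eq_empty_or_nonempty with hs | ⟨x0, hx0⟩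
    · simp [hs]
    · have hsX : s.card ≤ X.card := by
        have := Finset.card_le_univ s
        rwa [Fintype.card_coe] at this
      rcases lt_or_ge (univ \ P).card s.card with hlt | hge
      · have hsub : univ \ O ⊆ s.biUnion t := by
          intro w hw
          rw [Finset.mem_sdiff] at hw
          by_contra hcon
          have hall' : ∀ x ∈ s, (x : ZMod M) + w ∈ univ \ P := by
            intro x hx
            rw [Finset.mem_sdiff]
            refine ⟨Finset.mem_univ _, fun hP => hcon ?_⟩
            rw [Finset.mem_biUnion]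
            exact ⟨x, hx, by
              simp only [t, Finset.mem_filter, Finset.mem_univ, true_and]
              exact ⟨hw.2, hP⟩⟩
          have hle : s.card ≤ (univ \ P).card := by
            refine Finset.card_le_card_of_injOn (fun x : {x // x ∈ X} => (x : ZMod M) + w)
              (fun x hx => hall' x hx) ?_
            intro x _ y _ hxy
            exact Subtype.ext (add_right_cancel hxy)
          omega
        have := Finset.card_le_card hsub
        omega
      · have hsub : t x0 ⊆ s.biUnion t := Finset.subset_biUnion_of_mem t hx0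
        have hcard : (univ \ O).card ≤ (t x0).card + (univ \ P).card := by
          have hcov : univ \ O ⊆ t x0 ∪ (univ \ P).image (fun z => z - (x0 : ZMod M)) := by
            intro w hw
            rw [Finset.mem_sdiff] at hw
            rw [Finset.mem_union]
            by_cases hP : (x0 : ZMod M) + w ∈ P
            · left
              simp only [t, Finset.mem_filter, Finset.mem_univ, true_and]
              exact ⟨hw.2, hP⟩
            · right
              rw [Finset.mem_image]
              refine ⟨(x0 : ZMod M) + w, ?_, by ring⟩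
              rw [Finset.mem_sdiff]
              exact ⟨Finset.mem_univ _, hP⟩
          calc (univ \ O).card ≤ _ := Finset.card_le_card hcov
            _ ≤ (t x0).card + ((univ \ P).image (fun z => z - (x0 : ZMod M))).card :=
                Finset.card_union_le _ _
            _ ≤ _ := Nat.add_le_add_left Finset.card_image_le _
        have h3 := Finset.card_le_card hsub
        omega
  obtain ⟨f, hf, hft⟩ := (Finset.all_card_le_biUnion_card_iff_exists_injective t).mp hall
  refine ⟨fun x => if h : x ∈ X then f ⟨x, h⟩ else 0, ?_, ?_⟩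
  · intro x hx
    have := hft ⟨x, hx⟩
    simp only [t, Finset.mem_filter, Finset.mem_univ, true_and] at this
    simpa [hx] using this
  · intro x hx y hy hxy
    have hx' : x ∈ X := hx
    have hy' : y ∈ X := hy
    simp only [hx', hy', dif_pos] at hxy
    exact congrArg Subtype.val (hf hxy)

/-- The residues with few remaining leaves are few. -/
theorem fill_few {V : Type} [DecidableEq V] {M : ℕ} [NeZero M] (Λ : Finset V) (π : V → ZMod M)
    (β : ℕ) (hβ : ∀ ρ, (Λ.filter fun u => π u = ρ).card ≤ β)
    (hneed : 4 * M ^ 2 + 3 * M * β < 4 * Λ.card) :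
    4 * (univ \ (univ.filter fun ρ : ZMod M => M ≤ (Λ.filter fun u => π u = ρ).card)).card ≤ M := by
  classical
  set P : Finset (ZMod M) :=
    univ.filter fun ρ : ZMod M => M ≤ (Λ.filter fun u => π u = ρ).card with hP
  have hsum : Λ.card = ∑ ρ : ZMod M, (Λ.filter fun u => π u = ρ).card :=
    Finset.card_eq_sum_card_fiberwise (fun x _ => mem_univ (π x))
  have hsplit : ∑ ρ : ZMod M, (Λ.filter fun u => π u = ρ).card =
      ∑ ρ ∈ P, (Λ.filter fun u => π u = ρ).card +
        ∑ ρ ∈ univ \ P, (Λ.filter fun u => π u = ρ).card := by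
    rw [add_comm, Finset.sum_sdiff (subset_univ P)]
  have hPc : P.card + (univ \ P).card = M := by
    have := Finset.card_sdiff_add_card_eq_card (subset_univ P)
    rw [Finset.card_univ, ZMod.card] at this
    omega
  have h1 : ∑ ρ ∈ P, (Λ.filter fun u => π u = ρ).card ≤ P.card * β := by
    have := Finset.sum_le_card_nsmul P (fun ρ => (Λ.filter fun u => π u = ρ).card) β
      (fun ρ _ => hβ ρ)
    simpa [smul_eq_mul] using this
  have h2 : ∑ ρ ∈ univ \ P, (Λ.filter fun u => π u = ρ).card ≤ (univ \ P).card * β := by
    have := Finset.sum_le_card_nsmul (univ \ P) (fun ρ => (Λ.filter fun u => π u = ρ).card) β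
      (fun ρ _ => hβ ρ)
    simpa [smul_eq_mul] using this
  have h3 : ∑ ρ ∈ univ \ P, (Λ.filter fun u => π u = ρ).card ≤ (univ \ P).card * M := by
    have := Finset.sum_le_card_nsmul (univ \ P) (fun ρ => (Λ.filter fun u => π u = ρ).card) M
      (fun ρ hρ => by
        have hρ' : ρ ∉ P := (Finset.mem_sdiff.1 hρ).2
        have : ¬ (M ≤ (Λ.filter fun u => π u = ρ).card) := by
          intro h
          exact hρ' (by rw [hP]; exact Finset.mem_filter.2 ⟨mem_univ _, h⟩)
        show (Λ.filter fun u => π u = ρ).card ≤ M
        omega)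
    simpa [smul_eq_mul] using this
  by_contra hcon
  push Not at hcon
  set p := (univ \ P).card with hp
  set q := P.card with hq
  rw [hsum, hsplit] at hneed
  rcases le_total M β with hMb | hMb
  · have e1 : 4 * (q * β + p * M) ≤ 4 * M ^ 2 + 3 * M * β := by
      have hM : M = q + p := by omega
      nlinarith [Nat.mul_le_mul hcon.le hMb]
    omega
  · have e1 : 4 * (q * β + p * β) ≤ 4 * M ^ 2 + 3 * M * β := by
      have hM : q + p = M := by omega
      have : q * β + p * β = M * β := by rw [← add_mul, hM]
      rw [this]
      nlinarith [Nat.mul_le_mul_left M hMb]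
    omega

theorem fill {ι : Type} [Fintype ι] [DecidableEq ι] {V : Type} [DecidableEq V] {M : ℕ} [NeZero M]
    (X O : ι → Finset (ZMod M)) (h1 : ∀ i, (X i).card + (O i).card ≤ M)
    (h2 : ∀ i, 2 * (O i).card ≤ M) (Λ : Finset V) (π : V → ZMod M) (β : ℕ)
    (hβ : ∀ ρ, (Λ.filter fun u => π u = ρ).card ≤ β)
    (hneed : 4 * M ^ 2 + 3 * M * β + 4 * ∑ i, (X i).card < 4 * Λ.card) :
    ∃ u : ι → ZMod M → V, (∀ i, ∀ x ∈ X i, u i x ∈ Λ) ∧
      (∀ i j, ∀ x ∈ X i, ∀ x' ∈ X j, u i x = u j x' → i = j ∧ x = x') ∧
      (∀ i, ∀ x ∈ X i, π (u i x) - x ∉ O i) ∧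
      ∀ i, ∀ x ∈ X i, ∀ x' ∈ X i, π (u i x) - x = π (u i x') - x' → x = x' := by
  classical
  have key : ∀ s : Finset ι, ∃ u : ι → ZMod M → V, (∀ i ∈ s, ∀ x ∈ X i, u i x ∈ Λ) ∧
      (∀ i ∈ s, ∀ j ∈ s, ∀ x ∈ X i, ∀ x' ∈ X j, u i x = u j x' → i = j ∧ x = x') ∧
      (∀ i ∈ s, ∀ x ∈ X i, π (u i x) - x ∉ O i) ∧
      ∀ i ∈ s, ∀ x ∈ X i, ∀ x' ∈ X i, π (u i x) - x = π (u i x') - x' → x = x' := by
    intro s
    induction s using Finset.induction_on with
    | empty =>
      have hne : Λ.Nonempty := by
        rw [← Finset.card_pos]
        omega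
      obtain ⟨v, _⟩ := hne
      exact ⟨fun _ _ => v, by simp, by simp, by simp, by simp⟩
    | insert a s ha ih =>
      obtain ⟨u, hu1, hu2, hu3, hu4⟩ := ih
      set used : Finset V := s.biUnion fun i => (X i).image (u i) with hused
      set Λ' : Finset V := Λ \ used with hΛ'
      have hcard : used.card ≤ ∑ i ∈ s, (X i).card := by
        refine (Finset.card_biUnion_le).trans ?_
        exact Finset.sum_le_sum fun i _ => Finset.card_image_le
      have hcard2 : ∑ i ∈ s, (X i).card ≤ ∑ i, (X i).card :=
        Finset.sum_le_sum_of_subset (subset_univ s)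
      have hΛc : Λ.card ≤ Λ'.card + used.card := by
        have h : Λ.card - used.card ≤ Λ'.card := Finset.le_card_sdiff used Λ
        omega
      have hβ' : ∀ ρ, (Λ'.filter fun u => π u = ρ).card ≤ β := fun ρ =>
        (Finset.card_le_card (Finset.filter_subset_filter _ Finset.sdiff_subset)).trans (hβ ρ)
      have hneed' : 4 * M ^ 2 + 3 * M * β < 4 * Λ'.card := by omega
      have hfew := fill_few Λ' π β hβ' hneed'
      set P : Finset (ZMod M) :=
        univ.filter fun ρ : ZMod M => M ≤ (Λ'.filter fun u => π u = ρ).card with hP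
      obtain ⟨ω, hω1, hω2⟩ := hall_offsets (X a) (O a) P (h1 a) (by have := h2 a; omega)
      have hemb : ∀ ρ : ZMod M, ρ ∈ P → ∃ h : ZMod M → V, Function.Injective h ∧
          ∀ x, h x ∈ Λ' ∧ π (h x) = ρ := by
        intro ρ hρ
        have hc : M ≤ (Λ'.filter fun u => π u = ρ).card := (Finset.mem_filter.1 hρ).2
        have : Nonempty (ZMod M ↪ ↥(Λ'.filter fun u => π u = ρ)) := by
          apply Function.Embedding.nonempty_of_card_le
          rw [ZMod.card, Fintype.card_coe]
          exact hc
        obtain ⟨e⟩ := this
        refine ⟨fun x => (e x : V), fun x y hxy => e.injective (Subtype.ext hxy), fun x => ?_⟩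
        exact Finset.mem_filter.1 (e x).2
      choose h hinj hmem using hemb
      let w : ZMod M → V := fun x => if hx : x + ω x ∈ P then h (x + ω x) hx x else u a x
      have hw : ∀ x ∈ X a, w x ∈ Λ' ∧ π (w x) = x + ω x := by
        intro x hx
        have hxP := (hω1 x hx).2
        have : w x = h (x + ω x) hxP x := by simp only [w]; rw [dif_pos hxP]
        rw [this]
        exact hmem (x + ω x) hxP x
      have hwinj : ∀ x ∈ X a, ∀ x' ∈ X a, w x = w x' → x = x' := by
        intro x hx x' hx' hxx
        have hxP := (hω1 x hx).2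
        have hxP' := (hω1 x' hx').2
        have e1 : x + ω x = x' + ω x' := by rw [← (hw x hx).2, ← (hw x' hx').2, hxx]
        have w1 : w x = h (x + ω x) hxP x := by simp only [w]; rw [dif_pos hxP]
        have w2 : w x' = h (x' + ω x') hxP' x' := by simp only [w]; rw [dif_pos hxP']
        have w3 : h (x' + ω x') hxP' x' = h (x + ω x) hxP x' := by
          congr 1
          simp only [e1]
        rw [w1, w2, w3] at hxx
        exact hinj _ hxP hxx
      have hnot : ∀ i ∈ s, ∀ x ∈ X i, ∀ x' ∈ X a, u i x ≠ w x' := by
        intro i hi x hx x' hx' he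
        have h5 : w x' ∉ used := (Finset.mem_sdiff.1 (hw x' hx').1).2
        apply h5
        rw [hused, ← he]
        exact Finset.mem_biUnion.2 ⟨i, hi, Finset.mem_image_of_mem _ hx⟩
      have hane : ∀ i ∈ s, i ≠ a := fun i hi hia => ha (hia ▸ hi)
      refine ⟨fun i => if i = a then w else u i, ?_, ?_, ?_, ?_⟩
      · intro i hi x hx
        rcases Finset.mem_insert.1 hi with rfl | hi
        · simp only [if_true]
          exact (Finset.mem_sdiff.1 (hw x hx).1).1
        · simp only [if_neg (hane i hi)]
          exact hu1 i hi x hx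
      · intro i hi j hj x hx x' hx' he
        rcases Finset.mem_insert.1 hi with hia | hi
        · subst hia
          rcases Finset.mem_insert.1 hj with hja | hj
          · subst hja
            simp only [if_true] at he
            exact ⟨rfl, hwinj x hx x' hx' he⟩
          · simp only [if_true, if_neg (hane j hj)] at he
            exact absurd he.symm (hnot j hj x' hx' x hx)
        · have hia' := hane i hi
          have hn := hnot i hi x hx
          rcases Finset.mem_insert.1 hj with hja | hj
          · simp only [if_neg hia', if_pos hja] at he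
            rw [hja] at hx'
            exact absurd he (hn x' hx')
          · simp only [if_neg hia', if_neg (hane j hj)] at he
            exact hu2 i hi j hj x hx x' hx' he
      · intro i hi x hx
        rcases Finset.mem_insert.1 hi with hia | hi
        · subst hia
          simp only [if_true]
          rw [(hw x hx).2, add_sub_cancel_left]
          exact (hω1 x hx).1
        · simp only [if_neg (hane i hi)]
          exact hu3 i hi x hx
      · intro i hi x hx x' hx' he
        rcases Finset.mem_insert.1 hi with hia | hi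
        · subst hia
          simp only [if_true] at he
          rw [(hw x hx).2, (hw x' hx').2, add_sub_cancel_left, add_sub_cancel_left] at he
          exact hω2 hx hx' he
        · simp only [if_neg (hane i hi)] at he
          exact hu4 i hi x hx x' hx' he
  obtain ⟨u, hu1, hu2, hu3, hu4⟩ := key univ
  exact ⟨u, fun i => hu1 i (mem_univ i), fun i j => hu2 i (mem_univ i) j (mem_univ j),
    fun i => hu3 i (mem_univ i), fun i => hu4 i (mem_univ i)⟩

end Pool.Agent.Helper83.GH
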