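import Mathlib

/-!
# GHA-PACK: bin packing

Proof. For each type `θ` pack the elements of type `θ` greedily: induction over the finset, with the
invariant that for every type at most one group of this type has total size `≤ M - Δ` (or: order the
elements of one type, put the next element in the current group if it fits, else open a new group;
a group which is closed has total size `> M - Δ`). The starts `s` are the partial sums in a group.
Total: (number of groups - number of types) * (M - Δ) ≤ total size.
-/

namespace Pool.Agent.Helper83.GH

open Finset

theorem pack_aux46 {V Θ : Type} [DecidableEq V] [Fintype Θ] [DecidableEq Θ] (K : Finset V)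
    (τ : V → Θ) (σ : V → ℕ) (M Δ : ℕ) (hσ : ∀ b ∈ K, 1 ≤ σ b ∧ σ b ≤ Δ) (hΔ : Δ ≤ M) :
    ∃ (c : ℕ) (γ s : V → ℕ) (o ℓ : Θ → ℕ), (∀ θ, o θ < Fintype.card Θ + c) ∧
      (Function.Injective o) ∧
      (∀ b ∈ K, γ b < Fintype.card Θ + c) ∧ (∀ b ∈ K, s b + σ b ≤ M) ∧
      (∀ b ∈ K, ∀ θ, γ b = o θ → τ b = θ ∧ s b + σ b ≤ ℓ θ) ∧
      (∀ b ∈ K, ∀ b' ∈ K, γ b = γ b' → τ b = τ b') ∧
      (∀ b ∈ K, ∀ b' ∈ K, γ b = γ b' → b ≠ b' → s b + σ b ≤ s b' ∨ s b' + σ b' ≤ s b) ∧
      c * (M - Δ) + ∑ θ, ℓ θ ≤ ∑ b ∈ K, σ b := by
  induction K using Finset.induction_on with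
  | empty =>
    refine ⟨0, fun _ => 0, fun _ => 0, fun θ => (Fintype.equivFin Θ θ).val, fun _ => 0,
      ?_, ?_, ?_, ?_, ?_, ?_, ?_, ?_⟩
    · intro θ
      simp
    · intro a b h
      exact (Fintype.equivFin Θ).injective (Fin.ext h)
    · intro b hb; simp at hb
    · intro b hb; simp at hb
    · intro b hb; simp at hb
    · intro b hb; simp at hb
    · intro b hb; simp at hb
    · simp
  | insert b0 K hb0 ih =>
    obtain ⟨c, γ, s, o, ℓ, h1, h2, h3, h4, h5, h6, h7, h8⟩ :=
      ih (fun b hb => hσ b (Finset.mem_insert_of_mem hb))
    have hs0 := hσ b0 (Finset.mem_insert_self b0 K)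
    have hne : ∀ b ∈ K, b ≠ b0 := fun b hb h => hb0 (h ▸ hb)
    rw [Finset.sum_insert hb0]
    by_cases hfit : ℓ (τ b0) + σ b0 ≤ M
    · refine ⟨c, Function.update γ b0 (o (τ b0)), Function.update s b0 (ℓ (τ b0)), o,
        Function.update ℓ (τ b0) (ℓ (τ b0) + σ b0), h1, h2, ?_, ?_, ?_, ?_, ?_, ?_⟩
      · intro b hb
        rcases Finset.mem_insert.1 hb with rfl | hbK
        · rw [Function.update_self]; exact h1 _
        · rw [Function.update_of_ne (hne b hbK)]; exact h3 b hbK
      · intro b hb
        rcases Finset.mem_insert.1 hb with rfl | hbK
        · rw [Function.update_self]; exact hfit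
        · rw [Function.update_of_ne (hne b hbK)]; exact h4 b hbK
      · intro b hb θ hθ
        rcases Finset.mem_insert.1 hb with rfl | hbK
        · rw [Function.update_self] at hθ
          have := h2 hθ
          subst this
          simp
        · rw [Function.update_of_ne (hne b hbK)] at hθ ⊢
          obtain ⟨ha, hb'⟩ := h5 b hbK θ hθ
          refine ⟨ha, hb'.trans ?_⟩
          by_cases hq : θ = τ b0
          · subst hq
            rw [Function.update_self]; omega
          · rw [Function.update_of_ne hq]
      · intro b hb b' hb' hg
        rcases Finset.mem_insert.1 hb with rfl | hbK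
        · rcases Finset.mem_insert.1 hb' with rfl | hb'
          · rfl
          · rw [Function.update_self, Function.update_of_ne (hne b' hb')] at hg
            exact ((h5 b' hb' _ hg.symm).1).symm
        · rcases Finset.mem_insert.1 hb' with h0 | hb'
          · subst h0
            rw [Function.update_self, Function.update_of_ne (hne b hbK)] at hg
            exact (h5 b hbK _ hg).1
          · rw [Function.update_of_ne (hne b hbK), Function.update_of_ne (hne b' hb')] at hg
            exact h6 b hbK b' hb' hg
      · intro b hb b' hb' hg hn
        rcases Finset.mem_insert.1 hb with rfl | hbK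
        · rcases Finset.mem_insert.1 hb' with rfl | hb'
          · exact absurd rfl hn
          · rw [Function.update_self, Function.update_of_ne (hne b' hb')] at hg
            rw [Function.update_self, Function.update_of_ne (hne b' hb')]
            exact Or.inr (h5 b' hb' _ hg.symm).2
        · rcases Finset.mem_insert.1 hb' with h0 | hb'
          · subst h0
            rw [Function.update_self, Function.update_of_ne (hne b hbK)] at hg
            rw [Function.update_self, Function.update_of_ne (hne b hbK)]
            exact Or.inl (h5 b hbK _ hg).2
          · rw [Function.update_of_ne (hne b hbK), Function.update_of_ne (hne b' hb')] at hg ⊢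
            exact h7 b hbK b' hb' hg hn
      · have : ∑ θ, Function.update ℓ (τ b0) (ℓ (τ b0) + σ b0) θ = ∑ θ, ℓ θ + σ b0 := by
          rw [Finset.sum_update_of_mem (Finset.mem_univ _)]
          have h9 := Finset.add_sum_erase Finset.univ ℓ (Finset.mem_univ (τ b0))
          rw [← Finset.erase_eq] 
          omega
        rw [this]
        omega
    · refine ⟨c + 1, Function.update γ b0 (Fintype.card Θ + c), Function.update s b0 0,
        Function.update o (τ b0) (Fintype.card Θ + c),
        Function.update ℓ (τ b0) (σ b0), ?_, ?_, ?_, ?_, ?_, ?_, ?_, ?_⟩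
      · intro θ
        by_cases hq : θ = τ b0
        · subst hq
          rw [Function.update_self]; omega
        · rw [Function.update_of_ne hq]
          have := h1 θ
          omega
      · intro a b hab
        by_cases ha : a = τ b0
        · by_cases hb : b = τ b0
          · rw [ha, hb]
          · subst ha
            rw [Function.update_self, Function.update_of_ne hb] at hab
            have := h1 b
            omega
        · by_cases hb : b = τ b0
          · subst hb
            rw [Function.update_self, Function.update_of_ne ha] at hab
            have := h1 a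
            omega
          · rw [Function.update_of_ne hb, Function.update_of_ne ha] at hab
            exact h2 hab
      · intro b hb
        rcases Finset.mem_insert.1 hb with rfl | hbK
        · rw [Function.update_self]; omega
        · rw [Function.update_of_ne (hne b hbK)]
          have := h3 b hbK
          omega
      · intro b hb
        rcases Finset.mem_insert.1 hb with rfl | hbK
        · rw [Function.update_self]; omega
        · rw [Function.update_of_ne (hne b hbK)]; exact h4 b hbK
      · intro b hb θ hθ
        rcases Finset.mem_insert.1 hb with rfl | hbK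
        · rw [Function.update_self] at hθ
          by_cases hq : θ = τ b
          · subst hq
            simp
          · rw [Function.update_of_ne hq] at hθ
            have := h1 θ
            omega
        · rw [Function.update_of_ne (hne b hbK)] at hθ ⊢
          by_cases hq : θ = τ b0
          · subst hq
            rw [Function.update_self] at hθ
            have := h3 b hbK
            omega
          · rw [Function.update_of_ne hq] at hθ ⊢
            exact h5 b hbK θ hθ
      · intro b hb b' hb' hg
        rcases Finset.mem_insert.1 hb with rfl | hbK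
        · rcases Finset.mem_insert.1 hb' with rfl | hb'
          · rfl
          · rw [Function.update_self, Function.update_of_ne (hne b' hb')] at hg
            have := h3 b' hb'
            omega
        · rcases Finset.mem_insert.1 hb' with h0 | hb'
          · subst h0
            rw [Function.update_self, Function.update_of_ne (hne b hbK)] at hg
            have := h3 b hbK
            omega
          · rw [Function.update_of_ne (hne b hbK), Function.update_of_ne (hne b' hb')] at hg
            exact h6 b hbK b' hb' hg
      · intro b hb b' hb' hg hn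
        rcases Finset.mem_insert.1 hb with rfl | hbK
        · rcases Finset.mem_insert.1 hb' with rfl | hb'
          · exact absurd rfl hn
          · rw [Function.update_self, Function.update_of_ne (hne b' hb')] at hg
            have := h3 b' hb'
            omega
        · rcases Finset.mem_insert.1 hb' with h0 | hb'
          · subst h0
            rw [Function.update_self, Function.update_of_ne (hne b hbK)] at hg
            have := h3 b hbK
            omega
          · rw [Function.update_of_ne (hne b hbK), Function.update_of_ne (hne b' hb')] at hg ⊢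
            exact h7 b hbK b' hb' hg hn
      · have h9 := Finset.add_sum_erase Finset.univ ℓ (Finset.mem_univ (τ b0))
        have h10 : ∑ θ, Function.update ℓ (τ b0) (σ b0) θ =
            σ b0 + ∑ θ ∈ Finset.univ.erase (τ b0), ℓ θ := by
          rw [Finset.sum_update_of_mem (Finset.mem_univ _), ← Finset.erase_eq]
        rw [h10, Nat.add_mul, Nat.one_mul]
        omega

theorem pack {V Θ : Type} [DecidableEq V] [Fintype Θ] [DecidableEq Θ] (K : Finset V) (τ : V → Θ)
    (σ : V → ℕ) (M Δ : ℕ) (hσ : ∀ b ∈ K, 1 ≤ σ b ∧ σ b ≤ Δ) (hΔ : Δ ≤ M) :
    ∃ (G : ℕ) (γ s : V → ℕ), (∀ b ∈ K, γ b < G) ∧ (∀ b ∈ K, s b + σ b ≤ M) ∧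
      (∀ b ∈ K, ∀ b' ∈ K, γ b = γ b' → τ b = τ b') ∧
      (∀ b ∈ K, ∀ b' ∈ K, γ b = γ b' → b ≠ b' → s b + σ b ≤ s b' ∨ s b' + σ b' ≤ s b) ∧
      G * (M - Δ) ≤ ∑ b ∈ K, σ b + Fintype.card Θ * (M - Δ) := by
  obtain ⟨c, γ, s, o, ℓ, h1, h2, h3, h4, h5, h6, h7, h8⟩ := pack_aux46 K τ σ M Δ hσ hΔ
  refine ⟨Fintype.card Θ + c, γ, s, h3, h4, h6, h7, ?_⟩
  rw [Nat.add_mul]
  have : c * (M - Δ) ≤ ∑ b ∈ K, σ b := le_trans (Nat.le_add_right _ _) h8
  omega

end Pool.Agent.Helper83.GH
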