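import Mathlib

/-!
# GHA-POT: a balanced labelling by residues (method of conditional expectations)

A rooted tree is given by the root `r`, the parent map `par` and the depth `d`. The vertices of even
depth get residues `F`: the children `a` of a vertex `b` of odd depth get `F (par b) + j a * δ b`
where the `j a ∈ [1, M - 1]` are different for different children and `δ b ≠ 0` is ours.

Proof. For `v : V → ℝ`, `v ≥ 0` and a set `A'` of labelled vertices put
`W = ∑ ρ, exp (∑ a ∈ A', F a = ρ, v a)` and `Γ = exp ((∑ a ∈ A', (exp (v a) - 1)) / (M - 1))`.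
Claim: for each set `S` of vertices of odd depth such that `par b = r` or `par (par b) ∈ S` for
`b ∈ S`, there are `F`, `δ` (`δ b ≠ 0`) with the recursion for all `a` with `par a ∈ S` and
`W₁ / Γ₁ + W₂ / Γ₂ ≤ 2 M`, the sets of labelled vertices being `{r} ∪ {a : par a ∈ S}`.
Induction on `|S|`. `S = ∅`: `W = M - 1 + exp (v r) ≤ M Γ`. Step: let `b ∈ S` be of maximal depth,
`S = S' ∪ {b}`, `z = F (par b)`. For `δ ≠ 0` the new `W` is at most
`W + ∑ a ∈ ch b, exp (∑ a' ∈ A', F a' = z + j a δ, v a') (exp (v a) - 1)` (the residues of the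
children of `b` are different), and for fixed `a` the `z + j a δ`, `δ ≠ 0`, are all the residues `≠ z`.
So the sum over the `M - 1` values of `δ` of the new `W` is at most
`(M - 1) W + W ∑ a ∈ ch b, (exp (v a) - 1) ≤ (M - 1) W exp (∑ (exp (v a) - 1) / (M - 1))`, i.e. the
sum over `δ` of the new `W / Γ` is at most `(M - 1) W / Γ`. The same for both `v`; so some `δ` is good.
At the end (`S` = all vertices of odd depth) each `ρ` has `exp (∑ v a) ≤ W ≤ 2 M Γ`; take logarithms.
-/

namespace Pool.Agent.Helper83.GH

open Finset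

lemma pot_exp_single {V : Type} (s : Finset V) (hs : ∀ a ∈ s, ∀ a' ∈ s, a = a') (v : V → ℝ) :
    Real.exp (∑ a ∈ s, v a) = 1 + ∑ a ∈ s, (Real.exp (v a) - 1) := by
  rcases s.eq_empty_or_nonempty with rfl | ⟨a, ha⟩
  · simp
  · have h1 : s = {a} := by
      ext x
      rw [Finset.mem_singleton]
      exact ⟨fun hx => hs x hx a ha, fun h => h ▸ ha⟩
    subst h1
    simp

/-- The potential `W`. -/
noncomputable def potW {V : Type} {M : ℕ} [Fact M.Prime] (v : V → ℝ) (F : V → ZMod M)
    (A : Finset V) : ℝ :=
  ∑ ρ : ZMod M, Real.exp (∑ a ∈ A.filter (fun a => F a = ρ), v a)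

/-- The normalisation `Γ`. -/
noncomputable def potG {V : Type} (M : ℕ) (v : V → ℝ) (A : Finset V) : ℝ :=
  Real.exp ((∑ a ∈ A, (Real.exp (v a) - 1)) / ((M : ℝ) - 1))

lemma potW_nonneg {V : Type} {M : ℕ} [Fact M.Prime] (v : V → ℝ) (F : V → ZMod M)
    (A : Finset V) : 0 ≤ potW v F A :=
  Finset.sum_nonneg fun _ _ => (Real.exp_pos _).le

lemma potW_step {V : Type} [DecidableEq V] {M : ℕ} [Fact M.Prime] (v : V → ℝ)
    (F : V → ZMod M) (A C : Finset V) (hAC : Disjoint A C) (z : ZMod M) (j : V → ℕ)
    (hj : ∀ a ∈ C, 1 ≤ j a ∧ j a < M)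
    (hji : ∀ a ∈ C, ∀ a' ∈ C, j a = j a' → a = a') (δ : ZMod M) (hδ : δ ≠ 0) :
    potW v (fun a => if a ∈ C then z + (j a : ZMod M) * δ else F a) (A ∪ C) =
      potW v F A + ∑ a ∈ C, (Real.exp (v a) - 1) *
        Real.exp (∑ a' ∈ A.filter (fun a' => F a' = z + (j a : ZMod M) * δ), v a') := by
  classical
  have hjz : ∀ a ∈ C, ∀ a' ∈ C, (j a : ZMod M) = (j a' : ZMod M) → a = a' := by
    intro a ha a' ha' h
    refine hji a ha a' ha' ?_
    have h1 := (ZMod.natCast_eq_natCast_iff' (j a) (j a') M).1 h
    rwa [Nat.mod_eq_of_lt (hj a ha).2, Nat.mod_eq_of_lt (hj a' ha').2] at h1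
  have key : ∀ ρ : ZMod M,
      Real.exp (∑ a ∈ (A ∪ C).filter
        (fun a => (if a ∈ C then z + (j a : ZMod M) * δ else F a) = ρ), v a) =
      Real.exp (∑ a ∈ A.filter (fun a => F a = ρ), v a) +
        ∑ a ∈ C, (if z + (j a : ZMod M) * δ = ρ then (Real.exp (v a) - 1) *
          Real.exp (∑ a' ∈ A.filter (fun a' => F a' = ρ), v a') else 0) := by
    intro ρ
    have e1 : (A ∪ C).filter
        (fun a => (if a ∈ C then z + (j a : ZMod M) * δ else F a) = ρ) =
        A.filter (fun a => F a = ρ) ∪ C.filter (fun a => z + (j a : ZMod M) * δ = ρ) := by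
      ext a
      simp only [Finset.mem_filter, Finset.mem_union]
      constructor
      · rintro ⟨h | h, h2⟩
        · have hn : a ∉ C := Finset.disjoint_left.1 hAC h
          rw [if_neg hn] at h2
          exact Or.inl ⟨h, h2⟩
        · rw [if_pos h] at h2
          exact Or.inr ⟨h, h2⟩
      · rintro (⟨h, h2⟩ | ⟨h, h2⟩)
        · have hn : a ∉ C := Finset.disjoint_left.1 hAC h
          rw [if_neg hn]
          exact ⟨Or.inl h, h2⟩
        · rw [if_pos h]
          exact ⟨Or.inr h, h2⟩
    rw [e1, Finset.sum_union (Finset.disjoint_filter_filter hAC), Real.exp_add,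
      pot_exp_single (C.filter (fun a => z + (j a : ZMod M) * δ = ρ)), mul_add, mul_one]
    · congr 1
      rw [Finset.mul_sum, Finset.sum_filter]
      refine Finset.sum_congr rfl fun a _ => ?_
      split_ifs
      · ring
      · ring
    · intro a ha a' ha'
      rw [Finset.mem_filter] at ha ha'
      refine hjz a ha.1 a' ha'.1 ?_
      have h1 : z + (j a : ZMod M) * δ = z + (j a' : ZMod M) * δ := ha.2.trans ha'.2.symm
      exact mul_right_cancel₀ hδ (add_left_cancel h1)
  unfold potW
  rw [Finset.sum_congr rfl fun ρ _ => key ρ, Finset.sum_add_distrib, Finset.sum_comm]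
  congr 1
  refine Finset.sum_congr rfl fun a _ => ?_
  rw [Finset.sum_ite_eq]
  simp

lemma potW_sum {V : Type} [DecidableEq V] {M : ℕ} [Fact M.Prime] (v : V → ℝ)
    (hv : ∀ x, 0 ≤ v x) (F : V → ZMod M) (A C : Finset V) (hAC : Disjoint A C) (z : ZMod M)
    (j : V → ℕ) (hj : ∀ a ∈ C, 1 ≤ j a ∧ j a < M)
    (hji : ∀ a ∈ C, ∀ a' ∈ C, j a = j a' → a = a') :
    ∑ δ ∈ univ.erase (0 : ZMod M),
      potW v (fun a => if a ∈ C then z + (j a : ZMod M) * δ else F a) (A ∪ C) / potG M v (A ∪ C) ≤
      ((M : ℝ) - 1) * (potW v F A / potG M v A) := by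
  classical
  have hM : 2 ≤ M := (Fact.out : M.Prime).two_le
  have hMr : (2 : ℝ) ≤ M := by exact_mod_cast hM
  have hM1 : (0 : ℝ) < (M : ℝ) - 1 := by linarith
  have hcard : ((univ.erase (0 : ZMod M)).card : ℝ) = (M : ℝ) - 1 := by
    rw [Finset.card_erase_of_mem (Finset.mem_univ _), Finset.card_univ, ZMod.card,
      Nat.cast_sub (by omega)]
    simp
  have hW := potW_nonneg v F A
  set X : ℝ := ∑ a ∈ C, (Real.exp (v a) - 1) with hX
  -- the sum of the potentials
  have h1 : ∑ δ ∈ univ.erase (0 : ZMod M),
      potW v (fun a => if a ∈ C then z + (j a : ZMod M) * δ else F a) (A ∪ C) ≤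
      ((M : ℝ) - 1) * potW v F A + X * potW v F A := by
    rw [Finset.sum_congr rfl fun δ hδ => potW_step v F A C hAC z j hj hji δ
      (Finset.ne_of_mem_erase hδ), Finset.sum_add_distrib, Finset.sum_const, nsmul_eq_mul, hcard]
    gcongr
    rw [Finset.sum_comm, hX, Finset.sum_mul]
    refine Finset.sum_le_sum fun a ha => ?_
    rw [← Finset.mul_sum]
    refine mul_le_mul_of_nonneg_left ?_ ?_
    · -- an injection
      have hja : (j a : ZMod M) ≠ 0 := by
        intro h0
        rw [ZMod.natCast_eq_zero_iff] at h0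
        have := Nat.le_of_dvd (by have := (hj a ha).1; omega) h0
        have := (hj a ha).2
        omega
      have hinj : Set.InjOn (fun δ : ZMod M => z + (j a : ZMod M) * δ)
          (univ.erase (0 : ZMod M) : Finset (ZMod M)) := by
        intro x _ y _ hxy
        exact mul_left_cancel₀ hja (add_left_cancel hxy)
      calc ∑ δ ∈ univ.erase (0 : ZMod M), Real.exp (∑ a' ∈ A.filter
            (fun a' => F a' = z + (j a : ZMod M) * δ), v a')
          = ∑ ρ ∈ (univ.erase (0 : ZMod M)).image (fun δ : ZMod M => z + (j a : ZMod M) * δ),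
              Real.exp (∑ a' ∈ A.filter (fun a' => F a' = ρ), v a') := by
            rw [Finset.sum_image hinj]
        _ ≤ potW v F A := by
            unfold potW
            exact Finset.sum_le_sum_of_subset_of_nonneg (Finset.subset_univ _)
              fun _ _ _ => (Real.exp_pos _).le
    · have := Real.add_one_le_exp (v a)
      have := hv a
      linarith
  have hG : potG M v (A ∪ C) = potG M v A * Real.exp (X / ((M : ℝ) - 1)) := by
    unfold potG
    rw [Finset.sum_union hAC, add_div, Real.exp_add]
  have hGA : 0 < potG M v A := Real.exp_pos _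
  have hGX : 0 < Real.exp (X / ((M : ℝ) - 1)) := Real.exp_pos _
  rw [← Finset.sum_div, hG, div_le_iff₀ (mul_pos hGA hGX)]
  refine h1.trans ?_
  have h2 := Real.add_one_le_exp (X / ((M : ℝ) - 1))
  have h3 : ((M : ℝ) - 1) * (potW v F A / potG M v A) *
      (potG M v A * Real.exp (X / ((M : ℝ) - 1))) =
      ((M : ℝ) - 1) * potW v F A * Real.exp (X / ((M : ℝ) - 1)) := by
    field_simp
  rw [h3]
  have h4 : ((M : ℝ) - 1) * potW v F A + X * potW v F A =
      ((M : ℝ) - 1) * potW v F A * (X / ((M : ℝ) - 1) + 1) := by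
    field_simp
    ring
  rw [h4]
  exact mul_le_mul_of_nonneg_left h2 (mul_nonneg hM1.le hW)

theorem balance {V : Type} [Fintype V] [DecidableEq V] (r : V) (par : V → V) (d : V → ℕ)
    (h0 : d r = 0) (hd : ∀ x, x ≠ r → d x = d (par x) + 1) (M : ℕ) [Fact M.Prime] (j : V → ℕ)
    (hj : ∀ x, x ≠ r → Even (d x) → 1 ≤ j x ∧ j x < M)
    (hji : ∀ x x', x ≠ r → x' ≠ r → Even (d x) → Even (d x') → par x = par x' → j x = j x' →
      x = x')
    (v₁ v₂ : V → ℝ) (hv₁ : ∀ x, 0 ≤ v₁ x) (hv₂ : ∀ x, 0 ≤ v₂ x) :
    ∃ (F δ : V → ZMod M), (∀ b, ¬ Even (d b) → δ b ≠ 0) ∧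
      (∀ a, a ≠ r → Even (d a) → F a = F (par (par a)) + (j a : ZMod M) * δ (par a)) ∧
      (∀ ρ, ∑ a ∈ univ.filter (fun a => Even (d a) ∧ F a = ρ), v₁ a ≤ Real.log (2 * M) +
        (∑ a ∈ univ.filter (fun a => Even (d a)), (Real.exp (v₁ a) - 1)) / (M - 1)) ∧
      ∀ ρ, ∑ a ∈ univ.filter (fun a => Even (d a) ∧ F a = ρ), v₂ a ≤ Real.log (2 * M) +
        (∑ a ∈ univ.filter (fun a => Even (d a)), (Real.exp (v₂ a) - 1)) / (M - 1) := by
  classical
  have hM : 2 ≤ M := (Fact.out : M.Prime).two_le
  have hMr : (2 : ℝ) ≤ M := by exact_mod_cast hM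
  have hM1 : (0 : ℝ) < (M : ℝ) - 1 := by linarith
  let L : Finset V → Finset V := fun S =>
    insert r (univ.filter fun a => a ≠ r ∧ par a ∈ S)
  have claim : ∀ S : Finset V, (∀ b ∈ S, ¬ Even (d b)) →
      ∃ (F δ : V → ZMod M), (∀ b, δ b ≠ 0) ∧
        (∀ a, a ≠ r → par a ∈ S → F a = F (par (par a)) + (j a : ZMod M) * δ (par a)) ∧
        potW v₁ F (L S) / potG M v₁ (L S) + potW v₂ F (L S) / potG M v₂ (L S) ≤ 2 * M := by
    intro S
    refine Finset.induction_on_max_value d S ?_ ?_
    · intro _
      refine ⟨fun _ => 0, fun _ => 1, fun _ => one_ne_zero, fun a _ h => by simp at h, ?_⟩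
      have hL : L ∅ = {r} := by
        simp [L]
      have key : ∀ v : V → ℝ, (∀ x, 0 ≤ v x) →
          potW v (fun _ => (0 : ZMod M)) {r} / potG M v {r} ≤ M := by
        intro v hv
        have e1 : potW v (fun _ => (0 : ZMod M)) {r} = ((M : ℝ) - 1) + Real.exp (v r) := by
          unfold potW
          rw [← Finset.add_sum_erase _ _ (Finset.mem_univ (0 : ZMod M))]
          have e2 : ∑ ρ ∈ univ.erase (0 : ZMod M),
              Real.exp (∑ a ∈ ({r} : Finset V).filter (fun _ => (0 : ZMod M) = ρ), v a) =
              ∑ ρ ∈ univ.erase (0 : ZMod M), (1 : ℝ) := by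
            refine Finset.sum_congr rfl fun ρ hρ => ?_
            have hne : ¬ ((0 : ZMod M) = ρ) := fun h => (Finset.ne_of_mem_erase hρ) h.symm
            rw [Finset.filter_false_of_mem (fun _ _ => hne)]
            simp
          rw [e2, Finset.sum_const, Finset.card_erase_of_mem (Finset.mem_univ _),
            Finset.card_univ, ZMod.card]
          have e3 : ({r} : Finset V).filter (fun _ => (0 : ZMod M) = 0) = {r} :=
            Finset.filter_true_of_mem (fun _ _ => rfl)
          rw [e3, Finset.sum_singleton, nsmul_eq_mul, mul_one, Nat.cast_sub (by omega)]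
          push_cast
          ring
        have e4 : potG M v {r} = Real.exp ((Real.exp (v r) - 1) / ((M : ℝ) - 1)) := by
          unfold potG
          rw [Finset.sum_singleton]
        rw [e1, e4, div_le_iff₀ (Real.exp_pos _)]
        have h2 := Real.add_one_le_exp ((Real.exp (v r) - 1) / ((M : ℝ) - 1))
        have hx : 0 ≤ Real.exp (v r) - 1 := by
          have := Real.add_one_le_exp (v r)
          have := hv r
          linarith
        have h3 : (M : ℝ) * ((Real.exp (v r) - 1) / ((M : ℝ) - 1) + 1) ≤
            M * Real.exp ((Real.exp (v r) - 1) / ((M : ℝ) - 1)) :=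
          mul_le_mul_of_nonneg_left h2 (by linarith)
        have h5 : (Real.exp (v r) - 1) ≤ (M : ℝ) * ((Real.exp (v r) - 1) / ((M : ℝ) - 1)) := by
          rw [mul_div_assoc', le_div_iff₀ hM1]
          nlinarith
        nlinarith
      rw [hL]
      have := key v₁ hv₁
      have := key v₂ hv₂
      linarith
    · intro b S' hb hmax ih hodd
      obtain ⟨F, δ, hδ, hrec, hpot⟩ := ih (fun x hx => hodd x (Finset.mem_insert_of_mem hx))
      have hbodd : ¬ Even (d b) := hodd b (Finset.mem_insert_self _ _)
      have hbr : b ≠ r := by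
        rintro rfl
        exact hbodd (by rw [h0]; exact Even.zero)
      set C : Finset V := univ.filter fun a => a ≠ r ∧ par a = b with hC
      have hLL : L (insert b S') = L S' ∪ C := by
        ext a
        simp only [L, hC, Finset.mem_insert, Finset.mem_filter, Finset.mem_univ, true_and,
          Finset.mem_union]
        tauto
      have hdisj : Disjoint (L S') C := by
        rw [Finset.disjoint_left]
        intro a ha hac
        simp only [L, hC, Finset.mem_insert, Finset.mem_filter, Finset.mem_univ, true_and] at ha hac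
        rcases ha with h | h
        · exact hac.1 h
        · exact hb (hac.2 ▸ h.2)
      have hCe : ∀ a ∈ C, Even (d a) := by
        intro a ha
        simp only [hC, Finset.mem_filter, Finset.mem_univ, true_and] at ha
        rw [hd a ha.1, ha.2]
        exact (Nat.not_even_iff_odd.1 hbodd).add_one
      have hCr : ∀ a ∈ C, a ≠ r := fun a ha => by
        simp only [hC, Finset.mem_filter, Finset.mem_univ, true_and] at ha
        exact ha.1
      have hCp : ∀ a ∈ C, par a = b := fun a ha => by
        simp only [hC, Finset.mem_filter, Finset.mem_univ, true_and] at ha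
        exact ha.2
      have hjC : ∀ a ∈ C, 1 ≤ j a ∧ j a < M := fun a ha => hj a (hCr a ha) (hCe a ha)
      have hjiC : ∀ a ∈ C, ∀ a' ∈ C, j a = j a' → a = a' := fun a ha a' ha' h =>
        hji a a' (hCr a ha) (hCr a' ha') (hCe a ha) (hCe a' ha')
          ((hCp a ha).trans (hCp a' ha').symm) h
      set z := F (par b) with hz
      have hs1 := potW_sum v₁ hv₁ F (L S') C hdisj z j hjC hjiC
      have hs2 := potW_sum v₂ hv₂ F (L S') C hdisj z j hjC hjiC
      have hne : (univ.erase (0 : ZMod M)).Nonempty :=
        ⟨1, Finset.mem_erase.2 ⟨one_ne_zero, Finset.mem_univ _⟩⟩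
      have hcard : ((univ.erase (0 : ZMod M)).card : ℝ) = (M : ℝ) - 1 := by
        rw [Finset.card_erase_of_mem (Finset.mem_univ _), Finset.card_univ, ZMod.card,
          Nat.cast_sub (by omega)]
        simp
      obtain ⟨δ₀, hδ₀, hle⟩ := Finset.exists_le_of_sum_le (s := univ.erase (0 : ZMod M))
        (f := fun δ₀ => potW v₁ (fun a => if a ∈ C then z + (j a : ZMod M) * δ₀ else F a)
            (L S' ∪ C) / potG M v₁ (L S' ∪ C) +
          potW v₂ (fun a => if a ∈ C then z + (j a : ZMod M) * δ₀ else F a)
            (L S' ∪ C) / potG M v₂ (L S' ∪ C))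
        (g := fun _ => (2 * M : ℝ)) hne (by
          rw [Finset.sum_add_distrib, Finset.sum_const, nsmul_eq_mul, hcard]
          nlinarith)
      have hδ₀' : δ₀ ≠ 0 := Finset.ne_of_mem_erase hδ₀
      refine ⟨fun a => if a ∈ C then z + (j a : ZMod M) * δ₀ else F a,
        Function.update δ b δ₀, ?_, ?_, ?_⟩
      · intro x
        by_cases hx : x = b
        · subst hx
          rwa [Function.update_self]
        · rw [Function.update_of_ne hx]
          exact hδ x
      · intro a har hpa
        rw [Finset.mem_insert] at hpa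
        by_cases hpb : par a = b
        · have haC : a ∈ C := by
            simp only [hC, Finset.mem_filter, Finset.mem_univ, true_and]
            exact ⟨har, hpb⟩
          have hpC : par b ∉ C := by
            intro h
            have h1 := hCp _ h
            have h2 := hd _ (hCr _ h)
            have h3 := hd b hbr
            rw [h1] at h2
            omega
          simp only [hpb, if_pos haC, if_neg hpC, Function.update_self, hz]
        · have hpS : par a ∈ S' := hpa.resolve_left hpb
          have haC : a ∉ C := fun h => hpb (hCp a h)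
          have hpar : par a ≠ r := by
            intro h
            have := hodd _ (Finset.mem_insert_of_mem hpS)
            rw [h, h0] at this
            exact this Even.zero
          have hppC : par (par a) ∉ C := by
            intro h
            have h1 := hCp _ h
            have h2 := hd _ (hCr _ h)
            have h3 := hd (par a) hpar
            have h4 := hmax _ hpS
            rw [h1] at h2
            omega
          simp only [if_neg haC, if_neg hppC, Function.update_of_ne hpb]
          exact hrec a har hpS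
      · rw [hLL]
        exact hle
  obtain ⟨F, δ, hδ, hrec, hpot⟩ := claim (univ.filter fun b => ¬ Even (d b)) (by simp)
  have hLu : L (univ.filter fun b => ¬ Even (d b)) = univ.filter (fun a => Even (d a)) := by
    ext a
    simp only [L, Finset.mem_insert, Finset.mem_filter, Finset.mem_univ, true_and]
    constructor
    · rintro (h | ⟨h1, h2⟩)
      · rw [h, h0]
        exact Even.zero
      · rw [hd a h1]
        exact (Nat.not_even_iff_odd.1 h2).add_one
    · intro h
      by_cases har : a = r
      · exact Or.inl har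
      · refine Or.inr ⟨har, ?_⟩
        rw [hd a har] at h
        intro h2
        exact (Nat.not_even_iff_odd.2 h2.add_one) h
  rw [hLu] at hpot
  have fin : ∀ v : V → ℝ, potW v F (univ.filter (fun a => Even (d a))) /
      potG M v (univ.filter (fun a => Even (d a))) ≤ 2 * M →
      ∀ ρ, ∑ a ∈ univ.filter (fun a => Even (d a) ∧ F a = ρ), v a ≤ Real.log (2 * M) +
        (∑ a ∈ univ.filter (fun a => Even (d a)), (Real.exp (v a) - 1)) / (M - 1) := by
    intro v h ρ
    have hG : 0 < potG M v (univ.filter (fun a => Even (d a))) := Real.exp_pos _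
    rw [div_le_iff₀ hG] at h
    have h1 : Real.exp (∑ a ∈ univ.filter (fun a => Even (d a) ∧ F a = ρ), v a) ≤
        potW v F (univ.filter (fun a => Even (d a))) := by
      unfold potW
      rw [← Finset.filter_filter]
      exact Finset.single_le_sum (f := fun ρ : ZMod M => Real.exp (∑ a ∈
        (univ.filter (fun a => Even (d a))).filter (fun a => F a = ρ), v a))
        (fun _ _ => (Real.exp_pos _).le) (Finset.mem_univ ρ)
    have h2 := h1.trans h
    have h3 := Real.log_le_log (Real.exp_pos _) h2
    rw [Real.log_exp, Real.log_mul (by positivity) hG.ne'] at h3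
    unfold potG at h3
    rwa [Real.log_exp] at h3
  have hp1 : 0 ≤ potW v₁ F (univ.filter (fun a => Even (d a))) /
      potG M v₁ (univ.filter (fun a => Even (d a))) :=
    div_nonneg (potW_nonneg _ _ _) (Real.exp_pos _).le
  have hp2 : 0 ≤ potW v₂ F (univ.filter (fun a => Even (d a))) /
      potG M v₂ (univ.filter (fun a => Even (d a))) :=
    div_nonneg (potW_nonneg _ _ _) (Real.exp_pos _).le
  refine ⟨F, δ, fun b _ => hδ b, ?_, fin v₁ (by linarith), fin v₂ (by linarith)⟩
  intro a har hev
  refine hrec a har ?_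
  simp only [Finset.mem_filter, Finset.mem_univ, true_and]
  rw [hd a har] at hev
  intro h2
  exact (Nat.not_even_iff_odd.2 h2.add_one) hev

end Pool.Agent.Helper83.GH
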