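import Pool.Agent.Helper83.GH.Defs
import Pool.Agent.Helper83.GH.Fill
import Pool.Agent.Helper83.GH.Pack
import Pool.Agent.Helper83.GH.Pot
import Pool.Agent.Helper80.GH.Pow2Main

/-!
# GHA-EK: existence of the structure of one type
-/

namespace Pool.Agent.Helper83.GH

open Finset Pool.Agent.Helper19.GH

/-- Two packings together. -/
theorem pack2_68 {V Θ : Type} [DecidableEq V] [Fintype Θ] [DecidableEq Θ] (K₁ K₂ : Finset V)
    (hdis : Disjoint K₁ K₂) (τ : V → Θ) (σ : V → ℕ) (M Δ : ℕ)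
    (hσ : ∀ b ∈ K₁ ∪ K₂, 1 ≤ σ b ∧ σ b ≤ Δ) (hΔ : Δ ≤ M) :
    ∃ (G Gx : ℕ) (γ s : V → ℕ), Gx ≤ G ∧ (∀ b ∈ K₁ ∪ K₂, γ b < G) ∧ (∀ b ∈ K₁, γ b < Gx) ∧
      (∀ b ∈ K₁ ∪ K₂, s b + σ b ≤ M) ∧
      (∀ b ∈ K₁ ∪ K₂, ∀ b' ∈ K₁ ∪ K₂, γ b = γ b' → τ b = τ b') ∧
      (∀ b ∈ K₁ ∪ K₂, ∀ b' ∈ K₁ ∪ K₂, γ b = γ b' → b ≠ b' →
        s b + σ b ≤ s b' ∨ s b' + σ b' ≤ s b) ∧
      Gx * (M - Δ) ≤ ∑ b ∈ K₁, σ b + Fintype.card Θ * (M - Δ) ∧
      G * (M - Δ) ≤ ∑ b ∈ K₁ ∪ K₂, σ b + 2 * (Fintype.card Θ * (M - Δ)) := by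
  obtain ⟨G₁, γ₁, s₁, h1, h2, h3, h4, h5⟩ :=
    pack K₁ τ σ M Δ (fun b hb => hσ b (mem_union_left _ hb)) hΔ
  obtain ⟨G₂, γ₂, s₂, k1, k2, k3, k4, k5⟩ :=
    pack K₂ τ σ M Δ (fun b hb => hσ b (mem_union_right _ hb)) hΔ
  let γ : V → ℕ := fun b => if b ∈ K₁ then γ₁ b else G₁ + γ₂ b
  let s : V → ℕ := fun b => if b ∈ K₁ then s₁ b else s₂ b
  have e1 : ∀ b ∈ K₁, γ b = γ₁ b ∧ s b = s₁ b := fun b hb => ⟨if_pos hb, if_pos hb⟩
  have e2 : ∀ b ∈ K₂, γ b = G₁ + γ₂ b ∧ s b = s₂ b := fun b hb => by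
    have : b ∉ K₁ := fun h => disjoint_left.1 hdis h hb
    exact ⟨if_neg this, if_neg this⟩
  refine ⟨G₁ + G₂, G₁, γ, s, by omega, ?_, ?_, ?_, ?_, ?_, h5, ?_⟩
  · intro b hb
    rcases mem_union.1 hb with h | h
    · have := h1 b h
      rw [(e1 b h).1]
      omega
    · have := k1 b h
      rw [(e2 b h).1]
      omega
  · intro b hb
    rw [(e1 b hb).1]
    exact h1 b hb
  · intro b hb
    rcases mem_union.1 hb with h | h
    · rw [(e1 b h).2]
      exact h2 b h
    · rw [(e2 b h).2]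
      exact k2 b h
  · intro b hb b' hb' hbb
    rcases mem_union.1 hb with h | h <;> rcases mem_union.1 hb' with h' | h'
    · rw [(e1 b h).1, (e1 b' h').1] at hbb
      exact h3 b h b' h' hbb
    · rw [(e1 b h).1, (e2 b' h').1] at hbb
      have := h1 b h
      omega
    · rw [(e2 b h).1, (e1 b' h').1] at hbb
      have := h1 b' h'
      omega
    · rw [(e2 b h).1, (e2 b' h').1] at hbb
      exact k3 b h b' h' (by omega)
  · intro b hb b' hb' hbb hne
    rcases mem_union.1 hb with h | h <;> rcases mem_union.1 hb' with h' | h'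
    · rw [(e1 b h).1, (e1 b' h').1] at hbb
      rw [(e1 b h).2, (e1 b' h').2]
      exact h4 b h b' h' hbb hne
    · rw [(e1 b h).1, (e2 b' h').1] at hbb
      have := h1 b h
      omega
    · rw [(e2 b h).1, (e1 b' h').1] at hbb
      have := h1 b' h'
      omega
    · rw [(e2 b h).1, (e2 b' h').1] at hbb
      rw [(e2 b h).2, (e2 b' h').2]
      exact k4 b h b' h' (by omega) hne
  · rw [sum_union hdis, add_mul]
    omega

/-- Positions in a group. -/
theorem pos68 {V : Type} {M : ℕ} [Fact M.Prime] (K : Finset V) (N : V → Finset V)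
    (γ s σ : V → ℕ) (c δ F : V → ZMod M) (q : V → V → ℕ)
    (hδ : ∀ b ∈ K, δ b ≠ 0) (hF : ∀ b ∈ K, ∀ a ∈ N b, F a = c b + (q b a : ZMod M) * δ b)
    (hq : ∀ b ∈ K, ∀ a ∈ N b, q b a < σ b)
    (hqi : ∀ b ∈ K, ∀ a ∈ N b, ∀ a' ∈ N b, q b a = q b a' → a = a')
    (hσ : ∀ b ∈ K, 1 ≤ σ b)
    (hs : ∀ b ∈ K, s b + σ b ≤ M)
    (hτ : ∀ b ∈ K, ∀ b' ∈ K, γ b = γ b' → (c b, δ b) = (c b', δ b'))
    (hd : ∀ b ∈ K, ∀ b' ∈ K, γ b = γ b' → b ≠ b' → s b + σ b ≤ s b' ∨ s b' + σ b' ≤ s b) :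
    (∀ b ∈ K, ∀ b' ∈ K, ∀ a ∈ N b, ∀ a' ∈ N b', γ b = γ b' →
      F a - (c b - δ b * (s b : ZMod M)) = F a' - (c b' - δ b' * (s b' : ZMod M)) →
        b = b' ∧ a = a') ∧
    (∀ b ∈ K, ∀ b' ∈ K, γ b = γ b' →
      c b - δ b * (s b : ZMod M) = c b' - δ b' * (s b' : ZMod M) → b = b') := by
  have hcast : ∀ x y : ℕ, x < M → y < M → (x : ZMod M) = (y : ZMod M) → x = y := by
    intro x y hx hy hxy
    have h1 := congrArg ZMod.val hxy
    rwa [ZMod.val_cast_of_lt hx, ZMod.val_cast_of_lt hy] at h1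
  constructor
  · intro b hb b' hb' a ha a' ha' hγ hpos
    have h1 := hτ b hb b' hb' hγ
    rw [Prod.mk.injEq] at h1
    have h2 := hq b hb a ha
    have h3 := hq b' hb' a' ha'
    have h4 := hs b hb
    have h5 := hs b' hb'
    rw [hF b hb a ha, hF b' hb' a' ha', ← h1.1, ← h1.2] at hpos
    have h6 : δ b * (((s b + q b a : ℕ) : ZMod M) - ((s b' + q b' a' : ℕ) : ZMod M)) = 0 := by
      push_cast
      linear_combination hpos
    rcases mul_eq_zero.1 h6 with h7 | h7
    · exact absurd h7 (hδ b hb)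
    · have h8 := hcast _ _ (by omega) (by omega) (sub_eq_zero.1 h7)
      have h9 : b = b' := by
        by_contra hne
        rcases hd b hb b' hb' hγ hne with h | h <;> omega
      subst h9
      exact ⟨rfl, hqi b hb a ha a' ha' (by omega)⟩
  · intro b hb b' hb' hγ hoo
    have h1 := hτ b hb b' hb' hγ
    rw [Prod.mk.injEq] at h1
    have h4 := hs b hb
    have h5 := hs b' hb'
    have h6' := hσ b hb
    have h7' := hσ b' hb'
    rw [← h1.1, ← h1.2] at hoo
    have h6 : δ b * ((s b : ZMod M) - (s b' : ZMod M)) = 0 := by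
      linear_combination -hoo
    rcases mul_eq_zero.1 h6 with h7 | h7
    · exact absurd h7 (hδ b hb)
    · have h8 := hcast _ _ (by omega) (by omega) (sub_eq_zero.1 h7)
      by_contra hne
      rcases hd b hb b' hb' hγ hne with h | h <;> omega

/-- The leaves used to fill the groups. -/
theorem used68 {V : Type} [DecidableEq V] {M : ℕ} [NeZero M] (K : Finset V) (N N' : V → Finset V)
    (G : ℕ) (γ : V → ℕ) (o F : V → ZMod M) (Λ : Finset V) (π : V → ZMod M) (β : ℕ)
    (hγ : ∀ b ∈ K, γ b < G)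
    (hinj : ∀ b ∈ K, ∀ b' ∈ K, ∀ a ∈ N b, ∀ a' ∈ N b', γ b = γ b' →
      F a - o b = F a' - o b' → b = b' ∧ a = a')
    (hsub : ∀ b ∈ K, N' b ⊆ N b) (h2 : ∀ b ∈ K, 2 ≤ (N b).card) (h1 : ∀ b ∈ K, 1 ≤ (N' b).card)
    (hβ : ∀ ρ, (Λ.filter fun u => π u = ρ).card ≤ β)
    (hneed : 4 * M ^ 2 + 3 * M * β + 4 * (G * M - ∑ b ∈ K, (N' b).card) < 4 * Λ.card) :
    ∃ (Used : Finset V) (i : V → ℕ) (x : V → ZMod M), Used ⊆ Λ ∧ (∀ v ∈ Used, i v < G) ∧
      (∀ v ∈ Used, ∀ b ∈ K, ∀ a ∈ N' b, γ b = i v → F a - o b ≠ x v) ∧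
      (∀ v ∈ Used, ∀ b ∈ K, γ b = i v → o b ≠ π v - x v) ∧
      (∀ v ∈ Used, ∀ v' ∈ Used, i v = i v' → x v = x v' → v = v') ∧
      (∀ v ∈ Used, ∀ v' ∈ Used, i v = i v' → π v - x v = π v' - x v' → v = v') ∧
      (∀ g < G, ∀ p : ZMod M, (∃ b ∈ K, ∃ a ∈ N' b, γ b = g ∧ F a - o b = p) ∨
        ∃ v ∈ Used, i v = g ∧ x v = p) ∧
      Used.card + ∑ b ∈ K, (N' b).card = G * M ∧
      ∀ g, ∑ b ∈ K.filter (fun b => γ b = g), (N b).card ≤ M := by
  classical
  let Ki : ℕ → Finset V := fun g => K.filter fun b => γ b = g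
  let Cov : ℕ → Finset (ZMod M) := fun g => (Ki g).biUnion fun b => (N' b).image fun a => F a - o b
  have hmemK : ∀ g b, b ∈ Ki g ↔ b ∈ K ∧ γ b = g := fun g b => mem_filter
  have hmemC : ∀ g p, p ∈ Cov g ↔ ∃ b ∈ K, ∃ a ∈ N' b, γ b = g ∧ F a - o b = p := by
    intro g p
    simp only [Cov, mem_biUnion, mem_image, hmemK]
    constructor
    · rintro ⟨b, ⟨hb, hg⟩, a, ha, hp⟩
      exact ⟨b, hb, a, ha, hg, hp⟩
    · rintro ⟨b, hb, a, ha, hg, hp⟩
      exact ⟨b, ⟨hb, hg⟩, a, ha, hp⟩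
  have hcardgen : ∀ (P : V → Finset V), (∀ b ∈ K, P b ⊆ N b) → ∀ g,
      ((Ki g).biUnion fun b => (P b).image fun a => F a - o b).card = ∑ b ∈ Ki g, (P b).card := by
    intro P hP g
    rw [card_biUnion]
    · apply sum_congr rfl
      intro b hb
      rw [card_image_of_injOn]
      intro a ha a' ha' haa
      have hbK := ((hmemK g b).1 hb).1
      exact (hinj b hbK b hbK a (hP b hbK ha) a' (hP b hbK ha') rfl haa).2
    · intro b hb b' hb' hbb
      rw [Function.onFun, disjoint_left]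
      intro p hp hp'
      obtain ⟨a, ha, hap⟩ := mem_image.1 hp
      obtain ⟨a', ha', hap'⟩ := mem_image.1 hp'
      have hbK := (hmemK g b).1 (mem_coe.1 hb)
      have hbK' := (hmemK g b').1 (mem_coe.1 hb')
      exact hbb (hinj b hbK.1 b' hbK'.1 a (hP b hbK.1 ha) a' (hP b' hbK'.1 ha')
        (hbK.2.trans hbK'.2.symm) (hap.trans hap'.symm)).1
  have hcov : ∀ g, (Cov g).card = ∑ b ∈ Ki g, (N' b).card := hcardgen N' hsub
  have hfull : ∀ g, ∑ b ∈ Ki g, (N b).card ≤ M := by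
    intro g
    rw [← hcardgen N (fun _ _ => Subset.rfl) g]
    refine (card_le_univ _).trans ?_
    rw [ZMod.card]
  have hKi1 : ∀ g, (Ki g).card ≤ ∑ b ∈ Ki g, (N' b).card := by
    intro g
    rw [card_eq_sum_ones]
    exact sum_le_sum fun b hb => h1 b ((hmemK g b).1 hb).1
  have hKi2 : ∀ g, 2 * (Ki g).card ≤ M := by
    intro g
    refine le_trans ?_ (hfull g)
    rw [card_eq_sum_ones, mul_sum]
    exact sum_le_sum fun b hb => by simpa using h2 b ((hmemK g b).1 hb).1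
  have hcovM : ∀ g, (Cov g).card ≤ M := by
    intro g
    refine (card_le_univ _).trans ?_
    rw [ZMod.card]
  let X : ℕ → Finset (ZMod M) := fun g => univ \ Cov g
  let O : ℕ → Finset (ZMod M) := fun g => (Ki g).image o
  have hX : ∀ g, (X g).card + (Cov g).card = M := by
    intro g
    have := card_sdiff_add_card_eq_card (subset_univ (Cov g))
    rw [card_univ, ZMod.card] at this
    exact this
  have hO : ∀ g, (O g).card ≤ (Ki g).card := fun g => card_image_le
  have hsumX : ∑ g : Fin G, (X g).card + ∑ b ∈ K, (N' b).card = G * M := by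
    have e1 : ∑ g : Fin G, (Cov g).card = ∑ b ∈ K, (N' b).card := by
      rw [Finset.sum_congr rfl (fun (g : Fin G) _ => hcov g)]
      rw [← Finset.sum_range (fun g => ∑ b ∈ Ki g, (N' b).card)]
      exact sum_fiberwise_of_maps_to (fun b hb => mem_range.2 (hγ b hb)) _
    rw [← e1, ← sum_add_distrib, Finset.sum_congr rfl (fun (g : Fin G) _ => hX g)]
    simp
  obtain ⟨u, hu1, hu2, hu3, hu4⟩ := fill (ι := Fin G) (fun g => X g) (fun g => O g)
    (fun g => by
      have a1 := hX g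
      have a2 := hO g
      have a3 := hKi1 g
      have a4 := hcov g
      omega)
    (fun g => by
      have a2 := hO g
      have a3 := hKi2 g
      omega) Λ π β hβ (by
      have : ∑ g : Fin G, (X g).card = G * M - ∑ b ∈ K, (N' b).card := by omega
      rw [this]
      exact hneed)
  let Used : Finset V := univ.biUnion fun g : Fin G => (X g).image (u g)
  have hUsed : ∀ v, v ∈ Used ↔ ∃ g : Fin G, ∃ x ∈ X g, u g x = v := by
    intro v
    simp only [Used, mem_biUnion, mem_univ, true_and, mem_image]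
  have hch : ∀ v, ∃ gx : ℕ × ZMod M, v ∈ Used → ∃ h : gx.1 < G, gx.2 ∈ X gx.1 ∧
      u ⟨gx.1, h⟩ gx.2 = v := by
    intro v
    by_cases hv : v ∈ Used
    · obtain ⟨g, x, hx, hgx⟩ := (hUsed v).1 hv
      exact ⟨(g, x), fun _ => ⟨g.2, hx, hgx⟩⟩
    · exact ⟨(0, 0), fun h => absurd h hv⟩
  choose gx hgx using hch
  refine ⟨Used, fun v => (gx v).1, fun v => (gx v).2, ?_, ?_, ?_, ?_, ?_, ?_, ?_, ?_, hfull⟩
  · intro v hv
    obtain ⟨h, hx, hu⟩ := hgx v hv
    rw [← hu]
    exact hu1 ⟨(gx v).1, h⟩ (gx v).2 hx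
  · intro v hv
    exact (hgx v hv).1
  · intro v hv b hb a ha hg hp
    obtain ⟨h, hx, hu⟩ := hgx v hv
    exact (mem_sdiff.1 hx).2 ((hmemC _ _).2 ⟨b, hb, a, ha, hg, hp⟩)
  · intro v hv b hb hg hp
    obtain ⟨h, hx, hu⟩ := hgx v hv
    have h3 := hu3 ⟨(gx v).1, h⟩ (gx v).2 hx
    rw [hu] at h3
    exact h3 (mem_image.2 ⟨b, (hmemK _ _).2 ⟨hb, hg⟩, hp⟩)
  · intro v hv v' hv' hg hx
    obtain ⟨h, _, hu⟩ := hgx v hv
    obtain ⟨h', _, hu'⟩ := hgx v' hv'
    have e : (⟨(gx v).1, h⟩ : Fin G) = ⟨(gx v').1, h'⟩ := Fin.ext hg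
    rw [← hu, ← hu', e]
    exact congrArg _ hx
  · intro v hv v' hv' hg hx
    obtain ⟨h, hm, hu⟩ := hgx v hv
    obtain ⟨h', hm', hu'⟩ := hgx v' hv'
    have e : (⟨(gx v).1, h⟩ : Fin G) = ⟨(gx v').1, h'⟩ := Fin.ext hg
    have hg' : (gx v).1 = (gx v').1 := hg
    rw [← e] at hu'
    rw [← hg'] at hm'
    have h5 := hu4 ⟨(gx v).1, h⟩ (gx v).2 hm (gx v').2 hm' (by rw [hu, hu']; exact hx)
    rw [← hu, ← hu', h5]
  · intro g hg p
    by_cases hp : p ∈ Cov g
    · left
      exact (hmemC g p).1 hp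
    · right
      have hpX : p ∈ X g := mem_sdiff.2 ⟨mem_univ _, hp⟩
      have hv : u ⟨g, hg⟩ p ∈ Used := (hUsed _).2 ⟨⟨g, hg⟩, p, hpX, rfl⟩
      obtain ⟨h, hm, hu⟩ := hgx _ hv
      have h5 := hu2 ⟨(gx (u ⟨g, hg⟩ p)).1, h⟩ ⟨g, hg⟩ (gx (u ⟨g, hg⟩ p)).2 hm p hpX hu
      refine ⟨u ⟨g, hg⟩ p, hv, ?_, h5.2⟩
      exact congrArg Fin.val h5.1
  · rw [← hsumX]
    congr 1
    rw [card_biUnion]
    · apply sum_congr rfl
      intro g _
      rw [card_image_of_injOn]
      intro x hx x' hx' hxx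
      exact (hu2 g g x hx x' hx' hxx).2
    · intro g _ g' _ hgg
      rw [Function.onFun, disjoint_left]
      intro v hv hv'
      obtain ⟨x, hx, hxv⟩ := mem_image.1 hv
      obtain ⟨x', hx', hxv'⟩ := mem_image.1 hv'
      exact hgg (hu2 g g' x hx x' hx' (hxv.trans hxv'.symm)).1

theorem exp_chord68 (μ Δ c : ℝ) (hΔ : 0 < Δ) (hc : 0 ≤ c) (hcΔ : c ≤ Δ) :
    Real.exp (μ * c) - 1 ≤ c / Δ * (Real.exp (μ * Δ) - 1) := by
  have h0 : 0 ≤ c / Δ := by positivity
  have h1 : 0 ≤ 1 - c / Δ := by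
    rw [sub_nonneg, div_le_one hΔ]
    exact hcΔ
  have h2 : c / Δ + (1 - c / Δ) = 1 := by ring
  have h := convexOn_exp.2 (Set.mem_univ (μ * Δ)) (Set.mem_univ (0 : ℝ)) h0 h1 h2
  simp only [smul_eq_mul, mul_zero, add_zero, Real.exp_zero, mul_one] at h
  have e : c / Δ * (μ * Δ) = μ * c := by field_simp
  rw [e] at h
  linarith

/-- Enumeration of the children. -/
theorem enum68 {V : Type} [DecidableEq V] (S : Finset V) :
    ∃ e : V → ℕ, (∀ x ∈ S, 1 ≤ e x ∧ e x ≤ S.card) ∧ ∀ x ∈ S, ∀ y ∈ S, e x = e y → x = y := by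
  classical
  refine ⟨fun x => if h : x ∈ S then (S.equivFin ⟨x, h⟩ : ℕ) + 1 else 0, ?_, ?_⟩
  · intro x hx
    simp only [dif_pos hx]
    have := (S.equivFin ⟨x, hx⟩).2
    omega
  · intro x hx y hy hxy
    simp only [dif_pos hx, dif_pos hy] at hxy
    have h1 : S.equivFin ⟨x, hx⟩ = S.equivFin ⟨y, hy⟩ := Fin.ext (by omega)
    exact congrArg Subtype.val (S.equivFin.injective h1)

theorem arith68 (G Gx M Δ n κ S D D' : ℕ) (hΔM : 2 * Δ ≤ M) (hM : 0 < M)
    (hκ : 2 * n * Δ ≤ κ * M) (hS : S ≤ n) (hD : D' ≤ D)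
    (h1 : Gx * (M - Δ) ≤ D' + M * M * (M - Δ))
    (h2 : G * (M - Δ) ≤ S + 2 * (M * M * (M - Δ))) :
    Gx * M ≤ 2 * D + 2 * M ^ 3 ∧ G * M ≤ S + 3 * M ^ 3 + κ := by
  obtain ⟨e, rfl⟩ : ∃ e, M = Δ + e := ⟨M - Δ, by omega⟩
  have he : Δ ≤ e := by omega
  rw [Nat.add_sub_cancel_left] at h1 h2
  have e1 : (Δ + e) * (Δ + e) * e ≤ (Δ + e) ^ 3 := by
    have : (Δ + e) ^ 3 = (Δ + e) * (Δ + e) * e + (Δ + e) * (Δ + e) * Δ := by ring
    omega
  constructor
  · have h3 : Gx * (Δ + e) ≤ 2 * (Gx * e) := by nlinarith [Nat.mul_le_mul_left Gx he]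
    omega
  · have h3 : G * (Δ + e) ≤ 2 * (G * e) := by nlinarith [Nat.mul_le_mul_left G he]
    have h4 : G * (Δ + e) ≤ 2 * n + 4 * ((Δ + e) * (Δ + e) * e) := by omega
    have h5 : G * Δ * (Δ + e) ≤ (κ + (Δ + e) ^ 3) * (Δ + e) := by
      have a1 : G * Δ * (Δ + e) ≤ Δ * (2 * n + 4 * ((Δ + e) * (Δ + e) * e)) := by
        have := Nat.mul_le_mul_left Δ h4
        nlinarith
      have a2 : 4 * (Δ * e) ≤ (Δ + e) * (Δ + e) := by nlinarith [sq_nonneg ((Δ : ℤ) - e)]
      have a3 : Δ * (4 * ((Δ + e) * (Δ + e) * e)) ≤ (Δ + e) ^ 3 * (Δ + e) := by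
        have := Nat.mul_le_mul_left ((Δ + e) * (Δ + e)) a2
        nlinarith
      nlinarith
    have h6 : G * Δ ≤ κ + (Δ + e) ^ 3 := Nat.le_of_mul_le_mul_right h5 hM
    have h7 : G * (Δ + e) = G * Δ + G * e := by ring
    omega

/-- The structure from the labels. -/
theorem build68 (V : Type) [Fintype V] [DecidableEq V] (T : SimpleGraph V) [DecidableRel T.Adj]
    (n : ℕ) (hn : Fintype.card V = n + 1) (B : Finset V)
    (M : ℕ) [Fact M.Prime] (Δ : ℕ)
    (hΔM : 2 * Δ ≤ M) (hdeg : ∀ b ∈ B, T.degree b ≤ Δ) (Y : Finset V)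
    (hY : ∀ y ∈ Y, y ∉ B ∧ T.degree y = 1)
    (hY2 : ∀ b ∈ B, 2 * (Y.filter fun y => T.Adj b y).card ≤ T.degree b)
    (Λ : Finset V) (hΛ : ∀ u ∈ Λ, u ∈ B ∧ T.degree u = 1) (β κ : ℕ)
    (hκ : 2 * n * Δ ≤ κ * M)
    (hneed : 4 * M ^ 2 + 3 * M * β + 4 * (3 * M ^ 3 + κ + Y.card) < 4 * Λ.card)
    (D : ℕ) (hD : ∑ b ∈ B.filter (fun b => ∃ y ∈ Y, T.Adj b y), T.degree b ≤ D)
    (par : V → V) (hparadj : ∀ b ∈ B, T.Adj b (par b))
    (hdegpos : ∀ x, 0 < T.degree x)
    (hYb2 : ∀ y ∈ Y, ∀ b, T.Adj b y → b ∈ B ∧ 2 ≤ T.degree b)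
    (hsumdeg : ∑ b ∈ B, T.degree b = n)
    (hleaf : ∀ v ∈ B, T.degree v = 1 → ∀ a, T.Adj v a → a = par v)
    (hleafY : ∀ v ∈ B, T.degree v = 1 → par v ∉ Y)
    (F δ : V → ZMod M) (q : V → V → ℕ) (hδ : ∀ b ∈ B, δ b ≠ 0)
    (hF : ∀ b ∈ B, ∀ a, T.Adj b a → F a = F (par b) + (q b a : ZMod M) * δ b)
    (hq : ∀ b ∈ B, ∀ a, T.Adj b a → q b a < T.degree b)
    (hqi : ∀ b ∈ B, ∀ a a', T.Adj b a → T.Adj b a' → q b a = q b a' → a = a')
    (hβ : ∀ ρ, (Λ.filter fun u => F (par u) = ρ).card ≤ β) :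
    ∃ (G Gx : ℕ) (g : V → ℕ) (o : V → ZMod M) (U : Finset V),
      IsK T B Y M G Gx F g o U ∧
      Gx * M ≤ 2 * D + 2 * M ^ 3 ∧ Λ.card ≤ U.card + 3 * M ^ 3 + κ + Y.card := by
  classical
  have hMp : M.Prime := Fact.out
  have hM0 : 0 < M := hMp.pos
  let K : Finset V := B.filter fun b => 2 ≤ T.degree b
  let K₁ : Finset V := K.filter fun b => ∃ y ∈ Y, T.Adj b y
  let K₂ : Finset V := K.filter fun b => ¬ ∃ y ∈ Y, T.Adj b y
  have hK12 : K₁ ∪ K₂ = K := filter_union_filter_not_eq _ _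
  have hdis : Disjoint K₁ K₂ := disjoint_filter_filter_not _ _ _
  have hKm : ∀ b, b ∈ K ↔ b ∈ B ∧ 2 ≤ T.degree b := fun b => mem_filter
  have hKB : ∀ b ∈ K, b ∈ B := fun b hb => ((hKm b).1 hb).1
  have hK2 : ∀ b ∈ K, 2 ≤ T.degree b := fun b hb => ((hKm b).1 hb).2
  obtain ⟨G, Gx, γ, s, p1, p2, p3, p4, p5, p6, p7, p8⟩ := pack2_68 K₁ K₂ hdis
    (fun b => (F (par b), δ b)) (fun b => T.degree b) M Δ (by
      intro b hb
      rw [hK12] at hb
      exact ⟨by have := hK2 b hb; omega, hdeg b (hKB b hb)⟩) (by omega)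
  rw [hK12] at p2 p4 p5 p6 p8
  have hcardΘ : Fintype.card (ZMod M × ZMod M) = M * M := by
    rw [Fintype.card_prod, ZMod.card]
  rw [hcardΘ] at p7 p8
  have hmemN : ∀ b a, a ∈ T.neighborFinset b ↔ T.Adj b a := fun b a =>
    SimpleGraph.mem_neighborFinset _ _ _
  have hcardN : ∀ b, (T.neighborFinset b).card = T.degree b := fun b =>
    SimpleGraph.card_neighborFinset_eq_degree _ _
  obtain ⟨hinjK, hoffK⟩ := pos68 K (fun b => T.neighborFinset b) γ s (fun b => T.degree b)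
    (fun b => F (par b)) δ F q (fun b hb => hδ b (hKB b hb))
    (fun b hb a ha => hF b (hKB b hb) a ((hmemN b a).1 ha))
    (fun b hb a ha => hq b (hKB b hb) a ((hmemN b a).1 ha))
    (fun b hb a ha a' ha' => hqi b (hKB b hb) a a' ((hmemN b a).1 ha) ((hmemN b a').1 ha'))
    (fun b hb => by have := hK2 b hb; omega) p4 p5 p6
  -- the edges at the flexible leaves
  have hN' : ∀ b, (T.neighborFinset b \ Y).card + (Y.filter fun y => T.Adj b y).card
      = T.degree b := by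
    intro b
    rw [← hcardN b, ← card_sdiff_add_card_inter (T.neighborFinset b) Y]
    congr 2
    ext a
    rw [mem_filter, mem_inter, hmemN]
    tauto
  have hYsum : ∑ b ∈ K, (Y.filter fun y => T.Adj b y).card = Y.card := by
    have h1 := sum_card_bipartiteAbove_eq_sum_card_bipartiteBelow (s := K) (t := Y)
      (fun b y => T.Adj b y)
    simp only [bipartiteAbove, bipartiteBelow] at h1
    rw [h1, card_eq_sum_ones]
    apply sum_congr rfl
    intro y hy
    rw [← (hY y hy).2, ← hcardN y]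
    congr 1
    ext b
    rw [mem_filter, hmemN]
    constructor
    · rintro ⟨_, h⟩
      exact h.symm
    · intro h
      exact ⟨(hKm b).2 (hYb2 y hy b h.symm), h.symm⟩
  have hN'sum : ∑ b ∈ K, (T.neighborFinset b \ Y).card + Y.card = ∑ b ∈ K, T.degree b := by
    rw [← hYsum, ← sum_add_distrib]
    exact sum_congr rfl fun b _ => hN' b
  -- the number of leaves
  have hBsplit : ∑ b ∈ K, T.degree b + (B.filter fun b => T.degree b = 1).card = n := by
    rw [← hsumdeg, ← sum_filter_add_sum_filter_not B (fun b => 2 ≤ T.degree b)]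
    congr 1
    rw [card_eq_sum_ones]
    have e : (B.filter fun b => ¬ 2 ≤ T.degree b) = B.filter fun b => T.degree b = 1 := by
      apply filter_congr
      intro b _
      have := hdegpos b
      omega
    rw [e]
    exact sum_congr rfl fun b hb => ((mem_filter.1 hb).2).symm
  have hS : ∑ b ∈ K, T.degree b ≤ n := by omega
  have hD' : ∑ b ∈ K₁, T.degree b ≤ D := by
    refine le_trans (sum_le_sum_of_subset ?_) hD
    intro b hb
    have h := mem_filter.1 hb
    exact mem_filter.2 ⟨hKB b h.1, h.2⟩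
  obtain ⟨hGx, hG⟩ := arith68 G Gx M Δ n κ (∑ b ∈ K, T.degree b) D (∑ b ∈ K₁, T.degree b)
    hΔM hM0 hκ hS hD' p7 p8
  obtain ⟨Used, i, x, hu1, hu2, hu3, hu4, hu5, hu6, hu7, hu8, hu9⟩ := used68 K
    (fun b => T.neighborFinset b) (fun b => T.neighborFinset b \ Y) G γ
    (fun b => F (par b) - δ b * (s b : ZMod M)) F Λ (fun u => F (par u)) β p2 hinjK
    (fun b _ => sdiff_subset) (fun b hb => by rw [hcardN]; exact hK2 b hb)
    (fun b hb => by
      have h1 := hN' b
      have h2 := hY2 b (hKB b hb)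
      have h3 := hK2 b hb
      omega) hβ (by omega)
  -- the assignment
  let o : V → ZMod M := fun b => F (par b) - δ b * (s b : ZMod M)
  let g : V → ℕ := fun v => if v ∈ K then γ v else i v
  let o' : V → ZMod M := fun v => if v ∈ K then o v else F (par v) - x v
  have hgK : ∀ v ∈ K, g v = γ v ∧ o' v = o v := fun v hv => ⟨if_pos hv, if_pos hv⟩
  have hUK : ∀ v ∈ Used, v ∉ K := by
    intro v hv hvK
    have h1 := (hΛ v (hu1 hv)).2
    have h2 := hK2 v hvK
    omega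
  have hgU : ∀ v ∈ Used, g v = i v ∧ o' v = F (par v) - x v := fun v hv =>
    ⟨if_neg (hUK v hv), if_neg (hUK v hv)⟩
  let U : Finset V := (B.filter fun b => T.degree b = 1) \ Used
  have hUm : ∀ v, v ∈ U ↔ (v ∈ B ∧ T.degree v = 1) ∧ v ∉ Used := by
    intro v
    simp only [U, mem_sdiff, mem_filter]
  have hcase : ∀ v ∈ B, v ∉ U → v ∈ K ∨ v ∈ Used := by
    intro v hv hvU
    by_cases h : T.degree v = 1
    · right
      by_contra hcon
      exact hvU ((hUm v).2 ⟨⟨hv, h⟩, hcon⟩)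
    · left
      have := hdegpos v
      exact (hKm v).2 ⟨hv, by omega⟩
  have hUsedL : ∀ v ∈ Used, v ∈ B ∧ T.degree v = 1 := fun v hv => hΛ v (hu1 hv)
  have hUcard : U.card + Used.card = (B.filter fun b => T.degree b = 1).card :=
    card_sdiff_add_card_eq_card fun v hv => mem_filter.2 (hUsedL v hv)
  refine ⟨G, Gx, g, o', U, ?_, hGx, ?_⟩
  · refine ⟨?_, hY, ?_, ?_, ?_, ?_, ?_, ?_, ?_, p1, ?_, ?_⟩
    · intro u hu
      exact ((hUm u).1 hu).1
    · intro y hy b hb h1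
      have := (hYb2 y hy b hb).2
      omega
    · intro v hv hvU
      rcases hcase v hv hvU with h | h
      · rw [(hgK v h).1]
        exact p2 v h
      · rw [(hgU v h).1]
        exact hu2 v h
    · intro v hv hvU v' hv' hvU' hgg hoo
      rcases hcase v hv hvU with h | h <;> rcases hcase v' hv' hvU' with h' | h'
      · rw [(hgK v h).1, (hgK v' h').1] at hgg
        rw [(hgK v h).2, (hgK v' h').2] at hoo
        exact hoffK v h v' h' hgg hoo
      · rw [(hgK v h).1, (hgU v' h').1] at hgg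
        rw [(hgK v h).2, (hgU v' h').2] at hoo
        exact absurd hoo (hu4 v' h' v h hgg)
      · rw [(hgU v h).1, (hgK v' h').1] at hgg
        rw [(hgU v h).2, (hgK v' h').2] at hoo
        exact absurd hoo.symm (hu4 v h v' h' hgg.symm)
      · rw [(hgU v h).1, (hgU v' h').1] at hgg
        rw [(hgU v h).2, (hgU v' h').2] at hoo
        exact hu6 v h v' h' hgg hoo
    · intro v hv hvU v' hv' hvU' a a' ha haY ha' haY' hgg hpp
      rcases hcase v hv hvU with h | h <;> rcases hcase v' hv' hvU' with h' | h'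
      · rw [(hgK v h).1, (hgK v' h').1] at hgg
        rw [(hgK v h).2, (hgK v' h').2] at hpp
        exact hinjK v h v' h' a ((hmemN v a).2 ha) a' ((hmemN v' a').2 ha') hgg hpp
      · rw [(hgK v h).1, (hgU v' h').1] at hgg
        rw [(hgK v h).2, (hgU v' h').2, hleaf v' hv' (hUsedL v' h').2 a' ha'] at hpp
        exfalso
        refine hu3 v' h' v h a (mem_sdiff.2 ⟨(hmemN v a).2 ha, haY⟩) hgg ?_
        rw [show F a - o v = _ from hpp]
        ring
      · rw [(hgU v h).1, (hgK v' h').1] at hgg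
        rw [(hgU v h).2, (hgK v' h').2, hleaf v hv (hUsedL v h).2 a ha] at hpp
        exfalso
        refine hu3 v h v' h' a' (mem_sdiff.2 ⟨(hmemN v' a').2 ha', haY'⟩) hgg.symm ?_
        rw [show F a' - o v' = _ from hpp.symm]
        ring
      · rw [(hgU v h).1, (hgU v' h').1] at hgg
        rw [(hgU v h).2, (hgU v' h').2] at hpp
        have e1 := hleaf v hv (hUsedL v h).2 a ha
        have e2 := hleaf v' hv' (hUsedL v' h').2 a' ha'
        rw [e1, e2] at hpp
        have h5 : v = v' := hu5 v h v' h' hgg (by linear_combination hpp)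
        subst h5
        exact ⟨rfl, e1.trans e2.symm⟩
    · intro γ₀ hγ₀ p
      rcases hu7 γ₀ hγ₀ p with ⟨b, hb, a, ha, hg1, hp1⟩ | ⟨v, hv, hg1, hp1⟩
      · have hm := mem_sdiff.1 ha
        refine ⟨b, hKB b hb, fun hbU => ?_, a, (hmemN b a).1 hm.1, hm.2, ?_, ?_⟩
        · have h1 := ((hUm b).1 hbU).1.2
          have h2 := hK2 b hb
          omega
        · rw [(hgK b hb).1]
          exact hg1
        · rw [(hgK b hb).2]
          exact hp1
      · have hL := hUsedL v hv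
        refine ⟨v, hL.1, fun hvU => ((hUm v).1 hvU).2 hv, par v, hparadj v hL.1,
          hleafY v hL.1 hL.2, ?_, ?_⟩
        · rw [(hgU v hv).1]
          exact hg1
        · rw [(hgU v hv).2, ← hp1]
          ring
    · intro y hy b hb v hv hvU a ha haY hgg hpp
      have hbK : b ∈ K := (hKm b).2 (hYb2 y hy b hb)
      rcases hcase v hv hvU with h | h
      · exfalso
        rw [(hgK v h).1, (hgK b hbK).1] at hgg
        rw [(hgK v h).2, (hgK b hbK).2] at hpp
        have h5 := hinjK v h b hbK a ((hmemN v a).2 ha) y ((hmemN b y).2 hb) hgg hpp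
        rw [h5.2] at haY
        exact haY hy
      · exact (hUsedL v h).2
    · intro y hy b hb
      have hbK : b ∈ K := (hKm b).2 (hYb2 y hy b hb)
      rw [(hgK b hbK).1]
      exact p3 b (mem_filter.2 ⟨hbK, y, hy, hb⟩)
    · intro γ₀
      have h1 : (Y.filter fun y => ∃ b, T.Adj b y ∧ g b = γ₀) ⊆
          (K.filter fun b => γ b = γ₀).biUnion fun b => Y.filter fun y => T.Adj b y := by
        intro y hy
        obtain ⟨hyY, b, hb, hgb⟩ := mem_filter.1 hy
        have hbK : b ∈ K := (hKm b).2 (hYb2 y hyY b hb)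
        rw [(hgK b hbK).1] at hgb
        exact mem_biUnion.2 ⟨b, mem_filter.2 ⟨hbK, hgb⟩, mem_filter.2 ⟨hyY, hb⟩⟩
      have h2 := (card_le_card h1).trans card_biUnion_le
      refine le_trans (Nat.mul_le_mul_left 2 h2) ?_
      rw [mul_sum]
      refine le_trans (sum_le_sum fun b hb => ?_) (hu9 γ₀)
      rw [hcardN]
      exact hY2 b (hKB b (mem_filter.1 hb).1)
    · have e1 := hu8
      omega
  · have h1 : Λ ⊆ U ∪ Used := by
      intro v hv
      rw [mem_union]
      by_cases h : v ∈ Used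
      · exact Or.inr h
      · exact Or.inl ((hUm v).2 ⟨hΛ v hv, h⟩)
    have h2 := (card_le_card h1).trans (card_union_le _ _)
    have e1 := hu8
    omega

theorem exists_K (V : Type) [Fintype V] [DecidableEq V] (T : SimpleGraph V) [DecidableRel T.Adj]
    (hT : T.IsTree) (n : ℕ) (hn : Fintype.card V = n + 1) (hn2 : 2 ≤ n) (B : Finset V)
    (hB : ∀ u w, T.Adj u w → (u ∈ B ↔ w ∉ B)) (M : ℕ) [Fact M.Prime] (w Δ : ℕ) (hΔ : 1 ≤ Δ)
    (hΔM : 2 * Δ ≤ M) (hdeg : ∀ b ∈ B, T.degree b ≤ Δ) (Y : Finset V)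
    (hY : ∀ y ∈ Y, y ∉ B ∧ T.degree y = 1)
    (hY2 : ∀ b ∈ B, 2 * (Y.filter fun y => T.Adj b y).card ≤ T.degree b)
    (Λ : Finset V) (hΛ : ∀ u ∈ Λ, u ∈ B ∧ T.degree u = 1)
    (hΛΔ : ∀ a, (Λ.filter fun u => T.Adj a u).card ≤ Δ) (β κ : ℕ) (lam μ : ℝ) (hlam : 0 < lam)
    (hμ : 0 < μ)
    (hN : Real.log (2 * M) + (Real.exp lam - 1) *
      ((univ.filter fun a : V => a ∉ B ∧ a ∉ Y).card : ℝ) / (M - 1) < lam * w)
    (hL : Real.log (2 * M) + (Real.exp (μ * Δ) - 1) * ((Λ.card : ℝ) / Δ) / (M - 1) ≤ μ * β)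
    (hκ : 2 * n * Δ ≤ κ * M)
    (hneed : 4 * M ^ 2 + 3 * M * β + 4 * (3 * M ^ 3 + κ + Y.card) < 4 * Λ.card)
    (D : ℕ) (hD : ∑ b ∈ B.filter (fun b => ∃ y ∈ Y, T.Adj b y), T.degree b ≤ D) :
    ∃ (G Gx : ℕ) (F : V → ZMod M) (g : V → ℕ) (o : V → ZMod M) (U : Finset V),
      IsK T B Y M G Gx F g o U ∧
      (∀ ρ, (univ.filter fun a : V => a ∉ B ∧ a ∉ Y ∧ F a = ρ).card < w) ∧
      Gx * M ≤ 2 * D + 2 * M ^ 3 ∧ Λ.card ≤ U.card + 3 * M ^ 3 + κ + Y.card := by
  classical
  have hMp : M.Prime := Fact.out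
  have hM2 : 2 ≤ M := hMp.two_le
  have hM1R : (0 : ℝ) < (M : ℝ) - 1 := by
    have : (2 : ℝ) ≤ M := by exact_mod_cast hM2
    linarith
  have hdegpos : ∀ x, 0 < T.degree x := fun x =>
    Pool.Agent.Helper80.GH.degree_pos T n hT hn (by omega) x
  -- flexible leaves are not at leaves
  have hYb2 : ∀ y ∈ Y, ∀ b, T.Adj b y → b ∈ B ∧ 2 ≤ T.degree b := by
    intro y hy b hby
    have hb : b ∈ B := (hB b y hby).2 (hY y hy).1
    have h1 : 0 < (Y.filter fun y => T.Adj b y).card :=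
      card_pos.2 ⟨y, mem_filter.2 ⟨hy, hby⟩⟩
    have := hY2 b hb
    exact ⟨hb, by omega⟩
  -- the root
  obtain ⟨r, hrB, hrY⟩ : ∃ r, r ∉ B ∧ r ∉ Y := by
    obtain ⟨b, hb⟩ : ∃ b, b ∈ B := by
      obtain ⟨x⟩ := hT.connected.nonempty
      have h1 := hdegpos x
      rw [← SimpleGraph.card_neighborFinset_eq_degree, card_pos] at h1
      obtain ⟨z, hz⟩ := h1
      rw [SimpleGraph.mem_neighborFinset] at hz
      by_cases hx : x ∈ B
      · exact ⟨x, hx⟩
      · refine ⟨z, ?_⟩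
        have := hB x z hz
        tauto
    have h1 := hdegpos b
    have h2 := hY2 b hb
    by_contra hcon
    push Not at hcon
    have h3 : T.neighborFinset b ⊆ Y.filter fun y => T.Adj b y := by
      intro a ha
      rw [SimpleGraph.mem_neighborFinset] at ha
      rw [mem_filter]
      have h4 : a ∉ B := (hB b a ha).1 hb
      exact ⟨hcon a h4, ha⟩
    have h4 := card_le_card h3
    rw [SimpleGraph.card_neighborFinset_eq_degree] at h4
    omega
  obtain ⟨par, hpar, hedge⟩ := exists_par T hT r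
  have hEv : ∀ y, y ∉ B ↔ Even (T.dist r y) := fun y =>
    Pool.Agent.Helper80.GH.even_dist_iff T hT B hB r hrB _ y rfl
  have hBr : ∀ b ∈ B, b ≠ r := by
    rintro b hb rfl
    exact hrB hb
  have hparadj : ∀ b ∈ B, T.Adj b (par b) := fun b hb => (hpar b (hBr b hb)).1
  have hparA : ∀ b ∈ B, par b ∉ B := fun b hb => (hB b _ (hparadj b hb)).1 hb
  have hparB : ∀ a, a ≠ r → a ∉ B → par a ∈ B := by
    intro a ha haB
    have := hB a (par a) (hpar a ha).1
    tauto
  have hnb : ∀ b ∈ B, T.neighborFinset b = insert (par b) (Pool.Agent.Helper80.GH.ch r par b) :=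
    fun b hb => Pool.Agent.Helper80.GH.neighborFinset_eq T r par (fun x hx => (hpar x hx).1)
      hedge b (hBr b hb)
  have hdegch : ∀ b ∈ B, T.degree b = (Pool.Agent.Helper80.GH.ch r par b).card + 1 := by
    intro b hb
    rw [← SimpleGraph.card_neighborFinset_eq_degree, hnb b hb,
      card_insert_of_notMem (Pool.Agent.Helper80.GH.par_notMem_ch
        (fun x hx => (hpar x hx).2) (hBr b hb))]
  -- the sum of the degrees
  have hsumdeg : ∑ b ∈ B, T.degree b = n := by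
    have hsumch : ∑ b ∈ B, (Pool.Agent.Helper80.GH.ch r par b).card = (Bᶜ).card - 1 := by
      rw [← card_erase_of_mem (mem_compl.2 hrB), ← card_biUnion]
      · congr 1
        ext x
        rw [mem_biUnion, mem_erase, mem_compl]
        constructor
        · rintro ⟨b, hb, hx⟩
          rw [Pool.Agent.Helper80.GH.mem_ch] at hx
          refine ⟨hx.1, fun hxB => ?_⟩
          have := hparA x hxB
          rw [hx.2] at this
          exact this hb
        · rintro ⟨h1, h2⟩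
          exact ⟨par x, hparB x h1 h2, Pool.Agent.Helper80.GH.mem_ch.2 ⟨h1, rfl⟩⟩
      · intro b _ b' _ hbb
        rw [Function.onFun, disjoint_left]
        intro x hx hx'
        rw [Pool.Agent.Helper80.GH.mem_ch] at hx hx'
        exact hbb (hx.2.symm.trans hx'.2)
    have h1 : 0 < (Bᶜ).card := card_pos.2 ⟨r, mem_compl.2 hrB⟩
    have h2 := card_add_card_compl B
    rw [sum_congr rfl hdegch, sum_add_distrib, hsumch, sum_const, smul_eq_mul, mul_one]
    omega
  have hleaf : ∀ v ∈ B, T.degree v = 1 → ∀ a, T.Adj v a → a = par v := by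
    intro v hv h1 a ha
    have h2 := hdegch v hv
    have h3 : Pool.Agent.Helper80.GH.ch r par v = ∅ := card_eq_zero.1 (by omega)
    have h4 := hnb v hv
    rw [h3] at h4
    have h5 : a ∈ T.neighborFinset v := by
      rw [SimpleGraph.mem_neighborFinset]
      exact ha
    rw [h4] at h5
    simpa using h5
  have hleafY : ∀ v ∈ B, T.degree v = 1 → par v ∉ Y := by
    intro v hv h1 hy
    have := (hYb2 _ hy v (hparadj v hv)).2
    omega
  -- the enumeration of the children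
  choose e he1 he2 using fun b => enum68 (Pool.Agent.Helper80.GH.ch r par b)
  have hmemch : ∀ x, x ≠ r → x ∈ Pool.Agent.Helper80.GH.ch r par (par x) := fun x hx =>
    Pool.Agent.Helper80.GH.mem_ch.2 ⟨hx, rfl⟩
  let j : V → ℕ := fun x => e (par x) x
  let v₁ : V → ℝ := fun a => if a ∈ Y then 0 else lam
  let v₂ : V → ℝ := fun a => μ * ((Λ.filter fun u => T.Adj a u).card : ℝ)
  obtain ⟨F, δ, hδ, hF, hb1, hb2⟩ := balance r par (fun x => T.dist r x) SimpleGraph.dist_self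
    (fun x hx => (hpar x hx).2) M j
    (by
      intro x hx hxe
      have h1 := he1 (par x) x (hmemch x hx)
      have h2 := hparB x hx ((hEv x).2 hxe)
      have h3 := hdegch _ h2
      have h4 := hdeg _ h2
      refine ⟨h1.1, ?_⟩
      change e (par x) x < M
      omega)
    (by
      intro x x' hx hx' _ _ hpp hjj
      have h1 := hmemch x hx
      have h2 := hmemch x' hx'
      change e (par x) x = e (par x') x' at hjj
      rw [← hpp] at hjj h2
      exact he2 (par x) x h1 x' h2 hjj)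
    v₁ v₂ (by
      intro x
      change 0 ≤ (if x ∈ Y then (0 : ℝ) else lam)
      split_ifs
      · exact le_rfl
      · exact hlam.le) (by
      intro x
      change 0 ≤ μ * ((Λ.filter fun u => T.Adj x u).card : ℝ)
      positivity)
  -- the data of `build68`
  have hparch : ∀ b ∈ B, par b ∉ Pool.Agent.Helper80.GH.ch r par b := fun b hb =>
    Pool.Agent.Helper80.GH.par_notMem_ch (fun x hx => (hpar x hx).2) (hBr b hb)
  let q : V → V → ℕ := fun b a => if a = par b then 0 else j a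
  have hcases : ∀ b ∈ B, ∀ a, T.Adj b a → (a = par b ∧ q b a = 0) ∨
      (a ∈ Pool.Agent.Helper80.GH.ch r par b ∧ a ≠ r ∧ par a = b ∧ q b a = e b a) := by
    intro b hb a ha
    have h1 : a ∈ T.neighborFinset b := (SimpleGraph.mem_neighborFinset _ _ _).2 ha
    rw [hnb b hb, mem_insert] at h1
    rcases h1 with h1 | h1
    · exact Or.inl ⟨h1, if_pos h1⟩
    · right
      have h2 := Pool.Agent.Helper80.GH.mem_ch.1 h1
      have h3 : a ≠ par b := by
        intro h
        rw [h] at h1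
        exact hparch b hb h1
      refine ⟨h1, h2.1, h2.2, ?_⟩
      have h4 : q b a = j a := if_neg h3
      rw [h4]
      change e (par a) a = e b a
      rw [h2.2]
  have hEvB : ∀ b ∈ B, ¬ Even (T.dist r b) := fun b hb h => (hEv b).2 h hb
  -- the leaves
  have hβ : ∀ ρ, (Λ.filter fun u => F (par u) = ρ).card ≤ β := by
    intro ρ
    have hΔR : (0 : ℝ) < Δ := by exact_mod_cast hΔ
    have h1 : ((Λ.filter fun u => F (par u) = ρ).card : ℝ) ≤
        ∑ a ∈ univ.filter (fun a => Even (T.dist r a) ∧ F a = ρ),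
          ((Λ.filter fun u => T.Adj a u).card : ℝ) := by
      have h2 : (Λ.filter fun u => F (par u) = ρ) ⊆
          (univ.filter (fun a => Even (T.dist r a) ∧ F a = ρ)).biUnion
            fun a => Λ.filter fun u => T.Adj a u := by
        intro u hu
        obtain ⟨hu1, hu2⟩ := mem_filter.1 hu
        have hB1 := (hΛ u hu1).1
        refine mem_biUnion.2 ⟨par u, mem_filter.2 ⟨mem_univ _, ?_, hu2⟩,
          mem_filter.2 ⟨hu1, (hparadj u hB1).symm⟩⟩
        exact (hEv (par u)).1 (hparA u hB1)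
      exact_mod_cast (card_le_card h2).trans card_biUnion_le
    have h3 : ∑ a ∈ univ.filter (fun a => Even (T.dist r a)),
        ((Λ.filter fun u => T.Adj a u).card : ℝ) ≤ Λ.card := by
      have h4 := sum_card_bipartiteAbove_eq_sum_card_bipartiteBelow
        (s := univ.filter (fun a => Even (T.dist r a))) (t := Λ) (fun a u => T.Adj a u)
      simp only [bipartiteAbove, bipartiteBelow] at h4
      have h5 : ∑ a ∈ univ.filter (fun a => Even (T.dist r a)),
          (Λ.filter fun u => T.Adj a u).card ≤ Λ.card := by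
        rw [h4, card_eq_sum_ones]
        apply sum_le_sum
        intro u hu
        rw [← (hΛ u hu).2, ← SimpleGraph.card_neighborFinset_eq_degree]
        apply card_le_card
        intro a ha
        exact (SimpleGraph.mem_neighborFinset _ _ _).2 ((mem_filter.1 ha).2).symm
      exact_mod_cast h5
    have h6 : ∑ a ∈ univ.filter (fun a => Even (T.dist r a)), (Real.exp (v₂ a) - 1) ≤
        (Real.exp (μ * Δ) - 1) * ((Λ.card : ℝ) / Δ) := by
      have hexp : 0 ≤ Real.exp (μ * Δ) - 1 := by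
        have := Real.one_le_exp (mul_nonneg hμ.le hΔR.le)
        linarith
      calc ∑ a ∈ univ.filter (fun a => Even (T.dist r a)), (Real.exp (v₂ a) - 1)
          ≤ ∑ a ∈ univ.filter (fun a => Even (T.dist r a)),
              ((Λ.filter fun u => T.Adj a u).card : ℝ) * ((Real.exp (μ * Δ) - 1) / Δ) := by
            apply sum_le_sum
            intro a _
            have h7 := exp_chord68 μ Δ ((Λ.filter fun u => T.Adj a u).card : ℝ) hΔR
              (by positivity) (by exact_mod_cast hΛΔ a)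
            refine h7.trans (le_of_eq ?_)
            ring
        _ = (∑ a ∈ univ.filter (fun a => Even (T.dist r a)),
              ((Λ.filter fun u => T.Adj a u).card : ℝ)) * ((Real.exp (μ * Δ) - 1) / Δ) := by
            rw [sum_mul]
        _ ≤ (Λ.card : ℝ) * ((Real.exp (μ * Δ) - 1) / Δ) :=
            mul_le_mul_of_nonneg_right h3 (div_nonneg hexp hΔR.le)
        _ = (Real.exp (μ * Δ) - 1) * ((Λ.card : ℝ) / Δ) := by ring
    have h8 := hb2 ρ
    change ∑ a ∈ univ.filter (fun a => Even (T.dist r a) ∧ F a = ρ),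
      μ * ((Λ.filter fun u => T.Adj a u).card : ℝ) ≤ _ at h8
    rw [← mul_sum] at h8
    have h9 : μ * ((Λ.filter fun u => F (par u) = ρ).card : ℝ) ≤ μ * β := by
      refine (mul_le_mul_of_nonneg_left h1 hμ.le).trans (h8.trans (le_trans ?_ hL))
      have h10 := div_le_div_of_nonneg_right h6 hM1R.le
      linarith
    have h11 := le_of_mul_le_mul_left h9 hμ
    exact_mod_cast h11
  obtain ⟨G, Gx, g, o, U, hK, hGx, hΛU⟩ := build68 V T n hn B M Δ hΔM hdeg Y hY hY2 Λ hΛ β κ hκ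
    hneed D hD par hparadj hdegpos hYb2 hsumdeg hleaf hleafY F δ q
    (fun b hb => hδ b (hEvB b hb))
    (by
      intro b hb a ha
      rcases hcases b hb a ha with h | h
      · rw [h.2, h.1]
        simp
      · have h1 : a ∉ B := (hB b a ha).1 hb
        have h2 := hF a h.2.1 ((hEv a).1 h1)
        rw [h2, h.2.2.1, h.2.2.2]
        change _ + ((e (par a) a : ℕ) : ZMod M) * δ b = _
        rw [h.2.2.1])
    (by
      intro b hb a ha
      rcases hcases b hb a ha with h | h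
      · rw [h.2]
        exact hdegpos b
      · rw [h.2.2.2, hdegch b hb]
        have := (he1 b a h.1).2
        omega)
    (by
      intro b hb a a' ha ha' hqq
      rcases hcases b hb a ha with h | h <;> rcases hcases b hb a' ha' with h' | h'
      · rw [h.1, h'.1]
      · rw [h.2, h'.2.2.2] at hqq
        have := (he1 b a' h'.1).1
        omega
      · rw [h'.2, h.2.2.2] at hqq
        have := (he1 b a h.1).1
        omega
      · rw [h.2.2.2, h'.2.2.2] at hqq
        exact he2 b a h.1 a' h'.1 hqq)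
    hβ
  refine ⟨G, Gx, F, g, o, U, hK, ?_, hGx, hΛU⟩
  intro ρ
  have h1 := hb1 ρ
  have h2 : ∑ a ∈ univ.filter (fun a => Even (T.dist r a) ∧ F a = ρ), v₁ a =
      lam * ((univ.filter fun a : V => a ∉ B ∧ a ∉ Y ∧ F a = ρ).card : ℝ) := by
    have h3 : ∀ a, v₁ a = if a ∈ Y then (0 : ℝ) else lam := fun a => rfl
    rw [sum_congr rfl (fun a _ => h3 a), sum_ite, sum_const_zero, zero_add, sum_const,
      nsmul_eq_mul, mul_comm, filter_filter]
    congr 3
    apply filter_congr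
    intro a _
    rw [hEv a]
    tauto
  have h4 : ∑ a ∈ univ.filter (fun a => Even (T.dist r a)), (Real.exp (v₁ a) - 1) =
      (Real.exp lam - 1) * ((univ.filter fun a : V => a ∉ B ∧ a ∉ Y).card : ℝ) := by
    have h3 : ∀ a, Real.exp (v₁ a) - 1 = if a ∈ Y then (0 : ℝ) else Real.exp lam - 1 := by
      intro a
      change Real.exp (if a ∈ Y then (0 : ℝ) else lam) - 1 = _
      split_ifs
      · simp
      · rfl
    rw [sum_congr rfl (fun a _ => h3 a), sum_ite, sum_const_zero, zero_add, sum_const,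
      nsmul_eq_mul, mul_comm, filter_filter]
    congr 3
    apply filter_congr
    intro a _
    rw [hEv a]
  rw [h2, h4] at h1
  have h5 := lt_of_le_of_lt h1 hN
  have h6 := lt_of_mul_lt_mul_left h5 hlam.le
  exact_mod_cast h6

end Pool.Agent.Helper83.GH
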