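import Pool.Agent.Helper83.GH.Couple0
import Pool.Agent.Helper83.GH.ExistsK
import Pool.Agent.Helper83.GH.Num

/-!
# Theorem B: trees with a small class
-/

namespace Pool.Agent.Helper83.GH

open Finset Pool.Agent.Helper19.GH

/-- One type of copies. -/
lemma type_exists0 (V : Type) [Fintype V] [DecidableEq V] (T : SimpleGraph V) [DecidableRel T.Adj]
    (hT : T.IsTree) (n : ℕ) (hn : Fintype.card V = n + 1) (hn2 : 2 ≤ n) (B : Finset V)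
    (hB : ∀ u w, T.Adj u w → (u ∈ B ↔ w ∉ B)) (ε : ℝ)
    (hA : (2 * (n + 1 - B.card : ℕ) : ℝ) ≤ (1 - ε) * n)
    (K Δ M w x M' x' : ℕ) (hp : NumType ε K n Δ M w x M' x')
    (hΔ : 1 ≤ Δ) (hdeg : ∀ b ∈ B, T.degree b ≤ Δ)
    (Λ : Finset V) (hΛ : ∀ u ∈ Λ, u ∈ B ∧ T.degree u = 1)
    (hΛΔ : ∀ a, (Λ.filter fun u => T.Adj a u).card ≤ Δ) (hΛc : ε * n ≤ Λ.card) :
    ∃ (G Gx : ℕ) (F : V → ZMod M) (g : V → ℕ) (o : V → ZMod M) (U : Finset V),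
      IsK T B ∅ M G Gx F g o U ∧
      (∀ ρ, (univ.filter fun a : V => a ∉ B ∧ F a = ρ).card ≤ w) := by
  have : Fact M.Prime := ⟨hp.hM⟩
  obtain ⟨lam, hlam, hN⟩ := hp.hN
  obtain ⟨μ, β, κ, hμ, hL, hκ, hneed, hfit⟩ := hp.hL Λ.card hΛc
  have hBc := card_le_univ B
  rw [hn] at hBc
  have hAc : (univ.filter fun a : V => a ∉ B ∧ a ∉ (∅ : Finset V)).card + B.card = n + 1 := by
    have h1 : (univ.filter fun a : V => a ∉ B ∧ a ∉ (∅ : Finset V)) = univ \ B := by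
      ext a
      simp
    rw [h1, card_sdiff_of_subset (subset_univ _), card_univ, hn]
    omega
  obtain ⟨G, Gx, F, g, o, U, h1, h2, h3, h4⟩ := exists_K V T hT n hn hn2 B hB M w Δ hΔ hp.h2 hdeg ∅
    (by simp) (by simp) Λ hΛ hΛΔ β κ lam μ hlam hμ (by
      have h5 := hN ((univ.filter fun a : V => a ∉ B ∧ a ∉ (∅ : Finset V)).card + x) (by
        have h7 : ((n + 1 - B.card : ℕ) : ℝ) =
            ((univ.filter fun a : V => a ∉ B ∧ a ∉ (∅ : Finset V)).card : ℝ) := by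
          have : n + 1 - B.card = (univ.filter fun a : V => a ∉ B ∧ a ∉ (∅ : Finset V)).card := by
            omega
          rw [this]
        rw [h7] at hA
        have h8 := hp.hx
        have h9 : (0 : ℝ) ≤ x := Nat.cast_nonneg x
        have h10 : ((2 * ((univ.filter fun a : V => a ∉ B ∧ a ∉ (∅ : Finset V)).card + x) : ℕ) :
            ℝ) ≤ ((n + 1 : ℕ) : ℝ) := by
          push_cast
          linarith
        exact_mod_cast h10)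
      have h6 : (((univ.filter fun a : V => a ∉ B ∧ a ∉ (∅ : Finset V)).card + x : ℕ) : ℝ) - x =
          ((univ.filter fun a : V => a ∉ B ∧ a ∉ (∅ : Finset V)).card : ℝ) := by
        push_cast
        ring
      rw [h6] at h5
      exact h5) hL hκ (by
      rw [card_empty]
      omega) 0 (by simp)
  refine ⟨G, Gx, F, g, o, U, h1, ?_⟩
  intro ρ
  have h5 := h2 ρ
  simp only [notMem_empty, not_false_eq_true, true_and] at h5
  exact h5.le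

theorem mainB (ε : ℝ) (hε : 0 < ε) : ∃ c : ℝ, 0 < c ∧
    ∀ (V : Type) [Fintype V] [DecidableEq V]
    (T : SimpleGraph V) [DecidableRel T.Adj] (n Δ : ℕ) (B Λ : Finset V), T.IsTree →
    Fintype.card V = n + 1 → (∀ u w, T.Adj u w → (u ∈ B ↔ w ∉ B)) →
    (2 * (n + 1 - B.card : ℕ) : ℝ) ≤ (1 - ε) * n →
    (∀ b ∈ B, T.degree b ≤ Δ) → 1 ≤ Δ → (Δ : ℝ) ^ 3 ≤ c * n →
    (∀ u ∈ Λ, u ∈ B ∧ T.degree u = 1) → (∀ a, (Λ.filter fun u => T.Adj a u).card ≤ Δ) →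
    ε * n ≤ Λ.card → Decomposes T (completeBipartiteGraph (Fin n) (Fin n)) := by
  have hε' : 0 < min ε 1 := lt_min hε one_pos
  obtain ⟨c, hc, hnum⟩ := num (min ε 1) hε' (min_le_right _ _) 0
  refine ⟨c, hc, ?_⟩
  intro V _ _ T _ n Δ B Λ hT hn hB hA hdeg hΔ hΔ3 hΛ hΛΔ hΛc
  obtain ⟨M₁, w₁, M₂, w₂, x₁, x₂, j₂, hp₁, hp₂, hm, hx₁, hx₂, hj₂, hbal, hc₁, hc₂, hm₁, hm₂, hn2,
    hw₁, hw₂⟩ := hnum n Δ hΔ hΔ3
  have hle : min ε 1 * n ≤ ε * n := mul_le_mul_of_nonneg_right (min_le_left _ _) (by positivity)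
  have hA' : (2 * (n + 1 - B.card : ℕ) : ℝ) ≤ (1 - min ε 1) * n := by linarith
  obtain ⟨G₁, X₁, F₁, g₁, o₁, U₁, a1, a2⟩ := type_exists0 V T hT n hn hn2 B hB (min ε 1) hA' 0 Δ
    M₁ w₁ x₁ M₂ x₂ hp₁ hΔ hdeg Λ hΛ hΛΔ (hle.trans hΛc)
  obtain ⟨G₂, X₂, F₂, g₂, o₂, U₂, b1, b2⟩ := type_exists0 V T hT n hn hn2 B hB (min ε 1) hA' 0 Δ
    M₂ w₂ x₂ M₁ x₁ hp₂ hΔ hdeg Λ hΛ hΛΔ (hle.trans hΛc)
  have hM₁ := hp₁.hM.pos
  have hM₂ := hp₂.hM.pos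
  have : NeZero (M₁ * w₁) := ⟨(Nat.mul_pos hM₁ hw₁).ne'⟩
  have : NeZero (M₂ * w₂) := ⟨(Nat.mul_pos hM₂ hw₂).ne'⟩
  exact couple0 V T hT n hn B hB M₁ w₁ M₂ w₂ hm a1 b1 a2 b2

end Pool.Agent.Helper83.GH
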