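import Pool.Agent.Helper83.GH.MainA1
import Pool.Agent.Helper83.GH.MainA2
import Pool.Agent.Helper83.GH.MainB

/-!
# Trees with many leaves
-/

namespace Pool.Agent.Helper83.GH

open Finset Pool.Agent.Helper19.GH

theorem mainG (ε : ℝ) (hε : 0 < ε) : ∃ c : ℝ, 0 < c ∧
    ∀ (V : Type) [Fintype V] [DecidableEq V]
    (T : SimpleGraph V) [DecidableRel T.Adj] (n Δ : ℕ) (B Λ : Finset V), T.IsTree →
    Fintype.card V = n + 1 → (∀ u w, T.Adj u w → (u ∈ B ↔ w ∉ B)) →
    (2 * (n + 1 - B.card : ℕ) : ℝ) ≤ (1 + c) * n →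
    (∀ b ∈ B, T.degree b ≤ Δ) → 1 ≤ Δ → (Δ : ℝ) ^ 3 ≤ c * n →
    (∀ u ∈ Λ, u ∈ B ∧ T.degree u = 1) → (∀ a, (Λ.filter fun u => T.Adj a u).card ≤ Δ) →
    ε * n ≤ Λ.card → Decomposes T (completeBipartiteGraph (Fin n) (Fin n)) := by
  obtain ⟨ε', hε', hle, -⟩ : ∃ ε' : ℝ, 0 < ε' ∧ ε' ≤ ε ∧ ε' ≤ 1 :=
    ⟨min ε 1, lt_min hε one_pos, min_le_left _ _, min_le_right _ _⟩
  obtain ⟨cB, hcB, hmB⟩ := mainB (ε' / 12) (by positivity)
  obtain ⟨cA, θA, hcA, hθA, hmA⟩ := mainA1 (ε' / 12) (by positivity)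
  obtain ⟨c2, θ2, hc2, hθ2, hm2⟩ := mainA2 (ε' / 2) (by positivity)
  obtain ⟨c, hc, h1, h2, h3, h4, h5, h6⟩ : ∃ c : ℝ, 0 < c ∧ c ≤ cB ∧ c ≤ cA ∧ c ≤ θA ∧ c ≤ c2 ∧
      c ≤ θ2 ∧ c ≤ 1 / 3 := by
    refine ⟨min (min (min cB cA) (min θA c2)) (min θ2 (1 / 3)), ?_, ?_, ?_, ?_, ?_, ?_, ?_⟩
    · exact lt_min (lt_min (lt_min hcB hcA) (lt_min hθA hc2)) (lt_min hθ2 (by norm_num))
    · exact (min_le_left _ _).trans ((min_le_left _ _).trans (min_le_left _ _))
    · exact (min_le_left _ _).trans ((min_le_left _ _).trans (min_le_right _ _))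
    · exact (min_le_left _ _).trans ((min_le_right _ _).trans (min_le_left _ _))
    · exact (min_le_left _ _).trans ((min_le_right _ _).trans (min_le_right _ _))
    · exact (min_le_right _ _).trans (min_le_left _ _)
    · exact (min_le_right _ _).trans (min_le_right _ _)
  refine ⟨c, hc, ?_⟩
  intro V _ _ T _ n Δ B Λ hT hn hB hA hdeg hΔ hΔ3 hΛ hΛΔ hΛc
  have hn0 : (0 : ℝ) ≤ n := Nat.cast_nonneg n
  have hn3 : 3 ≤ n := by
    have h7 : (1 : ℝ) ≤ (Δ : ℝ) ^ 3 := one_le_pow₀ (by exact_mod_cast hΔ)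
    have h8 : c * n ≤ 1 / 3 * n := mul_le_mul_of_nonneg_right h6 hn0
    have h9 : (3 : ℝ) ≤ n := by linarith
    exact_mod_cast h9
  have hBc := card_le_univ B
  rw [hn] at hBc
  have hmono : ∀ d : ℝ, c ≤ d → c * n ≤ d * n := fun d hd => mul_le_mul_of_nonneg_right hd hn0
  have hε'n : 0 ≤ ε' * n := by positivity
  have hleΛ : ε' * n ≤ Λ.card := (mul_le_mul_of_nonneg_right hle hn0).trans hΛc
  by_cases hcase1 : (2 * (n + 1 - B.card : ℕ) : ℝ) ≤ (1 - ε' / 12) * n
  · exact hmB V T n Δ B Λ hT hn hB hcase1 hdeg hΔ (hΔ3.trans (hmono _ h1)) hΛ hΛΔ (by linarith)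
  push Not at hcase1
  by_cases hcase2 : ε' / 12 * n ≤ (univ.filter fun a : V => a ∉ B ∧ T.degree a = 1).card
  · refine hmA V T n Δ B Λ hT hn hB ?_ hdeg hΔ (hΔ3.trans (hmono _ h2)) hΛ hΛΔ (by linarith) hcase2
    have := hmono _ h3
    linarith
  push Not at hcase2
  have hΛL : Λ.card ≤ (B.filter fun b => T.degree b = 1).card := by
    apply card_le_card
    intro u hu
    exact mem_filter.2 (hΛ u hu)
  have hns := near_sub V T hT n hn hn3 B hB
  have hAc : (univ.filter fun a : V => a ∉ B).card = n + 1 - B.card := by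
    have h7 : (univ.filter fun a : V => a ∉ B) = univ \ B := by
      ext a
      simp
    rw [h7, card_sdiff_of_subset (subset_univ _), card_univ, hn]
  rw [hAc] at hns
  have hns' : (Λ.card : ℝ) + 6 * ((n + 1 - B.card : ℕ) : ℝ) ≤
      ((univ.filter fun a => a ∉ B ∧ T.degree a = 2 ∧ ∃ u ∈ B, T.Adj a u ∧ T.degree u = 1).card :
        ℝ) + 3 * n + 3 * ((univ.filter fun a => a ∉ B ∧ T.degree a = 1).card : ℝ) := by
    exact_mod_cast (Nat.add_le_add_right hΛL _).trans hns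
  refine hm2 V T n Δ B hT hn hB ?_ hdeg hΔ (hΔ3.trans (hmono _ h4)) ?_
  · have := hmono _ h5
    linarith
  · linarith

/-- Trees with many leaves and small degrees. -/
theorem mainC (ε : ℝ) (hε : 0 < ε) : ∃ c : ℝ, 0 < c ∧
    ∀ (V : Type) [Fintype V] (T : SimpleGraph V) [DecidableRel T.Adj] (n : ℕ), T.IsTree →
    Fintype.card V = n + 1 → ε * n ≤ (univ.filter fun v => T.degree v = 1).card →
    (T.maxDegree : ℝ) ^ 3 ≤ c * n →
    Decomposes T (completeBipartiteGraph (Fin n) (Fin n)) := by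
  classical
  obtain ⟨c1, hc1, hm1⟩ := mainG (ε / 2) (by positivity)
  obtain ⟨c2, hc2, hm2⟩ := mainG c1 hc1
  obtain ⟨c, hc, h1, h2, h3⟩ : ∃ c : ℝ, 0 < c ∧ c ≤ c1 / 2 ∧ c ≤ c2 ∧ c ≤ 1 :=
    ⟨min (c1 / 2) (min c2 1), lt_min (by positivity) (lt_min hc2 one_pos), min_le_left _ _,
      (min_le_right _ _).trans (min_le_left _ _), (min_le_right _ _).trans (min_le_right _ _)⟩
  refine ⟨c, hc, ?_⟩
  intro V _ T _ n hT hn hL hΔ3
  rcases Nat.eq_zero_or_pos n with h0 | hn1
  · subst h0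
    exact ⟨0, fun i => i.elim0, fun i => i.elim0, fun i => i.elim0, fun x => by
      rcases x with x | x <;> exact x.elim0⟩
  have hn0 : (0 : ℝ) ≤ n := Nat.cast_nonneg n
  have hdegpos : ∀ v, 1 ≤ T.degree v := lc_pos T hT (by omega)
  have hdeg : ∀ v, T.degree v ≤ T.maxDegree := T.degree_le_maxDegree
  have hΔ : 1 ≤ T.maxDegree := by
    obtain ⟨v⟩ := hT.connected.nonempty
    exact (hdegpos v).trans (hdeg v)
  have hcn : 1 ≤ c * n := by
    have h7 : (1 : ℝ) ≤ (T.maxDegree : ℝ) ^ 3 := one_le_pow₀ (by exact_mod_cast hΔ)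
    linarith
  have hmono : ∀ d : ℝ, c ≤ d → c * n ≤ d * n := fun d hd => mul_le_mul_of_nonneg_right hd hn0
  -- one class with many leaves
  have key : ∀ B : Finset V, (∀ u w, T.Adj u w → (u ∈ B ↔ w ∉ B)) →
      ε / 2 * n ≤ (B.filter fun v => T.degree v = 1).card →
      Decomposes T (completeBipartiteGraph (Fin n) (Fin n)) := by
    intro B hB hBL
    have hBc := card_le_univ B
    rw [hn] at hBc
    have hΛΔ : ∀ (C : Finset V) a, ((C.filter fun v => T.degree v = 1).filter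
        fun u => T.Adj a u).card ≤ T.maxDegree := by
      intro C a
      refine le_trans ?_ (hdeg a)
      rw [← SimpleGraph.card_neighborFinset_eq_degree]
      apply card_le_card
      intro u hu
      rw [SimpleGraph.mem_neighborFinset]
      exact (mem_filter.1 hu).2
    by_cases hcase : (2 * (n + 1 - B.card : ℕ) : ℝ) ≤ (1 + c1) * n
    · refine hm1 V T n T.maxDegree B (B.filter fun v => T.degree v = 1) hT hn hB hcase
        (fun b _ => hdeg b) hΔ (hΔ3.trans ?_) (fun u hu => mem_filter.1 hu) (hΛΔ B) hBL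
      have := hmono _ h1
      have h8 : 0 ≤ c1 * n := by positivity
      linarith
    push Not at hcase
    have hB' : ∀ u w, T.Adj u w → (u ∈ Bᶜ ↔ w ∉ Bᶜ) := by
      intro u w huw
      have := hB u w huw
      simp only [mem_compl]
      tauto
    have hcc : Bᶜ.card = n + 1 - B.card := by
      rw [card_compl, hn]
    have h4 := two_mul_card V T hT n hn hn1 Bᶜ hB'
    rw [hcc] at h4
    have h5 : (2 * (n + 1 - B.card : ℕ) : ℝ) ≤
        n + ((Bᶜ.filter fun v => T.degree v = 1).card : ℝ) := by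
      exact_mod_cast h4
    refine hm2 V T n T.maxDegree Bᶜ (Bᶜ.filter fun v => T.degree v = 1) hT hn hB' ?_
      (fun b _ => hdeg b) hΔ (hΔ3.trans (hmono _ h2)) (fun u hu => mem_filter.1 hu) (hΛΔ Bᶜ) (by
        linarith)
    rw [hcc]
    have h6 : ((n + 1 - (n + 1 - B.card) : ℕ) : ℝ) = n + 1 - ((n + 1 - B.card : ℕ) : ℝ) := by
      rw [Nat.cast_sub (by omega)]
      push_cast
      ring
    rw [h6]
    have h7 := hmono _ h1
    have h8 : 0 ≤ c2 * n := by positivity
    linarith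
  -- the two classes
  have hcol := hT.coloringTwo
  set B : Finset V := univ.filter fun v => hcol v = 0 with hBdef
  have hB : ∀ u w, T.Adj u w → (u ∈ B ↔ w ∉ B) := by
    intro u w huw
    have h4 := hcol.valid huw
    rw [hBdef, mem_filter, mem_filter]
    simp only [mem_univ, true_and]
    generalize hcol u = a at h4
    generalize hcol w = b at h4
    revert a b
    decide
  have hB' : ∀ u w, T.Adj u w → (u ∈ Bᶜ ↔ w ∉ Bᶜ) := by
    intro u w huw
    have := hB u w huw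
    simp only [mem_compl]
    tauto
  have hsum : (univ.filter fun v => T.degree v = 1).card =
      (B.filter fun v => T.degree v = 1).card + (Bᶜ.filter fun v => T.degree v = 1).card := by
    rw [← card_union_of_disjoint]
    · congr 1
      ext v
      simp only [mem_filter, mem_univ, true_and, mem_union, mem_compl]
      tauto
    · rw [disjoint_left]
      intro v hv hv'
      exact (mem_compl.1 (mem_filter.1 hv').1) (mem_filter.1 hv).1
  rw [hsum] at hL
  push_cast at hL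
  by_cases hcase : ε / 2 * n ≤ (B.filter fun v => T.degree v = 1).card
  · exact key B hB hcase
  · push Not at hcase
    exact key Bᶜ hB' (by linarith)

end Pool.Agent.Helper83.GH
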