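import Pool.Agent.Helper80.GH.Cells

/-!
# Graham-Häggkvist for all `n`: definitions

Paper proof: /team-store/h83_GH_README.md
-/

namespace Pool.Agent.Helper83.GH

open Finset

variable {V : Type} [Fintype V] [DecidableEq V]

/-- The reduction `ZMod (M * w) → ZMod M`. -/
def red (M w : ℕ) : ZMod (M * w) →+* ZMod M := ZMod.castHom (Dvd.intro w rfl) (ZMod M)

/-- The flexible leaf `y` is placed outside its own block of rows in the copies of residue `κ`. -/
def Out {M : ℕ} (y₀ : V) (S : Finset (ZMod M)) (κ : ZMod M) (y : V) : Prop := y ≠ y₀ ∨ κ ∈ S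

instance {M : ℕ} (y₀ : V) (S : Finset (ZMod M)) (κ : ZMod M) (y : V) :
    Decidable (Out y₀ S κ y) := by
  unfold Out
  infer_instance

/-- The structure of one type of copies. `B` is the class of the columns, `Y` the set of the
flexible leaves of the other class, `U` the set of the flexible leaves of `B`. The vertices of
`B` outside `U` are divided into `G` groups (`g` is the number of the group), a group has one orbit
`ZMod M` of columns, `F` are the residues of the labels and `o` the offsets. -/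
structure IsK (T : SimpleGraph V) [DecidableRel T.Adj] (B Y : Finset V) (M G Gx : ℕ)
    (F : V → ZMod M) (g : V → ℕ) (o : V → ZMod M) (U : Finset V) : Prop where
  hU : ∀ u ∈ U, u ∈ B ∧ T.degree u = 1
  hY : ∀ y ∈ Y, y ∉ B ∧ T.degree y = 1
  hYb : ∀ y ∈ Y, ∀ b, T.Adj b y → T.degree b ≠ 1
  hg : ∀ v ∈ B, v ∉ U → g v < G
  hoff : ∀ v ∈ B, v ∉ U → ∀ v' ∈ B, v' ∉ U → g v = g v' → o v = o v' → v = v'
  hinj : ∀ v ∈ B, v ∉ U → ∀ v' ∈ B, v' ∉ U → ∀ a a', T.Adj v a → a ∉ Y → T.Adj v' a' → a' ∉ Y →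
    g v = g v' → F a - o v = F a' - o v' → v = v' ∧ a = a'
  hsurj : ∀ γ < G, ∀ p : ZMod M, ∃ v ∈ B, v ∉ U ∧ ∃ a, T.Adj v a ∧ a ∉ Y ∧ g v = γ ∧ F a - o v = p
  hfill : ∀ y ∈ Y, ∀ b, T.Adj b y → ∀ v ∈ B, v ∉ U → ∀ a, T.Adj v a → a ∉ Y → g v = g b →
    F a - o v = F y - o b → T.degree v = 1
  hexc : ∀ y ∈ Y, ∀ b, T.Adj b y → g b < Gx
  hGx : Gx ≤ G
  hxg : ∀ γ, 2 * (Y.filter fun y => ∃ b, T.Adj b y ∧ g b = γ).card ≤ M
  hcount : G * M + Y.card + U.card + 1 = Fintype.card V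

end Pool.Agent.Helper83.GH
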