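import Mathlib

/-!
# GHA-KER: the kernel lemma (Galvin's theorem)

Proof. (1) Stable matching: for every finite set `Q` of edges there is `N ⊆ Q` such that two
different edges of `N` share neither `x` nor `y`, and for every `e ∈ Q \ N` there is `e' ∈ N` with
(`x e' = x e` and `c e < c e'`) or (`y e' = y e` and `c e' < c e`). Induction on `|Q|`: for every `v`
let `e_v` be the edge of `Q` with `x = v` and the largest `c`. If all the `e_v` have different `y`,
take `N = {e_v}`. Otherwise `y e_v = y e_w`, `c e_v < c e_w`; take `N` for `Q \ {e_w}`: if `e_v ∈ N`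
it dominates `e_w`; if not, it is dominated by an `e' ∈ N` with `y e' = y e_v`, `c e' < c e_v`, and
`e'` dominates `e_w`.
(2) Induction over the colours `Γ' = ⋃ L e`: invariant for the set `R` of the edges not yet
coloured: `#{e' ∈ R : x e' = x e, c e < c e'} + #{e' ∈ R : y e' = y e, c e' < c e} < #(L e)`. For a
colour `γ` let `Q = {e ∈ R : γ ∈ L e}`, `N` as in (1); colour `N` with `γ`, remove `N` from `R` and
`γ` from all lists; every `e ∈ Q \ N` lost one colour, but also one of the edges which it counts.
-/

namespace Pool.Agent.Helper83.GH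

open Finset

/-- Stable matching: every finite set of edges has a kernel. -/
lemma ker_stable {E X Y : Type} [DecidableEq E] (x : E → X) (y : E → Y) (c : E → ℕ)
    (hx : ∀ e e', x e = x e' → c e = c e' → e = e')
    (hy : ∀ e e', y e = y e' → c e = c e' → e = e') :
    ∀ (n : ℕ) (Q : Finset E), Q.card = n → ∃ N ⊆ Q,
      (∀ e ∈ N, ∀ e' ∈ N, e ≠ e' → x e ≠ x e' ∧ y e ≠ y e') ∧
      ∀ e ∈ Q, e ∉ N → ∃ e' ∈ N, (x e' = x e ∧ c e < c e') ∨ (y e' = y e ∧ c e' < c e) := by
  classical
  intro n
  induction n with
  | zero =>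
    intro Q hQ
    rw [Finset.card_eq_zero] at hQ
    subst hQ
    exact ⟨∅, by simp, by simp, by simp⟩
  | succ n ih =>
    intro Q hQ
    by_cases hT : ∃ e ∈ Q, ∃ e' ∈ Q, (∀ f ∈ Q, x f = x e → c f ≤ c e) ∧
        (∀ f ∈ Q, x f = x e' → c f ≤ c e') ∧ y e = y e' ∧ c e < c e'
    · obtain ⟨e, he, e', he', hte, hte', hyy, hlt⟩ := hT
      obtain ⟨N, hNQ, hN1, hN2⟩ := ih (Q.erase e') (by rw [Finset.card_erase_of_mem he', hQ]; rfl)
      refine ⟨N, hNQ.trans (Finset.erase_subset _ _), hN1, ?_⟩
      intro f hf hfN
      by_cases hfe : f = e'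
      · subst hfe
        by_cases heN : e ∈ N
        · exact ⟨e, heN, Or.inr ⟨hyy, hlt⟩⟩
        · have hee : e ≠ f := by
            rintro rfl
            exact lt_irrefl _ hlt
          obtain ⟨e'', he'', h⟩ := hN2 e (Finset.mem_erase.2 ⟨hee, he⟩) heN
          rcases h with ⟨h1, h2⟩ | ⟨h1, h2⟩
          · exact absurd (hte e'' (Finset.mem_of_mem_erase (hNQ he'')) h1) (not_le.2 h2)
          · exact ⟨e'', he'', Or.inr ⟨h1.trans hyy, h2.trans hlt⟩⟩
      · exact hN2 f (Finset.mem_erase.2 ⟨hfe, hf⟩) hfN
    · push Not at hT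
      refine ⟨Q.filter fun e => ∀ f ∈ Q, x f = x e → c f ≤ c e, Finset.filter_subset _ _, ?_, ?_⟩
      · intro e he e' he' hne
        rw [Finset.mem_filter] at he he'
        refine ⟨fun hxx => hne (hx e e' hxx (le_antisymm (he'.2 e he.1 hxx) (he.2 e' he'.1 hxx.symm))),
          fun hyy => ?_⟩
        rcases lt_trichotomy (c e) (c e') with h | h | h
        · exact absurd h (not_lt.2 (hT e he.1 e' he'.1 he.2 he'.2 hyy))
        · exact hne (hy e e' hyy h)
        · exact absurd h (not_lt.2 (hT e' he'.1 e he.1 he'.2 he.2 hyy.symm))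
      · intro e he heN
        obtain ⟨e', he', hmax⟩ := Finset.exists_max_image (Q.filter fun f => x f = x e) c
          ⟨e, Finset.mem_filter.2 ⟨he, rfl⟩⟩
        rw [Finset.mem_filter] at he'
        have hT' : e' ∈ Q.filter fun e => ∀ f ∈ Q, x f = x e → c f ≤ c e := by
          rw [Finset.mem_filter]
          exact ⟨he'.1, fun f hf hfx => hmax f (Finset.mem_filter.2 ⟨hf, hfx.trans he'.2⟩)⟩
        refine ⟨e', hT', Or.inl ⟨he'.2, ?_⟩⟩
        refine lt_of_le_of_ne (hmax e (Finset.mem_filter.2 ⟨he, rfl⟩)) fun hcc => heN ?_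
        rw [hx e e' he'.2.symm hcc]
        exact hT'

/-- The induction over the colours. -/
lemma ker_ind {E X Y Γ : Type} [DecidableEq E] [DecidableEq X]
    [DecidableEq Y] [DecidableEq Γ] [Nonempty Γ] (x : E → X) (y : E → Y) (c : E → ℕ)
    (hx : ∀ e e', x e = x e' → c e = c e' → e = e')
    (hy : ∀ e e', y e = y e' → c e = c e' → e = e') (S : Finset Γ) :
    ∀ (R : Finset E) (L : E → Finset Γ), (∀ e ∈ R, L e ⊆ S) →
      (∀ e ∈ R, (R.filter fun e' => x e' = x e ∧ c e < c e').card +
        (R.filter fun e' => y e' = y e ∧ c e' < c e).card < (L e).card) →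
      ∃ φ : E → Γ, (∀ e ∈ R, φ e ∈ L e) ∧
        ∀ e ∈ R, ∀ e' ∈ R, e ≠ e' → φ e = φ e' → x e ≠ x e' ∧ y e ≠ y e' := by
  classical
  induction S using Finset.induction_on with
  | empty =>
    intro R L hS hL
    obtain ⟨γ⟩ := ‹Nonempty Γ›
    have hR : ∀ e ∈ R, False := by
      intro e he
      have h1 := hL e he
      have h2 : L e = ∅ := Finset.subset_empty.1 (hS e he)
      rw [h2] at h1
      simp at h1
    exact ⟨fun _ => γ, fun e he => (hR e he).elim, fun e he => (hR e he).elim⟩
  | insert γ S hγ ih =>
    intro R L hS hL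
    obtain ⟨N, hNQ, hN1, hN2⟩ := ker_stable x y c hx hy _ (R.filter fun e => γ ∈ L e) rfl
    have hNR : N ⊆ R := hNQ.trans (Finset.filter_subset _ _)
    obtain ⟨φ, hφ1, hφ2⟩ := ih (R \ N) (fun e => (L e).erase γ)
      (by
        intro e he
        rw [Finset.mem_sdiff] at he
        intro δ hδ
        rw [Finset.mem_erase] at hδ
        rcases Finset.mem_insert.1 (hS e he.1 hδ.2) with h | h
        · exact absurd h hδ.1
        · exact h)
      (by
        intro e he
        rw [Finset.mem_sdiff] at he
        have h0 := hL e he.1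
        have hsub1 : ((R \ N).filter fun e' => x e' = x e ∧ c e < c e') ⊆
            (R.filter fun e' => x e' = x e ∧ c e < c e') :=
          Finset.filter_subset_filter _ Finset.sdiff_subset
        have hsub2 : ((R \ N).filter fun e' => y e' = y e ∧ c e' < c e) ⊆
            (R.filter fun e' => y e' = y e ∧ c e' < c e) :=
          Finset.filter_subset_filter _ Finset.sdiff_subset
        have h1 := Finset.card_le_card hsub1
        have h2 := Finset.card_le_card hsub2
        by_cases hg : γ ∈ L e
        · rw [Finset.card_erase_of_mem hg]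
          obtain ⟨e', he', h⟩ := hN2 e (Finset.mem_filter.2 ⟨he.1, hg⟩) he.2
          rcases h with h | h
          · have h3 : ((R \ N).filter fun e' => x e' = x e ∧ c e < c e').card <
                (R.filter fun e' => x e' = x e ∧ c e < c e').card := by
              apply Finset.card_lt_card
              refine ⟨hsub1, fun hcon => ?_⟩
              have := hcon (Finset.mem_filter.2 ⟨hNR he', h⟩)
              rw [Finset.mem_filter, Finset.mem_sdiff] at this
              exact this.1.2 he'
            omega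
          · have h3 : ((R \ N).filter fun e' => y e' = y e ∧ c e' < c e).card <
                (R.filter fun e' => y e' = y e ∧ c e' < c e).card := by
              apply Finset.card_lt_card
              refine ⟨hsub2, fun hcon => ?_⟩
              have := hcon (Finset.mem_filter.2 ⟨hNR he', h⟩)
              rw [Finset.mem_filter, Finset.mem_sdiff] at this
              exact this.1.2 he'
            omega
        · rw [Finset.erase_eq_of_notMem hg]
          omega)
    refine ⟨fun e => if e ∈ N then γ else φ e, ?_, ?_⟩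
    · intro e he
      by_cases heN : e ∈ N
      · simp only [heN, if_true]
        exact (Finset.mem_filter.1 (hNQ heN)).2
      · simp only [heN, if_false]
        exact Finset.mem_of_mem_erase (hφ1 e (Finset.mem_sdiff.2 ⟨he, heN⟩))
    · intro e he e' he' hne heq
      by_cases heN : e ∈ N <;> by_cases heN' : e' ∈ N
      · exact hN1 e heN e' heN' hne
      · simp only [heN, heN', if_true, if_false] at heq
        have := hφ1 e' (Finset.mem_sdiff.2 ⟨he', heN'⟩)
        rw [← heq] at this
        simp at this
      · simp only [heN, heN', if_true, if_false] at heq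
        have := hφ1 e (Finset.mem_sdiff.2 ⟨he, heN⟩)
        rw [heq] at this
        simp at this
      · simp only [heN, heN', if_false] at heq
        exact hφ2 e (Finset.mem_sdiff.2 ⟨he, heN⟩) e' (Finset.mem_sdiff.2 ⟨he', heN'⟩) hne heq

/-- Galvin's theorem in the form of the kernel lemma. -/
theorem kernel_coloring {E X Y Γ : Type} [Fintype E] [DecidableEq E] [DecidableEq X]
    [DecidableEq Y] [DecidableEq Γ] (x : E → X) (y : E → Y) (c : E → ℕ)
    (hx : ∀ e e', x e = x e' → c e = c e' → e = e')
    (hy : ∀ e e', y e = y e' → c e = c e' → e = e')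
    (L : E → Finset Γ)
    (hL : ∀ e, (univ.filter fun e' => x e' = x e ∧ c e < c e').card +
      (univ.filter fun e' => y e' = y e ∧ c e' < c e).card < (L e).card) :
    ∃ φ : E → Γ, (∀ e, φ e ∈ L e) ∧
      ∀ e e', e ≠ e' → φ e = φ e' → x e ≠ x e' ∧ y e ≠ y e' := by
  classical
  rcases isEmpty_or_nonempty E with hE | ⟨⟨e₀⟩⟩
  · exact ⟨fun e => (hE.false e).elim, fun e => (hE.false e).elim, fun e => (hE.false e).elim⟩
  · have hne : Nonempty Γ := by
      obtain ⟨γ, _⟩ := Finset.card_pos.1 (lt_of_le_of_lt (Nat.zero_le _) (hL e₀))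
      exact ⟨γ⟩
    obtain ⟨φ, h1, h2⟩ := ker_ind x y c hx hy (univ.biUnion L) univ L
      (fun e _ => Finset.subset_biUnion_of_mem L (Finset.mem_univ e)) (fun e _ => hL e)
    exact ⟨φ, fun e => h1 e (Finset.mem_univ e),
      fun e e' => h2 e (Finset.mem_univ e) e' (Finset.mem_univ e')⟩

end Pool.Agent.Helper83.GH
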