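import Pool.Agent.Helper83.GH.Lift
import Pool.Agent.Helper83.GH.Ker

/-!
# GHA-FLEX: the columns of the flexible leaves of `B`

`u₀` is the leaf which fills the position of the flexible leaf `y₀`. In the copy `k` the leaf `u` is
active (needs a flexible column) if `u ∈ U`, or if `u = u₀` and `red k + F a₀ - F y₀ ∉ S`.

Proof. `kernel_coloring` for the edges `E = {(k, u) : active}`, first endpoint the row
`k + f (nl u)`, second endpoint the copy `k`, `c (k, u)` = number of `u` in an enumeration
`0, ..., |U| - 1` of `U`, and `c (k, u₀) = |U|` (the largest). Lists: `L (k, u)` = all columns outside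
the `ι γ p`, `γ < G`, and outside `H (k + f (nl u))`. Let `ρ` be the row of `(k, u)`.
`|L| = |Y| + |U| - |H ρ| = |U| + [red ρ - F y₀ ∉ S]` (here `|Y| ≥ 1`). For `u ∈ U` with number `i`:
edges of the row `ρ` with larger number: one for each number `i + 1, ..., |U| - 1`, and `(k', u₀)`,
`k' + f a₀ = ρ`, if it is active, i.e. if `red ρ - F y₀ ∉ S` (because `red (f a₀) = F a₀`);
edges of the copy `k` with smaller number: at most `i`. Sum
`≤ |U| - 1 + [red ρ - F y₀ ∉ S] < |L|`. For `u₀` active: no larger number, at most `|U|` smaller ones,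
`|L| = |U| + 1`.
-/

namespace Pool.Agent.Helper83.GH

open Finset

variable {V : Type} [Fintype V] [DecidableEq V]

/-- `u` needs a flexible column in the copies of residue `κ`. -/
def Act {M : ℕ} (U : Finset V) (u₀ : V) (S : Finset (ZMod M)) (s κ : ZMod M) (u : V) : Prop :=
  u ∈ U ∨ (u = u₀ ∧ κ + s ∉ S)

instance {M : ℕ} (U : Finset V) (u₀ : V) (S : Finset (ZMod M)) (s κ : ZMod M) (u : V) :
    Decidable (Act U u₀ S s κ u) := by
  unfold Act
  infer_instance

lemma flex_card_lt (S : Finset ℕ) (i m : ℕ) (h : ∀ j ∈ S, i < j ∧ j < m) : S.card + i + 1 ≤ m ∨ S = ∅ := by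
  by_cases hS : S = ∅
  · right; exact hS
  · left
    obtain ⟨j, hj⟩ := Finset.nonempty_iff_ne_empty.mpr hS
    have h1 : S ⊆ Finset.Ioo i m := by
      intro j hj
      exact Finset.mem_Ioo.mpr (h j hj)
    have h2 := Finset.card_le_card h1
    rw [Nat.card_Ioo] at h2
    have h3 := h j hj
    omega

theorem flex (M w : ℕ) [NeZero M] [NeZero (M * w)] (U : Finset V) (u₀ : V) (hu₀ : u₀ ∉ U)
    (S : Finset (ZMod M)) (nl : V → V) (f : V → ZMod (M * w)) (F₀ F₁ : ZMod M)
    (hf : red M w (f (nl u₀)) = F₁) (nY : ℕ) (hnY : 1 ≤ nY) (G : ℕ) {C : Type} [Fintype C]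
    [DecidableEq C] (hC : Fintype.card C = G * M + nY + U.card) (ι : ℕ → ZMod M → C)
    (hι : ∀ γ < G, ∀ γ' < G, ∀ p p', ι γ p = ι γ' p' → γ = γ' ∧ p = p')
    (H : ZMod (M * w) → Finset C) (hH1 : ∀ ρ, ∀ c ∈ H ρ, ∀ γ < G, ∀ p, ι γ p ≠ c)
    (hH2 : ∀ ρ, (H ρ).card = if red M w ρ - F₀ ∈ S then nY else nY - 1) :
    ∃ χ : ZMod (M * w) → V → C,
      (∀ k u, Act U u₀ S (F₁ - F₀) (red M w k) u → (∀ γ < G, ∀ p, ι γ p ≠ χ k u) ∧
        χ k u ∉ H (k + f (nl u))) ∧
      (∀ k u u', Act U u₀ S (F₁ - F₀) (red M w k) u → Act U u₀ S (F₁ - F₀) (red M w k) u' →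
        χ k u = χ k u' → u = u') ∧
      ∀ k k' u u', Act U u₀ S (F₁ - F₀) (red M w k) u → Act U u₀ S (F₁ - F₀) (red M w k') u' →
        k + f (nl u) = k' + f (nl u') → χ k u = χ k' u' → k = k' ∧ u = u' := by
  classical
  have hCne : Nonempty C := by
    apply Fintype.card_pos_iff.mp
    rw [hC]
    omega
  -- the numbering
  let num : V → ℕ := fun u => if h : u ∈ U then (U.equivFin ⟨u, h⟩).val else U.card
  have num_lt : ∀ u ∈ U, num u < U.card := by
    intro u hu
    simp only [num, dif_pos hu]
    exact (U.equivFin ⟨u, hu⟩).isLt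
  have num_u₀ : num u₀ = U.card := by
    simp only [num, dif_neg hu₀]
  have num_inj : ∀ u u', (u ∈ U ∨ u = u₀) → (u' ∈ U ∨ u' = u₀) → num u = num u' → u = u' := by
    rintro u u' (hu | hu) (hu' | hu') h
    · simp only [num, dif_pos hu, dif_pos hu'] at h
      have h1 := U.equivFin.injective (Fin.ext h)
      exact congrArg Subtype.val h1
    · subst hu'
      have := num_lt u hu
      omega
    · subst hu
      have := num_lt u' hu'
      omega
    · rw [hu, hu']
  let E := {p : ZMod (M * w) × V // Act U u₀ S (F₁ - F₀) (red M w p.1) p.2}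
  let x : E → ZMod (M * w) := fun e => e.1.1 + f (nl e.1.2)
  let y : E → ZMod (M * w) := fun e => e.1.1
  let c : E → ℕ := fun e => num e.1.2
  have hmem : ∀ e : E, e.1.2 ∈ U ∨ e.1.2 = u₀ := by
    rintro ⟨⟨k, u⟩, h | h⟩
    · exact Or.inl h
    · exact Or.inr h.1
  have hx : ∀ e e' : E, x e = x e' → c e = c e' → e = e' := by
    intro e e' h1 h2
    have h3 := num_inj _ _ (hmem e) (hmem e') h2
    apply Subtype.ext
    refine Prod.ext ?_ h3
    simp only [x] at h1
    rw [h3] at h1
    exact add_right_cancel h1
  have hy : ∀ e e' : E, y e = y e' → c e = c e' → e = e' := by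
    intro e e' h1 h2
    have h3 := num_inj _ _ (hmem e) (hmem e') h2
    apply Subtype.ext
    exact Prod.ext h1 h3
  -- the free columns
  let Free : Finset C := univ.filter fun c => ∀ γ < G, ∀ p, ι γ p ≠ c
  have hFree : Free.card = nY + U.card := by
    have h1 : Free = univ \ ((Finset.range G ×ˢ (univ : Finset (ZMod M))).image
        fun q => ι q.1 q.2) := by
      ext c
      simp only [Free, mem_filter, mem_univ, true_and, mem_sdiff, mem_image, mem_product,
        Finset.mem_range, and_true, Prod.exists, not_exists, not_and]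
      exact ⟨fun h γ p hγ => h γ hγ p, fun h γ hγ p => h γ p hγ⟩
    have h2 : ((Finset.range G ×ˢ (univ : Finset (ZMod M))).image fun q => ι q.1 q.2).card =
        G * M := by
      rw [Finset.card_image_of_injOn, Finset.card_product, Finset.card_range, Finset.card_univ,
        ZMod.card]
      rintro ⟨γ, p⟩ h ⟨γ', p'⟩ h' h3
      simp only [coe_product, coe_range, coe_univ, Set.mem_prod, Set.mem_Iio, Set.mem_univ,
        and_true] at h h'
      have h4 := hι γ h γ' h' p p' h3
      exact Prod.ext h4.1 h4.2
    rw [h1, Finset.card_sdiff_of_subset (Finset.subset_univ _), h2, Finset.card_univ, hC]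
    omega
  let L : E → Finset C := fun e => Free \ H (x e)
  have hLcard : ∀ e : E, (L e).card = U.card + if red M w (x e) - F₀ ∈ S then 0 else 1 := by
    intro e
    have h1 : H (x e) ⊆ Free := by
      intro c hc
      simp only [Free, mem_filter, mem_univ, true_and]
      intro γ hγ p
      exact hH1 (x e) c hc γ hγ p
    simp only [L]
    rw [Finset.card_sdiff_of_subset h1, hFree, hH2]
    split_ifs <;> omega
  have hredx : ∀ e : E, e.1.2 = u₀ → red M w (x e) - F₀ ∉ S := by
    rintro ⟨⟨k, u⟩, h⟩ hu
    simp only at hu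
    subst hu
    rcases h with h | h
    · exact absurd h hu₀
    · simp only [x, map_add, hf]
      rw [add_sub_assoc]
      exact h.2
  have hcle : ∀ e : E, c e ≤ U.card := by
    intro e
    rcases hmem e with h | h
    · exact (num_lt _ h).le
    · simp only [c, h, num_u₀, le_refl]
  have hL : ∀ e, (univ.filter fun e' => x e' = x e ∧ c e < c e').card +
      (univ.filter fun e' => y e' = y e ∧ c e' < c e).card < (L e).card := by
    intro e
    -- the second count
    have h2 : (univ.filter fun e' => y e' = y e ∧ c e' < c e).card ≤ c e := by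
      rw [← Finset.card_image_of_injOn (f := c)]
      · calc ((univ.filter fun e' => y e' = y e ∧ c e' < c e).image c).card
            ≤ (Finset.range (c e)).card := by
              apply Finset.card_le_card
              intro j hj
              simp only [mem_image, mem_filter, mem_univ, true_and] at hj
              obtain ⟨e', h, rfl⟩ := hj
              exact Finset.mem_range.mpr h.2
          _ = c e := Finset.card_range _
      · intro e₁ h₁ e₂ h₂ h
        simp only [coe_filter, mem_univ, true_and, Set.mem_ofPred_eq] at h₁ h₂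
        exact hy _ _ (h₁.1.trans h₂.1.symm) h
    -- the first count
    have h1 : (univ.filter fun e' => x e' = x e ∧ c e < c e').card =
        ((univ.filter fun e' => x e' = x e ∧ c e < c e').image c).card := by
      rw [Finset.card_image_of_injOn]
      intro e₁ h₁ e₂ h₂ h
      simp only [coe_filter, mem_univ, true_and, Set.mem_ofPred_eq] at h₁ h₂
      exact hx _ _ (h₁.1.trans h₂.1.symm) h
    rw [hLcard e, h1]
    rcases hmem e with hu | hu
    · have hlt : c e < U.card := num_lt _ hu
      split_ifs with hS
      · have h3 := flex_card_lt ((univ.filter fun e' => x e' = x e ∧ c e < c e').image c) (c e)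
          U.card ?_
        · rcases h3 with h3 | h3
          · omega
          · rw [h3, Finset.card_empty]
            omega
        · intro j hj
          simp only [mem_image, mem_filter, mem_univ, true_and] at hj
          obtain ⟨e', h, rfl⟩ := hj
          refine ⟨h.2, lt_of_le_of_ne (hcle e') ?_⟩
          intro h4
          rcases hmem e' with h5 | h5
          · have := num_lt _ h5
            simp only [c] at h4
            omega
          · apply hredx e' h5
            rw [h.1]
            exact hS
      · have h3 := flex_card_lt ((univ.filter fun e' => x e' = x e ∧ c e < c e').image c) (c e)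
          (U.card + 1) ?_
        · rcases h3 with h3 | h3
          · omega
          · rw [h3, Finset.card_empty]
            omega
        · intro j hj
          simp only [mem_image, mem_filter, mem_univ, true_and] at hj
          obtain ⟨e', h, rfl⟩ := hj
          exact ⟨h.2, Nat.lt_succ_of_le (hcle e')⟩
    · have hce : c e = U.card := by simp only [c, hu, num_u₀]
      rw [if_neg (hredx e hu)]
      have h3 : ((univ.filter fun e' => x e' = x e ∧ c e < c e').image c) = ∅ := by
        rw [Finset.image_eq_empty, Finset.filter_eq_empty_iff]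
        intro e' _ h
        have := hcle e'
        omega
      rw [h3, Finset.card_empty]
      omega
  obtain ⟨φ, hφ1, hφ2⟩ := kernel_coloring x y c hx hy L hL
  refine ⟨fun k u => if h : Act U u₀ S (F₁ - F₀) (red M w k) u then φ ⟨(k, u), h⟩ else
    Classical.arbitrary C, ?_, ?_, ?_⟩
  · intro k u h
    have h1 := hφ1 ⟨(k, u), h⟩
    simp only [dif_pos h]
    simp only [L, Free, mem_sdiff, mem_filter, mem_univ, true_and] at h1
    exact h1
  · intro k u u' h h' h1
    simp only [dif_pos h, dif_pos h'] at h1
    by_contra h2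
    have h3 := hφ2 ⟨(k, u), h⟩ ⟨(k, u'), h'⟩ (by
      intro h4
      apply h2
      exact congrArg (fun e : E => e.1.2) h4) h1
    exact h3.2 rfl
  · intro k k' u u' h h' h0 h1
    simp only [dif_pos h, dif_pos h'] at h1
    by_contra h2
    have h3 := hφ2 ⟨(k, u), h⟩ ⟨(k', u'), h'⟩ (by
      intro h4
      apply h2
      exact ⟨congrArg (fun e : E => e.1.1) h4, congrArg (fun e : E => e.1.2) h4⟩) h1
    exact h3.1 h0

end Pool.Agent.Helper83.GH
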