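import Pool.Agent.Helper83.GH.Flex

/-!
# GHC-HALF2: all the copies of one type (with the rows)

`ψ` are the rows (in the other block `R'`) of the flexible leaves `y ∈ Y` in the copies where they are
`Out`; `H ρ` are the columns which the copies of the other type use in the row `ρ` of our block.

Proof. By `hsurj` and `hfill` there are `u₀ ∈ B`, `u₀ ∉ U`, `T.degree u₀ = 1`, `a₀ ∉ Y`,
`T.Adj u₀ a₀`, `g u₀ = g (nb y₀)`, `F a₀ - o u₀ = F y₀ - o (nb y₀)`. Let `nl u` be the neighbour of the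
leaf `u`. Take `χ` from `flex` (`F₀ = F y₀`, `F₁ = F a₀`, `nY = |Y|`). Then
`row k a = inr (ψ k a)` if `a ∈ Y` and `Out y₀ S (red k) a`, else `inl (k + f a)`;
`col k v = χ k v` if `Act U u₀ S (F a₀ - F y₀) (red k) v`, else `ι (g v) (red k + o v)`.
Edges `(a, v)` of the copy `k`: (K) inside / not active: cell `(k + f a, ι (g v) (red k + o v))`; the
position `F a - o v = red ρ - (column residue)` is determined by the cell; by `hinj` the pair
`(v, a)` is determined if both `a ∉ Y`; `y₀` inside (`red k ∉ S`) has the same position as `u₀`, and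
`u₀` not active in `k'` means `red k' + F a₀ - F y₀ ∈ S`; the same row gives
`red k = red k' + F a₀ - F y₀`, a contradiction. (F) active `v`: then `a = nl v` is not in `Y`
(`hYb`); third property of `χ`. (X) `a ∈ Y` `Out`: `v = nb a` is not a leaf, so not active; `ψ`.
Different kinds: (K)/(F) by `χ k u ≠ ι γ p`, (X)/others by `inl ≠ inr`.
-/

namespace Pool.Agent.Helper83.GH

open Finset

variable {V : Type} [Fintype V] [DecidableEq V]

theorem half2 {T : SimpleGraph V} [DecidableRel T.Adj] {B Y : Finset V} {M G Gx : ℕ}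
    {F : V → ZMod M} {g : V → ℕ} {o : V → ZMod M} {U : Finset V}
    (hB : ∀ u w, T.Adj u w → (u ∈ B ↔ w ∉ B))
    (hK : IsK T B Y M G Gx F g o U) (w : ℕ) [NeZero M] [NeZero (M * w)] (y₀ : V) (hy₀ : y₀ ∈ Y)
    (nb : V → V) (hnb : ∀ y ∈ Y, T.Adj (nb y) y) (S : Finset (ZMod M)) (f : V → ZMod (M * w))
    (hf : ∀ a, a ∉ B → (a ∉ Y ∨ a = y₀) → red M w (f a) = F a)
    (hfi : ∀ a a', a ∉ B → (a ∉ Y ∨ a = y₀) → a' ∉ B → (a' ∉ Y ∨ a' = y₀) → f a = f a' → a = a')
    {R' : Type} (ψ : ZMod (M * w) → V → R')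
    (hψ1 : ∀ k, ∀ y ∈ Y, ∀ y' ∈ Y, Out y₀ S (red M w k) y → Out y₀ S (red M w k) y' →
        ψ k y = ψ k y' → y = y')
    (hψ2 : ∀ k k', ∀ y ∈ Y, ∀ y' ∈ Y, Out y₀ S (red M w k) y → Out y₀ S (red M w k') y' →
        g (nb y) = g (nb y') → red M w k + o (nb y) = red M w k' + o (nb y') → ψ k y = ψ k' y' →
        k = k' ∧ y = y')
    {C : Type} [Fintype C] [DecidableEq C] (hC : Fintype.card C = G * M + Y.card + U.card)
    (ι : ℕ → ZMod M → C) (hι : ∀ γ < G, ∀ γ' < G, ∀ p p', ι γ p = ι γ' p' → γ = γ' ∧ p = p')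
    (H : ZMod (M * w) → Finset C) (hH1 : ∀ ρ, ∀ c ∈ H ρ, ∀ γ < G, ∀ p, ι γ p ≠ c)
    (hH2 : ∀ ρ, (H ρ).card = if red M w ρ - F y₀ ∈ S then Y.card else Y.card - 1) :
    ∃ (row : ZMod (M * w) → V → ZMod (M * w) ⊕ R') (col : ZMod (M * w) → V → C),
      (∀ k a a', a ∉ B → a' ∉ B → row k a = row k a' → a = a') ∧
      (∀ k v v', v ∈ B → v' ∈ B → col k v = col k v' → v = v') ∧
      (∀ k k' a a' v v', T.Adj a v → T.Adj a' v' → a ∉ B → a' ∉ B → row k a = row k' a' →
        col k v = col k' v' → k = k' ∧ a = a' ∧ v = v') ∧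
      (∀ k a v ρ, a ∉ B → T.Adj a v → row k a = Sum.inl ρ → col k v ∉ H ρ) ∧
      (∀ k a v ρ, a ∉ B → T.Adj a v → row k a = Sum.inr ρ → a ∈ Y ∧ Out y₀ S (red M w k) a ∧
        ψ k a = ρ ∧ v = nb a ∧ col k v = ι (g (nb a)) (red M w k + o (nb a))) ∧
      ∀ k a, row k a = if a ∈ Y ∧ Out y₀ S (red M w k) a then Sum.inr (ψ k a)
        else Sum.inl (k + f a) := by
  classical
  -- leaves
  have hleaf : ∀ u a a', T.degree u = 1 → T.Adj u a → T.Adj u a' → a = a' := by
    intro u a a' hu ha ha'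
    rw [← T.card_neighborFinset_eq_degree u, Finset.card_eq_one] at hu
    obtain ⟨b, hb⟩ := hu
    have h1 : a ∈ T.neighborFinset u := by rwa [SimpleGraph.mem_neighborFinset]
    have h2 : a' ∈ T.neighborFinset u := by rwa [SimpleGraph.mem_neighborFinset]
    rw [hb, Finset.mem_singleton] at h1 h2
    rw [h1, h2]
  have hnl : ∀ u, ∃ a, T.degree u = 1 → T.Adj u a := by
    intro u
    by_cases hu : T.degree u = 1
    · have h1 : 0 < T.degree u := by omega
      obtain ⟨a, ha⟩ := (T.degree_pos_iff_exists_adj u).1 h1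
      exact ⟨a, fun _ => ha⟩
    · exact ⟨u, fun h => absurd h hu⟩
  choose nl hnl' using hnl
  -- the vertex `nb y₀`
  have hy₀B : y₀ ∉ B := (hK.hY y₀ hy₀).1
  have hb₀ : T.Adj (nb y₀) y₀ := hnb y₀ hy₀
  have hnbB : ∀ y ∈ Y, nb y ∈ B := fun y hy => (hB _ _ (hnb y hy)).2 (hK.hY y hy).1
  have hnbU : ∀ y ∈ Y, nb y ∉ U := fun y hy hu =>
    hK.hYb y hy _ (hnb y hy) (hK.hU _ hu).2
  have hnbG : ∀ y ∈ Y, g (nb y) < G := fun y hy => hK.hg _ (hnbB y hy) (hnbU y hy)
  obtain ⟨u₀, hu₀B, hu₀U, a₀, hua₀, ha₀Y, hgu₀, hFa₀⟩ :=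
    hK.hsurj (g (nb y₀)) (hnbG y₀ hy₀) (F y₀ - o (nb y₀))
  have hdu₀ : T.degree u₀ = 1 :=
    hK.hfill y₀ hy₀ (nb y₀) hb₀ u₀ hu₀B hu₀U a₀ hua₀ ha₀Y hgu₀ hFa₀
  have ha₀B : a₀ ∉ B := (hB _ _ hua₀).1 hu₀B
  have hnlu₀ : nl u₀ = a₀ := hleaf u₀ _ _ hdu₀ (hnl' u₀ hdu₀) hua₀
  have hf₀ : red M w (f (nl u₀)) = F a₀ := by
    rw [hnlu₀]; exact hf a₀ ha₀B (Or.inl ha₀Y)
  obtain ⟨χ, hχ1, hχ2, hχ3⟩ := flex M w U u₀ hu₀U S nl f (F y₀) (F a₀) hf₀ Y.card
    (Finset.card_pos.2 ⟨y₀, hy₀⟩) G hC ι hι H hH1 hH2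
  -- active vertices are leaves
  have hact : ∀ k v, Act U u₀ S (F a₀ - F y₀) (red M w k) v → T.degree v = 1 := by
    rintro k v (h | ⟨rfl, _⟩)
    · exact (hK.hU v h).2
    · exact hdu₀
  have hactnl : ∀ k v a, Act U u₀ S (F a₀ - F y₀) (red M w k) v → T.Adj a v → a = nl v := by
    intro k v a h hav
    have hd := hact k v h
    exact hleaf v _ _ hd hav.symm (hnl' v hd)
  have hnact : ∀ k v, ¬ Act U u₀ S (F a₀ - F y₀) (red M w k) v → v ∉ U := fun k v h hu =>
    h (Or.inl hu)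
  -- outside vertices
  have hout : ∀ k a v, a ∈ Y → T.Adj a v → v = nb a ∧
      ¬ Act U u₀ S (F a₀ - F y₀) (red M w k) v := by
    intro k a v ha hav
    refine ⟨hleaf a _ _ (hK.hY a ha).2 hav (hnb a ha).symm, fun h => ?_⟩
    exact hK.hYb a ha v hav.symm (hact k v h)
  have hin : ∀ k a, ¬ (a ∈ Y ∧ Out y₀ S (red M w k) a) → a ∉ Y ∨ (a = y₀ ∧ red M w k ∉ S) := by
    intro k a h
    by_cases ha : a ∈ Y
    · right
      have h1 : ¬ Out y₀ S (red M w k) a := fun h2 => h ⟨ha, h2⟩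
      unfold Out at h1
      push Not at h1
      exact h1
    · exact Or.inl ha
  have hin' : ∀ k a, ¬ (a ∈ Y ∧ Out y₀ S (red M w k) a) → a ∉ Y ∨ a = y₀ := by
    intro k a h
    rcases hin k a h with h1 | h1
    · exact Or.inl h1
    · exact Or.inr h1.1
  have hAB : ∀ a v, T.Adj a v → a ∉ B → v ∈ B := by
    intro a v hav ha
    by_contra hv
    exact ha ((hB _ _ hav).2 hv)
  -- the key computation: `y₀` inside against another vertex
  have key : ∀ k k' v a' v', red M w k ∉ S → T.Adj y₀ v → T.Adj a' v' → a' ∉ B → a' ∉ Y →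
      ¬ Act U u₀ S (F a₀ - F y₀) (red M w k') v' → k + f y₀ = k' + f a' →
      g v = g v' → red M w k + o v = red M w k' + o v' → False := by
    intro k k' v a' v' hkS hv hv' ha'B ha'Y hna hrow hg ho
    have hvb : v = nb y₀ := (hout k y₀ v hy₀ hv).1
    have hr := congrArg (red M w) hrow
    rw [map_add, map_add, hf y₀ hy₀B (Or.inr rfl), hf a' ha'B (Or.inl ha'Y)] at hr
    have hv'B := hAB _ _ hv' ha'B
    have h1 : F a' - o v' = F a₀ - o u₀ := by
      rw [hFa₀, ← hvb]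
      linear_combination ho - hr
    have h2 := hK.hinj v' hv'B (hnact _ _ hna) u₀ hu₀B hu₀U a' a₀ hv'.symm ha'Y hua₀ ha₀Y
      (by rw [← hg, hvb, hgu₀]) h1
    apply hna
    rw [h2.1] at *
    by_contra hcon
    unfold Act at hcon
    push Not at hcon
    have h3 := hcon.2 rfl
    apply hkS
    have h4 : red M w k = red M w k' + (F a₀ - F y₀) := by
      rw [← h2.2]
      linear_combination hr
    rw [h4]
    exact h3
  refine ⟨fun k a => if a ∈ Y ∧ Out y₀ S (red M w k) a then Sum.inr (ψ k a) else Sum.inl (k + f a),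
    fun k v => if Act U u₀ S (F a₀ - F y₀) (red M w k) v then χ k v
      else ι (g v) (red M w k + o v), ?_, ?_, ?_, ?_, ?_, fun _ _ => rfl⟩
  · intro k a a' ha ha' h
    by_cases h1 : a ∈ Y ∧ Out y₀ S (red M w k) a <;> by_cases h2 : a' ∈ Y ∧ Out y₀ S (red M w k) a'
    · simp only [if_pos h1, if_pos h2, Sum.inr.injEq] at h
      exact hψ1 k a h1.1 a' h2.1 h1.2 h2.2 h
    · simp only [if_pos h1, if_neg h2, reduceCtorEq] at h
    · simp only [if_neg h1, if_pos h2, reduceCtorEq] at h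
    · simp only [if_neg h1, if_neg h2, Sum.inl.injEq, add_right_inj] at h
      exact hfi a a' ha (hin' k a h1) ha' (hin' k a' h2) h
  · intro k v v' hv hv' h
    by_cases h1 : Act U u₀ S (F a₀ - F y₀) (red M w k) v <;>
      by_cases h2 : Act U u₀ S (F a₀ - F y₀) (red M w k) v'
    · simp only [if_pos h1, if_pos h2] at h
      exact hχ2 k v v' h1 h2 h
    · simp only [if_pos h1, if_neg h2] at h
      exact absurd h.symm ((hχ1 k v h1).1 _ (hK.hg v' hv' (hnact k v' h2)) _)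
    · simp only [if_neg h1, if_pos h2] at h
      exact absurd h ((hχ1 k v' h2).1 _ (hK.hg v hv (hnact k v h1)) _)
    · simp only [if_neg h1, if_neg h2] at h
      have h3 := hι _ (hK.hg v hv (hnact k v h1)) _ (hK.hg v' hv' (hnact k v' h2)) _ _ h
      exact hK.hoff v hv (hnact k v h1) v' hv' (hnact k v' h2) h3.1 (add_left_cancel h3.2)
  · intro k k' a a' v v' hav hav' ha ha' hrow hcol
    have hvB := hAB _ _ hav ha
    have hvB' := hAB _ _ hav' ha'
    simp only at hrow hcol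
    by_cases h1 : a ∈ Y ∧ Out y₀ S (red M w k) a <;> by_cases h2 : a' ∈ Y ∧ Out y₀ S (red M w k') a'
    · rw [if_pos h1, if_pos h2, Sum.inr.injEq] at hrow
      obtain ⟨e1, n1⟩ := hout k a v h1.1 hav
      obtain ⟨e2, n2⟩ := hout k' a' v' h2.1 hav'
      rw [if_neg n1, if_neg n2] at hcol
      have h3 := hι _ (hK.hg v hvB (hnact k v n1)) _ (hK.hg v' hvB' (hnact k' v' n2)) _ _ hcol
      rw [e1, e2] at h3
      have h4 := hψ2 k k' a h1.1 a' h2.1 h1.2 h2.2 h3.1 h3.2 hrow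
      refine ⟨h4.1, h4.2, ?_⟩
      rw [e1, e2, h4.2]
    · rw [if_pos h1, if_neg h2] at hrow
      exact absurd hrow (by simp)
    · rw [if_neg h1, if_pos h2] at hrow
      exact absurd hrow (by simp)
    · rw [if_neg h1, if_neg h2, Sum.inl.injEq] at hrow
      by_cases n1 : Act U u₀ S (F a₀ - F y₀) (red M w k) v <;>
        by_cases n2 : Act U u₀ S (F a₀ - F y₀) (red M w k') v'
      · rw [if_pos n1, if_pos n2] at hcol
        have e1 := hactnl k v a n1 hav
        have e2 := hactnl k' v' a' n2 hav'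
        rw [e1, e2] at hrow
        have h3 := hχ3 k k' v v' n1 n2 hrow hcol
        refine ⟨h3.1, ?_, h3.2⟩
        rw [e1, e2, h3.2]
      · rw [if_pos n1, if_neg n2] at hcol
        exact absurd hcol.symm ((hχ1 k v n1).1 _ (hK.hg v' hvB' (hnact k' v' n2)) _)
      · rw [if_neg n1, if_pos n2] at hcol
        exact absurd hcol ((hχ1 k' v' n2).1 _ (hK.hg v hvB (hnact k v n1)) _)
      · rw [if_neg n1, if_neg n2] at hcol
        have h3 := hι _ (hK.hg v hvB (hnact k v n1)) _ (hK.hg v' hvB' (hnact k' v' n2)) _ _ hcol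
        have hr := congrArg (red M w) hrow
        rw [map_add, map_add, hf a ha (hin' k a h1), hf a' ha' (hin' k' a' h2)] at hr
        rcases hin k a h1 with i1 | i1 <;> rcases hin k' a' h2 with i2 | i2
        · have h4 := hK.hinj v hvB (hnact k v n1) v' hvB' (hnact k' v' n2) a a' hav.symm i1
            hav'.symm i2 h3.1 (by linear_combination hr - h3.2)
          refine ⟨?_, h4.2, h4.1⟩
          rw [h4.2] at hrow
          exact add_right_cancel hrow
        · exfalso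
          obtain ⟨rfl, i3⟩ := i2
          exact key k' k v' a v i3 hav' hav ha i1 n1 hrow.symm h3.1.symm h3.2.symm
        · exfalso
          obtain ⟨rfl, i3⟩ := i1
          exact key k k' v a' v' i3 hav hav' ha' i2 n2 hrow h3.1 h3.2
        · obtain ⟨rfl, _⟩ := i1
          obtain ⟨rfl, _⟩ := i2
          refine ⟨add_right_cancel hrow, rfl, ?_⟩
          rw [(hout k _ v hy₀ hav).1, (hout k' _ v' hy₀ hav').1]
  · intro k a v ρ ha hav hrow
    have hvB := hAB _ _ hav ha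
    simp only at hrow ⊢
    by_cases h1 : a ∈ Y ∧ Out y₀ S (red M w k) a
    · rw [if_pos h1] at hrow
      exact absurd hrow (by simp)
    · rw [if_neg h1, Sum.inl.injEq] at hrow
      by_cases n1 : Act U u₀ S (F a₀ - F y₀) (red M w k) v
      · rw [if_pos n1, ← hrow, hactnl k v a n1 hav]
        exact (hχ1 k v n1).2
      · rw [if_neg n1]
        intro hmem
        exact hH1 ρ _ hmem _ (hK.hg v hvB (hnact k v n1)) _ rfl
  · intro k a v ρ ha hav hrow
    simp only at hrow ⊢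
    by_cases h1 : a ∈ Y ∧ Out y₀ S (red M w k) a
    · rw [if_pos h1, Sum.inr.injEq] at hrow
      obtain ⟨e1, n1⟩ := hout k a v h1.1 hav
      refine ⟨h1.1, h1.2, hrow, e1, ?_⟩
      rw [if_neg n1, e1]
    · rw [if_neg h1] at hrow
      exact absurd hrow (by simp)

end Pool.Agent.Helper83.GH
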