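import Pool.Agent.Helper83.GH.Defs

/-!
# GHC-LC: counting leaves and vertices of degree 2 in the classes of a tree

`A` is the complement of `B`. Proof. `∑ b ∈ B, deg b = n = ∑ a ∉ B, deg a`
(`SimpleGraph.isBipartiteWith_sum_degrees_eq_card_edges`, see the proof of `ysel`).
`two_mul_card`: all degrees are at least 1, and at least 2 outside the leaves.
`near_sub`: every leaf `u ∈ B` has one neighbour `a ∉ B`. The leaves with `deg a = 2` correspond to
different elements of `W` (if two leaves have the same neighbour `a` with `deg a = 2`, then `T` has three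
vertices, but `n ≥ 3`). `deg a = 1` is impossible (`n ≥ 3`). The number of leaves with `deg a ≥ 3` is at
most `∑ (a ∉ B, deg a ≥ 3), deg a ≤ 3 ∑ (a ∉ B, deg a ≥ 3), (deg a - 2)` and
`∑ (a ∉ B, deg a ≥ 3), (deg a - 2) + 2 |A| = n + (number of leaves in A)`.
-/

namespace Pool.Agent.Helper83.GH

open Finset

lemma lc_closed {V : Type} [Fintype V] [DecidableEq V] (T : SimpleGraph V) (hT : T.Connected)
    (S : Finset V) (hne : S.Nonempty) (hS : ∀ u ∈ S, ∀ v, T.Adj u v → v ∈ S) :
    Fintype.card V ≤ S.card := by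
  obtain ⟨s, hs⟩ := hne
  have key : ∀ u v (_ : T.Walk u v), u ∈ S → v ∈ S := by
    intro u v p
    induction p with
    | nil => exact id
    | cons hadj _ ih => exact fun hu => ih (hS _ hu _ hadj)
  rw [← card_univ]
  apply card_le_card
  intro v _
  obtain ⟨p⟩ := hT.preconnected s v
  exact key s v p hs

/-- In a connected graph with at least three vertices the neighbour of a leaf is not a leaf. -/
lemma lc_two_le {V : Type} [Fintype V] [DecidableEq V] (T : SimpleGraph V) [DecidableRel T.Adj]
    (hT : T.Connected) (hc : 3 ≤ Fintype.card V) {b y : V} (h : T.Adj b y)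
    (hy : T.degree y = 1) : 2 ≤ T.degree b := by
  by_contra hlt
  have hpos : 0 < T.degree b := by
    rw [SimpleGraph.degree_pos_iff_exists_adj]
    exact ⟨y, h⟩
  have hb : T.degree b = 1 := by omega
  rw [SimpleGraph.degree_eq_one_iff_existsUnique_adj] at hy hb
  have hcl := lc_closed T hT {b, y} (insert_nonempty _ _) (by
    intro v hv w hvw
    simp only [mem_insert, mem_singleton] at hv ⊢
    rcases hv with rfl | rfl
    · exact Or.inr (hb.unique hvw h)
    · exact Or.inl (hy.unique hvw h.symm))
  have h2 : ({b, y} : Finset V).card ≤ 2 := card_le_two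
  omega

lemma lc_sumB {V : Type} [Fintype V] [DecidableEq V] (T : SimpleGraph V)
    [DecidableRel T.Adj] (hT : T.IsTree) (n : ℕ) (hn : Fintype.card V = n + 1)
    (B : Finset V) (hB : ∀ u w, T.Adj u w → (u ∈ B ↔ w ∉ B)) :
    ∑ b ∈ B, T.degree b = n := by
  have hbip : T.IsBipartiteWith (B : Set V) ((Bᶜ : Finset V) : Set V) := by
    refine ⟨?_, ?_⟩
    · rw [Finset.disjoint_coe]
      exact disjoint_compl_right
    · intro v w hvw
      have := hB v w hvw
      simp only [mem_coe, mem_compl]
      tauto
  rw [SimpleGraph.isBipartiteWith_sum_degrees_eq_card_edges hbip]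
  have := hT.card_edgeFinset
  omega

lemma lc_sumA {V : Type} [Fintype V] [DecidableEq V] (T : SimpleGraph V)
    [DecidableRel T.Adj] (hT : T.IsTree) (n : ℕ) (hn : Fintype.card V = n + 1)
    (B : Finset V) (hB : ∀ u w, T.Adj u w → (u ∈ B ↔ w ∉ B)) :
    ∑ a ∈ univ.filter (fun a => a ∉ B), T.degree a = n := by
  have h : (univ.filter (fun a => a ∉ B)) = Bᶜ := by
    ext a
    simp
  rw [h]
  apply lc_sumB T hT n hn
  intro u w huw
  have := hB u w huw
  simp only [mem_compl]
  tauto

lemma lc_pos {V : Type} [Fintype V] [DecidableEq V] (T : SimpleGraph V)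
    [DecidableRel T.Adj] (hT : T.IsTree) (hn : 2 ≤ Fintype.card V) (v : V) : 1 ≤ T.degree v := by
  by_contra h
  have h0 : T.degree v = 0 := by omega
  have hc := lc_closed T hT.1 {v} (singleton_nonempty v) (by
    intro u hu w huw
    rw [mem_singleton] at hu
    subst hu
    have : 0 < T.degree u := by
      rw [SimpleGraph.degree_pos_iff_exists_adj]
      exact ⟨w, huw⟩
    omega)
  rw [card_singleton] at hc
  omega

theorem two_mul_card (V : Type) [Fintype V] [DecidableEq V] (T : SimpleGraph V)
    [DecidableRel T.Adj] (hT : T.IsTree) (n : ℕ) (hn : Fintype.card V = n + 1) (hn1 : 1 ≤ n)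
    (B : Finset V) (hB : ∀ u w, T.Adj u w → (u ∈ B ↔ w ∉ B)) :
    2 * B.card ≤ n + (B.filter fun b => T.degree b = 1).card := by
  have h1 := lc_sumB T hT n hn B hB
  calc 2 * B.card = ∑ b ∈ B, 2 := by rw [sum_const, smul_eq_mul, mul_comm]
    _ ≤ ∑ b ∈ B, (T.degree b + if T.degree b = 1 then 1 else 0) := by
        apply sum_le_sum
        intro b _
        have := lc_pos T hT (by omega) b
        split_ifs <;> omega
    _ = n + (B.filter fun b => T.degree b = 1).card := by
        rw [sum_add_distrib, h1, card_filter]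

/-- A vertex of degree 2 with a leaf neighbour has another neighbour, which is not a leaf. -/
theorem other_nb (V : Type) [Fintype V] [DecidableEq V] (T : SimpleGraph V)
    [DecidableRel T.Adj] (hT : T.IsTree) (n : ℕ) (hn : Fintype.card V = n + 1) (hn3 : 3 ≤ n)
    (a u : V) (ha : T.degree a = 2) (hu : T.Adj a u) (hu1 : T.degree u = 1) :
    ∃ b, T.Adj a b ∧ b ≠ u ∧ 2 ≤ T.degree b ∧ ∀ v, T.Adj a v → v = b ∨ v = u := by
  rw [← SimpleGraph.card_neighborFinset_eq_degree, card_eq_two] at ha
  obtain ⟨x, y, hxy, hN⟩ := ha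
  have hmem : ∀ v, T.Adj a v ↔ v = x ∨ v = y := by
    intro v
    rw [← SimpleGraph.mem_neighborFinset, hN, mem_insert, mem_singleton]
  have key : ∀ b, T.Adj a b → b ≠ u → (∀ v, T.Adj a v → v = b ∨ v = u) → 2 ≤ T.degree b := by
    intro b hb hbu hall
    by_contra hlt
    have hpos := lc_pos T hT (by omega) b
    have hb1 : T.degree b = 1 := by omega
    rw [SimpleGraph.degree_eq_one_iff_existsUnique_adj] at hb1 hu1
    have hc := lc_closed T hT.1 {a, b, u} (insert_nonempty _ _) (by
      intro v hv w hvw
      simp only [mem_insert, mem_singleton] at hv ⊢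
      rcases hv with rfl | rfl | rfl
      · exact Or.inr (hall w hvw)
      · exact Or.inl (hb1.unique hvw hb.symm)
      · exact Or.inl (hu1.unique hvw hu.symm))
    have h3 : ({a, b, u} : Finset V).card ≤ 3 := card_le_three
    omega
  rcases (hmem u).1 hu with rfl | rfl
  · have h1 : ∀ v, T.Adj a v → v = y ∨ v = u := fun v hv => ((hmem v).1 hv).symm
    exact ⟨y, (hmem y).2 (Or.inr rfl), hxy.symm, key y ((hmem y).2 (Or.inr rfl)) hxy.symm h1, h1⟩
  · have h1 : ∀ v, T.Adj a v → v = x ∨ v = u := fun v hv => (hmem v).1 hv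
    exact ⟨x, (hmem x).2 (Or.inl rfl), hxy, key x ((hmem x).2 (Or.inl rfl)) hxy h1, h1⟩

theorem near_sub (V : Type) [Fintype V] [DecidableEq V] (T : SimpleGraph V)
    [DecidableRel T.Adj] (hT : T.IsTree) (n : ℕ) (hn : Fintype.card V = n + 1) (hn3 : 3 ≤ n)
    (B : Finset V) (hB : ∀ u w, T.Adj u w → (u ∈ B ↔ w ∉ B)) :
    (B.filter fun b => T.degree b = 1).card + 6 * (univ.filter fun a => a ∉ B).card ≤
      (univ.filter fun a => a ∉ B ∧ T.degree a = 2 ∧ ∃ u ∈ B, T.Adj a u ∧ T.degree u = 1).card +
        3 * n + 3 * (univ.filter fun a => a ∉ B ∧ T.degree a = 1).card := by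
  classical
  set L : Finset V := B.filter fun b => T.degree b = 1 with hL
  set A : Finset V := univ.filter fun a => a ∉ B with hA
  set W : Finset V := univ.filter fun a => a ∉ B ∧ T.degree a = 2 ∧
    ∃ u ∈ B, T.Adj a u ∧ T.degree u = 1 with hW
  have hsumA := lc_sumA T hT n hn B hB
  rw [← hA] at hsumA
  -- the neighbour of a leaf
  have huniq : ∀ u ∈ L, ∃ a, T.Adj a u ∧ a ∈ A := by
    intro u hu
    obtain ⟨huB, hud⟩ := mem_filter.1 hu
    rw [SimpleGraph.degree_eq_one_iff_existsUnique_adj] at hud
    obtain ⟨a, ha, _⟩ := hud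
    exact ⟨a, ha.symm, by rw [hA, mem_filter]; exact ⟨mem_univ a, (hB u a ha).1 huB⟩⟩
  choose! nb hnb1 hnb2 using huniq
  -- splitting
  have hsplit := card_filter_add_card_filter_not (s := L) (fun u => T.degree (nb u) = 2)
  -- the leaves with a neighbour of degree 2
  have h2 : (L.filter fun u => T.degree (nb u) = 2).card ≤ W.card := by
    apply card_le_card_of_injOn nb
    · intro u hu
      rw [mem_coe, mem_filter] at hu
      rw [mem_coe, hW, mem_filter]
      have h1 := hnb2 u hu.1
      rw [hA, mem_filter] at h1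
      have h3 := mem_filter.1 hu.1
      exact ⟨mem_univ _, h1.2, hu.2, u, h3.1, hnb1 u hu.1, h3.2⟩
    · intro u hu v hv huv
      rw [mem_coe, mem_filter] at hu hv
      obtain ⟨b, _, _, hb2, hall⟩ := other_nb V T hT n hn hn3 (nb u) u hu.2 (hnb1 u hu.1)
        (mem_filter.1 hu.1).2
      have hv1 : T.Adj (nb u) v := by
        rw [huv]
        exact hnb1 v hv.1
      rcases hall v hv1 with h | h
      · exfalso
        have h4 := (mem_filter.1 hv.1).2
        rw [h] at h4
        omega
      · exact h.symm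
  -- the leaves with a neighbour of degree at least 3
  have h3 : (L.filter fun u => ¬ T.degree (nb u) = 2).card ≤ ∑ a ∈ A, 3 * (T.degree a - 2) := by
    rw [card_eq_sum_card_fiberwise (f := nb) (s := L.filter fun u => ¬ T.degree (nb u) = 2) (t := A)
      (fun u hu => hnb2 u (mem_filter.1 (mem_coe.1 hu)).1)]
    apply sum_le_sum
    intro a _
    have hdeg : ((L.filter fun u => ¬ T.degree (nb u) = 2).filter fun u => nb u = a).card ≤
        T.degree a := by
      rw [← SimpleGraph.card_neighborFinset_eq_degree]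
      apply card_le_card
      intro u hu
      rw [mem_filter, mem_filter] at hu
      rw [SimpleGraph.mem_neighborFinset, ← hu.2]
      exact hnb1 u hu.1.1
    rcases Finset.eq_empty_or_nonempty
      ((L.filter fun u => ¬ T.degree (nb u) = 2).filter fun u => nb u = a) with h0 | h0
    · rw [h0, card_empty]
      exact Nat.zero_le _
    · obtain ⟨u, hu⟩ := h0
      rw [mem_filter, mem_filter] at hu
      have hne : T.degree a ≠ 2 := by
        rw [← hu.2]
        exact hu.1.2
      have hge : 2 ≤ T.degree a := by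
        rw [← hu.2]
        exact lc_two_le T hT.1 (by omega) (hnb1 u hu.1.1) (mem_filter.1 hu.1.1).2
      omega
  have h4 : ∑ a ∈ A, (T.degree a - 2) + 2 * A.card ≤
      n + (univ.filter fun a => a ∉ B ∧ T.degree a = 1).card := by
    have e1 : (univ.filter fun a => a ∉ B ∧ T.degree a = 1) = A.filter fun a => T.degree a = 1 := by
      rw [hA, filter_filter]
    have e3 : (A.filter fun a => T.degree a = 1).card =
        ∑ a ∈ A, (if T.degree a = 1 then 1 else 0) := card_filter _ _
    have e2 : 2 * A.card = ∑ a ∈ A, 2 := by rw [sum_const, smul_eq_mul, mul_comm]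
    rw [e1, e3, ← hsumA, e2, ← sum_add_distrib, ← sum_add_distrib]
    apply sum_le_sum
    intro a _
    have := lc_pos T hT (by omega) a
    split_ifs <;> omega
  rw [← mul_sum] at h3
  omega

end Pool.Agent.Helper83.GH
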