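import Pool.Agent.Helper83.GH.Defs

/-!
# GHA-LIFT: labels from residues

Each residue mod `M` has `w` preimages in `ZMod (M * w)`; choose for each residue `ρ` an injection of
`{a ∈ A : F a = ρ}` into the set of the preimages of `ρ`. `card_red`: the number of the preimages.
-/

namespace Pool.Agent.Helper83.GH

open Finset

lemma red_surj (M w : ℕ) : Function.Surjective (red M w) := ZMod.castHom_surjective _

lemma card_red_eq (M w : ℕ) [NeZero (M * w)] (ρ ρ' : ZMod M) :
    (univ.filter fun k : ZMod (M * w) => red M w k = ρ).card =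
      (univ.filter fun k : ZMod (M * w) => red M w k = ρ').card := by
  obtain ⟨d, hd⟩ := red_surj M w (ρ' - ρ)
  refine Finset.card_bij (fun k _ => k + d) ?_ ?_ ?_
  · intro k hk
    simp only [mem_filter, mem_univ, true_and] at hk ⊢
    rw [map_add, hk, hd]
    ring
  · intro a _ b _ h
    exact add_right_cancel h
  · intro b hb
    simp only [mem_filter, mem_univ, true_and] at hb
    refine ⟨b - d, ?_, ?_⟩
    · simp only [mem_filter, mem_univ, true_and]
      rw [map_sub, hb, hd]
      ring
    · ring

lemma card_red (M w : ℕ) [NeZero (M * w)] (ρ : ZMod M) :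
    (univ.filter fun k : ZMod (M * w) => red M w k = ρ).card = w := by
  have hMw : M * w ≠ 0 := NeZero.ne _
  have hM : M ≠ 0 := fun h => hMw (by rw [h, zero_mul])
  have : NeZero M := ⟨hM⟩
  have h1 : (univ : Finset (ZMod (M * w))).card =
      ∑ ρ' : ZMod M, (univ.filter fun k : ZMod (M * w) => red M w k = ρ').card :=
    Finset.card_eq_sum_card_fiberwise fun _ _ => mem_univ _
  rw [Finset.sum_congr rfl (fun ρ' _ => card_red_eq M w ρ' ρ), Finset.sum_const, Finset.card_univ,
    Finset.card_univ, ZMod.card, ZMod.card, smul_eq_mul] at h1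
  exact (Nat.eq_of_mul_eq_mul_left (Nat.pos_of_ne_zero hM) h1).symm

lemma card_red_mem (M w : ℕ) [NeZero (M * w)] (S : Finset (ZMod M)) :
    (univ.filter fun k : ZMod (M * w) => red M w k ∈ S).card = w * S.card := by
  have h1 : (univ.filter fun k : ZMod (M * w) => red M w k ∈ S).card =
      ∑ ρ ∈ S, ((univ.filter fun k : ZMod (M * w) => red M w k ∈ S).filter
        fun k => red M w k = ρ).card :=
    Finset.card_eq_sum_card_fiberwise fun k hk => (mem_filter.mp hk).2
  rw [h1, Finset.sum_congr rfl (g := fun _ => w), Finset.sum_const, smul_eq_mul, mul_comm]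
  intro ρ hρ
  refine Eq.trans ?_ (card_red M w ρ)
  rw [Finset.filter_filter]
  congr 1
  ext k
  simp only [mem_filter, mem_univ, true_and]
  exact ⟨fun h => h.2, fun h => ⟨h ▸ hρ, h⟩⟩

theorem lift {V : Type} [Fintype V] [DecidableEq V] (M w : ℕ) [NeZero (M * w)] (F : V → ZMod M)
    (A : Finset V) (hA : ∀ ρ, (A.filter fun a => F a = ρ).card ≤ w) :
    ∃ f : V → ZMod (M * w), (∀ a ∈ A, red M w (f a) = F a) ∧ Set.InjOn f A := by
  have h1 : ∀ ρ : ZMod M, ∃ e : V → ZMod (M * w),
      (∀ a ∈ A.filter (fun a => F a = ρ), e a ∈ univ.filter fun k : ZMod (M * w) => red M w k = ρ) ∧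
        Set.InjOn e (A.filter fun a => F a = ρ) := by
    intro ρ
    have hc : (A.filter fun a => F a = ρ).card ≤
        (univ.filter fun k : ZMod (M * w) => red M w k = ρ).card := (hA ρ).trans (card_red M w ρ).ge
    obtain ⟨t, ht, htc⟩ := Finset.exists_subset_card_eq hc
    have he := Finset.equivOfCardEq htc.symm
    refine ⟨fun a => if ha : a ∈ A.filter (fun a => F a = ρ) then (he ⟨a, ha⟩ : ZMod (M * w)) else 0,
      fun a ha => ?_, ?_⟩
    · simp only [dif_pos ha]
      exact ht (he ⟨a, ha⟩).2
    · intro a ha b hb hab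
      have ha' : a ∈ A.filter (fun a => F a = ρ) := ha
      have hb' : b ∈ A.filter (fun a => F a = ρ) := hb
      simp only [dif_pos ha', dif_pos hb'] at hab
      have h3 := he.injective (Subtype.ext hab)
      exact congrArg Subtype.val h3
  choose e he1 he2 using h1
  refine ⟨fun a => e (F a) a, fun a ha => ?_, ?_⟩
  · have := he1 (F a) a (mem_filter.mpr ⟨ha, rfl⟩)
    exact (mem_filter.mp this).2
  · intro a ha b hb hab
    have ha' := (mem_filter.mp (he1 (F a) a (mem_filter.mpr ⟨ha, rfl⟩))).2
    have hb' := (mem_filter.mp (he1 (F b) b (mem_filter.mpr ⟨hb, rfl⟩))).2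
    have hab' : e (F a) a = e (F b) b := hab
    have hF : F a = F b := by rw [← ha', ← hb', hab']
    rw [← hF] at hab'
    exact he2 (F a) (by simp [Finset.mem_coe.mp ha]) (by simp [Finset.mem_coe.mp hb, hF]) hab'

end Pool.Agent.Helper83.GH
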