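import Pool.Agent.Helper83.GH.Defs

/-!
# GHA-YSEL: choice of the flexible leaves

Proof. For `b ∈ B` let `α b` be the number of the leaves adjacent to `b`, `cap b = min (α b) (deg b / 2)`.
Every leaf outside `B` has exactly one neighbour, in `B`, so `∑ b ∈ B, α b` is the number `α` of the
leaves outside `B`; `∑ b ∈ B, deg b = n` (`SimpleGraph.isBipartiteWith_sum_degrees_eq_card_edges`, see
`Helper80.GH.larger_class`). A vertex `b` is rich if `deg b ≤ K * α b`. The poor ones have
`K * α b < deg b`, so `K ∑ poor α b ≤ n ≤ K α / 2`, `∑ rich α b ≥ α / 2`. If `α b ≥ 1` then `deg b ≥ 2`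
(otherwise `T` has one edge, but `n ≥ 2`), so `3 cap b ≥ α b`. So `∑ rich cap b ≥ α / 6 ≥ x`. Take a minimal
set `Q` of rich vertices with `∑ Q cap b ≥ x` (all with `cap b ≥ 1`): `∑ Q cap b ≤ x + Δ`. Choose `cap b`
leaves at each `b ∈ Q`, and a subset `Y` of exactly `x` of them. `∑ deg b ≤ K ∑ α b ≤ 3 K ∑ Q cap b`.
-/

namespace Pool.Agent.Helper83.GH

open Finset

/-- In a connected graph with at least three vertices the neighbour of a leaf is not a leaf. -/
lemma ysel_two_le {V : Type} [Fintype V] [DecidableEq V] (T : SimpleGraph V) [DecidableRel T.Adj]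
    (hT : T.Connected) (hc : 3 ≤ Fintype.card V) {b y : V} (h : T.Adj b y)
    (hy : T.degree y = 1) : 2 ≤ T.degree b := by
  by_contra hlt
  have hpos : 0 < T.degree b := by
    rw [SimpleGraph.degree_pos_iff_exists_adj]
    exact ⟨y, h⟩
  have hb : T.degree b = 1 := by omega
  rw [SimpleGraph.degree_eq_one_iff_existsUnique_adj] at hy hb
  have key : ∀ u v (_ : T.Walk u v), (u = b ∨ u = y) → (v = b ∨ v = y) := by
    intro u v p
    induction p with
    | nil => exact id
    | cons hadj _ ih =>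
      intro hu
      apply ih
      rcases hu with hu | hu
      · subst hu
        exact Or.inr (hb.unique hadj h)
      · subst hu
        exact Or.inl (hy.unique hadj h.symm)
  have hall : (univ : Finset V) ⊆ {b, y} := by
    intro v _
    obtain ⟨p⟩ := hT.preconnected b v
    rw [mem_insert, mem_singleton]
    exact key b v p (Or.inl rfl)
  have h1 := card_le_card hall
  have h2 : ({b, y} : Finset V).card ≤ 2 := card_le_two
  rw [card_univ] at h1
  omega

/-- A minimal set of items with total capacity at least `x`. -/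
lemma ysel_min {V : Type} [DecidableEq V] (R : Finset V) (cap : V → ℕ) (x Δ : ℕ)
    (hcap : ∀ b ∈ R, cap b ≤ Δ) (hx : x ≤ ∑ b ∈ R, cap b) :
    ∃ Q ⊆ R, x ≤ ∑ b ∈ Q, cap b ∧ ∑ b ∈ Q, cap b ≤ x + Δ := by
  induction R using Finset.strongInduction with
  | H R ih =>
    by_cases h : ∑ b ∈ R, cap b ≤ x + Δ
    · exact ⟨R, Subset.refl R, hx, h⟩
    · have hne : R.Nonempty := by
        rw [nonempty_iff_ne_empty]
        rintro rfl
        apply h
        simp
      obtain ⟨b, hb⟩ := hne
      have h1 := add_sum_erase R cap hb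
      have h2 := hcap b hb
      obtain ⟨Q, hQ, hQ1, hQ2⟩ := ih (R.erase b) (erase_ssubset hb)
        (fun c hc => hcap c (mem_of_mem_erase hc)) (by omega)
      exact ⟨Q, hQ.trans (erase_subset b R), hQ1, hQ2⟩

theorem ysel (V : Type) [Fintype V] [DecidableEq V] (T : SimpleGraph V) [DecidableRel T.Adj]
    (hT : T.IsTree) (n : ℕ) (hn : Fintype.card V = n + 1) (hn2 : 2 ≤ n) (B : Finset V)
    (hB : ∀ u w, T.Adj u w → (u ∈ B ↔ w ∉ B)) (x K Δ : ℕ) (hdeg : ∀ b ∈ B, T.degree b ≤ Δ)
    (hK : 2 * n ≤ K * (univ.filter fun a : V => a ∉ B ∧ T.degree a = 1).card)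
    (hx : 6 * x ≤ (univ.filter fun a : V => a ∉ B ∧ T.degree a = 1).card) :
    ∃ Y : Finset V, (∀ y ∈ Y, y ∉ B ∧ T.degree y = 1) ∧ Y.card = x ∧
      (∀ b ∈ B, 2 * (Y.filter fun y => T.Adj b y).card ≤ T.degree b) ∧
      ∑ b ∈ B.filter (fun b => ∃ y ∈ Y, T.Adj b y), T.degree b ≤ 3 * K * (x + Δ) := by
  classical
  set L : Finset V := univ.filter fun a : V => a ∉ B ∧ T.degree a = 1 with hL
  have hLmem : ∀ y, y ∈ L ↔ (y ∉ B ∧ T.degree y = 1) := by
    intro y
    rw [hL, mem_filter]
    exact and_iff_right (mem_univ y)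
  -- the unique neighbour of a leaf
  have huniq : ∀ y ∈ L, ∃ b, T.Adj b y ∧ b ∈ B ∧ ∀ b', T.Adj b' y → b' = b := by
    intro y hy
    obtain ⟨hyB, hyd⟩ := (hLmem y).1 hy
    rw [SimpleGraph.degree_eq_one_iff_existsUnique_adj] at hyd
    obtain ⟨b, hb, hb'⟩ := hyd
    exact ⟨b, hb.symm, (hB b y hb.symm).2 hyB, fun b' h => hb' b' h.symm⟩
  choose! nb hnb1 hnb2 hnb3 using huniq
  have hadj : ∀ y ∈ L, ∀ b, T.Adj b y ↔ nb y = b := by
    intro y hy b
    constructor
    · intro h
      exact (hnb3 y hy b h).symm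
    · rintro rfl
      exact hnb1 y hy
  set α : V → ℕ := fun b => (L.filter fun y => nb y = b).card with hα
  set cap : V → ℕ := fun b => min (α b) (T.degree b / 2) with hcapdef
  -- sum of α
  have hsumα : ∑ b ∈ B, α b = L.card := by
    rw [hα]
    exact (card_eq_sum_card_fiberwise (f := nb) (s := L) (t := B) (fun y hy => hnb2 y hy)).symm
  -- sum of degrees
  have hbip : T.IsBipartiteWith (B : Set V) ((Bᶜ : Finset V) : Set V) := by
    refine ⟨?_, ?_⟩
    · rw [Finset.disjoint_coe]
      exact disjoint_compl_right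
    · intro v w hvw
      have := hB v w hvw
      simp only [mem_coe, mem_compl]
      tauto
  have hsum : ∑ b ∈ B, T.degree b = n := by
    rw [SimpleGraph.isBipartiteWith_sum_degrees_eq_card_edges hbip]
    have := hT.card_edgeFinset
    omega
  have hαdeg : ∀ b, α b ≤ T.degree b := by
    intro b
    rw [hα, ← SimpleGraph.card_neighborFinset_eq_degree]
    apply card_le_card
    intro y hy
    rw [mem_filter] at hy
    rw [SimpleGraph.mem_neighborFinset]
    exact (hadj y hy.1 b).2 hy.2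
  -- 3 cap ≥ α
  have hcap3 : ∀ b, α b ≤ 3 * cap b := by
    intro b
    rcases Nat.eq_zero_or_pos (α b) with h0 | h0
    · omega
    · have h0' := h0
      rw [hα] at h0'
      obtain ⟨y, hy⟩ := card_pos.1 h0'
      rw [mem_filter] at hy
      have h2 : 2 ≤ T.degree b := ysel_two_le T hT.1 (by omega) ((hadj y hy.1 b).2 hy.2)
        ((hLmem y).1 hy.1).2
      have h3 := hαdeg b
      have h4 : cap b = min (α b) (T.degree b / 2) := rfl
      rw [h4]
      omega
  -- rich vertices
  set R : Finset V := B.filter fun b => T.degree b ≤ K * α b with hR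
  have hpoor : K * ∑ b ∈ B.filter (fun b => ¬ T.degree b ≤ K * α b), α b ≤ n := by
    rw [mul_sum, ← hsum]
    calc ∑ b ∈ B.filter (fun b => ¬ T.degree b ≤ K * α b), K * α b
        ≤ ∑ b ∈ B.filter (fun b => ¬ T.degree b ≤ K * α b), T.degree b := by
          apply sum_le_sum
          intro b hb
          rw [mem_filter] at hb
          omega
      _ ≤ ∑ b ∈ B, T.degree b := sum_le_sum_of_subset (filter_subset _ _)
  have hsplit := sum_filter_add_sum_filter_not B (fun b => T.degree b ≤ K * α b) α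
  rw [hsumα] at hsplit
  have hKpos : 0 < K := by
    rcases Nat.eq_zero_or_pos K with h | h
    · rw [h] at hK
      omega
    · exact h
  have hrich : L.card ≤ 2 * ∑ b ∈ R, α b := by
    have h1 : K * (2 * ∑ b ∈ B.filter (fun b => ¬ T.degree b ≤ K * α b), α b) ≤ K * L.card := by
      calc K * (2 * ∑ b ∈ B.filter (fun b => ¬ T.degree b ≤ K * α b), α b)
          = 2 * (K * ∑ b ∈ B.filter (fun b => ¬ T.degree b ≤ K * α b), α b) := by ring
        _ ≤ 2 * n := by omega
        _ ≤ K * L.card := hK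
    have h2 := Nat.le_of_mul_le_mul_left h1 hKpos
    have h3 : ∑ b ∈ R, α b + ∑ b ∈ B.filter (fun b => ¬ T.degree b ≤ K * α b), α b = L.card := hsplit
    omega
  have hcapsum : x ≤ ∑ b ∈ R, cap b := by
    have h1 : ∑ b ∈ R, α b ≤ 3 * ∑ b ∈ R, cap b := by
      rw [mul_sum]
      exact sum_le_sum fun b _ => hcap3 b
    omega
  have hcapΔ : ∀ b ∈ R, cap b ≤ Δ := by
    intro b hb
    have h1 := hdeg b (mem_filter.1 hb).1
    have h4 : cap b = min (α b) (T.degree b / 2) := rfl
    omega
  obtain ⟨Q, hQR, hQ1, hQ2⟩ := ysel_min R cap x Δ hcapΔ hcapsum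
  -- choose the leaves
  have hC : ∀ b, ∃ C ⊆ L.filter (fun y => nb y = b), C.card = cap b := by
    intro b
    apply exists_subset_card_eq
    exact min_le_left _ _
  choose C hC1 hC2 using hC
  have hcardU : (Q.biUnion C).card = ∑ b ∈ Q, cap b := by
    rw [card_biUnion]
    · exact sum_congr rfl fun b _ => hC2 b
    · intro b _ b' _ hbb'
      change Disjoint (C b) (C b')
      rw [disjoint_left]
      intro y hy hy'
      have h1 := (mem_filter.1 (hC1 b hy)).2
      have h2 := (mem_filter.1 (hC1 b' hy')).2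
      exact hbb' (h1.symm.trans h2)
  obtain ⟨Y, hYU, hYc⟩ := exists_subset_card_eq (s := Q.biUnion C) (n := x) (by omega)
  have hYmem : ∀ y ∈ Y, y ∈ L ∧ nb y ∈ Q ∧ y ∈ C (nb y) := by
    intro y hy
    obtain ⟨b, hb, hyb⟩ := mem_biUnion.1 (hYU hy)
    have h1 := mem_filter.1 (hC1 b hyb)
    refine ⟨h1.1, ?_, ?_⟩
    · rw [h1.2]
      exact hb
    · rw [h1.2]
      exact hyb
  refine ⟨Y, fun y hy => (hLmem y).1 (hYmem y hy).1, hYc, ?_, ?_⟩
  · intro b _
    have h1 : Y.filter (fun y => T.Adj b y) ⊆ C b := by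
      intro y hy
      rw [mem_filter] at hy
      obtain ⟨a1, _, a3⟩ := hYmem y hy.1
      rw [(hadj y a1 b).1 hy.2] at a3
      exact a3
    have h2 := card_le_card h1
    rw [hC2 b] at h2
    have h4 : cap b = min (α b) (T.degree b / 2) := rfl
    omega
  · calc ∑ b ∈ B.filter (fun b => ∃ y ∈ Y, T.Adj b y), T.degree b
        ≤ ∑ b ∈ Q, T.degree b := by
          apply sum_le_sum_of_subset
          intro b hb
          rw [mem_filter] at hb
          obtain ⟨_, y, hy, hby⟩ := hb
          obtain ⟨a1, a2, _⟩ := hYmem y hy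
          rw [(hadj y a1 b).1 hby] at a2
          exact a2
      _ ≤ ∑ b ∈ Q, K * α b := sum_le_sum fun b hb => (mem_filter.1 (hQR hb)).2
      _ ≤ ∑ b ∈ Q, K * (3 * cap b) := sum_le_sum fun b _ => Nat.mul_le_mul_left K (hcap3 b)
      _ = 3 * K * ∑ b ∈ Q, cap b := by
          rw [mul_sum]
          exact sum_congr rfl fun b _ => by ring
      _ ≤ 3 * K * (x + Δ) := Nat.mul_le_mul_left _ hQ2

end Pool.Agent.Helper83.GH
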