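import Pool.Agent.Helper83.GH.MainA
import Pool.Agent.Helper83.GH.Num2

/-!
# Theorem A with a longer range of `|A|`
-/

namespace Pool.Agent.Helper83.GH

open Finset Pool.Agent.Helper19.GH

/-- One type of copies. -/
lemma type_exists1 (V : Type) [Fintype V] [DecidableEq V] (T : SimpleGraph V) [DecidableRel T.Adj]
    (hT : T.IsTree) (n : ℕ) (hn : Fintype.card V = n + 1) (hn2 : 2 ≤ n) (B : Finset V)
    (hB : ∀ u w, T.Adj u w → (u ∈ B ↔ w ∉ B)) (ε θ : ℝ)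
    (hA : (2 * (n + 1 - B.card : ℕ) : ℝ) ≤ n + 1 + θ * n)
    (K Δ M w x M' x' : ℕ) (hp : NumType2 ε θ K n Δ M w x M' x')
    (hΔ : 1 ≤ Δ) (hdeg : ∀ b ∈ B, T.degree b ≤ Δ)
    (Λ : Finset V) (hΛ : ∀ u ∈ Λ, u ∈ B ∧ T.degree u = 1)
    (hΛΔ : ∀ a, (Λ.filter fun u => T.Adj a u).card ≤ Δ) (hΛc : ε * n ≤ Λ.card)
    (hα : ε * n ≤ (univ.filter fun a : V => a ∉ B ∧ T.degree a = 1).card)
    (hK : 2 * n ≤ K * (univ.filter fun a : V => a ∉ B ∧ T.degree a = 1).card) :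
    ∃ (Y : Finset V) (κ G Gx : ℕ) (F : V → ZMod M) (g : V → ℕ) (o : V → ZMod M) (U : Finset V),
      Y.card = x ∧ IsK T B Y M G Gx F g o U ∧
      (∀ ρ, (univ.filter fun a : V => a ∉ B ∧ a ∉ Y ∧ F a = ρ).card < w) ∧
      Gx * M ≤ 2 * (3 * K * (x + Δ)) + 2 * M ^ 3 ∧ Λ.card ≤ U.card + 3 * M ^ 3 + κ + x ∧
      2 * (3 * K * (x' + Δ)) + 2 * M' ^ 3 + 3 * M ^ 3 + κ ≤ Λ.card := by
  have : Fact M.Prime := ⟨hp.hM⟩
  obtain ⟨Y, hY1, hY2, hY3, hY4⟩ := ysel V T hT n hn hn2 B hB x K Δ hdeg hK (by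
    have h := hp.hx.trans hα
    exact_mod_cast h)
  obtain ⟨lam, hlam, hN⟩ := hp.hN
  obtain ⟨μ, β, κ, hμ, hL, hκ, hneed, hfit⟩ := hp.hL Λ.card hΛc
  have hAc : (univ.filter fun a : V => a ∉ B ∧ a ∉ Y).card + x + B.card = n + 1 := by
    have h1 : (univ.filter fun a : V => a ∉ B ∧ a ∉ Y) = univ \ (B ∪ Y) := by
      ext a
      simp [mem_union]
    have h2 : Disjoint B Y := by
      rw [disjoint_left]
      intro a ha ha'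
      exact (hY1 a ha').1 ha
    rw [h1, card_sdiff_of_subset (subset_univ _), card_univ, hn, card_union_of_disjoint h2, hY2]
    have h3 := card_le_card (subset_univ (B ∪ Y))
    rw [card_union_of_disjoint h2, hY2, card_univ, hn] at h3
    omega
  obtain ⟨G, Gx, F, g, o, U, h1, h2, h3, h4⟩ := exists_K V T hT n hn hn2 B hB M w Δ hΔ hp.h2 hdeg Y
    hY1 hY3 Λ hΛ hΛΔ β κ lam μ hlam hμ (by
      have h5 := hN (n + 1 - B.card) hA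
      have h6 : ((n + 1 - B.card : ℕ) : ℝ) - x =
          ((univ.filter fun a : V => a ∉ B ∧ a ∉ Y).card : ℝ) := by
        have : n + 1 - B.card = (univ.filter fun a : V => a ∉ B ∧ a ∉ Y).card + x := by omega
        rw [this]
        push_cast
        ring
      rw [h6] at h5
      exact h5) hL hκ (by rw [hY2]; exact hneed) (3 * K * (x + Δ)) hY4
  exact ⟨Y, κ, G, Gx, F, g, o, U, hY2, h1, h2, h3, by rw [← hY2]; exact h4, hfit⟩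

theorem mainA1 (ε : ℝ) (hε : 0 < ε) : ∃ c θ : ℝ, 0 < c ∧ 0 < θ ∧
    ∀ (V : Type) [Fintype V] [DecidableEq V]
    (T : SimpleGraph V) [DecidableRel T.Adj] (n Δ : ℕ) (B Λ : Finset V), T.IsTree →
    Fintype.card V = n + 1 → (∀ u w, T.Adj u w → (u ∈ B ↔ w ∉ B)) →
    (2 * (n + 1 - B.card : ℕ) : ℝ) ≤ n + 1 + θ * n →
    (∀ b ∈ B, T.degree b ≤ Δ) → 1 ≤ Δ → (Δ : ℝ) ^ 3 ≤ c * n →
    (∀ u ∈ Λ, u ∈ B ∧ T.degree u = 1) → (∀ a, (Λ.filter fun u => T.Adj a u).card ≤ Δ) →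
    ε * n ≤ Λ.card → ε * n ≤ (univ.filter fun a : V => a ∉ B ∧ T.degree a = 1).card →
    Decomposes T (completeBipartiteGraph (Fin n) (Fin n)) := by
  have hε' : 0 < min ε 1 := lt_min hε one_pos
  obtain ⟨K, hK⟩ := exists_nat_ge (2 / min ε 1)
  obtain ⟨c, θ, hc, hθ, hnum⟩ := num2 (min ε 1) hε' (min_le_right _ _) K
  refine ⟨c, θ, hc, hθ, ?_⟩
  intro V _ _ T _ n Δ B Λ hT hn hB hA hdeg hΔ hΔ3 hΛ hΛΔ hΛc hα
  obtain ⟨M₁, w₁, M₂, w₂, x₁, x₂, j₂, hp₁, hp₂, hm, hx₁, hx₂, hx₂₁, hj₂, hbal, hc₁, hc₂, hm₁, hm₂,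
    hn10, hw₁, hw₂, hz⟩ := hnum n Δ hΔ hΔ3
  have hn2 : 2 ≤ n := by omega
  have hle : min ε 1 * n ≤ ε * n := mul_le_mul_of_nonneg_right (min_le_left _ _) (by positivity)
  have hKα : 2 * n ≤ K * (univ.filter fun a : V => a ∉ B ∧ T.degree a = 1).card := by
    have h1 : (2 / min ε 1) * (min ε 1 * n) ≤
        K * ((univ.filter fun a : V => a ∉ B ∧ T.degree a = 1).card : ℝ) :=
      mul_le_mul hK (hle.trans hα) (by positivity) (by positivity)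
    have h2 : (2 / min ε 1) * (min ε 1 * n) = 2 * (n : ℝ) := by
      field_simp
    rw [h2] at h1
    exact_mod_cast h1
  obtain ⟨Y₁, κ₁, G₁, X₁, F₁, g₁, o₁, U₁, a1, a2, a3, a4, a5, a6⟩ := type_exists1 V T hT n hn hn2 B
    hB (min ε 1) θ hA K Δ M₁ w₁ x₁ M₂ x₂ hp₁ hΔ hdeg Λ hΛ hΛΔ (hle.trans hΛc) (hle.trans hα) hKα
  obtain ⟨Y₂, κ₂, G₂, X₂, F₂, g₂, o₂, U₂, b1, b2, b3, b4, b5, b6⟩ := type_exists1 V T hT n hn hn2 B
    hB (min ε 1) θ hA K Δ M₂ w₂ x₂ M₁ x₁ hp₂ hΔ hdeg Λ hΛ hΛΔ (hle.trans hΛc) (hle.trans hα) hKα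
  have hM₁ := hp₁.hM.pos
  have hM₂ := hp₂.hM.pos
  have : NeZero M₁ := ⟨hM₁.ne'⟩
  have : NeZero M₂ := ⟨hM₂.ne'⟩
  have : NeZero (M₁ * w₁) := ⟨(Nat.mul_pos hM₁ hw₁).ne'⟩
  have : NeZero (M₂ * w₂) := ⟨(Nat.mul_pos hM₂ hw₂).ne'⟩
  have c1 := a2.hcount
  have c2 := b2.hcount
  refine couple V T hT n hn B hB M₁ w₁ M₂ w₂ hm a2 b2 a3 b3 (card_pos.1 (by omega))
    (card_pos.1 (by omega)) M₁ j₂ le_rfl hj₂ (by
      rw [a1, b1, ← hbal]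
      obtain ⟨x, rfl⟩ : ∃ x, x₁ = x + 1 := ⟨x₁ - 1, by omega⟩
      rw [Nat.add_sub_cancel]
      ring)
    ?_ ?_ (by omega) (by omega) hm₁ hm₂
  · omega
  · omega

end Pool.Agent.Helper83.GH
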