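import Pool.Agent.Helper83.GH.NumDef2
import Pool.Agent.Helper83.GH.Num1

/-!
# GHC-NUM: the parameters of one type, second version
-/

namespace Pool.Agent.Helper83.GH

lemma num_type2 (ε τ c' η : ℝ) (hε : 0 < ε) (hε1 : ε ≤ 1) (K : ℕ)
    (hτ : τ * (100 * (K + 1)) = ε) (hc' : c' = τ ^ 2 * ε / 100000) (hη : η = τ / 100)
    (n Δ M w x M' x' X : ℕ) (hΔ : 1 ≤ Δ) (hM : M.Prime) (hXM : X < M) (hM4 : M ≤ 4 * X)
    (hM4' : M' ≤ 4 * X) (hΔX : (Δ : ℝ) ≤ η * X) (hX3 : (X : ℝ) ^ 3 ≤ c' * n)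
    (hm : (n : ℝ) / 2 - 9 * X ^ 2 ≤ M * w) (hx1 : τ * n / 6 ≤ x) (hx2 : x ≤ τ * n)
    (hx2' : x' ≤ τ * n) : NumType2 ε (τ / 50) K n Δ M w x M' x' := by
  have hK0 : (0 : ℝ) ≤ K := Nat.cast_nonneg K
  have hn0 : (0 : ℝ) ≤ n := Nat.cast_nonneg n
  have hτ0 : 0 < τ := by
    by_contra h
    push Not at h
    have : τ * (100 * (K + 1)) ≤ 0 := mul_nonpos_of_nonpos_of_nonneg h (by positivity)
    linarith
  have hKτ : τ * K * 100 + τ * 100 = ε := by
    rw [← hτ]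
    ring
  have hKτ0 : 0 ≤ τ * K := by positivity
  have hτε : 100 * τ ≤ ε := by linarith
  have hτ1 : τ ≤ 1 / 100 := by linarith
  have hΔ1 : (1 : ℝ) ≤ Δ := by exact_mod_cast hΔ
  have hX100 : 100 ≤ τ * X := by
    rw [hη] at hΔX
    linarith
  have hX0 : (0 : ℝ) ≤ X := Nat.cast_nonneg X
  have hτX : τ * X ≤ 1 / 100 * X := mul_le_mul_of_nonneg_right hτ1 hX0
  have hττ : τ * τ ≤ 1 / 100 * τ := mul_le_mul_of_nonneg_right hτ1 hτ0.le
  have hX1 : (10000 : ℝ) ≤ X := by linarith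
  have hXM' : (X : ℝ) + 1 ≤ M := by exact_mod_cast hXM
  have hM4r : (M : ℝ) ≤ 4 * X := by exact_mod_cast hM4
  have hM4r' : (M' : ℝ) ≤ 4 * X := by exact_mod_cast hM4'
  have hX2 : (X : ℝ) ^ 2 ≤ τ * (X : ℝ) ^ 3 / 100 := by
    have : (X : ℝ) ^ 2 * 100 ≤ (X : ℝ) ^ 2 * (τ * X) :=
      mul_le_mul_of_nonneg_left hX100 (by positivity)
    linarith [this, show (X : ℝ) ^ 2 * (τ * X) = τ * (X : ℝ) ^ 3 by ring]
  have hX2' : (10 : ℝ) ^ 8 ≤ (X : ℝ) ^ 2 := by
    calc (10 : ℝ) ^ 8 = 10000 * 10000 := by norm_num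
      _ ≤ (X : ℝ) * X := mul_self_le_mul_self (by norm_num) hX1
      _ = (X : ℝ) ^ 2 := by ring
  have hX3' : (X : ℝ) ≤ (X : ℝ) ^ 3 / 10 ^ 8 := by
    have : (X : ℝ) * 10 ^ 8 ≤ (X : ℝ) * (X : ℝ) ^ 2 := mul_le_mul_of_nonneg_left hX2' hX0
    have h2 : (X : ℝ) * (X : ℝ) ^ 2 = (X : ℝ) ^ 3 := by ring
    rw [h2] at this
    rw [le_div_iff₀ (by norm_num)]
    exact this
  have hM1 : (0 : ℝ) < (M : ℝ) - 1 := by linarith
  have hM0 : (0 : ℝ) < M := by linarith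
  have hpn : (X : ℝ) ^ 3 ≤ τ ^ 2 * ε / 100000 * n := by rw [← hc']; exact hX3
  have hpn1 : (X : ℝ) ^ 3 ≤ ε * n / 10 ^ 9 := by
    have h1 : τ ^ 2 ≤ 1 / 10 ^ 4 := by
      have e : τ ^ 2 = τ * τ := by ring
      rw [e]
      norm_num
      linarith
    have h2 : τ ^ 2 * (ε * n) ≤ 1 / 10 ^ 4 * (ε * n) :=
      mul_le_mul_of_nonneg_right h1 (by positivity)
    have h3 : τ ^ 2 * ε / 100000 * n = τ ^ 2 * (ε * n) / 100000 := by ring
    rw [h3] at hpn
    have h4 : (1 : ℝ) / 10 ^ 4 * (ε * n) = ε * n / 10000 := by ring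
    rw [h4] at h2
    have h5 : ε * n / 10 ^ 9 = ε * n / 10000 / 100000 := by ring
    rw [h5]
    linarith
  have hεn : (0 : ℝ) ≤ ε * n := by positivity
  have hτn : τ * n ≤ ε * n / 100 := by
    have := mul_le_mul_of_nonneg_right hτε hn0
    linarith
  have hlogM : Real.log (2 * M) ≤ 2 * M := by
    have := Real.log_le_sub_one_of_pos (show (0 : ℝ) < 2 * M by positivity)
    linarith
  have hMM : (M : ℝ) ^ 2 ≤ 16 * X ^ 2 := by
    have h1 := mul_self_le_mul_self hM0.le hM4r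
    have h2 : (M : ℝ) ^ 2 = M * M := by ring
    have h3 : 16 * (X : ℝ) ^ 2 = 4 * X * (4 * X) := by ring
    rw [h2, h3]
    exact h1
  have hMMM : (M : ℝ) ^ 3 ≤ 64 * X ^ 3 := by
    have := pow_le_pow_left₀ hM0.le hM4r 3
    calc (M : ℝ) ^ 3 ≤ (4 * X) ^ 3 := this
      _ = 64 * X ^ 3 := by ring
  have hMMM' : (M' : ℝ) ^ 3 ≤ 64 * X ^ 3 := by
    have := pow_le_pow_left₀ (Nat.cast_nonneg M') hM4r' 3
    calc (M' : ℝ) ^ 3 ≤ (4 * X) ^ 3 := this
      _ = 64 * X ^ 3 := by ring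
  have hinv : 1 / ((M : ℝ) - 1) ≤ (1 + τ / 100) / M := by
    rw [div_le_div_iff₀ hM1 hM0]
    have h1 : τ * X ≤ τ * (M - 1) := mul_le_mul_of_nonneg_left (by linarith) hτ0.le
    have h2 : (1 + τ / 100) * ((M : ℝ) - 1) = M - 1 + τ * (M - 1) / 100 := by ring
    rw [h2]
    linarith
  refine ⟨hM, ?_, ?_, ?_, ?_⟩
  · have : (2 * Δ : ℝ) ≤ M := by
      rw [hη] at hΔX
      have h1 : τ / 100 * X = τ * X / 100 := by ring
      rw [h1] at hΔX
      linarith
    exact_mod_cast this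
  · linarith
  · refine ⟨τ / 20, by positivity, fun nA hnA => ?_⟩
    have hnA' : (2 * nA : ℝ) ≤ n + 1 + τ / 50 * n := hnA
    have hexp := exp_sub_le (z := τ / 20) (by positivity) (by linarith)
    have hexp0 : 0 ≤ Real.exp (τ / 20) - 1 := by
      have := Real.add_one_le_exp (τ / 20)
      linarith
    have hexp' : Real.exp (τ / 20) - 1 ≤ τ / 20 * (1 + τ / 10) := by
      by_contra h
      push Not at h
      have h1 : τ / 20 * (1 + τ / 10) * (1 - τ / 20) < (Real.exp (τ / 20) - 1) * (1 - τ / 20) :=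
        mul_lt_mul_of_pos_right h (by linarith)
      have h2 : τ / 20 ≤ τ / 20 * (1 + τ / 10) * (1 - τ / 20) := by
        have : 1 ≤ (1 + τ / 10) * (1 - τ / 20) := by
          have e : (1 + τ / 10) * (1 - τ / 20) = 1 + τ / 20 - τ * τ / 200 := by ring
          rw [e]
          linarith
        calc τ / 20 = τ / 20 * 1 := by ring
          _ ≤ τ / 20 * ((1 + τ / 10) * (1 - τ / 20)) :=
            mul_le_mul_of_nonneg_left this (by positivity)
          _ = _ := by ring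
      linarith
    set A₀ : ℝ := (n + 1) / 2 + τ * n / 100 - τ * n / 6 with hA₀
    have hA : (nA : ℝ) - x ≤ A₀ := by rw [hA₀]; linarith
    have hA₀0 : 0 ≤ A₀ := by
      rw [hA₀]
      have e : τ * n ≤ 1 / 100 * n := mul_le_mul_of_nonneg_right hτ1 hn0
      linarith
    have h1 : (Real.exp (τ / 20) - 1) * ((nA : ℝ) - x) / (M - 1) ≤
        τ / 20 * (1 + τ / 10) * A₀ * ((1 + τ / 100) / M) := by
      have e1 : (Real.exp (τ / 20) - 1) * ((nA : ℝ) - x) ≤ τ / 20 * (1 + τ / 10) * A₀ :=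
        (mul_le_mul_of_nonneg_left hA hexp0).trans (mul_le_mul_of_nonneg_right hexp' hA₀0)
      calc (Real.exp (τ / 20) - 1) * ((nA : ℝ) - x) / (M - 1)
          ≤ τ / 20 * (1 + τ / 10) * A₀ / (M - 1) := (div_le_div_iff_of_pos_right hM1).2 e1
        _ = τ / 20 * (1 + τ / 10) * A₀ * (1 / (M - 1)) := by ring
        _ ≤ _ := mul_le_mul_of_nonneg_left hinv (by positivity)
    have h2 : (1 + τ / 10) * A₀ * (1 + τ / 100) ≤ n / 2 + 1 - τ * n / 12 := by
      have e1 : (1 + τ / 10) * (1 + τ / 100) ≤ 1 + τ / 8 := by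
        have e : (1 + τ / 10) * (1 + τ / 100) = 1 + 11 * τ / 100 + τ * τ / 1000 := by ring
        rw [e]
        linarith
      calc (1 + τ / 10) * A₀ * (1 + τ / 100) = (1 + τ / 10) * (1 + τ / 100) * A₀ := by ring
        _ ≤ (1 + τ / 8) * A₀ := mul_le_mul_of_nonneg_right e1 hA₀0
        _ ≤ _ := by
          rw [hA₀]
          have e2 : 0 ≤ τ * (τ * n) := by positivity
          have e3 : 0 ≤ τ * n := by positivity
          have e4 : (1 + τ / 8) * (((n : ℝ) + 1) / 2 + τ * n / 100 - τ * n / 6) =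
              n / 2 + 1 / 2 + τ / 16 + τ * n / 16 - 47 * (τ * n) / 300 - 47 * (τ * (τ * n)) / 2400 := by ring
          rw [e4]
          linarith
    have h3 : 2 * (M : ℝ) + τ / 20 * (1 + τ / 10) * A₀ * ((1 + τ / 100) / M) < τ / 20 * w := by
      rw [show 2 * (M : ℝ) + τ / 20 * (1 + τ / 10) * A₀ * ((1 + τ / 100) / M) =
        (2 * (M : ℝ) ^ 2 + τ / 20 * ((1 + τ / 10) * A₀ * (1 + τ / 100))) / M by
          field_simp]
      rw [div_lt_iff₀ hM0]
      have e1 : τ / 20 * ((1 + τ / 10) * A₀ * (1 + τ / 100)) ≤ τ / 20 * (n / 2 + 1 - τ * n / 12) :=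
        mul_le_mul_of_nonneg_left h2 (by positivity)
      have e2 : τ / 20 * ((n : ℝ) / 2 - 9 * X ^ 2) ≤ τ / 20 * (M * w) :=
        mul_le_mul_of_nonneg_left hm (by positivity)
      have e3 : 2 * (M : ℝ) ^ 2 ≤ 32 * X ^ 2 := by linarith
      -- 32 X^2 + τ/20 + 9 τ X^2 / 20 < τ^2 n / 200
      have e4 : 32 * (X : ℝ) ^ 2 + τ / 20 + τ / 20 * (9 * X ^ 2) < τ / 20 * (τ * n / 12) := by
        have f1 : τ / 20 * (9 * X ^ 2) ≤ (X : ℝ) ^ 2 := by
          have f0 : τ / 20 * (9 * (X : ℝ) ^ 2) = 9 * τ / 20 * X ^ 2 := by ring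
          rw [f0]
          have f1 : 9 * τ / 20 * (X : ℝ) ^ 2 ≤ 1 * X ^ 2 :=
            mul_le_mul_of_nonneg_right (by linarith) (by positivity)
          linarith
        have f2 : τ / 20 ≤ (X : ℝ) ^ 2 := by
          have f0 : (10 : ℝ) ^ 8 = 100000000 := by norm_num
          rw [f0] at hX2'
          linarith
        have f3 : 32 * (X : ℝ) ^ 2 + τ / 20 + τ / 20 * (9 * X ^ 2) ≤ 34 * X ^ 2 := by linarith
        have f4 : 34 * (X : ℝ) ^ 2 ≤ 34 * (τ * (X : ℝ) ^ 3 / 100) := by linarith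
        have f5 : 34 * (τ * (X : ℝ) ^ 3 / 100) ≤ τ * (τ ^ 2 * ε / 100000 * n) := by
          have : τ * (X : ℝ) ^ 3 ≤ τ * (τ ^ 2 * ε / 100000 * n) :=
            mul_le_mul_of_nonneg_left hpn hτ0.le
          have g : 0 ≤ τ * (τ ^ 2 * ε / 100000 * n) := by positivity
          linarith
        have hnpos : (0 : ℝ) < n := by
          by_contra h
          have hn' : (n : ℝ) = 0 := le_antisymm (not_lt.1 h) hn0
          rw [hn'] at hpn
          have : (0 : ℝ) < (X : ℝ) ^ 3 := by positivity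
          linarith
        have f6 : τ * (τ ^ 2 * ε / 100000 * n) < τ / 20 * (τ * n / 12) := by
          have g0 : τ * ε ≤ 1 / 100 * 1 := mul_le_mul hτ1 hε1 hε.le (by norm_num)
          have g1 : τ * ε / 100000 < 1 / 240 := by linarith
          have g2 : 0 < τ ^ 2 * n := by positivity
          have g3 := mul_lt_mul_of_pos_left g1 g2
          have g4 : τ * (τ ^ 2 * ε / 100000 * n) = τ ^ 2 * n * (τ * ε / 100000) := by ring
          have g5 : τ / 20 * (τ * n / 12) = τ ^ 2 * n * (1 / 240) := by ring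
          rw [g4, g5]
          exact g3
        linarith
      have e5 : τ / 20 * ((n : ℝ) / 2 + 1 - τ * n / 12) = τ / 20 * (n / 2) + τ / 20 - τ / 20 * (τ * n / 12) := by
        ring
      have e6 : τ / 20 * ((n : ℝ) / 2 - 9 * X ^ 2) = τ / 20 * (n / 2) - τ / 20 * (9 * X ^ 2) := by ring
      have e7 : τ / 20 * (w : ℝ) * M = τ / 20 * (M * w) := by ring
      rw [e7]
      rw [e5] at e1
      rw [e6] at e2
      linarith
    linarith
  · intro l hl
    have hl0 : (0 : ℝ) ≤ l := Nat.cast_nonneg l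
    have hβ : ∃ β : ℕ, 20 * (Δ : ℝ) * M + 10 / 9 * l / (M - 1) ≤ β ∧
        (β : ℝ) ≤ 20 * (Δ : ℝ) * M + 10 / 9 * l / (M - 1) + 1 := by
      refine ⟨⌈20 * (Δ : ℝ) * M + 10 / 9 * l / (M - 1)⌉₊, Nat.le_ceil _,
        (Nat.ceil_lt_add_one ?_).le⟩
      positivity
    have hκ : ∃ κ : ℕ, 2 * (n : ℝ) * Δ / M ≤ κ ∧ (κ : ℝ) ≤ 2 * (n : ℝ) * Δ / M + 1 :=
      ⟨⌈2 * (n : ℝ) * Δ / M⌉₊, Nat.le_ceil _, (Nat.ceil_lt_add_one (by positivity)).le⟩
    obtain ⟨β, hβ1, hβ2⟩ := hβ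
    obtain ⟨κ, hκ1, hκ2⟩ := hκ
    have hκ3 : (κ : ℝ) ≤ ε * n / 1000 := by
      have h1 : 2 * (n : ℝ) * Δ / M ≤ 2 * n * η := by
        rw [div_le_iff₀ hM0]
        have hη0 : 0 < η := by rw [hη]; positivity
        have e1 : (Δ : ℝ) ≤ η * M := hΔX.trans (mul_le_mul_of_nonneg_left (by linarith) hη0.le)
        calc 2 * (n : ℝ) * Δ ≤ 2 * n * (η * M) := mul_le_mul_of_nonneg_left e1 (by positivity)
          _ = _ := by ring
      have h2 : 2 * (n : ℝ) * η = τ * n / 50 := by rw [hη]; ring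
      have h3 : (1 : ℝ) ≤ (X : ℝ) ^ 3 / 10 ^ 8 := by linarith
      linarith
    refine ⟨1 / (10 * Δ), β, κ, by positivity, ?_, ?_, ?_, ?_⟩
    · have h1 : 1 / (10 * (Δ : ℝ)) * Δ = 1 / 10 := by field_simp
      rw [h1]
      have h2 := exp_sub_le (z := 1 / 10) (by norm_num) (by norm_num)
      have h3 : Real.exp (1 / 10) - 1 ≤ 1 / 9 := by linarith
      have h4 : (Real.exp (1 / 10) - 1) * ((l : ℝ) / Δ) / (M - 1) ≤ 1 / 9 * (l / Δ) / (M - 1) := by
        apply (div_le_div_iff_of_pos_right hM1).2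
        exact mul_le_mul_of_nonneg_right h3 (by positivity)
      have h5 : 2 * (M : ℝ) + 1 / 9 * (l / Δ) / (M - 1) =
          1 / (10 * Δ) * (20 * (Δ : ℝ) * M + 10 / 9 * l / (M - 1)) := by
        field_simp
        ring
      have h6 : 1 / (10 * (Δ : ℝ)) * (20 * (Δ : ℝ) * M + 10 / 9 * l / (M - 1)) ≤
          1 / (10 * Δ) * β := mul_le_mul_of_nonneg_left hβ1 (by positivity)
      linarith
    · rw [div_le_iff₀ hM0] at hκ1
      exact_mod_cast hκ1
    · have h1 : 3 * (M : ℝ) * β ≤ 60 * Δ * (M : ℝ) ^ 2 + 10 / 3 * (1 + τ / 100) * l + 3 * M := by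
        have e1 : 3 * (M : ℝ) * β ≤ 3 * M * (20 * (Δ : ℝ) * M + 10 / 9 * l / (M - 1) + 1) :=
          mul_le_mul_of_nonneg_left hβ2 (by positivity)
        have e2 : 3 * (M : ℝ) * (10 / 9 * l / (M - 1)) ≤ 10 / 3 * (1 + τ / 100) * l := by
          have : 3 * (M : ℝ) * (10 / 9 * l / (M - 1)) = 10 / 3 * l * M * (1 / (M - 1)) := by ring
          rw [this]
          calc 10 / 3 * l * M * (1 / ((M : ℝ) - 1)) ≤ 10 / 3 * l * M * ((1 + τ / 100) / M) :=
            mul_le_mul_of_nonneg_left hinv (by positivity)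
            _ = _ := by field_simp
        have e3 : 3 * (M : ℝ) * (20 * (Δ : ℝ) * M + 10 / 9 * l / (M - 1) + 1) =
            60 * Δ * (M : ℝ) ^ 2 + 3 * M * (10 / 9 * l / (M - 1)) + 3 * M := by ring
        rw [e3] at e1
        linarith
      have h2 : (Δ : ℝ) * (M : ℝ) ^ 2 ≤ (X : ℝ) ^ 3 := by
        have e1 : (Δ : ℝ) * (M : ℝ) ^ 2 ≤ η * X * (16 * X ^ 2) :=
          mul_le_mul hΔX hMM (by positivity) (by rw [hη]; positivity)
        have e2 : η * X * (16 * (X : ℝ) ^ 2) = 16 * η * X ^ 3 := by ring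
        rw [e2] at e1
        have e3 : 16 * η ≤ 1 := by rw [hη]; linarith
        have e4 := mul_le_mul_of_nonneg_right e3 (show (0 : ℝ) ≤ X ^ 3 by positivity)
        linarith
      have h3 : (M : ℝ) ^ 2 ≤ (X : ℝ) ^ 3 := by
        have : (1 : ℝ) * M ^ 2 ≤ Δ * M ^ 2 := mul_le_mul_of_nonneg_right hΔ1 (by positivity)
        linarith
      have h4 : (M : ℝ) ≤ (X : ℝ) ^ 3 := by
        have : (4 : ℝ) * X ≤ X ^ 3 := by linarith
        linarith
      have h5 : 10 / 3 * (1 + τ / 100) * l ≤ 7 / 2 * (l : ℝ) := by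
        apply mul_le_mul_of_nonneg_right _ hl0
        linarith
      have hX3pos : (0 : ℝ) < (X : ℝ) ^ 3 := by positivity
      have h6 : 4 * (M : ℝ) ^ 2 + 3 * M * β + 4 * (3 * M ^ 3 + κ + x) < 4 * l := by
        have hlpos : (0 : ℝ) < l := by
          have : (0 : ℝ) < ε * n := by linarith
          linarith
        linarith
      exact_mod_cast h6
    · have h1 : (K : ℝ) * x' ≤ ε * n / 100 := by
        have e1 : (K : ℝ) * x' ≤ K * (τ * n) := mul_le_mul_of_nonneg_left hx2' hK0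
        have e2 : (K : ℝ) * (τ * n) = τ * K * n := by ring
        have e3 : τ * K ≤ ε / 100 := by linarith
        have e4 := mul_le_mul_of_nonneg_right e3 hn0
        linarith
      have h2 : (K : ℝ) * Δ ≤ (X : ℝ) ^ 3 := by
        have e1 : (K : ℝ) * Δ ≤ K * (η * X) := mul_le_mul_of_nonneg_left hΔX hK0
        have e2 : (K : ℝ) * (η * X) = τ * K * X / 100 := by rw [hη]; ring
        have e3 : τ * K ≤ 1 := by linarith
        have e4 := mul_le_mul_of_nonneg_right e3 hX0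
        linarith
      have h3 : 2 * (3 * (K : ℝ) * (x' + Δ)) + 2 * M' ^ 3 + 3 * M ^ 3 + κ ≤ l := by
        have e1 : 2 * (3 * (K : ℝ) * (x' + Δ)) = 6 * (K * x') + 6 * (K * Δ) := by ring
        rw [e1]
        linarith
      exact_mod_cast h3

end Pool.Agent.Helper83.GH
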