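import Mathlib

/-!
# The numerical conditions for one type of copies
-/

namespace Pool.Agent.Helper83.GH

/-- `M` is the modulus, `M * w` the number of rows, `x` the number of the flexible leaves; `M'`, `x'`
belong to the other type. -/
structure NumType (ε : ℝ) (K n Δ M w x M' x' : ℕ) : Prop where
  hM : M.Prime
  h2 : 2 * Δ ≤ M
  hx : (6 * x : ℝ) ≤ ε * n
  hN : ∃ lam : ℝ, 0 < lam ∧ ∀ nA : ℕ, 2 * nA ≤ n + 1 →
    Real.log (2 * M) + (Real.exp lam - 1) * ((nA : ℝ) - x) / (M - 1) < lam * w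
  hL : ∀ l : ℕ, ε * n ≤ l → ∃ (μ : ℝ) (β κ : ℕ), 0 < μ ∧
    Real.log (2 * M) + (Real.exp (μ * Δ) - 1) * ((l : ℝ) / Δ) / (M - 1) ≤ μ * β ∧
    2 * n * Δ ≤ κ * M ∧ 4 * M ^ 2 + 3 * M * β + 4 * (3 * M ^ 3 + κ + x) < 4 * l ∧
    2 * (3 * K * (x' + Δ)) + 2 * M' ^ 3 + 3 * M ^ 3 + κ ≤ l

end Pool.Agent.Helper83.GH
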