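import Pool.Agent.Helper83.GH.Ysel

/-!
# GHC-YS2: choice of the flexible vertices among given candidates

The same as `ysel` (see its proof), but the candidates `W` and their neighbours `nb y ∈ B` are given and there
is no tree: for `b ∈ B` let `α b` be the number of `y ∈ W` with `nb y = b`,
`cap b = min (α b) (d b / 2)`; rich `b`: `d b ≤ K * α b`; `ysel_min`.
-/

namespace Pool.Agent.Helper83.GH

open Finset

theorem ysel2 {V : Type} [Fintype V] [DecidableEq V] (B W : Finset V) (nb : V → V) (d : V → ℕ)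
    (n x K Δ : ℕ) (hd : ∀ b ∈ B, d b ≤ Δ) (hn : ∑ b ∈ B, d b = n)
    (hnb : ∀ y ∈ W, nb y ∈ B ∧ 2 ≤ d (nb y))
    (hfib : ∀ b ∈ B, (W.filter fun y => nb y = b).card ≤ d b)
    (hK : 2 * n ≤ K * W.card) (hx : 6 * x ≤ W.card) :
    ∃ Y ⊆ W, Y.card = x ∧ (∀ b ∈ B, 2 * (Y.filter fun y => nb y = b).card ≤ d b) ∧
      ∑ b ∈ Y.image nb, d b ≤ 3 * K * (x + Δ) := by
  classical
  rcases Nat.eq_zero_or_pos x with hx0 | hx0
  · subst hx0
    refine ⟨∅, empty_subset _, card_empty, ?_, ?_⟩
    · intro b _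
      simp
    · simp
  have hWpos : 0 < W.card := by omega
  have hKpos : 0 < K := by
    rcases Nat.eq_zero_or_pos K with h | h
    · exfalso
      rw [h, zero_mul] at hK
      obtain ⟨y, hy⟩ := card_pos.1 hWpos
      obtain ⟨h1, h2⟩ := hnb y hy
      have h3 : d (nb y) ≤ ∑ b ∈ B, d b := single_le_sum (fun b _ => Nat.zero_le _) h1
      omega
    · exact h
  set α : V → ℕ := fun b => (W.filter fun y => nb y = b).card with hα
  set cap : V → ℕ := fun b => min (α b) (d b / 2) with hcapdef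
  have hsumα : ∑ b ∈ B, α b = W.card := by
    rw [hα]
    exact (card_eq_sum_card_fiberwise (f := nb) (s := W) (t := B) (fun y hy => (hnb y hy).1)).symm
  have hcap3 : ∀ b ∈ B, α b ≤ 3 * cap b := by
    intro b hb
    rcases Nat.eq_zero_or_pos (α b) with h0 | h0
    · omega
    · have h0' := h0
      rw [hα] at h0'
      obtain ⟨y, hy⟩ := card_pos.1 h0'
      rw [mem_filter] at hy
      have h2 : 2 ≤ d b := by
        have := (hnb y hy.1).2
        rwa [hy.2] at this
      have h3 : α b ≤ d b := hfib b hb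
      have h4 : cap b = min (α b) (d b / 2) := rfl
      rw [h4]
      omega
  set R : Finset V := B.filter fun b => d b ≤ K * α b with hR
  have hpoor : K * ∑ b ∈ B.filter (fun b => ¬ d b ≤ K * α b), α b ≤ n := by
    rw [mul_sum, ← hn]
    calc ∑ b ∈ B.filter (fun b => ¬ d b ≤ K * α b), K * α b
        ≤ ∑ b ∈ B.filter (fun b => ¬ d b ≤ K * α b), d b := by
          apply sum_le_sum
          intro b hb
          rw [mem_filter] at hb
          omega
      _ ≤ ∑ b ∈ B, d b := sum_le_sum_of_subset (filter_subset _ _)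
  have hsplit := sum_filter_add_sum_filter_not B (fun b => d b ≤ K * α b) α
  rw [hsumα] at hsplit
  have hrich : W.card ≤ 2 * ∑ b ∈ R, α b := by
    have h1 : K * (2 * ∑ b ∈ B.filter (fun b => ¬ d b ≤ K * α b), α b) ≤ K * W.card := by
      calc K * (2 * ∑ b ∈ B.filter (fun b => ¬ d b ≤ K * α b), α b)
          = 2 * (K * ∑ b ∈ B.filter (fun b => ¬ d b ≤ K * α b), α b) := by ring
        _ ≤ 2 * n := by omega
        _ ≤ K * W.card := hK
    have h2 := Nat.le_of_mul_le_mul_left h1 hKpos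
    have h3 : ∑ b ∈ R, α b + ∑ b ∈ B.filter (fun b => ¬ d b ≤ K * α b), α b = W.card := hsplit
    omega
  have hcapsum : x ≤ ∑ b ∈ R, cap b := by
    have h1 : ∑ b ∈ R, α b ≤ 3 * ∑ b ∈ R, cap b := by
      rw [mul_sum]
      exact sum_le_sum fun b hb => hcap3 b (mem_filter.1 hb).1
    omega
  have hcapΔ : ∀ b ∈ R, cap b ≤ Δ := by
    intro b hb
    have h1 := hd b (mem_filter.1 hb).1
    have h4 : cap b = min (α b) (d b / 2) := rfl
    omega
  obtain ⟨Q, hQR, hQ1, hQ2⟩ := ysel_min R cap x Δ hcapΔ hcapsum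
  have hC : ∀ b, ∃ C ⊆ W.filter (fun y => nb y = b), C.card = cap b := by
    intro b
    apply exists_subset_card_eq
    exact min_le_left _ _
  choose C hC1 hC2 using hC
  have hcardU : (Q.biUnion C).card = ∑ b ∈ Q, cap b := by
    rw [card_biUnion]
    · exact sum_congr rfl fun b _ => hC2 b
    · intro b _ b' _ hbb'
      change Disjoint (C b) (C b')
      rw [disjoint_left]
      intro y hy hy'
      have h1 := (mem_filter.1 (hC1 b hy)).2
      have h2 := (mem_filter.1 (hC1 b' hy')).2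
      exact hbb' (h1.symm.trans h2)
  obtain ⟨Y, hYU, hYc⟩ := exists_subset_card_eq (s := Q.biUnion C) (n := x) (by omega)
  have hYmem : ∀ y ∈ Y, y ∈ W ∧ nb y ∈ Q ∧ y ∈ C (nb y) := by
    intro y hy
    obtain ⟨b, hb, hyb⟩ := mem_biUnion.1 (hYU hy)
    have h1 := mem_filter.1 (hC1 b hyb)
    refine ⟨h1.1, ?_, ?_⟩
    · rw [h1.2]
      exact hb
    · rw [h1.2]
      exact hyb
  refine ⟨Y, fun y hy => (hYmem y hy).1, hYc, ?_, ?_⟩
  · intro b _
    have h1 : Y.filter (fun y => nb y = b) ⊆ C b := by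
      intro y hy
      rw [mem_filter] at hy
      obtain ⟨_, _, a3⟩ := hYmem y hy.1
      rw [hy.2] at a3
      exact a3
    have h2 := card_le_card h1
    rw [hC2 b] at h2
    have h4 : cap b = min (α b) (d b / 2) := rfl
    omega
  · calc ∑ b ∈ Y.image nb, d b
        ≤ ∑ b ∈ Q, d b := by
          apply sum_le_sum_of_subset
          intro b hb
          obtain ⟨y, hy, rfl⟩ := mem_image.1 hb
          exact (hYmem y hy).2.1
      _ ≤ ∑ b ∈ Q, K * α b := sum_le_sum fun b hb => (mem_filter.1 (hQR hb)).2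
      _ ≤ ∑ b ∈ Q, K * (3 * cap b) := sum_le_sum fun b hb =>
          Nat.mul_le_mul_left K (hcap3 b (mem_filter.1 (hQR hb)).1)
      _ = 3 * K * ∑ b ∈ Q, cap b := by
          rw [mul_sum]
          exact sum_congr rfl fun b _ => by ring
      _ ≤ 3 * K * (x + Δ) := Nat.mul_le_mul_left _ hQ2

end Pool.Agent.Helper83.GH
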