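import Pool.Agent.Helper83.GH.ExistsK
import Pool.Agent.Helper83.GH.Ysel2
import Pool.Agent.Helper83.GH.TreeRem
import Pool.Agent.Helper83.GH.LeafCount
import Pool.Agent.Helper83.GH.NumDef2

/-!
# One type of copies, flexible vertices of degree 2
-/

namespace Pool.Agent.Helper83.GH

open Finset

/-- The vertices of degree 2 outside `B` with a leaf neighbour. -/
structure IsW {V : Type} [Fintype V] (T : SimpleGraph V) [DecidableRel T.Adj] (B W : Finset V)
    (nb l nl : V → V) : Prop where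
  hA : ∀ a ∈ W, a ∉ B
  hd : ∀ a ∈ W, T.degree a = 2
  hl : ∀ a ∈ W, T.Adj a (l a)
  hl1 : ∀ a ∈ W, T.degree (l a) = 1
  hnb : ∀ a ∈ W, T.Adj a (nb a)
  hnb2 : ∀ a ∈ W, 2 ≤ T.degree (nb a)
  hall : ∀ a ∈ W, ∀ v, T.Adj a v → v = nb a ∨ v = l a
  hnl : ∀ a ∈ W, nl (l a) = a

lemma rem_degree_B {V : Type} [Fintype V] [DecidableEq V] (T : SimpleGraph V) [DecidableRel T.Adj]
    (B : Finset V) (hB : ∀ u w, T.Adj u w → (u ∈ B ↔ w ∉ B)) (R : Finset V) (hR : ∀ u ∈ R, u ∈ B)
    (v : {v : V // v ∉ R}) (hv : v.1 ∈ B) : (rem T R).degree v = T.degree v.1 := by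
  have h := rem_degree T R v
  have h0 : (R.filter fun u => T.Adj v.1 u) = ∅ := by
    rw [filter_eq_empty_iff]
    intro u hu hvu
    exact ((hB _ _ hvu).1 hv) (hR u hu)
  rw [h0, card_empty, add_zero] at h
  exact h

lemma type_exists2 (V : Type) [Fintype V] [DecidableEq V] (T : SimpleGraph V) [DecidableRel T.Adj]
    (hT : T.IsTree) (n : ℕ) (hn : Fintype.card V = n + 1) (hn10 : 10 ≤ n) (B : Finset V)
    (hB : ∀ u w, T.Adj u w → (u ∈ B ↔ w ∉ B)) (ε θ : ℝ) (hε : ε ≤ 1)
    (K Δ M w x M' x' z : ℕ) (hp : NumType2 ε θ K n Δ M w x M' x')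
    (hA : (2 * (n + 1 - B.card : ℕ) : ℝ) ≤ n + 1 + θ * n)
    (hΔ : 1 ≤ Δ) (hdeg : ∀ b ∈ B, T.degree b ≤ Δ) (W : Finset V) (nb l nl : V → V)
    (hW : IsW T B W nb l nl) (hWc : 2 * ε * n ≤ W.card) (hK : 2 * n ≤ K * W.card)
    (hxz : x ≤ z) (hz : (12 * z : ℝ) ≤ ε * n) :
    ∃ (R P : Finset V) (Y : Finset {v : V // v ∉ R}) (L κ G Gx : ℕ) (F : {v : V // v ∉ R} → ZMod M)
      (g : {v : V // v ∉ R} → ℕ) (o : {v : V // v ∉ R} → ZMod M) (U : Finset {v : V // v ∉ R}),
      R.card = z ∧ P ⊆ R ∧ P.card = x ∧ (x = z → P = R) ∧ Y.card = x ∧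
      (∀ u ∈ R, u ∈ B ∧ T.degree u = 1 ∧ T.Adj u (nl u)) ∧
      (∀ u ∈ R, ∀ u' ∈ R, nl u = nl u' → u = u') ∧
      (∀ y, y ∈ Y ↔ ∃ u ∈ P, nl u = y.1) ∧
      IsK (rem T R) (B.subtype fun v => v ∉ R) Y M G Gx F g o U ∧
      (∀ ρ, (univ.filter fun a : {v : V // v ∉ R} =>
        a ∉ B.subtype (fun v => v ∉ R) ∧ a ∉ Y ∧ F a = ρ).card < w) ∧
      Gx * M ≤ 2 * (3 * K * (x + Δ)) + 2 * M ^ 3 ∧ L ≤ U.card + 3 * M ^ 3 + κ + x ∧
      2 * (3 * K * (x' + Δ)) + 2 * M' ^ 3 + 3 * M ^ 3 + κ ≤ L := by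
  have : Fact M.Prime := ⟨hp.hM⟩
  have hlB : ∀ a ∈ W, l a ∈ B := by
    intro a ha
    by_contra h
    exact hW.hA a ha ((hB _ _ (hW.hl a ha)).2 h)
  have hnbB : ∀ a ∈ W, nb a ∈ B := by
    intro a ha
    by_contra h
    exact hW.hA a ha ((hB _ _ (hW.hnb a ha)).2 h)
  have hε0 : 0 ≤ ε * n := le_trans (by positivity) hz
  have h6x : 6 * x ≤ W.card := by
    have h1 : (6 * x : ℝ) ≤ W.card := by
      have := hp.hx
      linarith
    exact_mod_cast h1
  obtain ⟨Y₀, hY1, hY2, hY3, hY4⟩ := ysel2 B W nb (fun v => T.degree v) n x K Δ hdeg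
    (lc_sumB T hT n hn B hB) (fun y hy => ⟨hnbB y hy, hW.hnb2 y hy⟩) (by
      intro b hb
      rw [← SimpleGraph.card_neighborFinset_eq_degree]
      apply card_le_card
      intro y hy
      rw [mem_filter] at hy
      rw [SimpleGraph.mem_neighborFinset, ← hy.2]
      exact (hW.hnb y hy.1).symm) hK h6x
  -- the other removed leaves
  have hzn : 12 * z ≤ n := by
    have h1 : (12 * z : ℝ) ≤ n := by
      have : ε * n ≤ 1 * n := mul_le_mul_of_nonneg_right hε (by positivity)
      linarith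
    exact_mod_cast h1
  have hzW : 24 * z ≤ W.card := by
    have h1 : (24 * z : ℝ) ≤ W.card := by linarith
    exact_mod_cast h1
  have hYW := card_sdiff_of_subset hY1
  obtain ⟨W', hW'1, hW'2⟩ := exists_subset_card_eq (s := W \ Y₀) (n := z - x) (by omega)
  have hW'W : W' ⊆ W := hW'1.trans sdiff_subset
  have hdis : Disjoint Y₀ W' := by
    rw [disjoint_left]
    intro a ha ha'
    exact (mem_sdiff.1 (hW'1 ha')).2 ha
  set Q : Finset V := Y₀ ∪ W' with hQ
  have hQW : Q ⊆ W := union_subset hY1 hW'W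
  have hQc : Q.card = z := by
    rw [hQ, card_union_of_disjoint hdis, hY2, hW'2]
    omega
  have hlinj : Set.InjOn l W := by
    intro a ha a' ha' h
    rw [← hW.hnl a ha, ← hW.hnl a' ha', h]
  set R : Finset V := Q.image l with hR
  have hRc : R.card = z := by
    rw [hR, card_image_of_injOn (hlinj.mono (by exact_mod_cast hQW)), hQc]
  have hRmem : ∀ u, u ∈ R ↔ ∃ a ∈ Q, l a = u := by
    intro u
    rw [hR, mem_image]
  have hRB : ∀ u ∈ R, u ∈ B ∧ T.degree u = 1 := by
    intro u hu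
    obtain ⟨a, ha, rfl⟩ := (hRmem u).1 hu
    exact ⟨hlB a (hQW ha), hW.hl1 a (hQW ha)⟩
  have hlR : ∀ a ∈ W, l a ∈ R → a ∈ Q := by
    intro a ha h
    obtain ⟨a', ha', h'⟩ := (hRmem _).1 h
    rw [← hlinj (hQW ha') ha h']
    exact ha'
  set P : Finset V := Y₀.image l with hP
  have hPR : P ⊆ R := by
    rw [hP, hR]
    exact image_subset_image subset_union_left
  have hPc : P.card = x := by
    rw [hP, card_image_of_injOn (hlinj.mono (by exact_mod_cast hY1)), hY2]
  have hAR : ∀ a, a ∉ B → a ∉ R := fun a ha h => ha (hRB a h).1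
  set Y : Finset {v : V // v ∉ R} := Y₀.subtype (fun v => v ∉ R) with hY
  have hYmem : ∀ y : {v : V // v ∉ R}, y ∈ Y ↔ y.1 ∈ Y₀ := by
    intro y
    rw [hY, mem_subtype]
  have hYc : Y.card = x := by
    rw [hY, card_subtype, ← hY2]
    congr 1
    rw [filter_eq_self]
    intro a ha
    exact hAR a (hW.hA a (hY1 ha))
  have hnbR : ∀ a ∈ W, nb a ∉ R := by
    intro a ha h
    have h1 := (hRB _ h).2
    have h2 := hW.hnb2 a ha
    omega
  -- the flexible vertices are leaves
  have hYleaf : ∀ y ∈ Y, y ∉ B.subtype (fun v => v ∉ R) ∧ (rem T R).degree y = 1 := by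
    intro y hy
    have hy0 := (hYmem y).1 hy
    have hyW := hY1 hy0
    refine ⟨by rw [mem_subtype]; exact hW.hA _ hyW, ?_⟩
    have h1 := rem_degree T R y
    have h2 : (R.filter fun u => T.Adj y.1 u) = {l y.1} := by
      ext u
      rw [mem_filter, mem_singleton]
      constructor
      · rintro ⟨hu, hyu⟩
        rcases hW.hall _ hyW u hyu with rfl | rfl
        · exact (hnbR _ hyW hu).elim
        · rfl
      · rintro rfl
        exact ⟨hPR (mem_image_of_mem _ hy0), hW.hl _ hyW⟩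
    rw [h2, card_singleton, hW.hd _ hyW] at h1
    omega
  have hdegB := rem_degree_B T B hB R fun u hu => (hRB u hu).1
  have hadjY : ∀ b : {v : V // v ∉ R}, ∀ y ∈ Y, (rem T R).Adj b y → nb y.1 = b.1 := by
    intro b y hy hby
    have hyW := hY1 ((hYmem y).1 hy)
    have hby' : T.Adj y.1 b.1 := SimpleGraph.Adj.symm hby
    rcases hW.hall _ hyW b.1 hby' with h | h
    · exact h.symm
    · exact (b.2 (by rw [h]; exact hPR (mem_image_of_mem _ ((hYmem y).1 hy)))).elim
  have hY2' : ∀ b ∈ B.subtype (fun v => v ∉ R),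
      2 * (Y.filter fun y => (rem T R).Adj b y).card ≤ (rem T R).degree b := by
    intro b hb
    rw [mem_subtype] at hb
    rw [hdegB b hb]
    refine le_trans ?_ (hY3 b.1 hb)
    apply Nat.mul_le_mul_left
    apply card_le_card_of_injOn Subtype.val
    · intro y hy
      rw [mem_coe, mem_filter] at hy
      rw [mem_coe, mem_filter]
      exact ⟨(hYmem y).1 hy.1, hadjY b y hy.1 hy.2⟩
    · intro y _ y' _ h
      exact Subtype.ext h
  -- the leaves
  set Λ : Finset {v : V // v ∉ R} := (W.image l).subtype (fun v => v ∉ R) with hΛ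
  have hΛmem : ∀ u : {v : V // v ∉ R}, u ∈ Λ ↔ ∃ a ∈ W, l a = u.1 := by
    intro u
    rw [hΛ, mem_subtype, mem_image]
  have hΛc : Λ.card + z = W.card := by
    rw [hΛ, card_subtype, ← hRc, ← card_image_of_injOn hlinj]
    have h1 : (W.image l).filter (fun v => v ∉ R) = (W.image l) \ R := by
      ext v
      rw [mem_filter, mem_sdiff]
    have h2 : R ⊆ W.image l := by
      rw [hR]
      exact image_subset_image hQW
    rw [h1, card_sdiff_of_subset h2]
    have h3 := card_le_card h2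
    omega
  have hΛleaf : ∀ u ∈ Λ, u ∈ B.subtype (fun v => v ∉ R) ∧ (rem T R).degree u = 1 := by
    intro u hu
    obtain ⟨a, ha, h⟩ := (hΛmem u).1 hu
    have huB : u.1 ∈ B := by
      rw [← h]
      exact hlB a ha
    refine ⟨by rw [mem_subtype]; exact huB, ?_⟩
    rw [hdegB u huB, ← h]
    exact hW.hl1 a ha
  have hΛΔ : ∀ a, (Λ.filter fun u => (rem T R).Adj a u).card ≤ Δ := by
    intro a
    refine le_trans ?_ hΔ
    rw [card_le_one]
    have key : ∀ u ∈ Λ.filter (fun u => (rem T R).Adj a u), a.1 ∈ W ∧ l a.1 = u.1 := by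
      intro u hu
      rw [mem_filter] at hu
      obtain ⟨a', ha', h'⟩ := (hΛmem u).1 hu.1
      have h1 : T.degree u.1 = 1 := by
        rw [← h']
        exact hW.hl1 a' ha'
      rw [SimpleGraph.degree_eq_one_iff_existsUnique_adj] at h1
      have h2 : T.Adj u.1 a.1 := SimpleGraph.Adj.symm hu.2
      have h3 : T.Adj u.1 a' := by
        rw [← h']
        exact (hW.hl a' ha').symm
      have h4 := h1.unique h2 h3
      rw [h4]
      exact ⟨ha', h'⟩
    intro u hu u' hu'
    exact Subtype.ext ((key u hu).2.symm.trans (key u' hu').2)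
  -- numbers
  obtain ⟨lam, hlam, hN⟩ := hp.hN
  have hΛn : ε * n ≤ Λ.card := by
    have h1 : (Λ.card : ℝ) + z = W.card := by exact_mod_cast hΛc
    have h2 : (0 : ℝ) ≤ z := Nat.cast_nonneg z
    linarith
  obtain ⟨μ, β, κ, hμ, hL, hκ, hneed, hfit⟩ := hp.hL Λ.card hΛn
  have hcR := rem_card R
  have hcV : Fintype.card {v : V // v ∉ R} = (n - z) + 1 := by omega
  have hAc : (univ.filter fun a : {v : V // v ∉ R} =>
      a ∉ B.subtype (fun v => v ∉ R) ∧ a ∉ Y).card + x + B.card = n + 1 := by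
    have h1 : (univ.filter fun a : {v : V // v ∉ R} =>
        a ∉ B.subtype (fun v => v ∉ R) ∧ a ∉ Y).card = (univ \ (B ∪ Y₀) : Finset V).card := by
      rw [← card_image_of_injective _ Subtype.val_injective]
      congr 1
      ext a
      simp only [mem_image, mem_filter, mem_univ, true_and, mem_subtype, hYmem, mem_sdiff,
        mem_union, not_or, Subtype.exists, exists_and_right, exists_eq_right]
      constructor
      · rintro ⟨⟨_, h⟩, h'⟩
        exact ⟨h, h'⟩
      · rintro ⟨h, h'⟩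
        exact ⟨⟨hAR a h, h⟩, h'⟩
    have h2 : Disjoint B Y₀ := by
      rw [disjoint_left]
      intro a ha ha'
      exact hW.hA a (hY1 ha') ha
    rw [h1, card_sdiff_of_subset (subset_univ _), card_univ, hn, card_union_of_disjoint h2, hY2]
    have h3 := card_le_card (subset_univ (B ∪ Y₀))
    rw [card_union_of_disjoint h2, hY2, card_univ, hn] at h3
    omega
  obtain ⟨G, Gx, F, g, o, U, h1, h2, h3, h4⟩ := exists_K {v : V // v ∉ R} (rem T R)
    (rem_isTree T hT B hB R hRB) (n - z) hcV (by omega) (B.subtype fun v => v ∉ R) (by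
      intro u w h
      rw [mem_subtype, mem_subtype]
      exact hB _ _ h) M w Δ hΔ hp.h2 (by
      intro b hb
      rw [mem_subtype] at hb
      rw [hdegB b hb]
      exact hdeg _ hb) Y hYleaf hY2' Λ hΛleaf hΛΔ β κ lam μ hlam hμ (by
      have h5 := hN (n + 1 - B.card) hA
      have h6 : ((n + 1 - B.card : ℕ) : ℝ) - x = ((univ.filter fun a : {v : V // v ∉ R} =>
          a ∉ B.subtype (fun v => v ∉ R) ∧ a ∉ Y).card : ℝ) := by
        have : n + 1 - B.card = (univ.filter fun a : {v : V // v ∉ R} =>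
          a ∉ B.subtype (fun v => v ∉ R) ∧ a ∉ Y).card + x := by omega
        rw [this]
        push_cast
        ring
      rw [h6] at h5
      exact h5) hL (by
      refine le_trans ?_ hκ
      apply Nat.mul_le_mul_right
      omega) (by rw [hYc]; exact hneed) (3 * K * (x + Δ)) (by
      refine le_trans ?_ hY4
      calc _ = ∑ b ∈ (B.subtype fun v => v ∉ R).filter (fun b => ∃ y ∈ Y, (rem T R).Adj b y),
            T.degree b.1 := by
            apply sum_congr rfl
            intro b hb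
            rw [mem_filter, mem_subtype] at hb
            exact hdegB b hb.1
        _ = ∑ b ∈ ((B.subtype fun v => v ∉ R).filter
            (fun b => ∃ y ∈ Y, (rem T R).Adj b y)).image Subtype.val, T.degree b := by
            rw [sum_image]
            intro b _ b' _ h
            exact Subtype.ext h
        _ ≤ _ := by
            apply sum_le_sum_of_subset
            intro b hb
            obtain ⟨b', hb', rfl⟩ := mem_image.1 hb
            rw [mem_filter] at hb'
            obtain ⟨-, y, hy, hby⟩ := hb'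
            rw [mem_image]
            exact ⟨y.1, (hYmem y).1 hy, hadjY b' y hy hby⟩)
  refine ⟨R, P, Y, Λ.card, κ, G, Gx, F, g, o, U, hRc, hPR, hPc, ?_, hYc, ?_, ?_, ?_, h1, h2, h3, ?_,
    hfit⟩
  · intro hx
    exact eq_of_subset_of_card_le hPR (by omega)
  · intro u hu
    obtain ⟨a, ha, rfl⟩ := (hRmem u).1 hu
    refine ⟨hlB a (hQW ha), hW.hl1 a (hQW ha), ?_⟩
    rw [hW.hnl a (hQW ha)]
    exact (hW.hl a (hQW ha)).symm
  · intro u hu u' hu' h
    obtain ⟨a, ha, rfl⟩ := (hRmem u).1 hu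
    obtain ⟨a', ha', rfl⟩ := (hRmem u').1 hu'
    rw [hW.hnl a (hQW ha), hW.hnl a' (hQW ha')] at h
    rw [h]
  · intro y
    rw [hYmem]
    constructor
    · intro hy
      exact ⟨l y.1, mem_image_of_mem _ hy, hW.hnl _ (hY1 hy)⟩
    · rintro ⟨u, hu, h⟩
      obtain ⟨a, ha, rfl⟩ := mem_image.1 hu
      rw [hW.hnl a (hY1 ha)] at h
      rw [← h]
      exact ha
  · rw [← hYc]
    exact h4

end Pool.Agent.Helper83.GH
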